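import Pool.Agent.BMR.Defs

/-!
# BMR-BC (1.0h): coefficients of the long factor

`c k` = number of `(s, p, r)` in `S × prm P × Ioc a b` with `s (p-1) r = k`; all these products are in `[1, 16 Q' P b]`
(`1 ≤ s ≤ 4Q'`, `1 ≤ p - 1 < 4P`, `1 ≤ r ≤ b`). Bound: `s ∣ k` and `s` is 1 or a prime: at most `1 + Nat.log 2 k` choices (the number of
primes dividing `k` is at most `log₂ k`: their product divides `k` and is `≥ 2^ω`); `p - 1 ∣ k`: at most `d(k)` choices of `p`; then `r` is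
determined (`k = 0`: `c 0 = 0`).
-/

open Finset

namespace Pool.Agent.BMR

private theorem bc_omega {k : ℕ} (hk : k ≠ 0) : k.primeFactors.card ≤ Nat.log 2 k := by
  have h1 : 2 ^ k.primeFactors.card ≤ ∏ p ∈ k.primeFactors, p :=
    Finset.pow_card_le_prod _ _ _ fun p hp => (Nat.prime_of_mem_primeFactors hp).two_le
  have h2 : ∏ p ∈ k.primeFactors, p ≤ k :=
    Nat.le_of_dvd (Nat.pos_of_ne_zero hk) (Nat.prod_primeFactors_dvd k)
  exact Nat.le_log_of_pow_le (by norm_num) (h1.trans h2)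

theorem coef (Q' P a b : ℕ) (S : Finset ℕ) (hS : S = {1} ∨ S = prm Q') (hQ' : 1 ≤ Q') (hP : 1 ≤ P) :
    ∃ c : ℕ → ℂ, (∀ τ : ℝ, ∑ s ∈ S, ∑ p ∈ prm P, ∑ r ∈ Ioc a b, z τ ((s * (p - 1) * r : ℕ) : ℝ) =
        ∑ k ∈ Icc 1 (16 * Q' * P * b), c k * z τ k) ∧
      ∀ k, ‖c k‖ ≤ (1 + Nat.log 2 k) * k.divisors.card := by
  classical
  have hs : ∀ s ∈ S, (1 ≤ s ∧ s ≤ 4 * Q') ∧ (s = 1 ∨ s.Prime) := by
    intro s h
    rcases hS with rfl | rfl
    · rw [mem_singleton] at h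
      subst h
      exact ⟨⟨le_rfl, by omega⟩, Or.inl rfl⟩
    · rw [mem_prm] at h
      exact ⟨⟨by omega, h.1.2⟩, Or.inr h.2⟩
  have hT : ∀ x ∈ S ×ˢ prm P ×ˢ Ioc a b, (1 ≤ x.1 ∧ x.1 ≤ 4 * Q') ∧ (x.1 = 1 ∨ x.1.Prime) ∧
      (1 ≤ x.2.1 - 1 ∧ x.2.1 - 1 ≤ 4 * P) ∧ (1 ≤ x.2.2 ∧ x.2.2 ≤ b) := by
    intro x hx
    rw [mem_product, mem_product, mem_prm, mem_Ioc] at hx
    obtain ⟨h1, h2, h3⟩ := hx
    have h4 := hs _ h1
    exact ⟨h4.1, h4.2, ⟨by omega, by omega⟩, ⟨by omega, by omega⟩⟩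
  refine ⟨fun k => (((S ×ˢ prm P ×ˢ Ioc a b).filter
    (fun x => x.1 * (x.2.1 - 1) * x.2.2 = k)).card : ℂ), fun τ => ?_, fun k => ?_⟩
  · have h1 : ∑ s ∈ S, ∑ p ∈ prm P, ∑ r ∈ Ioc a b, z τ ((s * (p - 1) * r : ℕ) : ℝ) =
        ∑ x ∈ S ×ˢ prm P ×ˢ Ioc a b, z τ ((x.1 * (x.2.1 - 1) * x.2.2 : ℕ) : ℝ) := by
      rw [Finset.sum_product]
      refine Finset.sum_congr rfl fun s _ => ?_
      rw [Finset.sum_product]
    rw [h1, ← Finset.sum_fiberwise_of_maps_to
      (g := fun x : ℕ × ℕ × ℕ => x.1 * (x.2.1 - 1) * x.2.2)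
      (t := Icc 1 (16 * Q' * P * b)) (by
        intro x hx
        obtain ⟨⟨h2, h3⟩, _, ⟨h4, h5⟩, h6, h7⟩ := hT x hx
        rw [mem_Icc]
        constructor
        · exact Nat.mul_pos (Nat.mul_pos h2 h4) h6
        · calc x.1 * (x.2.1 - 1) * x.2.2 ≤ (4 * Q') * (4 * P) * b :=
                Nat.mul_le_mul (Nat.mul_le_mul h3 h5) h7
            _ = 16 * Q' * P * b := by ring)]
    refine Finset.sum_congr rfl fun k _ => ?_
    rw [← nsmul_eq_mul, ← Finset.sum_const]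
    refine Finset.sum_congr rfl fun x hx => ?_
    rw [(mem_filter.1 hx).2]
  · show ‖((((S ×ˢ prm P ×ˢ Ioc a b).filter
      (fun x => x.1 * (x.2.1 - 1) * x.2.2 = k)).card : ℕ) : ℂ)‖ ≤ _
    rw [Complex.norm_natCast]
    by_cases hk : k = 0
    · have h1 : (S ×ˢ prm P ×ˢ Ioc a b).filter (fun x => x.1 * (x.2.1 - 1) * x.2.2 = k) = ∅ := by
        rw [Finset.filter_eq_empty_iff]
        intro x hx
        obtain ⟨⟨h2, _⟩, _, ⟨h4, _⟩, h6, _⟩ := hT x hx
        rw [hk]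
        exact (Nat.mul_pos (Nat.mul_pos h2 h4) h6).ne'
      rw [h1, card_empty, Nat.cast_zero]
      positivity
    · have h1 : ((S ×ˢ prm P ×ˢ Ioc a b).filter
          (fun x => x.1 * (x.2.1 - 1) * x.2.2 = k)).card ≤
          ((insert 1 k.primeFactors) ×ˢ k.divisors).card := by
        refine Finset.card_le_card_of_injOn (fun x => (x.1, x.2.1 - 1)) ?_ ?_
        · intro x hx
          rw [Finset.mem_coe, mem_filter] at hx
          obtain ⟨hx, hxk⟩ := hx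
          obtain ⟨⟨h2, _⟩, h3, ⟨h4, _⟩, h6, _⟩ := hT x hx
          rw [Finset.mem_coe, mem_product, mem_insert, Nat.mem_divisors]
          have h7 : x.1 ∣ k := by
            rw [← hxk, mul_assoc]
            exact Dvd.intro _ rfl
          have h8 : x.2.1 - 1 ∣ k := by
            rw [← hxk]
            exact Dvd.intro_left (x.1) rfl |>.mul_right _
          refine ⟨?_, h8, hk⟩
          rcases h3 with h3 | h3
          · exact Or.inl h3
          · exact Or.inr (Nat.mem_primeFactors.2 ⟨h3, h7, hk⟩)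
        · intro x hx y hy hxy
          rw [Finset.mem_coe, mem_filter] at hx hy
          obtain ⟨hx, hxk⟩ := hx
          obtain ⟨hy, hyk⟩ := hy
          obtain ⟨⟨h2, _⟩, _, ⟨h4, _⟩, _, _⟩ := hT x hx
          obtain ⟨_, _, ⟨h4', _⟩, _, _⟩ := hT y hy
          have hxy' : (x.1, x.2.1 - 1) = (y.1, y.2.1 - 1) := hxy
          have e1 : x.1 = y.1 := (Prod.mk.inj hxy').1
          have e2 : x.2.1 - 1 = y.2.1 - 1 := (Prod.mk.inj hxy').2
          have e3 : x.2.1 = y.2.1 := by omega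
          have e4 : x.2.2 = y.2.2 := by
            have h9 : x.1 * (x.2.1 - 1) * x.2.2 = x.1 * (x.2.1 - 1) * y.2.2 := by
              rw [hxk, e1, e2, hyk]
            exact Nat.eq_of_mul_eq_mul_left (Nat.mul_pos h2 h4) h9
          exact Prod.ext e1 (Prod.ext e3 e4)
      have h2 : ((insert 1 k.primeFactors) ×ˢ k.divisors).card ≤
          (1 + Nat.log 2 k) * k.divisors.card := by
        rw [card_product]
        refine Nat.mul_le_mul_right _ ?_
        have h3 := Finset.card_insert_le 1 k.primeFactors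
        have h4 := bc_omega hk
        omega
      have h3 := h1.trans h2
      exact_mod_cast h3

end Pool.Agent.BMR
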