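import Mathlib

/-!
# BMR-BN (1.0h): choice of the exponent

Let `l` be the least natural number with `T ≤ Q^l`, `l ≥ 1` (so `Q^(l-1) ≤ T`, or `l = 1`; in both cases `Q^l ≤ Q N ≤ N^1.01`).
`(T + (4Q)^l) ≤ 2 (4Q)^l`, so the left side is at most `2 * 16^l * l! * Q^(2l - 2l(1-1/50)) = 2 * 16^l * l! * Q^(l/25)`,
`Q^(l/25) ≤ N^(1.01/25) ≤ N^0.041`. `16^l l! ≤ (16 l)^l`. `log Q ≥ (1/2) log h ≥ (A/2) log log N`, `l ≤ 2 log N/(A log log N) + 2`,
`16 l ≤ 32 log N` so `(16 l)^l ≤ exp((2 log N/(A log log N) + 2)(log log N + 4)) ≤ N^0.01` for `A = 1000`, `N` large.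
Total `≤ 2 N^0.051 ≤ N^0.06`.
-/

namespace Pool.Agent.BMR

theorem choose_l : ∃ A N₀ : ℝ, 0 < A ∧ 1 ≤ N₀ ∧ ∀ N h : ℝ, N₀ ≤ N → Real.log N ^ A ≤ h →
    h ≤ N ^ (0.01 : ℝ) → ∀ (Q : ℕ) (T : ℝ), √h ≤ Q → 4 * (Q : ℝ) ≤ h → 1 ≤ T → T ≤ N →
      ∃ l : ℕ, (T + (4 * (Q : ℝ)) ^ l) * (l.factorial * (4 * (Q : ℝ)) ^ l) *
        (Q : ℝ) ^ (-(2 * (l : ℝ) * (1 - 1 / 50))) ≤ N ^ (0.06 : ℝ) := by
  refine ⟨1000, Real.exp 1000, by norm_num, Real.one_le_exp (by norm_num), ?_⟩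
  intro N h hN hLh hhN Q T hQ1 hQ2 hT1 hTN
  have hN0 : 0 < N := lt_of_lt_of_le (Real.exp_pos _) hN
  obtain ⟨L, hL⟩ : ∃ L, L = Real.log N := ⟨_, rfl⟩
  have hNL : N = Real.exp L := by rw [hL, Real.exp_log hN0]
  have hL1 : 1000 ≤ L := by
    rw [hL, ← Real.log_exp 1000]
    exact Real.log_le_log (Real.exp_pos _) hN
  have hL0 : 0 < L := by linarith
  rw [← hL] at hLh
  obtain ⟨M, hM⟩ : ∃ M, M = Real.log L := ⟨_, rfl⟩
  have hLM : L = Real.exp M := by rw [hM, Real.exp_log hL0]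
  have hM3 : 3 ≤ M := by
    rw [hM, Real.le_log_iff_exp_le hL0]
    have h1 : Real.exp 1 < 2.7182818286 := Real.exp_one_lt_d9
    have h2 : Real.exp 3 = Real.exp 1 ^ 3 := by
      rw [← Real.exp_nat_mul]
      norm_num
    rw [h2]
    have h3 : Real.exp 1 ^ 3 ≤ 3 ^ 3 :=
      pow_le_pow_left₀ (Real.exp_pos _).le (by linarith) 3
    linarith
  have hLA : 0 < L ^ (1000 : ℝ) := Real.rpow_pos_of_pos hL0 _
  have hh0 : 0 < h := lt_of_lt_of_le hLA hLh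
  have hsq : 0 < √h := Real.sqrt_pos.2 hh0
  have hQ0 : (0 : ℝ) < Q := lt_of_lt_of_le hsq hQ1
  obtain ⟨q, hq⟩ : ∃ q, q = Real.log (Q : ℝ) := ⟨_, rfl⟩
  have hQq : (Q : ℝ) = Real.exp q := by rw [hq, Real.exp_log hQ0]
  have hq1 : 500 * M ≤ q := by
    have h1 : h ≤ (Q : ℝ) ^ 2 := by
      have h2 := pow_le_pow_left₀ hsq.le hQ1 2
      rwa [Real.sq_sqrt hh0.le] at h2
    have h2 : L ^ (1000 : ℝ) ≤ (Q : ℝ) ^ 2 := hLh.trans h1
    have h3 := Real.log_le_log hLA h2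
    rw [Real.log_rpow hL0, Real.log_pow, ← hM, ← hq] at h3
    push_cast at h3
    linarith
  have hq2 : q ≤ 0.01 * L := by
    have h1 : (Q : ℝ) ≤ N ^ (0.01 : ℝ) := by linarith
    have h2 := Real.log_le_log hQ0 h1
    rw [Real.log_rpow hN0, ← hq, ← hL] at h2
    exact h2
  have hq0 : 0 < q := by linarith
  have hT0 : 0 < T := by linarith
  have hlT : Real.log T ≤ L := by
    rw [hL]
    exact Real.log_le_log hT0 hTN
  have hlT0 : 0 ≤ Real.log T := Real.log_nonneg hT1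
  refine ⟨⌈Real.log T / q⌉₊, ?_⟩
  obtain ⟨l, hl⟩ : ∃ l, l = ⌈Real.log T / q⌉₊ := ⟨_, rfl⟩
  rw [← hl]
  have hl1 : Real.log T ≤ l * q := by
    have h1 : Real.log T / q ≤ l := by
      rw [hl]
      exact Nat.le_ceil _
    rwa [div_le_iff₀ hq0] at h1
  have hl2 : (l : ℝ) * q ≤ L + q := by
    have h1 : (l : ℝ) < Real.log T / q + 1 := by
      rw [hl]
      exact Nat.ceil_lt_add_one (by positivity)
    have h2 : (l : ℝ) * q ≤ (Real.log T / q + 1) * q :=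
      mul_le_mul_of_nonneg_right h1.le hq0.le
    rw [add_mul, div_mul_cancel₀ _ hq0.ne', one_mul] at h2
    linarith
  have hl0 : (0 : ℝ) ≤ l := Nat.cast_nonneg l
  have hlM : (l : ℝ) * (500 * M) ≤ (l : ℝ) * q := mul_le_mul_of_nonneg_left hq1 hl0
  have hl3 : 3 * (l : ℝ) ≤ l * M := by
    have := mul_le_mul_of_nonneg_left hM3 hl0
    linarith
  have hlL : (l : ℝ) ≤ L := by linarith
  obtain ⟨F, hF⟩ : ∃ F, F = Real.log 4 := ⟨_, rfl⟩
  have hF4 : (4 : ℝ) = Real.exp F := by rw [hF, Real.exp_log (by norm_num)]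
  have hF1 : F ≤ 1.5 := by
    have h1 : Real.log 4 = 2 * Real.log 2 := by
      rw [show (4 : ℝ) = 2 ^ 2 by norm_num, Real.log_pow]
      norm_num
    rw [hF, h1]
    have h2 := Real.log_two_lt_d9
    linarith
  have hlF : (l : ℝ) * F ≤ l * 1.5 := mul_le_mul_of_nonneg_left hF1 hl0
  have hP : (4 * (Q : ℝ)) ^ l = Real.exp (l * (F + q)) := by
    rw [Real.exp_nat_mul, Real.exp_add, ← hF4, ← hQq]
  have hTP : T ≤ (4 * (Q : ℝ)) ^ l := by
    rw [hP, ← Real.log_le_iff_le_exp hT0]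
    have hF0 : 0 ≤ F := by
      rw [hF]
      exact Real.log_nonneg (by norm_num)
    have := mul_nonneg hl0 hF0
    rw [mul_add]
    linarith
  have hfac : ((l.factorial : ℕ) : ℝ) ≤ Real.exp (l * M) := by
    have h1 : ((l.factorial : ℕ) : ℝ) ≤ (l : ℝ) ^ l := by
      exact_mod_cast Nat.factorial_le_pow l
    refine h1.trans ?_
    rw [Real.exp_nat_mul, ← hLM]
    exact pow_le_pow_left₀ hl0 hlL l
  have h2P : T + (4 * (Q : ℝ)) ^ l ≤ Real.exp 1 * Real.exp (l * (F + q)) := by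
    have h1 : (2 : ℝ) ≤ Real.exp 1 := by
      have := Real.exp_one_gt_d9
      linarith
    have h2 : T + (4 * (Q : ℝ)) ^ l ≤ 2 * (4 * (Q : ℝ)) ^ l := by linarith
    refine h2.trans ?_
    rw [hP]
    exact mul_le_mul_of_nonneg_right h1 (Real.exp_pos _).le
  have hQr : (Q : ℝ) ^ (-(2 * (l : ℝ) * (1 - 1 / 50))) =
      Real.exp (q * (-(2 * (l : ℝ) * (1 - 1 / 50)))) := by
    rw [Real.rpow_def_of_pos hQ0, ← hq]
  have hNr : N ^ (0.06 : ℝ) = Real.exp (L * 0.06) := by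
    rw [Real.rpow_def_of_pos hN0, ← hL]
  rw [hQr, hNr]
  have hmid : ((l.factorial : ℕ) : ℝ) * (4 * (Q : ℝ)) ^ l ≤
      Real.exp (l * M) * Real.exp (l * (F + q)) := by
    rw [hP]
    exact mul_le_mul_of_nonneg_right hfac (Real.exp_pos _).le
  have hprod : (T + (4 * (Q : ℝ)) ^ l) * (l.factorial * (4 * (Q : ℝ)) ^ l) ≤
      (Real.exp 1 * Real.exp (l * (F + q))) * (Real.exp (l * M) * Real.exp (l * (F + q))) :=
    mul_le_mul h2P hmid (by positivity) (by positivity)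
  refine (mul_le_mul_of_nonneg_right hprod (Real.exp_pos _).le).trans ?_
  rw [← Real.exp_add, ← Real.exp_add, ← Real.exp_add, ← Real.exp_add]
  apply Real.exp_le_exp.mpr
  nlinarith

end Pool.Agent.BMR
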