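import Pool.Agent.BMR.Defs

/-!
# BMR-DIV: second moment of the divisor function

The sum of `d(k)²` over `k ≤ M` counts the triples `(k, a, b)` with `a ∣ k`, `b ∣ k`; it is bounded by
the sum of `M / lcm(a,b)`, hence by `M` times the cube of the harmonic number.
-/

namespace Pool.Agent.BMR

open Finset

private theorem harm_le (M : ℕ) : ∑ k ∈ Finset.Icc 1 M, ((k : ℝ))⁻¹ ≤ 1 + Real.log M := by
  have h := harmonic_le_one_add_log M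
  rw [harmonic_eq_sum_Icc] at h
  push_cast at h
  exact h

private theorem card_mult (M l : ℕ) (_hl : 0 < l) :
    ((((Finset.Icc 1 M).filter (fun k => l ∣ k)).card : ℕ) : ℝ) ≤ M / l := by
  have h1 : (Finset.Icc 1 M).filter (fun k => l ∣ k) = (Finset.Ioc 0 M).filter (fun k => l ∣ k) := by
    congr 1
  rw [h1, Nat.Ioc_filter_dvd_card_eq_div]
  exact Nat.cast_div_le

private theorem gcd_sum (M : ℕ) :
    ∑ p ∈ Finset.Icc 1 M ×ˢ Finset.Icc 1 M, ((Nat.lcm p.1 p.2 : ℕ) : ℝ)⁻¹ ≤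
      (1 + Real.log M) ^ 3 := by
  set I := Finset.Icc 1 M with hI
  let φ : ℕ × ℕ → ℕ × ℕ × ℕ := fun p => (Nat.gcd p.1 p.2, p.1 / Nat.gcd p.1 p.2, p.2 / Nat.gcd p.1 p.2)
  let G : ℕ × ℕ × ℕ → ℝ := fun q => (q.1 : ℝ)⁻¹ * ((q.2.1 : ℝ)⁻¹ * (q.2.2 : ℝ)⁻¹)
  have hpos : ∀ p ∈ I ×ˢ I, 0 < p.1 ∧ 0 < p.2 ∧ p.1 ≤ M ∧ p.2 ≤ M := by
    intro p hp
    rw [mem_product, hI, mem_Icc, mem_Icc] at hp
    omega
  have hF : ∀ p ∈ I ×ˢ I, ((Nat.lcm p.1 p.2 : ℕ) : ℝ)⁻¹ = G (φ p) := by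
    intro p hp
    obtain ⟨h1, h2, -, -⟩ := hpos p hp
    have hg : 0 < Nat.gcd p.1 p.2 := Nat.gcd_pos_of_pos_left _ h1
    have e1 : Nat.gcd p.1 p.2 * (p.1 / Nat.gcd p.1 p.2) = p.1 := Nat.mul_div_cancel' (Nat.gcd_dvd_left _ _)
    have e2 : Nat.gcd p.1 p.2 * (p.2 / Nat.gcd p.1 p.2) = p.2 := Nat.mul_div_cancel' (Nat.gcd_dvd_right _ _)
    have e3 : Nat.lcm p.1 p.2 =
        Nat.gcd p.1 p.2 * ((p.1 / Nat.gcd p.1 p.2) * (p.2 / Nat.gcd p.1 p.2)) := by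
      have e4 := Nat.gcd_mul_lcm p.1 p.2
      apply Nat.eq_of_mul_eq_mul_left hg
      rw [e4]
      calc p.1 * p.2 = (Nat.gcd p.1 p.2 * (p.1 / Nat.gcd p.1 p.2)) *
            (Nat.gcd p.1 p.2 * (p.2 / Nat.gcd p.1 p.2)) := by rw [e1, e2]
        _ = _ := by ring
    rw [e3]
    push_cast
    rw [mul_inv, mul_inv]
  have hinj : Set.InjOn φ (I ×ˢ I : Finset (ℕ × ℕ)) := by
    intro p hp q hq h
    have h1 := (Prod.ext_iff.1 h).1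
    have h2 := (Prod.ext_iff.1 (Prod.ext_iff.1 h).2).1
    have h3 := (Prod.ext_iff.1 (Prod.ext_iff.1 h).2).2
    simp only [φ] at h1 h2 h3
    have e1 : Nat.gcd p.1 p.2 * (p.1 / Nat.gcd p.1 p.2) = p.1 := Nat.mul_div_cancel' (Nat.gcd_dvd_left _ _)
    have e2 : Nat.gcd p.1 p.2 * (p.2 / Nat.gcd p.1 p.2) = p.2 := Nat.mul_div_cancel' (Nat.gcd_dvd_right _ _)
    have e3 : Nat.gcd q.1 q.2 * (q.1 / Nat.gcd q.1 q.2) = q.1 := Nat.mul_div_cancel' (Nat.gcd_dvd_left _ _)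
    have e4 : Nat.gcd q.1 q.2 * (q.2 / Nat.gcd q.1 q.2) = q.2 := Nat.mul_div_cancel' (Nat.gcd_dvd_right _ _)
    apply Prod.ext
    · rw [← e1, ← e3, h2, h1]
    · rw [← e2, ← e4, h3, h1]
  have hsub : (I ×ˢ I).image φ ⊆ I ×ˢ (I ×ˢ I) := by
    intro q hq
    rw [mem_image] at hq
    obtain ⟨p, hp, rfl⟩ := hq
    obtain ⟨h1, h2, h3, h4⟩ := hpos p hp
    have hg : 0 < Nat.gcd p.1 p.2 := Nat.gcd_pos_of_pos_left _ h1
    have hg1 : Nat.gcd p.1 p.2 ≤ p.1 := Nat.gcd_le_left _ h1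
    have hg2 : Nat.gcd p.1 p.2 ≤ p.2 := Nat.gcd_le_right _ h2
    have a1 : 0 < p.1 / Nat.gcd p.1 p.2 := Nat.div_pos hg1 hg
    have a2 : 0 < p.2 / Nat.gcd p.1 p.2 := Nat.div_pos hg2 hg
    have a3 : p.1 / Nat.gcd p.1 p.2 ≤ p.1 := Nat.div_le_self _ _
    have a4 : p.2 / Nat.gcd p.1 p.2 ≤ p.2 := Nat.div_le_self _ _
    simp only [φ, hI, mem_product, mem_Icc]
    omega
  have hG0 : ∀ q, 0 ≤ G q := by
    intro q
    simp only [G]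
    positivity
  calc ∑ p ∈ I ×ˢ I, ((Nat.lcm p.1 p.2 : ℕ) : ℝ)⁻¹ = ∑ p ∈ I ×ˢ I, G (φ p) := sum_congr rfl hF
    _ = ∑ q ∈ (I ×ˢ I).image φ, G q := (sum_image hinj).symm
    _ ≤ ∑ q ∈ I ×ˢ (I ×ˢ I), G q :=
        sum_le_sum_of_subset_of_nonneg hsub (fun q _ _ => hG0 q)
    _ = (∑ k ∈ I, ((k : ℝ))⁻¹) ^ 3 := by
        rw [sum_product]
        simp only [G]
        simp_rw [← mul_sum]
        rw [sum_product]
        simp_rw [← mul_sum]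
        rw [← sum_mul, ← sum_mul]
        ring
    _ ≤ (1 + Real.log M) ^ 3 :=
        pow_le_pow_left₀ (sum_nonneg (fun k _ => by positivity)) (harm_le M) 3

theorem div_sq (M : ℕ) : ∑ k ∈ Finset.Icc 1 M, (k.divisors.card : ℝ) ^ 2 ≤
    M * (1 + Real.log M) ^ 3 := by
  set I := Finset.Icc 1 M with hI
  have h1 : ∀ k ∈ I, (k.divisors.card : ℝ) ^ 2 =
      ∑ p ∈ I ×ˢ I, if (p.1 ∣ k ∧ p.2 ∣ k) then (1 : ℝ) else 0 := by
    intro k hk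
    rw [hI, mem_Icc] at hk
    rw [← sum_filter, sum_const, nsmul_eq_mul, mul_one, sq, ← Nat.cast_mul, ← card_product]
    congr 2
    ext p
    rw [mem_product, mem_filter, mem_product, Nat.mem_divisors, Nat.mem_divisors, hI, mem_Icc,
      mem_Icc]
    constructor
    · rintro ⟨⟨a, b⟩, ⟨c, d⟩⟩
      have ha := Nat.le_of_dvd (by omega) a
      have hc := Nat.le_of_dvd (by omega) c
      have ha0 := Nat.pos_of_dvd_of_pos a (by omega)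
      have hc0 := Nat.pos_of_dvd_of_pos c (by omega)
      exact ⟨⟨by omega, by omega⟩, a, c⟩
    · rintro ⟨-, a, c⟩
      exact ⟨⟨a, by omega⟩, ⟨c, by omega⟩⟩
  rw [sum_congr rfl h1, sum_comm]
  have h2 : ∀ p ∈ I ×ˢ I, ∑ k ∈ I, (if (p.1 ∣ k ∧ p.2 ∣ k) then (1 : ℝ) else 0) ≤
      M * ((Nat.lcm p.1 p.2 : ℕ) : ℝ)⁻¹ := by
    intro p hp
    rw [mem_product, hI, mem_Icc, mem_Icc] at hp
    rw [← sum_filter, sum_const, nsmul_eq_mul, mul_one]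
    have h3 : I.filter (fun k => p.1 ∣ k ∧ p.2 ∣ k) = I.filter (fun k => Nat.lcm p.1 p.2 ∣ k) := by
      ext k
      rw [mem_filter, mem_filter, Nat.lcm_dvd_iff]
    rw [h3]
    exact card_mult M _ (Nat.lcm_pos (by omega) (by omega))
  refine (sum_le_sum h2).trans ?_
  rw [← mul_sum]
  exact mul_le_mul_of_nonneg_left (gcd_sum M) (Nat.cast_nonneg M)

end Pool.Agent.BMR
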