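import Pool.Agent.BMR.Defs
import Pool.Agent.Helper98.Bern.SD
import Pool.Agent.Helper98.Bern.WV

/-!
# BMR-ZS3: `∑ r^{iτ}`, third derivative test

The Weyl-van der Corput inequality for `z τ k` on `Ioc a b`, and the second derivative test for
the phases `(τ/2π) (log (k + D) - log k)`, whose second difference has order `D τ / a³`.
-/

namespace Pool.Agent.BMR

open Pool.Agent.Helper98.Bern

private lemma z_eq (τ x : ℝ) : z τ x = ee (τ / (2 * Real.pi) * Real.log x) := by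
  unfold z ee
  congr 1
  have h : (Real.pi : ℂ) ≠ 0 := by exact_mod_cast Real.pi_ne_zero
  push_cast
  field_simp

private noncomputable def gD (τ : ℝ) (D k : ℕ) : ℝ :=
  τ / (2 * Real.pi) * (Real.log ((k + D : ℕ) : ℝ) - Real.log (k : ℝ))

private lemma star_pair (τ : ℝ) (D k : ℕ) :
    star (z τ (k : ℝ) * star (z τ ((k + D : ℕ) : ℝ))) = ee (gD τ D k) := by
  rw [star_mul, star_star, z_eq, z_eq, ← ee_sub]
  congr 1
  unfold gD
  ring

private lemma log_diff {u v : ℝ} (hv : 0 < v) (huv : v ≤ u) (hu : u ≤ 1) :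
    (u - v) / 2 ≤ Real.log (1 + u) - Real.log (1 + v) ∧
      Real.log (1 + u) - Real.log (1 + v) ≤ u - v := by
  have h1 : (0 : ℝ) < 1 + u := by linarith
  have h2 : (0 : ℝ) < 1 + v := by linarith
  constructor
  · have h3 := Real.log_le_sub_one_of_pos (div_pos h2 h1)
    rw [Real.log_div h2.ne' h1.ne'] at h3
    have h4 : (1 + v) / (1 + u) - 1 = -((u - v) / (1 + u)) := by
      field_simp
      ring
    rw [h4] at h3
    have h5 : (u - v) / 2 ≤ (u - v) / (1 + u) :=
      div_le_div_of_nonneg_left (by linarith) h1 (by linarith)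
    linarith
  · have h3 := Real.log_le_sub_one_of_pos (div_pos h1 h2)
    rw [Real.log_div h1.ne' h2.ne'] at h3
    have h4 : (1 + u) / (1 + v) - 1 = (u - v) / (1 + v) := by
      field_simp
      ring
    rw [h4] at h3
    have h5 : (u - v) / (1 + v) ≤ u - v := div_le_self (by linarith) (by linarith)
    linarith

private lemma log_phi {k : ℝ} (hk : 0 < k) :
    2 * Real.log (k + 1) - Real.log k - Real.log (k + 2) = Real.log (1 + 1 / (k * (k + 2))) := by
  have h1 : 1 + 1 / (k * (k + 2)) = (k + 1) ^ 2 / (k * (k + 2)) := by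
    field_simp
    ring
  rw [h1, Real.log_div (by positivity) (by positivity), Real.log_pow,
    Real.log_mul hk.ne' (by positivity)]
  push_cast
  ring

private lemma uv_bounds {a k D : ℝ} (ha : 1 ≤ a) (hD : 1 ≤ D) (hk : a ≤ k)
    (hkD : k + D + 1 ≤ 2 * a) :
    D / (8 * a ^ 3) ≤ 1 / (k * (k + 2)) - 1 / ((k + D) * (k + D + 2)) ∧
      1 / (k * (k + 2)) - 1 / ((k + D) * (k + D + 2)) ≤ 2 * D / a ^ 3 := by
  have hk0 : 0 < k := by linarith
  have ha0 : 0 < a := by linarith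
  have hD0 : 0 < D := by linarith
  have e : 1 / (k * (k + 2)) - 1 / ((k + D) * (k + D + 2)) =
      D * (2 * k + D + 2) / (k * (k + 2) * (k + D) * (k + D + 2)) := by
    field_simp
    ring
  rw [e]
  constructor
  · have h1 : D / (8 * a ^ 3) ≤ D / (k * (k + 2) * (k + D)) := by
      apply div_le_div_of_nonneg_left hD0.le (by positivity)
      have h2 : k * (k + 2) ≤ 2 * a * (2 * a) :=
        mul_le_mul (by linarith) (by linarith) (by linarith) (by linarith)
      have h3 : k * (k + 2) * (k + D) ≤ 2 * a * (2 * a) * (2 * a) :=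
        mul_le_mul h2 (by linarith) (by linarith) (by positivity)
      calc k * (k + 2) * (k + D) ≤ 2 * a * (2 * a) * (2 * a) := h3
        _ = 8 * a ^ 3 := by ring
    refine h1.trans ?_
    rw [div_le_div_iff₀ (by positivity) (by positivity)]
    have h4 : k * (k + 2) * (k + D) * (k + D + 2) ≤
        (2 * k + D + 2) * (k * (k + 2) * (k + D)) := by
      have h5 : 0 ≤ k * (k + 2) * (k + D) := by positivity
      nlinarith [mul_nonneg h5 hk0.le]
    nlinarith [mul_le_mul_of_nonneg_left h4 hD0.le]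
  · have h1 : D * (2 * k + D + 2) / (k * (k + 2) * (k + D) * (k + D + 2)) ≤
        2 * D / (k * (k + 2) * (k + D)) := by
      rw [div_le_div_iff₀ (by positivity) (by positivity)]
      have h4 : (2 * k + D + 2) * (k * (k + 2) * (k + D)) ≤
          2 * (k * (k + 2) * (k + D) * (k + D + 2)) := by
        have h5 : 0 ≤ k * (k + 2) * (k + D) := by positivity
        nlinarith [mul_nonneg h5 hD0.le]
      nlinarith [mul_le_mul_of_nonneg_left h4 hD0.le]
    refine h1.trans ?_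
    apply div_le_div_of_nonneg_left (by positivity) (by positivity)
    have h2 : a * a ≤ k * (k + 2) := mul_le_mul hk (by linarith) ha0.le hk0.le
    have h3 : a * a * a ≤ k * (k + 2) * (k + D) :=
      mul_le_mul h2 (by linarith) ha0.le (by positivity)
    calc a ^ 3 = a * a * a := by ring
      _ ≤ _ := h3

private lemma sd_g {τ : ℝ} (hτ : 1 ≤ τ) {a D k : ℕ} (ha : 1 ≤ a) (hD : 1 ≤ D) (hk : a ≤ k)
    (hkD : k + D + 1 ≤ 2 * a) :
    τ * D / (32 * Real.pi * (a : ℝ) ^ 3) ≤ gD τ D (k + 2) - 2 * gD τ D (k + 1) + gD τ D k ∧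
      gD τ D (k + 2) - 2 * gD τ D (k + 1) + gD τ D k ≤
        32 * (τ * D / (32 * Real.pi * (a : ℝ) ^ 3)) := by
  have ha' : (1 : ℝ) ≤ a := by exact_mod_cast ha
  have hD' : (1 : ℝ) ≤ D := by exact_mod_cast hD
  have hk' : (a : ℝ) ≤ k := by exact_mod_cast hk
  have hkD' : (k : ℝ) + D + 1 ≤ 2 * a := by exact_mod_cast hkD
  have hk0 : (0 : ℝ) < k := by linarith
  have hkD0 : (0 : ℝ) < (k : ℝ) + D := by linarith
  have hpi := Real.pi_pos
  obtain ⟨h1, h2⟩ := uv_bounds ha' hD' hk' hkD'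
  have e1 := log_phi hk0
  have e2 := log_phi hkD0
  set u : ℝ := 1 / ((k : ℝ) * (k + 2)) with hu
  set v : ℝ := 1 / (((k : ℝ) + D) * (k + D + 2)) with hv
  have hv0 : 0 < v := by rw [hv]; positivity
  have hD8 : (0 : ℝ) ≤ (D : ℝ) / (8 * (a : ℝ) ^ 3) := by positivity
  have hu1 : u ≤ 1 := by
    rw [hu, div_le_one (by positivity)]
    nlinarith
  obtain ⟨h3, h4⟩ := log_diff hv0 (by linarith) hu1
  have hG : gD τ D (k + 2) - 2 * gD τ D (k + 1) + gD τ D k =
      τ / (2 * Real.pi) * (Real.log (1 + u) - Real.log (1 + v)) := by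
    unfold gD
    rw [← e1, ← e2]
    have c1 : ((k + 2 + D : ℕ) : ℝ) = (k : ℝ) + D + 2 := by push_cast; ring
    have c2 : ((k + 1 + D : ℕ) : ℝ) = (k : ℝ) + D + 1 := by push_cast; ring
    have c3 : ((k + D : ℕ) : ℝ) = (k : ℝ) + D := by push_cast; ring
    have c4 : ((k + 2 : ℕ) : ℝ) = (k : ℝ) + 2 := by push_cast; ring
    have c5 : ((k + 1 : ℕ) : ℝ) = (k : ℝ) + 1 := by push_cast; ring
    rw [c1, c2, c3, c4, c5]
    ring
  have hc : 0 < τ / (2 * Real.pi) := by positivity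
  rw [hG]
  constructor
  · calc τ * D / (32 * Real.pi * (a : ℝ) ^ 3) =
        τ / (2 * Real.pi) * ((D : ℝ) / (8 * (a : ℝ) ^ 3) / 2) := by
          field_simp
          ring
      _ ≤ τ / (2 * Real.pi) * (Real.log (1 + u) - Real.log (1 + v)) :=
          mul_le_mul_of_nonneg_left (by linarith) hc.le
  · calc τ / (2 * Real.pi) * (Real.log (1 + u) - Real.log (1 + v)) ≤
        τ / (2 * Real.pi) * (2 * D / (a : ℝ) ^ 3) :=
          mul_le_mul_of_nonneg_left (by linarith) hc.le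
      _ = 32 * (τ * D / (32 * Real.pi * (a : ℝ) ^ 3)) := by
          field_simp

/-- the correlation sums -/
private lemma corr {τ : ℝ} (hτ : 1 ≤ τ) {a b D : ℕ} (ha : 1 ≤ a) (hb : b ≤ 2 * a)
    (hD : 1 ≤ D) :
    ‖∑ k ∈ Finset.Ico (a + 1) (b - D + 1), ee (gD τ D k)‖ ≤
      16 * √(D * τ / a) + 101 * √((a : ℝ) ^ 3 / (D * τ)) := by
  have ha' : (1 : ℝ) ≤ a := by exact_mod_cast ha
  have ha0 : (0 : ℝ) < a := by linarith
  have hD' : (1 : ℝ) ≤ D := by exact_mod_cast hD
  have hD0 : (0 : ℝ) < D := by linarith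
  have hτ0 : (0 : ℝ) < τ := by linarith
  have hpi := Real.pi_pos
  rcases lt_or_ge (b - D) a with hlt | hge
  · rw [Finset.Ico_eq_empty (by omega), Finset.sum_empty, norm_zero]
    positivity
  · set lam : ℝ := τ * D / (32 * Real.pi * (a : ℝ) ^ 3) with hlam
    have hlam0 : 0 < lam := by rw [hlam]; positivity
    have h1 := second_diff (gD τ D) (a + 1) (b - D + 1) (by omega) lam 32 hlam0 (by norm_num)
      (fun k hk1 hk2 => sd_g hτ ha hD (by omega) (by omega))
    have hsq : 0 < √lam := Real.sqrt_pos.mpr hlam0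
    have h2 : (((b - D + 1 : ℕ) : ℝ) - ((a + 1 : ℕ) : ℝ)) ≤ a := by
      have h3 : b - D + 1 ≤ a + (a + 1) := by omega
      have h4 : ((b - D + 1 : ℕ) : ℝ) ≤ ((a + (a + 1) : ℕ) : ℝ) := by exact_mod_cast h3
      push_cast at h4 ⊢
      linarith
    have hss : √lam * √lam = lam := Real.mul_self_sqrt hlam0.le
    have h3 : 5 * (32 * lam * (((b - D + 1 : ℕ) : ℝ) - ((a + 1 : ℕ) : ℝ)) + 2) / √lam ≤
        160 * (a * √lam) + 10 * (1 / √lam) := by
      have h4 : 32 * lam * (((b - D + 1 : ℕ) : ℝ) - ((a + 1 : ℕ) : ℝ)) ≤ 32 * lam * a :=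
        mul_le_mul_of_nonneg_left h2 (by positivity)
      rw [div_le_iff₀ hsq]
      have h5 : (160 * (a * √lam) + 10 * (1 / √lam)) * √lam = 160 * a * lam + 10 := by
        have h6 : 1 / √lam * √lam = 1 := by field_simp
        calc (160 * (a * √lam) + 10 * (1 / √lam)) * √lam =
            160 * a * (√lam * √lam) + 10 * (1 / √lam * √lam) := by ring
          _ = 160 * a * lam + 10 := by rw [hss, h6, mul_one]
      rw [h5]
      linarith
    -- first term
    have hpi1 : (100 : ℝ) ≤ 32 * Real.pi := by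
      have := Real.pi_gt_d2
      linarith
    have hpi2 : 32 * Real.pi ≤ (101 / 10) ^ 2 := by
      have := Real.pi_lt_d2
      linarith
    have h7 : a * √lam ≤ 1 / 10 * √(D * τ / a) := by
      have h8 : a * √lam = √((a : ℝ) ^ 2 * lam) := by
        rw [Real.sqrt_mul (by positivity), Real.sqrt_sq ha0.le]
      have h9 : (1 / 10 : ℝ) * √(D * τ / a) = √((1 / 10) ^ 2 * (D * τ / a)) := by
        rw [Real.sqrt_mul (by positivity), Real.sqrt_sq (by norm_num)]
      rw [h8, h9]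
      apply Real.sqrt_le_sqrt
      have h10 : (a : ℝ) ^ 2 * lam = D * τ / a / (32 * Real.pi) := by
        rw [hlam]
        field_simp
      rw [h10, div_le_iff₀ (by positivity)]
      have h11 : 0 ≤ D * τ / (a : ℝ) := by positivity
      nlinarith
    have h12 : 1 / √lam ≤ 101 / 10 * √((a : ℝ) ^ 3 / (D * τ)) := by
      have h8 : 1 / √lam = √(1 / lam) := by
        rw [Real.sqrt_div zero_le_one, Real.sqrt_one]
      have h9 : (101 / 10 : ℝ) * √((a : ℝ) ^ 3 / (D * τ)) =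
          √((101 / 10) ^ 2 * ((a : ℝ) ^ 3 / (D * τ))) := by
        rw [Real.sqrt_mul (by positivity), Real.sqrt_sq (by norm_num)]
      rw [h8, h9]
      apply Real.sqrt_le_sqrt
      have h10 : 1 / lam = 32 * Real.pi * ((a : ℝ) ^ 3 / (D * τ)) := by
        rw [hlam]
        field_simp
      rw [h10]
      exact mul_le_mul_of_nonneg_right hpi2 (by positivity)
    calc _ ≤ _ := h1
      _ ≤ _ := h3
      _ ≤ _ := by linarith

private lemma sum_sqrt (H : ℕ) : ∑ D ∈ Finset.Ico 1 H, √(D : ℝ) ≤ H * √(H : ℝ) := by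
  calc ∑ D ∈ Finset.Ico 1 H, √(D : ℝ) ≤ ∑ D ∈ Finset.Ico 1 H, √(H : ℝ) := by
        apply Finset.sum_le_sum
        intro D hD
        rw [Finset.mem_Ico] at hD
        exact Real.sqrt_le_sqrt (by exact_mod_cast hD.2.le)
    _ = ((H - 1 : ℕ) : ℝ) * √(H : ℝ) := by rw [Finset.sum_const, Nat.card_Ico, nsmul_eq_mul]
    _ ≤ H * √(H : ℝ) := by
        apply mul_le_mul_of_nonneg_right _ (Real.sqrt_nonneg _)
        exact_mod_cast Nat.sub_le H 1

private lemma sum_inv_sqrt_aux (H : ℕ) :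
    ∑ D ∈ Finset.Ico 1 (H + 1), 1 / √(D : ℝ) ≤ 2 * √(H : ℝ) := by
  induction H with
  | zero => simp
  | succ H ih =>
    rw [Finset.sum_Ico_succ_top (by omega)]
    have h1 : 0 < √((H + 1 : ℕ) : ℝ) := Real.sqrt_pos.mpr (by positivity)
    have h0 : 0 ≤ √(H : ℝ) := Real.sqrt_nonneg _
    have h2 : √(H : ℝ) * √(H : ℝ) = H := Real.mul_self_sqrt (Nat.cast_nonneg H)
    have h3 : √((H + 1 : ℕ) : ℝ) * √((H + 1 : ℕ) : ℝ) = H + 1 := by
      rw [Real.mul_self_sqrt (by positivity)]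
      push_cast
      ring
    have h4 : 1 / √((H + 1 : ℕ) : ℝ) ≤ 2 * √((H + 1 : ℕ) : ℝ) - 2 * √(H : ℝ) := by
      rw [div_le_iff₀ h1]
      nlinarith [sq_nonneg (√((H + 1 : ℕ) : ℝ) - √(H : ℝ))]
    linarith

private lemma sum_inv_sqrt (H : ℕ) (hH : 1 ≤ H) :
    ∑ D ∈ Finset.Ico 1 H, 1 / √(D : ℝ) ≤ 2 * √(H : ℝ) := by
  obtain ⟨n, rfl⟩ : ∃ n, H = n + 1 := ⟨H - 1, by omega⟩
  refine (sum_inv_sqrt_aux n).trans ?_
  apply mul_le_mul_of_nonneg_left _ (by norm_num)
  exact Real.sqrt_le_sqrt (by push_cast; linarith)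

theorem zs3 : ∃ C : ℝ, 0 < C ∧ ∀ (a b H : ℕ) (τ : ℝ), 1 ≤ a → a ≤ b → b ≤ 2 * a → 1 ≤ H → H ≤ a →
    1 ≤ τ → ‖∑ r ∈ Finset.Ioc a b, z τ r‖ ^ 2 ≤
      C * ((a : ℝ) ^ 2 / H + a * √(H * τ / a) + a * √((a : ℝ) ^ 3 / (H * τ))) := by
  refine ⟨1000, by norm_num, fun a b H τ ha hab hb hH hHa hτ => ?_⟩
  have ha' : (1 : ℝ) ≤ a := by exact_mod_cast ha
  have ha0 : (0 : ℝ) < a := by linarith
  have hH' : (1 : ℝ) ≤ H := by exact_mod_cast hH
  have hH0 : (0 : ℝ) < H := by linarith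
  have hτ0 : (0 : ℝ) < τ := by linarith
  set f : ℕ → ℂ := fun k => if k ∈ Finset.Ioc a b then z τ (k : ℝ) else 0 with hf
  have hsub : Finset.Ioc a b ⊆ Finset.Ioc a (2 * a) := Finset.Ioc_subset_Ioc_right hb
  have hW := weyl_vdc (Finset.univ : Finset Unit) (fun _ => f) a H hH hHa (by
    intro _ _ k hk
    simp only [hf]
    rw [if_neg fun h => hk (hsub h)])
  simp only [Finset.univ_unique, Finset.sum_singleton] at hW
  have e1 : ∑ k ∈ Finset.Ioc a (2 * a), f k = ∑ r ∈ Finset.Ioc a b, z τ r := by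
    rw [← Finset.sum_subset hsub (f := f)]
    · refine Finset.sum_congr rfl fun k hk => ?_
      simp only [hf]
      rw [if_pos hk]
    · intro k _ hk
      simp only [hf]
      rw [if_neg hk]
  have e2 : ∑ k ∈ Finset.Ioc a (2 * a), ‖f k‖ ^ 2 ≤ a := by
    calc ∑ k ∈ Finset.Ioc a (2 * a), ‖f k‖ ^ 2 ≤ ∑ k ∈ Finset.Ioc a (2 * a), (1 : ℝ) := by
          apply Finset.sum_le_sum
          intro k _
          simp only [hf]
          split_ifs
          · rw [norm_z, one_pow]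
          · simp
      _ = a := by
          rw [Finset.sum_const, Nat.card_Ioc, nsmul_eq_mul, mul_one]
          have : 2 * a - a = a := by omega
          rw [this]
  have e3 : ∀ D ∈ Finset.Ico 1 H, ‖∑ k ∈ Finset.Ioc a (2 * a), f k * star (f (k + D))‖ ≤
      16 * √(D * τ / a) + 101 * √((a : ℝ) ^ 3 / (D * τ)) := by
    intro D hD
    rw [Finset.mem_Ico] at hD
    have h1 : star (∑ k ∈ Finset.Ioc a (2 * a), f k * star (f (k + D))) =
        ∑ k ∈ Finset.Ico (a + 1) (b - D + 1), ee (gD τ D k) := by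
      rw [star_sum]
      have hsub2 : Finset.Ico (a + 1) (b - D + 1) ⊆ Finset.Ioc a (2 * a) := by
        intro k hk
        rw [Finset.mem_Ico] at hk
        rw [Finset.mem_Ioc]
        omega
      rw [← Finset.sum_subset hsub2]
      · refine Finset.sum_congr rfl fun k hk => ?_
        rw [Finset.mem_Ico] at hk
        simp only [hf]
        rw [if_pos (by rw [Finset.mem_Ioc]; omega), if_pos (by rw [Finset.mem_Ioc]; omega)]
        exact star_pair τ D k
      · intro k hk hk2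
        rw [Finset.mem_Ico] at hk2
        rw [Finset.mem_Ioc] at hk
        simp only [hf]
        by_cases h2 : k + D ∈ Finset.Ioc a b
        · rw [Finset.mem_Ioc] at h2
          exact absurd ⟨by omega, by omega⟩ hk2
        · rw [if_neg h2, star_zero, mul_zero, star_zero]
    rw [← norm_star, h1]
    exact corr hτ ha hb hD.1
  rw [e1] at hW
  refine hW.trans ?_
  have e4 : ∑ D ∈ Finset.Ico 1 H, ‖∑ k ∈ Finset.Ioc a (2 * a), f k * star (f (k + D))‖ ≤
      16 * (H * √(H * τ / a)) + 202 * (H * √((a : ℝ) ^ 3 / (H * τ))) := by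
    refine (Finset.sum_le_sum e3).trans ?_
    rw [Finset.sum_add_distrib, ← Finset.mul_sum, ← Finset.mul_sum]
    have h1 : ∑ D ∈ Finset.Ico 1 H, √((D : ℝ) * τ / a) ≤ H * √(H * τ / a) := by
      have h2 : ∀ D ∈ Finset.Ico 1 H, √((D : ℝ) * τ / a) = √(D : ℝ) * √(τ / a) := by
        intro D _
        rw [mul_div_assoc, Real.sqrt_mul (Nat.cast_nonneg D)]
      rw [Finset.sum_congr rfl h2, ← Finset.sum_mul, mul_div_assoc,
        Real.sqrt_mul (Nat.cast_nonneg H), ← mul_assoc]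
      exact mul_le_mul_of_nonneg_right (sum_sqrt H) (Real.sqrt_nonneg _)
    have h3 : ∑ D ∈ Finset.Ico 1 H, √((a : ℝ) ^ 3 / (D * τ)) ≤
        2 * (H * √((a : ℝ) ^ 3 / (H * τ))) := by
      have h4 : ∀ D ∈ Finset.Ico 1 H, √((a : ℝ) ^ 3 / (D * τ)) =
          1 / √(D : ℝ) * √((a : ℝ) ^ 3 / τ) := by
        intro D hD
        rw [Finset.mem_Ico] at hD
        have hD0 : (0 : ℝ) < D := by exact_mod_cast hD.1
        have h5 : (a : ℝ) ^ 3 / (D * τ) = 1 / D * ((a : ℝ) ^ 3 / τ) := by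
          field_simp
        rw [h5, Real.sqrt_mul (by positivity), Real.sqrt_div zero_le_one, Real.sqrt_one]
      have h6 : (H : ℝ) * √((a : ℝ) ^ 3 / (H * τ)) = √(H : ℝ) * √((a : ℝ) ^ 3 / τ) := by
        have h7 : (a : ℝ) ^ 3 / (H * τ) = 1 / H * ((a : ℝ) ^ 3 / τ) := by
          field_simp
        have h8 : 0 < √(H : ℝ) := Real.sqrt_pos.mpr hH0
        have h9 : (H : ℝ) * (1 / √(H : ℝ)) = √(H : ℝ) := by
          rw [mul_one_div, div_eq_iff h8.ne']
          exact (Real.mul_self_sqrt hH0.le).symm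
        rw [h7, Real.sqrt_mul (by positivity), Real.sqrt_div zero_le_one, Real.sqrt_one,
          ← mul_assoc, h9]
      rw [Finset.sum_congr rfl h4, ← Finset.sum_mul, h6, ← mul_assoc]
      exact mul_le_mul_of_nonneg_right (sum_inv_sqrt H hH) (Real.sqrt_nonneg _)
    linarith
  have hs1 : 0 ≤ √(H * τ / a) := Real.sqrt_nonneg _
  have hs2 : 0 ≤ √((a : ℝ) ^ 3 / (H * τ)) := Real.sqrt_nonneg _
  calc 2 * (a : ℝ) / H * (∑ k ∈ Finset.Ioc a (2 * a), ‖f k‖ ^ 2 +
        2 * ∑ D ∈ Finset.Ico 1 H, ‖∑ k ∈ Finset.Ioc a (2 * a), f k * star (f (k + D))‖) ≤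
        2 * (a : ℝ) / H * (a + 2 * (16 * (H * √(H * τ / a)) +
          202 * (H * √((a : ℝ) ^ 3 / (H * τ))))) :=
        mul_le_mul_of_nonneg_left (by linarith) (by positivity)
    _ = 2 * ((a : ℝ) ^ 2 / H) + 64 * (a * √(H * τ / a)) +
        808 * (a * √((a : ℝ) ^ 3 / (H * τ))) := by
        field_simp
        ring
    _ ≤ 1000 * ((a : ℝ) ^ 2 / H + a * √(H * τ / a) + a * √((a : ℝ) ^ 3 / (H * τ))) := by
        have h1 : 0 ≤ (a : ℝ) ^ 2 / H := by positivity
        have h2 : 0 ≤ (a : ℝ) * √(H * τ / a) := by positivity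
        have h3 : 0 ≤ (a : ℝ) * √((a : ℝ) ^ 3 / (H * τ)) := by positivity
        linarith

end Pool.Agent.BMR
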