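import Pool.Agent.BMR.ZS2
import Pool.Agent.BMR.ZS3

/-!
# BMR-ZSF (0.9h): `∑ r^{iτ}` for `N^0.12 ≤ τ ≤ N`

`zsum`: if `τ ≤ a² N^(-0.11)`: `zs2`: `√τ ≤ a N^(-0.055)`, `a/√τ ≤ a N^(-0.06)`. Otherwise `zs3` with `H = ⌊N^0.11⌋` (`1 ≤ H ≤ a`,
`H ≥ N^0.11/2`): `a²/H ≤ 2a² N^(-0.11)`; `a √(Hτ/a) ≤ a^(1/2) N^0.555 ≤ a² N^(-0.1)` because `a^(3/2) ≥ N^0.66`;
`a √(a³/(Hτ)) ≤ 2 a^(5/2) N^(-0.055) / (a N^(-0.055)) = 2 a^(3/2) ≤ 2 a² N^(-0.22)`. Take square roots.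
`zsumR`: cut `Ioc a b` at `2^j a` (`j ≤ 12`), apply `zsum` to each piece.
-/

namespace Pool.Agent.BMR

/-- powers of `x = N ^ 0.01` -/
private theorem xpow {N : ℝ} (hN : 1 ≤ N) : ∃ x : ℝ, 1 ≤ x ∧ N = x ^ 100 ∧ N ^ (0.44 : ℝ) = x ^ 44 ∧
    N ^ (0.12 : ℝ) = x ^ 12 ∧ N ^ (-(0.05 : ℝ)) = 1 / x ^ 5 := by
  have h0 : 0 ≤ N := by linarith
  refine ⟨N ^ (0.01 : ℝ), Real.one_le_rpow hN (by norm_num), ?_, ?_, ?_, ?_⟩
  · rw [← Real.rpow_natCast, ← Real.rpow_mul h0]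
    norm_num
  · rw [← Real.rpow_natCast, ← Real.rpow_mul h0]
    norm_num
  · rw [← Real.rpow_natCast, ← Real.rpow_mul h0]
    norm_num
  · rw [← Real.rpow_natCast, ← Real.rpow_mul h0, one_div, ← Real.rpow_neg h0]
    norm_num

private theorem case1 {C a τ x S : ℝ} (hC : 0 < C) (ha : 0 < a) (hx : 1 ≤ x) (hτ : x ^ 12 ≤ τ)
    (h : τ ≤ a ^ 2 / x ^ 11) (hS : S ≤ C * (√τ + a / √τ)) : S ≤ 2 * C * a * (1 / x ^ 5) := by
  have hx0 : 0 < x := by linarith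
  have h1 : √τ ≤ a / x ^ 5 := by
    rw [Real.sqrt_le_left (by positivity)]
    refine h.trans ?_
    rw [div_pow, ← pow_mul]
    refine div_le_div_of_nonneg_left (by positivity) (by positivity) ?_
    exact pow_le_pow_right₀ hx (by norm_num)
  have h2 : x ^ 5 ≤ √τ := by
    apply Real.le_sqrt_of_sq_le
    refine le_trans ?_ hτ
    rw [← pow_mul]
    exact pow_le_pow_right₀ hx (by norm_num)
  have h3 : a / √τ ≤ a / x ^ 5 := div_le_div_of_nonneg_left ha.le (by positivity) h2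
  calc S ≤ C * (√τ + a / √τ) := hS
    _ ≤ C * (a / x ^ 5 + a / x ^ 5) := mul_le_mul_of_nonneg_left (add_le_add h1 h3) hC.le
    _ = 2 * C * a * (1 / x ^ 5) := by ring

private theorem case2 {C a τ x S H : ℝ} (hC : 0 < C) (ha : x ^ 44 ≤ a) (hx : 1 ≤ x)
    (hτN : τ ≤ x ^ 100) (h : a ^ 2 / x ^ 11 ≤ τ) (hH1 : H ≤ x ^ 11) (hH2 : x ^ 11 ≤ 2 * H)
    (hS0 : 0 ≤ S) (hS : S ^ 2 ≤ C * (a ^ 2 / H + a * √(H * τ / a) + a * √(a ^ 3 / (H * τ)))) :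
    S ≤ √(5 * C) * a * (1 / x ^ 5) := by
  have hx0 : 0 < x := by linarith
  have hx44 : 0 < x ^ 44 := by positivity
  have ha0 : 0 < a := by linarith
  have hx11 : 0 < x ^ 11 := by positivity
  have hH0 : 0 < H := by linarith
  have hτ0 : 0 < τ := lt_of_lt_of_le (by positivity) h
  have hx10 : 0 < x ^ 10 := by positivity
  have h1110 : x ^ 10 ≤ x ^ 11 := pow_le_pow_right₀ hx (by norm_num)
  have h1 : a ^ 2 / H ≤ 2 * (a ^ 2 / x ^ 10) := by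
    rw [div_le_iff₀ hH0]
    have h2 : 2 * (a ^ 2 / x ^ 10) * H = a ^ 2 * (2 * H / x ^ 10) := by ring
    rw [h2]
    refine le_mul_of_one_le_right (by positivity) ?_
    rw [le_div_iff₀ hx10]
    linarith
  have h2 : √(H * τ / a) ≤ a / x ^ 10 := by
    rw [Real.sqrt_le_left (by positivity), div_pow, ← pow_mul]
    rw [div_le_div_iff₀ ha0 (by positivity)]
    have h3 : H * τ ≤ x ^ 11 * x ^ 100 := mul_le_mul hH1 hτN hτ0.le hx11.le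
    have h4 : x ^ 132 ≤ a ^ 3 := by
      have h5 : x ^ 132 = (x ^ 44) ^ 3 := by rw [← pow_mul]
      rw [h5]
      exact pow_le_pow_left₀ hx44.le ha 3
    calc H * τ * x ^ (10 * 2) ≤ x ^ 11 * x ^ 100 * x ^ (10 * 2) :=
          mul_le_mul_of_nonneg_right h3 (by positivity)
      _ = x ^ 131 := by rw [← pow_add, ← pow_add]
      _ ≤ x ^ 132 := pow_le_pow_right₀ hx (by norm_num)
      _ ≤ a ^ 3 := h4
      _ = a ^ 2 * a := by ring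
  have h3 : √(a ^ 3 / (H * τ)) ≤ 2 * a / x ^ 10 := by
    rw [Real.sqrt_le_left (by positivity), div_pow, ← pow_mul]
    have h5 : a ^ 2 ≤ 2 * (H * τ) := by
      rw [div_le_iff₀ hx11] at h
      have h6 : τ * x ^ 11 ≤ τ * (2 * H) := mul_le_mul_of_nonneg_left hH2 hτ0.le
      linarith
    have h6 : a ^ 3 / (H * τ) ≤ 2 * a := by
      rw [div_le_iff₀ (by positivity)]
      nlinarith
    refine h6.trans ?_
    rw [le_div_iff₀ (by positivity)]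
    have h7 : x ^ (10 * 2) ≤ a := by
      refine le_trans ?_ ha
      exact pow_le_pow_right₀ hx (by norm_num)
    nlinarith
  have h4 : S ^ 2 ≤ (√(5 * C) * a * (1 / x ^ 5)) ^ 2 := by
    have h5 : (√(5 * C) * a * (1 / x ^ 5)) ^ 2 = C * (5 * (a ^ 2 / x ^ 10)) := by
      rw [mul_pow, mul_pow, Real.sq_sqrt (by positivity), div_pow, one_pow, ← pow_mul]
      ring
    rw [h5]
    refine hS.trans (mul_le_mul_of_nonneg_left ?_ hC.le)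
    have h6 : a * √(H * τ / a) ≤ a * (a / x ^ 10) := mul_le_mul_of_nonneg_left h2 ha0.le
    have h7 : a * √(a ^ 3 / (H * τ)) ≤ a * (2 * a / x ^ 10) :=
      mul_le_mul_of_nonneg_left h3 ha0.le
    have h8 : a * (a / x ^ 10) = a ^ 2 / x ^ 10 := by ring
    have h9 : a * (2 * a / x ^ 10) = 2 * (a ^ 2 / x ^ 10) := by ring
    linarith
  exact (pow_le_pow_iff_left₀ hS0 (by positivity) (by norm_num)).1 h4

theorem zsum : ∃ C N₀ : ℝ, 0 < C ∧ 1 ≤ N₀ ∧ ∀ N : ℝ, N₀ ≤ N → ∀ (a b : ℕ) (τ : ℝ),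
    N ^ (0.44 : ℝ) ≤ a → (a : ℝ) ≤ N → a ≤ b → b ≤ 2 * a → N ^ (0.12 : ℝ) ≤ τ → τ ≤ N →
      ‖∑ r ∈ Finset.Ioc a b, z τ r‖ ≤ C * a * N ^ (-(0.05 : ℝ)) := by
  obtain ⟨C2, hC2, h2⟩ := zs2
  obtain ⟨C3, hC3, h3⟩ := zs3
  refine ⟨2 * C2 + √(5 * C3), 1, by positivity, le_rfl, ?_⟩
  intro N hN a b τ haN haN' hab hb2 hτ1 hτ2
  obtain ⟨x, hx, e100, e44, e12, e5⟩ := xpow hN
  rw [e44] at haN
  rw [e12] at hτ1
  rw [e100] at hτ2
  rw [e5]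
  have hx0 : 0 < x := by linarith
  have ha1 : (1 : ℝ) ≤ a := (one_le_pow₀ hx).trans haN
  have ha1' : 1 ≤ a := by exact_mod_cast ha1
  have ha0 : (0 : ℝ) < a := by linarith
  have hτ : 1 ≤ τ := (one_le_pow₀ hx).trans hτ1
  have hp : 0 < (a : ℝ) * (1 / x ^ 5) := by positivity
  rcases le_total τ ((a : ℝ) ^ 2 / x ^ 11) with h | h
  · refine (case1 hC2 ha0 hx hτ1 h (h2 a b τ ha1' hab hb2 hτ)).trans ?_
    have h4 : 0 ≤ √(5 * C3) := Real.sqrt_nonneg _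
    nlinarith
  · have hx11 : 1 ≤ x ^ 11 := one_le_pow₀ hx
    have hH1 : 1 ≤ ⌊x ^ 11⌋₊ := Nat.le_floor (by exact_mod_cast hx11)
    have hH2 : (⌊x ^ 11⌋₊ : ℝ) ≤ x ^ 11 := Nat.floor_le (by positivity)
    have hH3 : x ^ 11 < (⌊x ^ 11⌋₊ : ℝ) + 1 := Nat.lt_floor_add_one _
    have hH1' : (1 : ℝ) ≤ (⌊x ^ 11⌋₊ : ℝ) := by exact_mod_cast hH1
    have hHa : ⌊x ^ 11⌋₊ ≤ a := by
      have h4 : (⌊x ^ 11⌋₊ : ℝ) ≤ a :=
        hH2.trans ((pow_le_pow_right₀ hx (by norm_num)).trans haN)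
      exact_mod_cast h4
    refine (case2 hC3 haN hx hτ2 h hH2 (by linarith) (norm_nonneg _)
      (h3 a b _ τ ha1' hab hb2 hH1 hHa hτ)).trans ?_
    nlinarith

theorem zsumR : ∃ C N₀ : ℝ, 0 < C ∧ 1 ≤ N₀ ∧ ∀ N : ℝ, N₀ ≤ N → ∀ (a b : ℕ) (τ : ℝ),
    N ^ (0.44 : ℝ) ≤ a → (b : ℝ) ≤ N → a ≤ b → b ≤ 4096 * a → N ^ (0.12 : ℝ) ≤ τ → τ ≤ N →
      ‖∑ r ∈ Finset.Ioc a b, z τ r‖ ≤ C * b * N ^ (-(0.05 : ℝ)) := by
  obtain ⟨C, N₀, hC, hN₀, h⟩ := zsum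
  refine ⟨12 * C, N₀, by positivity, hN₀, ?_⟩
  intro N hN a b τ haN hbN hab hb hτ1 hτ2
  have hp : 0 < N ^ (-(0.05 : ℝ)) := Real.rpow_pos_of_pos (by linarith) _
  have key : ∀ j : ℕ, ∀ a b : ℕ, N ^ (0.44 : ℝ) ≤ a → (b : ℝ) ≤ N → a ≤ b → b ≤ 2 ^ j * a →
      ‖∑ r ∈ Finset.Ioc a b, z τ r‖ ≤ j * (C * b * N ^ (-(0.05 : ℝ))) := by
    intro j
    induction j with
    | zero =>
      intro a b _ _ hab hb
      have h1 : a = b := by omega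
      subst h1
      simp
    | succ j ih =>
      intro a b haN hbN hab hb
      have hab' : (a : ℝ) ≤ b := by exact_mod_cast hab
      have hb0 : 0 ≤ C * b * N ^ (-(0.05 : ℝ)) := by positivity
      have hle : C * a * N ^ (-(0.05 : ℝ)) ≤ C * b * N ^ (-(0.05 : ℝ)) :=
        mul_le_mul_of_nonneg_right (mul_le_mul_of_nonneg_left hab' hC.le) hp.le
      push_cast
      rcases le_total b (2 * a) with h1 | h1
      · have h2 := h N hN a b τ haN (hab'.trans hbN) hab h1 hτ1 hτ2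
        have h3 : 0 ≤ (j : ℝ) * (C * b * N ^ (-(0.05 : ℝ))) := by positivity
        linarith
      · have h2 := h N hN a (2 * a) τ haN (hab'.trans hbN) (by omega) le_rfl hτ1 hτ2
        have h3 := ih (2 * a) b (haN.trans (by push_cast; linarith [(Nat.cast_nonneg a : (0 : ℝ) ≤ a)]))
          hbN h1 (by rw [pow_succ] at hb; linarith)
        rw [← Finset.sum_Ioc_consecutive (fun r => z τ r) (by omega : a ≤ 2 * a) h1]
        refine (norm_add_le _ _).trans ?_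
        linarith
  have h1 := key 12 a b haN hbN hab (by norm_num; exact hb)
  refine h1.trans (le_of_eq ?_)
  push_cast
  ring

end Pool.Agent.BMR
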