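import Pool.Agent.BMR.QM
import Pool.Agent.BMR.BC
import Pool.Agent.BMR.BN
import Pool.Agent.BMR.DIV
import Pool.Agent.BMR.ZSF

/-!
# BMR-BLK: mean square of one block
-/

open Finset MeasureTheory

namespace Pool.Agent.BMR

private theorem card_prm_le (Q : ℕ) : ((prm Q).card : ℝ) ≤ 3 * Q := by
  have h : (prm Q).card ≤ 3 * Q := by
    unfold prm
    refine (Finset.card_filter_le _ _).trans ?_
    rw [Nat.card_Ioc]
    omega
  exact_mod_cast h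

private theorem norm_sum_z_le (s : Finset ℕ) (τ : ℝ) (f : ℕ → ℝ) : ‖∑ q ∈ s, z τ (f q)‖ ≤ s.card := by
  refine (norm_sum_le _ _).trans ?_
  simp [norm_z]

private noncomputable def Gs (S : Finset ℕ) (P a b : ℕ) (τ : ℝ) : ℂ :=
  ∑ s ∈ S, ∑ p ∈ prm P, ∑ r ∈ Ioc a b, z τ ((s * (p - 1) * r : ℕ) : ℝ)

private theorem A_eq {Q P a b : ℕ} {S : Finset ℕ} (hS : ∀ s ∈ S, 1 ≤ s) (hP : 1 ≤ P) (τ : ℝ) :
    ∑ q ∈ prm Q, ∑ s ∈ S, ∑ p ∈ prm P, ∑ r ∈ Ioc a b, z τ ((q * s * (p - 1) * r : ℕ) : ℝ) =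
      (∑ q ∈ prm Q, z τ q) * Gs S P a b τ := by
  unfold Gs
  rw [Finset.sum_mul]
  refine Finset.sum_congr rfl fun q hq => ?_
  rw [Finset.mul_sum]
  refine Finset.sum_congr rfl fun s hs => ?_
  rw [Finset.mul_sum]
  refine Finset.sum_congr rfl fun p hp => ?_
  rw [Finset.mul_sum]
  refine Finset.sum_congr rfl fun r hr => ?_
  have hq0 : 0 < q := (mem_prm.1 hq).2.pos
  have hs0 : 0 < s := hS s hs
  have hp0 : 0 < p - 1 := by
    have := (mem_prm.1 hp).1.1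
    omega
  have hr0 : 0 < r := by
    have := (mem_Ioc.1 hr).1
    omega
  have hm : 0 < s * (p - 1) * r := by positivity
  rw [← z_mul τ (by exact_mod_cast hq0) (by exact_mod_cast hm), ← Nat.cast_mul]
  congr 2
  ring

private theorem G_eq {P a b : ℕ} {S : Finset ℕ} (hS : ∀ s ∈ S, 1 ≤ s) (hP : 1 ≤ P) (τ : ℝ) :
    Gs S P a b τ = (∑ s ∈ S, z τ s) *
      ((∑ p ∈ prm P, z τ ((p - 1 : ℕ) : ℝ)) * ∑ r ∈ Ioc a b, z τ r) := by
  unfold Gs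
  rw [Finset.sum_mul]
  refine Finset.sum_congr rfl fun s hs => ?_
  rw [Finset.sum_mul, Finset.mul_sum]
  refine Finset.sum_congr rfl fun p hp => ?_
  rw [Finset.mul_sum, Finset.mul_sum]
  refine Finset.sum_congr rfl fun r hr => ?_
  have hs0 : 0 < s := hS s hs
  have hp0 : 0 < p - 1 := by
    have := (mem_prm.1 hp).1.1
    omega
  have hr0 : 0 < r := by
    have := (mem_Ioc.1 hr).1
    omega
  have h1 : 0 < (p - 1) * r := by positivity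
  rw [← z_mul τ (x := ((p - 1 : ℕ) : ℝ)) (y := (r : ℝ)) (by exact_mod_cast hp0)
    (by exact_mod_cast hr0), ← Nat.cast_mul,
    ← z_mul τ (x := (s : ℝ)) (by exact_mod_cast hs0) (by exact_mod_cast h1), ← Nat.cast_mul]
  congr 2
  ring

private theorem continuous_Gs (S : Finset ℕ) (P a b : ℕ) : Continuous (Gs S P a b) := by
  unfold Gs
  exact continuous_finsetSum _ fun s _ => continuous_finsetSum _ fun p _ =>
    continuous_finsetSum _ fun r _ => continuous_z _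

private theorem int_split {Qp G : ℝ → ℂ} (hQp : Continuous Qp) (hG : Continuous G) {X V t0 T : ℝ}
    (hX : 0 < X) (hV : 0 ≤ V) (l : ℕ) (h0 : 0 ≤ t0) (h1 : t0 ≤ T)
    (hsup : ∀ τ ∈ Set.Icc t0 T, ‖Qp τ * G τ‖ ≤ V) :
    ∫ τ in t0..T, ‖Qp τ * G τ‖ ^ 2 ≤ X ^ 2 * (∫ τ in (-T)..T, ‖G τ‖ ^ 2) +
      V ^ 2 * (X ^ (2 * l))⁻¹ * ∫ τ in (-T)..T, ‖Qp τ‖ ^ (2 * l) := by
  have c1 : Continuous fun τ => ‖Qp τ * G τ‖ ^ 2 := by fun_prop
  have c2 : Continuous fun τ => ‖G τ‖ ^ 2 := by fun_prop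
  have c3 : Continuous fun τ => ‖Qp τ‖ ^ (2 * l) := by fun_prop
  have c4 : Continuous fun τ => X ^ 2 * ‖G τ‖ ^ 2 + V ^ 2 * (X ^ (2 * l))⁻¹ * ‖Qp τ‖ ^ (2 * l) := by
    fun_prop
  have hXl : 0 < X ^ (2 * l) := by positivity
  calc ∫ τ in t0..T, ‖Qp τ * G τ‖ ^ 2 ≤
        ∫ τ in t0..T, (X ^ 2 * ‖G τ‖ ^ 2 + V ^ 2 * (X ^ (2 * l))⁻¹ * ‖Qp τ‖ ^ (2 * l)) := by
        refine intervalIntegral.integral_mono_on h1 (c1.intervalIntegrable _ _)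
          (c4.intervalIntegrable _ _) fun τ hτ => ?_
        rcases le_or_gt ‖Qp τ‖ X with hq | hq
        · have h2 : ‖Qp τ * G τ‖ ^ 2 ≤ X ^ 2 * ‖G τ‖ ^ 2 := by
            rw [norm_mul, mul_pow]
            exact mul_le_mul_of_nonneg_right (pow_le_pow_left₀ (norm_nonneg _) hq 2) (by positivity)
          have h3 : 0 ≤ V ^ 2 * (X ^ (2 * l))⁻¹ * ‖Qp τ‖ ^ (2 * l) := by positivity
          linarith
        · have h2 : ‖Qp τ * G τ‖ ^ 2 ≤ V ^ 2 := pow_le_pow_left₀ (norm_nonneg _) (hsup τ hτ) 2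
          have h3 : 0 ≤ X ^ 2 * ‖G τ‖ ^ 2 := by positivity
          have h4 : X ^ (2 * l) ≤ ‖Qp τ‖ ^ (2 * l) := pow_le_pow_left₀ hX.le hq.le _
          have h5 : 1 ≤ (X ^ (2 * l))⁻¹ * ‖Qp τ‖ ^ (2 * l) := by
            rw [← div_eq_inv_mul, le_div_iff₀ hXl, one_mul]
            exact h4
          have h6 : V ^ 2 * 1 ≤ V ^ 2 * ((X ^ (2 * l))⁻¹ * ‖Qp τ‖ ^ (2 * l)) :=
            mul_le_mul_of_nonneg_left h5 (by positivity)
          rw [← mul_assoc] at h6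
          linarith
    _ ≤ ∫ τ in (-T)..T, (X ^ 2 * ‖G τ‖ ^ 2 + V ^ 2 * (X ^ (2 * l))⁻¹ * ‖Qp τ‖ ^ (2 * l)) := by
        refine intervalIntegral.integral_mono_interval (by linarith) h1 le_rfl ?_
          (c4.intervalIntegrable _ _)
        exact Filter.Eventually.of_forall fun τ => by positivity
    _ = _ := by
        have d1 : Continuous fun τ => X ^ 2 * ‖G τ‖ ^ 2 := by fun_prop
        have d2 : Continuous fun τ => V ^ 2 * (X ^ (2 * l))⁻¹ * ‖Qp τ‖ ^ (2 * l) := by fun_prop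
        rw [intervalIntegral.integral_add (d1.intervalIntegrable _ _) (d2.intervalIntegrable _ _),
          intervalIntegral.integral_const_mul, intervalIntegral.integral_const_mul]

private theorem coef_sq {c : ℕ → ℂ} {M : ℕ} (hM : 1 ≤ M)
    (hc : ∀ k, ‖c k‖ ≤ (1 + Nat.log 2 k) * k.divisors.card) :
    ∑ k ∈ Icc 1 M, ‖c k‖ ^ 2 ≤ (1 + (Nat.log 2 M : ℝ)) ^ 2 * (M * (1 + Real.log M) ^ 3) := by
  have h1 : ∑ k ∈ Icc 1 M, ‖c k‖ ^ 2 ≤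
      ∑ k ∈ Icc 1 M, (1 + (Nat.log 2 M : ℝ)) ^ 2 * (k.divisors.card : ℝ) ^ 2 := by
    refine Finset.sum_le_sum fun k hk => ?_
    rw [← mul_pow]
    refine pow_le_pow_left₀ (norm_nonneg _) ((hc k).trans ?_) 2
    have h2 : (Nat.log 2 k : ℝ) ≤ Nat.log 2 M := by
      exact_mod_cast Nat.log_mono_right (mem_Icc.1 hk).2
    exact mul_le_mul_of_nonneg_right (by linarith) (Nat.cast_nonneg _)
  refine h1.trans ?_
  rw [← Finset.mul_sum]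
  exact mul_le_mul_of_nonneg_left (div_sq M) (by positivity)

/-- the logarithms of `M` -/
private theorem log_M {M : ℕ} {N : ℝ} (hM : 1 ≤ M) (hN : (M : ℝ) ≤ 80 * N) (hN0 : 0 < N)
    (hlog : 10 ≤ Real.log N) :
    1 + (Nat.log 2 M : ℝ) ≤ 4 * Real.log N ∧ 1 + Real.log M ≤ 3 * Real.log N ∧
      0 ≤ Real.log M := by
  have hM0 : (0 : ℝ) < M := by exact_mod_cast hM
  have hM1 : (1 : ℝ) ≤ M := by exact_mod_cast hM
  have h80 : Real.log 80 ≤ 7 := by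
    have h1 : Real.log 80 ≤ Real.log (2 ^ 7) := Real.log_le_log (by norm_num) (by norm_num)
    rw [Real.log_pow] at h1
    have := Real.log_two_lt_d9
    push_cast at h1
    linarith
  have h2 : Real.log M ≤ 7 + Real.log N := by
    have := Real.log_le_log hM0 hN
    rw [Real.log_mul (by norm_num) hN0.ne'] at this
    linarith
  have h3 : (Nat.log 2 M : ℝ) * Real.log 2 ≤ Real.log M := by
    have h : 2 ^ (Nat.log 2 M) ≤ M := Nat.pow_log_le_self 2 (by omega)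
    have h' : (2 : ℝ) ^ (Nat.log 2 M) ≤ M := by exact_mod_cast h
    have := Real.log_le_log (by positivity) h'
    rwa [Real.log_pow] at this
  have h4 : (Nat.log 2 M : ℝ) * (2 / 3) ≤ (Nat.log 2 M : ℝ) * Real.log 2 := by
    have := Real.log_two_gt_d9
    exact mul_le_mul_of_nonneg_left (by linarith) (Nat.cast_nonneg _)
  refine ⟨by linarith, by linarith, Real.log_nonneg hM1⟩

/-- the first term -/
private theorem term1 {C1 N h X W T S2 : ℝ} {Q M : ℕ} (hC1 : 0 < C1) (hQ : (1 : ℝ) ≤ Q)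
    (hN : 1 ≤ N) (hXW : X = Q * W) (hW0 : 0 ≤ W) (hW : W ^ 2 ≤ h ^ (-(1 / 50) : ℝ)) (hh0 : 0 < h)
    (hT : T ≤ 500 * (N / Q)) (hT0 : 0 ≤ T) (hM : (M : ℝ) ≤ 80 * (N / Q))
    (hS2 : S2 ≤ 432 * Real.log N ^ 5 * M) (hS0 : 0 ≤ S2) (hl : 1 ≤ Real.log N)
    (hl2 : 2 * (C1 * 20044800) ≤ Real.log N) (hlh : Real.log N ^ 6 ≤ h ^ (1 / 200 : ℝ)) :
    X ^ 2 * (C1 * (T + M) * S2) ≤ 1 / 2 * (N ^ 2 * h ^ (-(3 / 200 : ℝ))) := by
  set Y := N / Q with hY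
  have hQ0 : (0 : ℝ) < Q := by linarith
  have hY0 : 0 ≤ Y := by positivity
  have hM0 : (0 : ℝ) ≤ M := Nat.cast_nonneg _
  have hl5 : 0 ≤ Real.log N ^ 5 := by positivity
  have h1 : C1 * (T + M) * S2 ≤ C1 * (580 * Y) * (432 * Real.log N ^ 5 * (80 * Y)) := by
    refine mul_le_mul (mul_le_mul_of_nonneg_left (by linarith) hC1.le) (hS2.trans ?_) hS0
      (by positivity)
    exact mul_le_mul_of_nonneg_left hM (by positivity)
  have h2 : X ^ 2 * (C1 * (T + M) * S2) ≤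
      X ^ 2 * (C1 * (580 * Y) * (432 * Real.log N ^ 5 * (80 * Y))) :=
    mul_le_mul_of_nonneg_left h1 (by positivity)
  have h3 : X ^ 2 * (C1 * (580 * Y) * (432 * Real.log N ^ 5 * (80 * Y))) =
      (C1 * 20044800) * Real.log N ^ 5 * (N ^ 2 * W ^ 2) := by
    rw [hXW, hY]
    field_simp
    ring
  have h4 : (C1 * 20044800) * Real.log N ^ 5 * (N ^ 2 * W ^ 2) ≤
      (C1 * 20044800) * Real.log N ^ 5 * (N ^ 2 * h ^ (-(1 / 50) : ℝ)) :=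
    mul_le_mul_of_nonneg_left (mul_le_mul_of_nonneg_left hW (by positivity)) (by positivity)
  have h5 : h ^ (-(1 / 50) : ℝ) = h ^ (-(3 / 200 : ℝ)) * (h ^ (1 / 200 : ℝ))⁻¹ := by
    rw [← Real.rpow_neg hh0.le, ← Real.rpow_add hh0]
    norm_num
  have hp : 0 < h ^ (1 / 200 : ℝ) := Real.rpow_pos_of_pos hh0 _
  have hr : 0 < h ^ (-(3 / 200 : ℝ)) := Real.rpow_pos_of_pos hh0 _
  have h6 : (C1 * 20044800) * Real.log N ^ 5 * (h ^ (1 / 200 : ℝ))⁻¹ ≤ 1 / 2 := by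
    rw [← div_eq_mul_inv, div_le_iff₀ hp]
    have h7 : 2 * (C1 * 20044800) * Real.log N ^ 5 ≤ Real.log N * Real.log N ^ 5 :=
      mul_le_mul_of_nonneg_right hl2 hl5
    have h8 : Real.log N * Real.log N ^ 5 = Real.log N ^ 6 := by ring
    linarith
  calc X ^ 2 * (C1 * (T + M) * S2) ≤
        (C1 * 20044800) * Real.log N ^ 5 * (N ^ 2 * h ^ (-(1 / 50) : ℝ)) := by linarith
    _ = ((C1 * 20044800) * Real.log N ^ 5 * (h ^ (1 / 200 : ℝ))⁻¹) *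
          (N ^ 2 * h ^ (-(3 / 200 : ℝ))) := by
        rw [h5]; ring
    _ ≤ 1 / 2 * (N ^ 2 * h ^ (-(3 / 200 : ℝ))) :=
        mul_le_mul_of_nonneg_right h6 (by positivity)

/-- the second term -/
private theorem term2 {C C3 N h V B I : ℝ} (hC : 0 < C) (hC3 : 0 < C3) (hN : 1 ≤ N) (hh0 : 0 < h)
    (hhN : h ≤ N ^ (0.01 : ℝ)) (hV : V = 180 * C * N ^ (0.95 : ℝ)) (hB : 0 ≤ B)
    (hI : B * I ≤ C3 * N ^ (0.06 : ℝ)) (hbig : 2 * (32400 * C ^ 2 * C3) ≤ N ^ (0.03 : ℝ)) :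
    V ^ 2 * B * I ≤ 1 / 2 * (N ^ 2 * h ^ (-(3 / 200 : ℝ))) := by
  have hN0 : 0 < N := by linarith
  have h1 : V ^ 2 * B * I ≤ V ^ 2 * (C3 * N ^ (0.06 : ℝ)) := by
    rw [mul_assoc]
    exact mul_le_mul_of_nonneg_left hI (by positivity)
  have h2 : V ^ 2 = 32400 * C ^ 2 * N ^ (1.9 : ℝ) := by
    have : (N ^ (0.95 : ℝ)) ^ 2 = N ^ (1.9 : ℝ) := by
      rw [← Real.rpow_natCast, ← Real.rpow_mul hN0.le]
      norm_num
    rw [hV, mul_pow, this]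
    ring
  have h3 : N ^ (1.9 : ℝ) * N ^ (0.06 : ℝ) = N ^ (1.96 : ℝ) := by
    rw [← Real.rpow_add hN0]; norm_num
  have h4 : N ^ (1.96 : ℝ) * N ^ (0.03 : ℝ) = N ^ (1.99 : ℝ) := by
    rw [← Real.rpow_add hN0]; norm_num
  have h5 : N ^ (1.99 : ℝ) ≤ N ^ 2 * h ^ (-(3 / 200 : ℝ)) := by
    have h6 : (N ^ (0.01 : ℝ)) ^ (-(3 / 200 : ℝ)) ≤ h ^ (-(3 / 200 : ℝ)) :=
      Real.rpow_le_rpow_of_nonpos hh0 hhN (by norm_num)
    rw [← Real.rpow_mul hN0.le] at h6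
    have h7 : N ^ 2 * N ^ ((0.01 : ℝ) * (-(3 / 200 : ℝ))) ≤ N ^ 2 * h ^ (-(3 / 200 : ℝ)) :=
      mul_le_mul_of_nonneg_left h6 (by positivity)
    refine le_trans ?_ h7
    rw [← Real.rpow_natCast, ← Real.rpow_add hN0]
    exact Real.rpow_le_rpow_of_exponent_le hN (by norm_num)
  have h8 : 0 ≤ N ^ (1.96 : ℝ) := by positivity
  calc V ^ 2 * B * I ≤ V ^ 2 * (C3 * N ^ (0.06 : ℝ)) := h1
    _ = (32400 * C ^ 2 * C3) * (N ^ (1.9 : ℝ) * N ^ (0.06 : ℝ)) := by rw [h2]; ring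
    _ = (32400 * C ^ 2 * C3) * N ^ (1.96 : ℝ) := by rw [h3]
    _ ≤ (1 / 2 * N ^ (0.03 : ℝ)) * N ^ (1.96 : ℝ) := mul_le_mul_of_nonneg_right (by linarith) h8
    _ = 1 / 2 * (N ^ (1.96 : ℝ) * N ^ (0.03 : ℝ)) := by ring
    _ = 1 / 2 * N ^ (1.99 : ℝ) := by rw [h4]
    _ ≤ 1 / 2 * (N ^ 2 * h ^ (-(3 / 200 : ℝ))) := by linarith

theorem blk : ∃ A N₀ : ℝ, 0 < A ∧ 1 ≤ N₀ ∧ ∀ N h : ℝ, N₀ ≤ N → Real.log N ^ A ≤ h →
    h ≤ N ^ (0.01 : ℝ) → ∀ (Q Q' P a b : ℕ) (S : Finset ℕ) (T : ℝ), √h ≤ Q → 4 * (Q : ℝ) ≤ h →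
      1 ≤ Q' → (S = {1} ∨ S = prm Q') → 1 ≤ P → N ^ (0.44 : ℝ) ≤ a → (b : ℝ) ≤ N → a ≤ b →
      b ≤ 4096 * a → (Q : ℝ) * Q' * P * b ≤ 5 * N → N ^ (0.12 : ℝ) ≤ T → T ≤ 2000 * N / h →
      T ≤ N →
        ∫ τ in (N ^ (0.12 : ℝ))..T, ‖∑ q ∈ prm Q, ∑ s ∈ S, ∑ p ∈ prm P, ∑ r ∈ Ioc a b,
          z τ ((q * s * (p - 1) * r : ℕ) : ℝ)‖ ^ 2 ≤ N ^ 2 * h ^ (-(3 / 200 : ℝ)) := by
  obtain ⟨C1, hC1, hmvt⟩ := mvt
  obtain ⟨C3, hC3, hqm⟩ := qmom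
  obtain ⟨A1, N1, hA1, hN1, hchoose⟩ := choose_l
  obtain ⟨C, N2, hC, hN2, hzs⟩ := zsumR
  have hev : ∀ᶠ N : ℝ in Filter.atTop, N1 ≤ N ∧ N2 ≤ N ∧ 1 ≤ N ∧ 10 ≤ Real.log N ∧
      2 * (C1 * 20044800) ≤ Real.log N ∧ 2 * (32400 * C ^ 2 * C3) ≤ N ^ (0.03 : ℝ) := by
    filter_upwards [Filter.eventually_ge_atTop N1, Filter.eventually_ge_atTop N2,
      Filter.eventually_ge_atTop 1, Real.tendsto_log_atTop.eventually_ge_atTop 10,
      Real.tendsto_log_atTop.eventually_ge_atTop (2 * (C1 * 20044800)),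
      (tendsto_rpow_atTop (show (0 : ℝ) < 0.03 by norm_num)).eventually_ge_atTop
        (2 * (32400 * C ^ 2 * C3))] with N g1 g2 g3 g4 g5 g6
    exact ⟨g1, g2, g3, g4, g5, g6⟩
  obtain ⟨N0, hN0⟩ := Filter.eventually_atTop.1 hev
  refine ⟨max A1 1200, max N0 1, by positivity, le_max_right _ _, ?_⟩
  intro N h hNN hAh hhN Q Q' P a b S T hQh hQ4 hQ' hS hP ha hb hab hba hprod hT12 hTh hTN
  obtain ⟨g1, g2, g3, g4, g5, g6⟩ := hN0 N ((le_max_left _ _).trans hNN)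
  have hl1 : 1 ≤ Real.log N := by linarith
  have hNpos : 0 < N := by linarith
  -- sizes of `h` and `Q`
  have hAh1 : Real.log N ^ A1 ≤ h :=
    (Real.rpow_le_rpow_of_exponent_le hl1 (le_max_left _ _)).trans hAh
  have hAh2 : Real.log N ^ (1200 : ℝ) ≤ h :=
    (Real.rpow_le_rpow_of_exponent_le hl1 (le_max_right _ _)).trans hAh
  have hh1 : 1 ≤ h := (Real.one_le_rpow hl1 (by norm_num)).trans hAh2
  have hh0 : 0 < h := by linarith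
  have hQ1 : (1 : ℝ) ≤ Q := (Real.one_le_sqrt.2 hh1).trans hQh
  have hQ1' : 1 ≤ Q := by exact_mod_cast hQ1
  have hQ0 : (0 : ℝ) < Q := by linarith
  have hlh : Real.log N ^ 6 ≤ h ^ (1 / 200 : ℝ) := by
    have h1 : (Real.log N ^ (1200 : ℝ)) ^ (1 / 200 : ℝ) ≤ h ^ (1 / 200 : ℝ) :=
      Real.rpow_le_rpow (by positivity) hAh2 (by norm_num)
    rw [← Real.rpow_mul (by linarith)] at h1
    have h2 : (1200 : ℝ) * (1 / 200) = ((6 : ℕ) : ℝ) := by norm_num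
    rw [h2, Real.rpow_natCast] at h1
    exact h1
  have hT1 : 1 ≤ T := (Real.one_le_rpow g3 (by norm_num)).trans hT12
  -- the set `S`
  have hS1 : ∀ s ∈ S, 1 ≤ s := by
    intro s hs
    rcases hS with rfl | rfl
    · rw [mem_singleton] at hs
      omega
    · exact (mem_prm.1 hs).2.pos
  have hScard : (S.card : ℝ) ≤ 4 * Q' := by
    have hQ'1 : (1 : ℝ) ≤ Q' := by exact_mod_cast hQ'
    rcases hS with rfl | rfl
    · rw [card_singleton]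
      push_cast
      linarith
    · have := card_prm_le Q'
      linarith
  -- the functions
  obtain ⟨c, hc1, hc2⟩ := coef Q' P a b S hS hQ' hP
  set M : ℕ := 16 * Q' * P * b with hM
  have ha1 : (1 : ℝ) ≤ a := (Real.one_le_rpow g3 (by norm_num)).trans ha
  have ha1' : 1 ≤ a := by exact_mod_cast ha1
  have hb1 : 1 ≤ b := ha1'.trans hab
  have hM1 : 1 ≤ M := by
    rw [hM]
    have : 0 < 16 * Q' * P * b := by positivity
    omega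
  have hMQ : (M : ℝ) ≤ 80 * (N / Q) := by
    rw [← mul_div_assoc, le_div_iff₀ hQ0, hM]
    push_cast
    linarith
  have hNQ : N / Q ≤ N := div_le_self hNpos.le hQ1
  obtain ⟨l1, l2, l3⟩ := log_M hM1 (by linarith : (M : ℝ) ≤ 80 * N) hNpos g4
  set Qp : ℝ → ℂ := fun τ => ∑ q ∈ prm Q, z τ q with hQp
  have cQp : Continuous Qp := continuous_finsetSum _ fun q _ => continuous_z _
  have cG := continuous_Gs S P a b
  set X : ℝ := (Q : ℝ) ^ (1 - 1 / 50 : ℝ) with hX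
  set W : ℝ := (Q : ℝ) ^ (-(1 / 50) : ℝ) with hW
  have hXpos : 0 < X := Real.rpow_pos_of_pos hQ0 _
  have hWpos : 0 < W := Real.rpow_pos_of_pos hQ0 _
  have hXW : X = Q * W := by
    rw [hX, hW]
    nth_rewrite 2 [← Real.rpow_one (Q : ℝ)]
    rw [← Real.rpow_add hQ0]
    norm_num
  have hW2 : W ^ 2 ≤ h ^ (-(1 / 50) : ℝ) := by
    have h1 : W ≤ (√h) ^ (-(1 / 50) : ℝ) :=
      Real.rpow_le_rpow_of_nonpos (Real.sqrt_pos.2 hh0) hQh (by norm_num)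
    have h2 : (√h) ^ (-(1 / 50) : ℝ) = h ^ (-(1 / 100) : ℝ) := by
      rw [Real.sqrt_eq_rpow, ← Real.rpow_mul hh0.le]
      norm_num
    rw [h2] at h1
    have h3 : W ^ 2 ≤ (h ^ (-(1 / 100) : ℝ)) ^ 2 := pow_le_pow_left₀ hWpos.le h1 2
    refine h3.trans (le_of_eq ?_)
    rw [← Real.rpow_natCast, ← Real.rpow_mul hh0.le]
    norm_num
  set V : ℝ := 180 * C * N ^ (0.95 : ℝ) with hV
  have hV0 : 0 ≤ V := by positivity
  -- the sup bound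
  have hsup : ∀ τ ∈ Set.Icc (N ^ (0.12 : ℝ)) T, ‖Qp τ * Gs S P a b τ‖ ≤ V := by
    intro τ hτ
    have h1 : ‖Qp τ‖ ≤ 3 * Q := (norm_sum_z_le _ _ _).trans (card_prm_le Q)
    have h2 : ‖∑ s ∈ S, z τ s‖ ≤ 4 * Q' := (norm_sum_z_le _ _ _).trans hScard
    have h3 : ‖∑ p ∈ prm P, z τ ((p - 1 : ℕ) : ℝ)‖ ≤ 3 * P :=
      (norm_sum_z_le _ _ (fun p => ((p - 1 : ℕ) : ℝ))).trans (card_prm_le P)
    have h4 := hzs N g2 a b τ ha hb hab hba hτ.1 (hτ.2.trans hTN)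
    rw [norm_mul, G_eq hS1 hP, norm_mul, norm_mul]
    have hN05 : 0 ≤ N ^ (-(0.05 : ℝ)) := by positivity
    have h5 : ‖Qp τ‖ * (‖∑ s ∈ S, z τ s‖ * (‖∑ p ∈ prm P, z τ ((p - 1 : ℕ) : ℝ)‖ *
        ‖∑ r ∈ Ioc a b, z τ r‖)) ≤ 3 * Q * (4 * Q' * (3 * P * (C * b * N ^ (-(0.05 : ℝ))))) := by
      refine mul_le_mul h1 ?_ (by positivity) (by positivity)
      refine mul_le_mul h2 ?_ (by positivity) (by positivity)
      exact mul_le_mul h3 h4 (by positivity) (by positivity)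
    refine h5.trans ?_
    have h6 : 3 * (Q : ℝ) * (4 * Q' * (3 * P * (C * b * N ^ (-(0.05 : ℝ))))) =
        36 * C * N ^ (-(0.05 : ℝ)) * (Q * Q' * P * b) := by ring
    rw [h6]
    have h7 : 36 * C * N ^ (-(0.05 : ℝ)) * (Q * Q' * P * b) ≤ 36 * C * N ^ (-(0.05 : ℝ)) * (5 * N) :=
      mul_le_mul_of_nonneg_left hprod (by positivity)
    refine h7.trans (le_of_eq ?_)
    have h8 : N ^ (-(0.05 : ℝ)) * N = N ^ (0.95 : ℝ) := by
      nth_rewrite 2 [← Real.rpow_one N]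
      rw [← Real.rpow_add hNpos]
      norm_num
    rw [hV, ← h8]
    ring
  -- the exponent
  obtain ⟨l, hl⟩ := hchoose N h g1 hAh1 hhN Q T hQh hQ4 hT1 hTN
  have hmain := int_split cQp cG hXpos hV0 l (by positivity : 0 ≤ N ^ (0.12 : ℝ)) hT12 hsup
  have hcongr : (∫ τ in (N ^ (0.12 : ℝ))..T, ‖∑ q ∈ prm Q, ∑ s ∈ S, ∑ p ∈ prm P, ∑ r ∈ Ioc a b,
      z τ ((q * s * (p - 1) * r : ℕ) : ℝ)‖ ^ 2) =
      ∫ τ in (N ^ (0.12 : ℝ))..T, ‖Qp τ * Gs S P a b τ‖ ^ 2 := by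
    refine intervalIntegral.integral_congr fun τ _ => ?_
    simp only [A_eq hS1 hP, hQp]
  rw [hcongr]
  -- first term
  have hGint : ∫ τ in (-T)..T, ‖Gs S P a b τ‖ ^ 2 ≤ C1 * (T + M) * ∑ k ∈ Icc 1 M, ‖c k‖ ^ 2 := by
    have h1 := hmvt T hT1 M hM1 c
    have h2 : (∫ τ in (-T)..T, ‖Gs S P a b τ‖ ^ 2) =
        ∫ τ in (-T)..T, ‖∑ k ∈ Icc 1 M, c k * z τ k‖ ^ 2 := by
      refine intervalIntegral.integral_congr fun τ _ => ?_
      simp only [Gs]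
      rw [hc1 τ]
    rw [h2]
    exact h1
  have hS2 : ∑ k ∈ Icc 1 M, ‖c k‖ ^ 2 ≤ 432 * Real.log N ^ 5 * M := by
    refine (coef_sq hM1 hc2).trans ?_
    have hM0 : (0 : ℝ) ≤ M := Nat.cast_nonneg _
    have h1 : (1 + (Nat.log 2 M : ℝ)) ^ 2 ≤ (4 * Real.log N) ^ 2 :=
      pow_le_pow_left₀ (by positivity) l1 2
    have h2 : (1 + Real.log M) ^ 3 ≤ (3 * Real.log N) ^ 3 :=
      pow_le_pow_left₀ (by linarith) l2 3
    have h3 : (1 + (Nat.log 2 M : ℝ)) ^ 2 * (M * (1 + Real.log M) ^ 3) ≤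
        (4 * Real.log N) ^ 2 * (M * (3 * Real.log N) ^ 3) :=
      mul_le_mul h1 (mul_le_mul_of_nonneg_left h2 hM0)
        (mul_nonneg hM0 (pow_nonneg (by linarith) 3)) (by positivity)
    refine h3.trans (le_of_eq ?_)
    ring
  have hTQ : T ≤ 500 * (N / Q) := by
    refine hTh.trans ?_
    rw [← mul_div_assoc, div_le_div_iff₀ hh0 hQ0]
    nlinarith
  have ht1 : X ^ 2 * (∫ τ in (-T)..T, ‖Gs S P a b τ‖ ^ 2) ≤
      1 / 2 * (N ^ 2 * h ^ (-(3 / 200 : ℝ))) := by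
    refine (mul_le_mul_of_nonneg_left hGint (by positivity)).trans ?_
    exact term1 hC1 hQ1 g3 hXW hWpos.le hW2 hh0 hTQ (by linarith) hMQ hS2
      (Finset.sum_nonneg fun k _ => by positivity) hl1 g5 hlh
  -- second term
  have ht2 : V ^ 2 * (X ^ (2 * l))⁻¹ * (∫ τ in (-T)..T, ‖Qp τ‖ ^ (2 * l)) ≤
      1 / 2 * (N ^ 2 * h ^ (-(3 / 200 : ℝ))) := by
    refine term2 hC hC3 g3 hh0 hhN hV (by positivity) ?_ g6
    have h1 := hqm Q l T hQ1' hT1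
    have h2 : (X ^ (2 * l))⁻¹ = (Q : ℝ) ^ (-(2 * (l : ℝ) * (1 - 1 / 50))) := by
      rw [Real.rpow_neg hQ0.le, hX, ← Real.rpow_natCast, ← Real.rpow_mul hQ0.le]
      congr 2
      push_cast
      ring
    have h3 : (X ^ (2 * l))⁻¹ * (∫ τ in (-T)..T, ‖Qp τ‖ ^ (2 * l)) ≤
        (X ^ (2 * l))⁻¹ * (C3 * (T + (4 * (Q : ℝ)) ^ l) * (l.factorial * (4 * (Q : ℝ)) ^ l)) :=
      mul_le_mul_of_nonneg_left h1 (by positivity)
    refine h3.trans ?_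
    rw [h2]
    have h4 : (Q : ℝ) ^ (-(2 * (l : ℝ) * (1 - 1 / 50))) *
        (C3 * (T + (4 * (Q : ℝ)) ^ l) * (l.factorial * (4 * (Q : ℝ)) ^ l)) =
        C3 * ((T + (4 * (Q : ℝ)) ^ l) * (l.factorial * (4 * (Q : ℝ)) ^ l) *
          (Q : ℝ) ^ (-(2 * (l : ℝ) * (1 - 1 / 50)))) := by ring
    rw [h4]
    exact mul_le_mul_of_nonneg_left hl hC3.le
  linarith

end Pool.Agent.BMR
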