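import Pool.Agent.BMR.Defs
import Pool.Agent.Helper98.Bern.CH

/-!
# BMR-CHEB (1.0h): Chebyshev bounds for `prm`

Lower bounds: `theta_interval` (Helper98/Bern/CH.lean): `∑_{q ∈ prm Q} log q ≥ c Q`, each `log q ≤ log(4Q)`. Upper bounds: Mathlib
(`Chebyshev.theta_le_log4_mul_x`): `∑_{q ∈ prm Q} log q ≤ θ(4Q) ≤ 4 Q log 4`, each `log q ≥ log Q`.
`cheb_blocks`: block `i`: `∑_{q ∈ prm(4^i Q)} 1/q` is between `c/(4 log(4^{i+1} Q))` and `C/log(4^i Q)`, and
`log Q ≤ log(4^i Q) ≤ log(4^{i+1}Q) ≤ log Q + (I+1) log 4 ≤ 4 log Q` for `i < I = ⌊η log Q⌋`; `η log Q/2 ≤ I ≤ η log Q` for `Q ≥ Q₀(η)`.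
-/

open Finset

namespace Pool.Agent.BMR

private theorem ch_pos_log {Q : ℕ} (hQ : 2 ≤ Q) : 0 < Real.log Q :=
  Real.log_pos (by exact_mod_cast (by omega : 1 < Q))

private theorem ch_card_le {Q : ℕ} (hQ : 2 ≤ Q) :
    ((prm Q).card : ℝ) * Real.log Q ≤ 4 * Real.log 4 * Q := by
  have hlog := ch_pos_log hQ
  have hQ0 : (0 : ℝ) < Q := by exact_mod_cast (by omega : 0 < Q)
  have h1 : ((prm Q).card : ℝ) * Real.log Q ≤ ∑ q ∈ prm Q, Real.log q := by
    rw [← nsmul_eq_mul]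
    refine card_nsmul_le_sum _ _ _ fun q hq => ?_
    have hq1 : Q < q := by
      unfold prm at hq
      exact (mem_Ioc.mp (mem_filter.mp hq).1).1
    exact Real.log_le_log hQ0 (by exact_mod_cast hq1.le)
  have h2 : ∑ q ∈ prm Q, Real.log q ≤ Chebyshev.theta ((4 * Q : ℕ) : ℝ) := by
    rw [Chebyshev.theta_eq_sum_Icc, Nat.floor_natCast]
    refine sum_le_sum_of_subset_of_nonneg ?_ ?_
    · intro q hq
      unfold prm at hq
      rw [mem_filter] at hq ⊢
      have := mem_Ioc.mp hq.1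
      exact ⟨mem_Icc.mpr ⟨by omega, this.2⟩, hq.2⟩
    · intro q hq _
      exact Real.log_natCast_nonneg q
  have h3 := Chebyshev.theta_le_log4_mul_x (x := ((4 * Q : ℕ) : ℝ)) (Nat.cast_nonneg _)
  have h4 : Real.log 4 * ((4 * Q : ℕ) : ℝ) = 4 * Real.log 4 * Q := by
    push_cast
    ring
  linarith

theorem cheb_upper : ∃ C : ℝ, 0 < C ∧ ∀ Q : ℕ, 2 ≤ Q → ((prm Q).card : ℝ) ≤ C * Q / Real.log Q := by
  refine ⟨4 * Real.log 4, ?_, fun Q hQ => ?_⟩
  · have : 0 < Real.log 4 := Real.log_pos (by norm_num)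
    positivity
  · rw [le_div_iff₀ (ch_pos_log hQ)]
    exact ch_card_le hQ

private theorem ch_card_ge : ∃ c : ℝ, 0 < c ∧ ∃ Q₀ : ℕ, 2 ≤ Q₀ ∧ ∀ Q : ℕ, Q₀ ≤ Q →
    c * Q ≤ ((prm Q).card : ℝ) * Real.log (4 * Q) := by
  obtain ⟨c, hc, P0, h⟩ := Pool.Agent.Helper98.Bern.theta_interval
  refine ⟨c, hc, max 2 P0, le_max_left _ _, fun Q hQ => ?_⟩
  have hQ2 : 2 ≤ Q := (le_max_left _ _).trans hQ
  have h1 := (h Q ((le_max_right _ _).trans hQ)).1
  refine h1.trans ?_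
  rw [← nsmul_eq_mul]
  change ∑ q ∈ prm Q, Real.log q ≤ _
  refine sum_le_card_nsmul _ _ _ fun q hq => ?_
  unfold prm at hq
  have h2 := mem_Ioc.mp (mem_filter.mp hq).1
  have h3 : (0 : ℝ) < q := by exact_mod_cast (by omega : 0 < q)
  have h4 : (q : ℝ) ≤ 4 * Q := by exact_mod_cast h2.2
  exact Real.log_le_log h3 h4

private theorem ch_log4 : Real.log 4 ≤ 2 := by
  have h1 : Real.log 4 = 2 * Real.log 2 := by
    rw [show (4 : ℝ) = 2 ^ 2 by norm_num, Real.log_pow]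
    norm_num
  have h2 := Real.log_two_lt_d9
  rw [h1]
  linarith

theorem cheb_lower : ∃ c : ℝ, 0 < c ∧ ∃ Q₀ : ℕ, 2 ≤ Q₀ ∧ ∀ Q : ℕ, Q₀ ≤ Q →
    c / Real.log Q ≤ ∑ p ∈ prm Q, 1 / ((p : ℝ) - 1) := by
  obtain ⟨c, hc, Q₀, hQ₀, h⟩ := ch_card_ge
  refine ⟨c / 16, by positivity, max Q₀ 4, hQ₀.trans (le_max_left _ _), fun Q hQ => ?_⟩
  have hQQ := h Q ((le_max_left _ _).trans hQ)
  have hQ4 : 4 ≤ Q := (le_max_right _ _).trans hQ
  have hlog := ch_pos_log (Q := Q) (by omega)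
  have hQ0 : (0 : ℝ) < Q := by exact_mod_cast (by omega : 0 < Q)
  have hl : Real.log (4 * Q) ≤ 2 * Real.log Q := by
    rw [Real.log_mul (by norm_num) hQ0.ne']
    have : Real.log 4 ≤ Real.log Q := Real.log_le_log (by norm_num) (by exact_mod_cast hQ4)
    linarith
  have h1 : ((prm Q).card : ℝ) * (1 / (4 * Q)) ≤ ∑ p ∈ prm Q, 1 / ((p : ℝ) - 1) := by
    rw [← nsmul_eq_mul]
    refine card_nsmul_le_sum _ _ _ fun q hq => ?_
    unfold prm at hq
    have h2 := mem_Ioc.mp (mem_filter.mp hq).1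
    have h3 : (Q : ℝ) < q := by exact_mod_cast h2.1
    have h4 : (q : ℝ) ≤ 4 * Q := by exact_mod_cast h2.2
    have h5 : (4 : ℝ) ≤ Q := by exact_mod_cast hQ4
    exact one_div_le_one_div_of_le (by linarith) (by linarith)
  refine le_trans ?_ h1
  have h2 : c * Q ≤ ((prm Q).card : ℝ) * (2 * Real.log Q) :=
    hQQ.trans (mul_le_mul_of_nonneg_left hl (Nat.cast_nonneg _))
  rw [mul_one_div, div_le_div_iff₀ hlog (by positivity)]
  have hcard : (0 : ℝ) ≤ ((prm Q).card : ℝ) := Nat.cast_nonneg _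
  have h3 : 0 ≤ ((prm Q).card : ℝ) * Real.log Q := mul_nonneg hcard hlog.le
  nlinarith

theorem cheb_blocks : ∃ c C : ℝ, 0 < c ∧ 0 < C ∧ ∀ η : ℝ, 0 < η → η ≤ 1 → ∃ Q₀ : ℕ, 2 ≤ Q₀ ∧
    ∀ Q : ℕ, Q₀ ≤ Q → c * η ≤ ∑ i ∈ range ⌊η * Real.log Q⌋₊, ∑ q ∈ prm (4 ^ i * Q), 1 / (q : ℝ) ∧
      ∑ i ∈ range ⌊η * Real.log Q⌋₊, ∑ q ∈ prm (4 ^ i * Q), 1 / (q : ℝ) ≤ C * η := by
  obtain ⟨c, hc, P0, hP0, hlow⟩ := ch_card_ge
  have hl4 : 0 < Real.log 4 := Real.log_pos (by norm_num)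
  refine ⟨c / 24, 4 * Real.log 4, by positivity, by positivity, fun η hη hη1 => ?_⟩
  obtain ⟨n₀, hn₀⟩ := exists_nat_ge (Real.exp (2 / η))
  refine ⟨max P0 n₀, hP0.trans (le_max_left _ _), fun Q hQ => ?_⟩
  have hQP : P0 ≤ Q := (le_max_left _ _).trans hQ
  have hQ2 : 2 ≤ Q := hP0.trans hQP
  have hQ0 : (0 : ℝ) < Q := by exact_mod_cast (by omega : 0 < Q)
  have hL := ch_pos_log hQ2
  have hηL : 2 ≤ η * Real.log Q := by
    have h1 : Real.exp (2 / η) ≤ Q := hn₀.trans (by exact_mod_cast (le_max_right _ _).trans hQ)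
    have h2 : 2 / η ≤ Real.log Q := (Real.le_log_iff_exp_le hQ0).mpr h1
    rw [div_le_iff₀ hη] at h2
    linarith
  obtain ⟨I, hI⟩ : ∃ I, I = ⌊η * Real.log Q⌋₊ := ⟨_, rfl⟩
  rw [← hI]
  have hI1 : (I : ℝ) ≤ η * Real.log Q := by
    rw [hI]; exact Nat.floor_le (by linarith)
  have hI2 : η * Real.log Q < I + 1 := by
    rw [hI]; exact Nat.lt_floor_add_one _
  have hI3 : η * Real.log Q / 2 ≤ I := by linarith
  -- one block
  have hblock : ∀ i ∈ range I, c / (12 * Real.log Q) ≤ ∑ q ∈ prm (4 ^ i * Q), 1 / (q : ℝ) ∧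
      ∑ q ∈ prm (4 ^ i * Q), 1 / (q : ℝ) ≤ 4 * Real.log 4 / Real.log Q := by
    intro i hi
    have hi' : ((i : ℝ) + 1) ≤ I := by exact_mod_cast mem_range.mp hi
    obtain ⟨R, hR⟩ : ∃ R, R = 4 ^ i * Q := ⟨_, rfl⟩
    rw [← hR]
    have hRQ : Q ≤ R := by
      rw [hR]
      exact Nat.le_mul_of_pos_left _ (by positivity)
    have hR0 : (0 : ℝ) < R := by exact_mod_cast (by omega : 0 < R)
    have hR2 : 2 ≤ R := hQ2.trans hRQ
    have hlR : Real.log (4 * R) ≤ 3 * Real.log Q := by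
      have h1 : (4 : ℝ) * R = 4 ^ (i + 1) * Q := by
        rw [hR]
        push_cast
        ring
      rw [h1, Real.log_mul (by positivity) hQ0.ne', Real.log_pow]
      push_cast
      have h2 : ((i : ℝ) + 1) ≤ Real.log Q := by
        have : η * Real.log Q ≤ 1 * Real.log Q := mul_le_mul_of_nonneg_right hη1 hL.le
        linarith
      have h3 : ((i : ℝ) + 1) * Real.log 4 ≤ Real.log Q * 2 :=
        mul_le_mul h2 ch_log4 hl4.le hL.le
      linarith
    have hlRpos : 0 < Real.log R := ch_pos_log hR2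
    have hlQR : Real.log Q ≤ Real.log R := Real.log_le_log hQ0 (by exact_mod_cast hRQ)
    have hcard : (0 : ℝ) ≤ ((prm R).card : ℝ) := Nat.cast_nonneg _
    constructor
    · have h1 : ((prm R).card : ℝ) * (1 / (4 * R)) ≤ ∑ q ∈ prm R, 1 / (q : ℝ) := by
        rw [← nsmul_eq_mul]
        refine card_nsmul_le_sum _ _ _ fun q hq => ?_
        unfold prm at hq
        have h2 := mem_Ioc.mp (mem_filter.mp hq).1
        have h3 : (0 : ℝ) < q := by exact_mod_cast (by omega : 0 < q)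
        have h4 : (q : ℝ) ≤ 4 * R := by exact_mod_cast h2.2
        exact one_div_le_one_div_of_le h3 h4
      refine le_trans ?_ h1
      have h2 := (hlow R (hQP.trans hRQ)).trans (mul_le_mul_of_nonneg_left hlR hcard)
      rw [mul_one_div, div_le_div_iff₀ (by positivity) (by positivity)]
      nlinarith
    · have h1 : ∑ q ∈ prm R, 1 / (q : ℝ) ≤ ((prm R).card : ℝ) * (1 / R) := by
        rw [← nsmul_eq_mul]
        refine sum_le_card_nsmul _ _ _ fun q hq => ?_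
        unfold prm at hq
        have h2 := mem_Ioc.mp (mem_filter.mp hq).1
        exact one_div_le_one_div_of_le hR0 (by exact_mod_cast h2.1.le)
      refine h1.trans ?_
      have h2 := ch_card_le hR2
      have h3 : ((prm R).card : ℝ) * Real.log Q ≤ 4 * Real.log 4 * R :=
        (mul_le_mul_of_nonneg_left hlQR hcard).trans h2
      rw [mul_one_div, div_le_div_iff₀ hR0 hL]
      exact h3
  constructor
  · have h1 : (I : ℝ) * (c / (12 * Real.log Q)) ≤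
        ∑ i ∈ range I, ∑ q ∈ prm (4 ^ i * Q), 1 / (q : ℝ) := by
      have := card_nsmul_le_sum (range I) (fun i => ∑ q ∈ prm (4 ^ i * Q), 1 / (q : ℝ))
        (c / (12 * Real.log Q)) (fun i hi => (hblock i hi).1)
      rwa [card_range, nsmul_eq_mul] at this
    refine le_trans ?_ h1
    have h2 : c / 24 * η = η * Real.log Q / 2 * (c / (12 * Real.log Q)) := by
      field_simp
      ring
    rw [h2]
    exact mul_le_mul_of_nonneg_right hI3 (by positivity)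
  · have h1 : ∑ i ∈ range I, ∑ q ∈ prm (4 ^ i * Q), 1 / (q : ℝ) ≤
        (I : ℝ) * (4 * Real.log 4 / Real.log Q) := by
      have := sum_le_card_nsmul (range I) (fun i => ∑ q ∈ prm (4 ^ i * Q), 1 / (q : ℝ))
        (4 * Real.log 4 / Real.log Q) (fun i hi => (hblock i hi).2)
      rwa [card_range, nsmul_eq_mul] at this
    refine h1.trans ?_
    have h2 : 4 * Real.log 4 * η = η * Real.log Q * (4 * Real.log 4 / Real.log Q) := by
      field_simp
    rw [h2]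
    exact mul_le_mul_of_nonneg_right hI1 (by positivity)

end Pool.Agent.BMR
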