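import Pool.Agent.BMR.FJ

/-!
# BMR-CNT: sums of the kernel over an interval of integers

`y = exp u / c`, `log(c r) - u = log(r/y)`.
-/

open Finset

namespace Pool.Agent.BMR

private theorem log_eq {c u : ℝ} (hc : 0 < c) {r : ℝ} (hr : 0 < r) :
    Real.log (c * r) - u = Real.log (r / (Real.exp u / c)) := by
  have h1 : r / (Real.exp u / c) = c * r / Real.exp u := by
    field_simp
  rw [h1, Real.log_div (by positivity) (Real.exp_ne_zero u), Real.log_exp]

private theorem log_up {y r : ℝ} (hy : 0 < y) (hr : 0 < r) : Real.log (r / y) ≤ (r - y) / y := by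
  have h1 := Real.log_le_sub_one_of_pos (div_pos hr hy)
  have h2 : (r - y) / y = r / y - 1 := by
    field_simp
  linarith

private theorem log_dn {y r : ℝ} (hy : 0 < y) (hr : 0 < r) : (r - y) / r ≤ Real.log (r / y) := by
  have h1 := log_up hr hy
  have h2 : Real.log (y / r) = - Real.log (r / y) := by
    rw [← Real.log_inv, inv_div]
  have h3 : (y - r) / r = - ((r - y) / r) := by ring
  rw [h2, h3] at h1
  linarith

theorem fj_lower (c u L : ℝ) (hc : 0 < c) (hL : 1 ≤ L) (a b : ℕ) (ha : 2 * (a : ℝ) ≤ Real.exp u / c)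
    (hb : 2 * (Real.exp u / c) ≤ b) (hy : 10 * L ≤ Real.exp u / c) :
    1 / 5 * (Real.exp u / c / L) ≤ ∑ r ∈ Ioc a b, fj (L * (Real.log (c * r) - u)) := by
  obtain ⟨y, hye⟩ : ∃ y : ℝ, y = Real.exp u / c := ⟨_, rfl⟩
  have hlog : ∀ r : ℝ, 0 < r → Real.log (c * r) - u = Real.log (r / y) := fun r hr => by
    rw [hye]
    exact log_eq hc hr
  rw [← hye] at ha hb hy ⊢
  have hL0 : 0 < L := by linarith
  have hy0 : 0 < y := by linarith
  obtain ⟨t, ht⟩ : ∃ t : ℝ, t = y / (2 * L) := ⟨_, rfl⟩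
  have ht0 : 0 < t := by
    rw [ht]
    positivity
  have htL : t * L = y / 2 := by
    rw [ht]
    field_simp
  have ht2 : 2 * t ≤ y := by nlinarith
  have hty : y / L = 2 * t := by
    rw [ht]
    field_simp
  have ht5 : 5 ≤ t := by nlinarith
  have hsub : Ioc ⌊y - t⌋₊ ⌊y + t⌋₊ ⊆ Ioc a b := by
    apply Ioc_subset_Ioc
    · apply Nat.le_floor
      linarith
    · apply Nat.floor_le_of_le
      linarith
  have hcard : 2 * t - 1 ≤ ((Ioc ⌊y - t⌋₊ ⌊y + t⌋₊).card : ℝ) := by
    rw [Nat.card_Ioc]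
    have h1 : (⌊y - t⌋₊ : ℝ) ≤ y - t := Nat.floor_le (by linarith)
    have h2 : y + t < (⌊y + t⌋₊ : ℝ) + 1 := Nat.lt_floor_add_one _
    have h3 : ⌊y - t⌋₊ ≤ ⌊y + t⌋₊ := Nat.floor_le_floor (by linarith)
    rw [Nat.cast_sub h3]
    linarith
  calc 1 / 5 * (y / L) ≤ ((Ioc ⌊y - t⌋₊ ⌊y + t⌋₊).card : ℝ) * (2 / 5) := by
        rw [hty]
        linarith
    _ = ∑ r ∈ Ioc ⌊y - t⌋₊ ⌊y + t⌋₊, (2 / 5 : ℝ) := by
        rw [sum_const, nsmul_eq_mul]
    _ ≤ ∑ r ∈ Ioc ⌊y - t⌋₊ ⌊y + t⌋₊, fj (L * (Real.log (c * r) - u)) := by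
        apply sum_le_sum
        intro r hr
        rw [mem_Ioc] at hr
        have h1 : y - t < r := (Nat.floor_lt (by linarith)).1 hr.1
        have h2 : (r : ℝ) ≤ y + t := (Nat.le_floor_iff (by linarith)).1 hr.2
        have hr0 : (0 : ℝ) < r := by linarith
        rw [hlog r hr0]
        apply fj_ge
        rw [abs_mul, abs_of_pos hL0]
        have h3 := log_up hy0 hr0
        have h4 := log_dn hy0 hr0
        have h5 : (r - y) / y ≤ t / y := div_le_div_of_nonneg_right (by linarith) hy0.le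
        have h6 : - (2 * t / y) ≤ (r - y) / r := by
          rw [le_div_iff₀ hr0]
          have h7 : 2 * t / y * (y / 2) = t := by field_simp
          have h8 : 2 * t / y * (y / 2) ≤ 2 * t / y * r :=
            mul_le_mul_of_nonneg_left (by linarith) (by positivity)
          linarith
        have h9 : |Real.log (r / y)| ≤ 2 * t / y := by
          rw [abs_le]
          constructor
          · linarith
          · have h10 : t / y ≤ 2 * t / y := div_le_div_of_nonneg_right (by linarith) hy0.le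
            linarith
        have h11 : L * (2 * t / y) = 1 := by
          field_simp
          linarith
        have h12 := mul_le_mul_of_nonneg_left h9 hL0.le
        linarith
    _ ≤ ∑ r ∈ Ioc a b, fj (L * (Real.log (c * r) - u)) :=
        sum_le_sum_of_subset_of_nonneg hsub fun _ _ _ => fj_nonneg _

private theorem sum_aux {K : ℝ} (hK : 0 < K) (s : Finset ℕ) (φ : ℕ → ℕ)
    (hφ : Set.InjOn φ (s : Set ℕ)) (g : ℕ → ℝ) (h1 : ∀ r ∈ s, g r ≤ 1)
    (h2 : ∀ r ∈ s, 0 < φ r → g r ≤ K ^ 2 / (φ r : ℝ) ^ 2) : ∑ r ∈ s, g r ≤ 2 * K + 2 := by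
  obtain ⟨k, hk⟩ : ∃ k : ℕ, k = ⌈K⌉₊ := ⟨_, rfl⟩
  have hk0 : 0 < k := by
    rw [hk]
    exact Nat.ceil_pos.2 hK
  have hkK : K ≤ k := by
    rw [hk]
    exact Nat.le_ceil K
  have hkK' : (k : ℝ) ≤ K + 1 := by
    rw [hk]
    exact (Nat.ceil_lt_add_one hK.le).le
  obtain ⟨n, hn⟩ : ∃ n : ℕ, n = k + (s.image φ).sup id := ⟨_, rfl⟩
  have hkn : k ≤ n := by omega
  have hsub : s.image φ ⊆ range (k + 1) ∪ Ioc k n := by
    intro j hj
    have h3 : j ≤ (s.image φ).sup id := le_sup (f := id) hj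
    simp only [mem_union, mem_range, mem_Ioc]
    omega
  let Hf : ℕ → ℝ := fun j => if j ≤ k then 1 else K ^ 2 / (j : ℝ) ^ 2
  have hH0 : ∀ j, 0 ≤ Hf j := by
    intro j
    dsimp only [Hf]
    split_ifs
    · norm_num
    · positivity
  have hdis : Disjoint (range (k + 1)) (Ioc k n) := by
    rw [disjoint_left]
    intro j hj hj'
    rw [mem_range] at hj
    rw [mem_Ioc] at hj'
    omega
  calc ∑ r ∈ s, g r ≤ ∑ r ∈ s, Hf (φ r) := by
        apply sum_le_sum
        intro r hr
        dsimp only [Hf]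
        split_ifs with h
        · exact h1 r hr
        · exact h2 r hr (by omega)
    _ = ∑ j ∈ s.image φ, Hf j := (sum_image hφ).symm
    _ ≤ ∑ j ∈ range (k + 1) ∪ Ioc k n, Hf j :=
        sum_le_sum_of_subset_of_nonneg hsub fun _ _ _ => hH0 _
    _ = ∑ j ∈ range (k + 1), Hf j + ∑ j ∈ Ioc k n, Hf j := sum_union hdis
    _ ≤ (K + 2) + K := by
        apply add_le_add
        · have h3 : ∑ j ∈ range (k + 1), Hf j = ∑ j ∈ range (k + 1), (1 : ℝ) := by
            apply sum_congr rfl
            intro j hj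
            rw [mem_range] at hj
            dsimp only [Hf]
            rw [if_pos (by omega)]
          rw [h3, sum_const, card_range, nsmul_eq_mul]
          push_cast
          linarith
        · have h3 : ∑ j ∈ Ioc k n, Hf j = K ^ 2 * ∑ j ∈ Ioc k n, ((j : ℝ) ^ 2)⁻¹ := by
            rw [mul_sum]
            apply sum_congr rfl
            intro j hj
            rw [mem_Ioc] at hj
            dsimp only [Hf]
            rw [if_neg (by omega), div_eq_mul_inv]
          have h4 := sum_Ioc_inv_sq_le_sub (α := ℝ) hk0.ne' hkn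
          have hkr : (0 : ℝ) < k := by exact_mod_cast hk0
          have h5 : (0 : ℝ) ≤ (n : ℝ)⁻¹ := by positivity
          have h6 : K ^ 2 * (k : ℝ)⁻¹ ≤ K := by
            rw [← div_eq_mul_inv, div_le_iff₀ hkr]
            nlinarith
          rw [h3]
          refine le_trans (mul_le_mul_of_nonneg_left ?_ (sq_nonneg K)) h6
          linarith
    _ = 2 * K + 2 := by ring

theorem fj_upper (c u L : ℝ) (hc : 0 < c) (hL : 1 ≤ L) (a b : ℕ)
    (hb : (b : ℝ) ≤ 1000 * (Real.exp u / c)) :
    ∑ r ∈ Ioc a b, fj (L * (Real.log (c * r) - u)) ≤ 10000 * (Real.exp u / c / L + 1) := by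
  obtain ⟨y, hye⟩ : ∃ y : ℝ, y = Real.exp u / c := ⟨_, rfl⟩
  have hlog : ∀ r : ℝ, 0 < r → Real.log (c * r) - u = Real.log (r / y) := fun r hr => by
    rw [hye]
    exact log_eq hc hr
  have hy0 : 0 < y := by
    rw [hye]
    positivity
  rw [← hye] at hb ⊢
  have hL0 : 0 < L := by linarith
  obtain ⟨K, hK⟩ : ∃ K : ℝ, K = 2000 * y / L := ⟨_, rfl⟩
  have hK0 : 0 < K := by
    rw [hK]
    positivity
  have hmain : ∀ (r j : ℕ), 0 < r → r ≤ b → 0 < j → (j : ℝ) ≤ |(r : ℝ) - y| →
      fj (L * (Real.log (c * r) - u)) ≤ K ^ 2 / (j : ℝ) ^ 2 := by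
    intro r j hr hrb hj hjr
    have hr0 : (0 : ℝ) < r := by exact_mod_cast hr
    have hj0 : (0 : ℝ) < j := by exact_mod_cast hj
    have hrb' : (r : ℝ) ≤ b := by exact_mod_cast hrb
    rw [hlog r hr0]
    have h1 : (j : ℝ) / (1000 * y) ≤ |Real.log (r / y)| := by
      rcases le_total y r with h | h
      · rw [abs_of_nonneg (sub_nonneg.2 h)] at hjr
        refine le_trans ?_ (le_abs_self _)
        refine le_trans ?_ (log_dn hy0 hr0)
        exact div_le_div₀ (by linarith) hjr hr0 (by linarith)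
      · rw [abs_of_nonpos (sub_nonpos.2 h)] at hjr
        refine le_trans ?_ (neg_le_abs _)
        have h2 := log_up hy0 hr0
        have h3 : - ((r - y) / y) = (y - r) / y := by ring
        have h4 : (j : ℝ) / (1000 * y) ≤ (y - r) / y :=
          div_le_div₀ (by linarith) (by linarith) hy0 (by linarith)
        linarith
    have h5 : 0 < L * (j / (1000 * y)) := by positivity
    have h6 : L * (j / (1000 * y)) ≤ |L * Real.log (r / y)| := by
      rw [abs_mul, abs_of_pos hL0]
      exact mul_le_mul_of_nonneg_left h1 hL0.le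
    have h7 : L * Real.log (r / y) ≠ 0 := by
      intro h
      rw [h, abs_zero] at h6
      linarith
    refine (fj_le _ h7).trans ?_
    have h8 : (L * (j / (1000 * y))) ^ 2 ≤ (L * Real.log (r / y)) ^ 2 := by
      rw [← sq_abs (L * Real.log (r / y))]
      exact pow_le_pow_left₀ h5.le h6 2
    refine (div_le_div_of_nonneg_left (by norm_num) (by positivity) h8).trans ?_
    rw [hK]
    apply le_of_eq
    field_simp
    norm_num
  obtain ⟨Y, hY⟩ : ∃ Y : ℕ, Y = ⌊y⌋₊ := ⟨_, rfl⟩
  have hY1 : (Y : ℝ) ≤ y := by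
    rw [hY]
    exact Nat.floor_le hy0.le
  have hY2 : y < Y + 1 := by
    rw [hY]
    exact Nat.lt_floor_add_one y
  rw [← sum_filter_add_sum_filter_not (Ioc a b) (fun r => r ≤ Y)]
  have hA : ∑ r ∈ (Ioc a b).filter (fun r => r ≤ Y), fj (L * (Real.log (c * r) - u)) ≤
      2 * K + 2 := by
    apply sum_aux hK0 _ (fun r => Y - r) _ _ (fun r _ => fj_le_one _)
    · intro r hr hj
      rw [mem_filter, mem_Ioc] at hr
      refine hmain r (Y - r) (by omega) (by omega) hj ?_
      rw [Nat.cast_sub hr.2]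
      refine le_trans ?_ (neg_le_abs _)
      linarith
    · intro r hr r' hr' h
      rw [mem_coe, mem_filter, mem_Ioc] at hr hr'
      dsimp only at h
      omega
  have hB : ∑ r ∈ (Ioc a b).filter (fun r => ¬ r ≤ Y), fj (L * (Real.log (c * r) - u)) ≤
      2 * K + 2 := by
    apply sum_aux hK0 _ (fun r => r - (Y + 1)) _ _ (fun r _ => fj_le_one _)
    · intro r hr hj
      rw [mem_filter, mem_Ioc] at hr
      refine hmain r (r - (Y + 1)) (by omega) (by omega) hj ?_
      rw [Nat.cast_sub (by omega)]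
      refine le_trans ?_ (le_abs_self _)
      push_cast
      linarith
    · intro r hr r' hr' h
      rw [mem_coe, mem_filter, mem_Ioc] at hr hr'
      dsimp only at h
      omega
  have hK2 : K = 2000 * (y / L) := by
    rw [hK]
    ring
  have h9 : 0 ≤ y / L := by positivity
  linarith

end Pool.Agent.BMR
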