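import Mathlib

/-!
# BMR: products `m (p - 1)` in almost all short intervals (Matomaki-Radziwill, one level); definitions

Project for MP_b354c3_nt (irreducibility of Bernoulli polynomials for almost all even degrees), architect helper25.
Paper proof: `/team-store/bmr_proof.md`.
-/

namespace Pool.Agent.BMR

open Finset

/-- `x ^ (i τ)` -/
noncomputable def z (τ x : ℝ) : ℂ := Complex.exp (Complex.I * ((τ * Real.log x : ℝ) : ℂ))

theorem norm_z (τ x : ℝ) : ‖z τ x‖ = 1 := by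
  unfold z
  rw [mul_comm]
  exact Complex.norm_exp_ofReal_mul_I _

theorem z_mul (τ : ℝ) {x y : ℝ} (hx : 0 < x) (hy : 0 < y) : z τ (x * y) = z τ x * z τ y := by
  unfold z
  rw [← Complex.exp_add, Real.log_mul hx.ne' hy.ne']
  congr 1
  push_cast
  ring

theorem z_neg (τ x : ℝ) : z (-τ) x = star (z τ x) := by
  unfold z
  rw [Complex.star_def, ← Complex.exp_conj]
  congr 1
  simp

theorem continuous_z (x : ℝ) : Continuous fun τ => z τ x := by
  unfold z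
  fun_prop

/-- the Fejer kernel -/
noncomputable def fj (v : ℝ) : ℝ := if v = 0 then 1 else (Real.sin (v / 2) / (v / 2)) ^ 2

/-- the primes in `(Q, 4Q]` -/
def prm (Q : ℕ) : Finset ℕ := (Ioc Q (4 * Q)).filter Nat.Prime

theorem mem_prm {Q q : ℕ} : q ∈ prm Q ↔ (Q < q ∧ q ≤ 4 * Q) ∧ q.Prime := by
  unfold prm
  rw [mem_filter, mem_Ioc]

/-- number of primes `p` in `(P, 4P]` with `p - 1 ∣ k` -/
def rho (P k : ℕ) : ℕ := ((prm P).filter (fun p => (p - 1) ∣ k)).card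

/-- lower end of the range of `r` -/
def ra (N D : ℕ) : ℕ := N / (512 * D)

/-- upper end of the range of `r` -/
def rb (N D : ℕ) : ℕ := 4 * N / D + 1

/-- number of representations `k = q s (p-1) r` -/
def WW (N P Q Q' : ℕ) (S : Finset ℕ) (k : ℕ) : ℕ :=
  ((prm Q ×ˢ S ×ˢ prm P ×ˢ Ioc (ra N (Q * Q' * P)) (rb N (Q * Q' * P))).filter
    (fun x => x.1 * x.2.1 * (x.2.2.1 - 1) * x.2.2.2 = k)).card

/-- smoothed number of the products `q s (p-1) r` near `exp v` -/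
noncomputable def FF (N P Q Q' : ℕ) (S : Finset ℕ) (L v : ℝ) : ℝ :=
  ∑ q ∈ prm Q, ∑ s ∈ S, ∑ p ∈ prm P, ∑ r ∈ Ioc (ra N (Q * Q' * P)) (rb N (Q * Q' * P)),
    fj (L * (Real.log ((q * s * (p - 1) * r : ℕ) : ℝ) - v))

/-- number of pairs `(p, e)`, `e₀ < e ≤ e₀ + h`, `p` prime, `N^0.51 < p ≤ N^0.53`, `p - 1 ∣ n - e` -/
noncomputable def pairs (N n e₀ h : ℕ) : ℕ :=
  ((Ioc e₀ (e₀ + h) ×ˢ (range (N + 1)).filter
      (fun p : ℕ => p.Prime ∧ (N : ℝ) ^ (0.51 : ℝ) < (p : ℝ) ∧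
        (p : ℝ) ≤ (N : ℝ) ^ (0.53 : ℝ))).filter
    (fun x : ℕ × ℕ => (x.2 - 1) ∣ (n - x.1))).card

end Pool.Agent.BMR
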