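import Pool.Agent.BMR.LONG

/-!
# BMR-EQF (0.8h): the interface for the Hankel argument (helper98)

From `eq_pairs`: for `n` in `(N/2, N]`, a pair `(e, p)` counted by `pairs N n u h` has `e ≤ u + h ≤ 2N^(1/5) < p - 1` and `(p-1) ∣ (n-e)`, `e ≤ n`,
so `n % (p-1) = e`; the map `(e, p) ↦ p` is injective on these pairs. So the number of primes is at least `pairs N n u h`.
`N^(1/5) ≤ √N`, `N^0.53 ≤ N^(79/100)`.
-/

open Finset

namespace Pool.Agent.BMR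

private theorem eqf_mod {n e m : ℕ} (hen : e ≤ n) (hem : e < m) (hd : m ∣ n - e) : n % m = e := by
  obtain ⟨k, hk⟩ := hd
  have h1 : n = e + m * k := by omega
  rw [h1, Nat.add_mul_mod_self_left, Nat.mod_eq_of_lt hem]

private theorem eqf_num {N : ℕ} (hN : 10 ^ 10 ≤ N) :
    (10 : ℝ) * (N : ℝ) ^ (1 / 5 : ℝ) ≤ (N : ℝ) ^ (0.51 : ℝ) ∧ (1 : ℝ) ≤ (N : ℝ) ^ (1 / 5 : ℝ) ∧
      (10 : ℝ) * (N : ℝ) ^ (1 / 5 : ℝ) ≤ N := by
  have hN' : (10 : ℝ) ^ (10 : ℕ) ≤ N := by exact_mod_cast hN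
  have hpos : (0 : ℝ) < N := lt_of_lt_of_le (by norm_num) hN'
  have hN1 : (1 : ℝ) ≤ N := le_trans (by norm_num) hN'
  have h10 : (10 : ℝ) ≤ (N : ℝ) ^ (1 / 10 : ℝ) := by
    have h1 : ((10 : ℝ) ^ (10 : ℕ)) ^ (1 / 10 : ℝ) = 10 := by
      rw [← Real.rpow_natCast, ← Real.rpow_mul (by norm_num)]
      norm_num
    calc (10 : ℝ) = ((10 : ℝ) ^ (10 : ℕ)) ^ (1 / 10 : ℝ) := h1.symm
      _ ≤ (N : ℝ) ^ (1 / 10 : ℝ) := Real.rpow_le_rpow (by positivity) hN' (by norm_num)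
  have h15 : (1 : ℝ) ≤ (N : ℝ) ^ (1 / 5 : ℝ) := Real.one_le_rpow hN1 (by norm_num)
  have h0 : (0 : ℝ) ≤ (N : ℝ) ^ (1 / 5 : ℝ) := by linarith
  have key : (10 : ℝ) * (N : ℝ) ^ (1 / 5 : ℝ) ≤ (N : ℝ) ^ (1 / 10 + 1 / 5 : ℝ) := by
    rw [Real.rpow_add hpos]
    exact mul_le_mul_of_nonneg_right h10 h0
  refine ⟨key.trans (Real.rpow_le_rpow_of_exponent_le hN1 (by norm_num)), h15, key.trans ?_⟩
  calc (N : ℝ) ^ (1 / 10 + 1 / 5 : ℝ) ≤ (N : ℝ) ^ (1 : ℝ) :=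
        Real.rpow_le_rpow_of_exponent_le hN1 (by norm_num)
    _ = N := Real.rpow_one _

theorem EQ : ∃ c c' A : ℝ, 0 < c ∧ 0 < c' ∧ 0 < A ∧ ∃ N₀ : ℕ, ∀ N : ℕ, N₀ ≤ N → ∀ u h : ℕ,
    Real.log N ^ A ≤ h → h ≤ u → (u : ℝ) ≤ (N : ℝ) ^ (1 / 5 : ℝ) →
      (((Ioc (N / 2) N).filter (fun n => Even n ∧
        (((Icc 1 N).filter (fun p : ℕ => p.Prime ∧ (N : ℝ) ^ (51 / 100 : ℝ) < p ∧
          (p : ℝ) ≤ (N : ℝ) ^ (79 / 100 : ℝ) ∧
          u < n % (p - 1) ∧ n % (p - 1) ≤ u + h)).card : ℝ) < c * h)).card : ℝ) ≤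
        N * (h : ℝ) ^ (-c') := by
  obtain ⟨c, A, κ, hc, hA, hκ, N₁, H⟩ := eq_pairs
  refine ⟨c, κ, A, hc, hκ, hA, max N₁ (10 ^ 10), ?_⟩
  intro N hN u h hlog hhu hu
  have hN1 : N₁ ≤ N := (le_max_left _ _).trans hN
  have hN2 : 10 ^ 10 ≤ N := (le_max_right _ _).trans hN
  obtain ⟨hn1, hn2, hn3⟩ := eqf_num hN2
  have hN1' : (1 : ℝ) ≤ N := by
    have : 1 ≤ N := le_trans (by norm_num) hN2
    exact_mod_cast this
  have hsq : (N : ℝ) ^ (1 / 5 : ℝ) ≤ √N := by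
    rw [Real.sqrt_eq_rpow]
    exact Real.rpow_le_rpow_of_exponent_le hN1' (by norm_num)
  have hhu' : (h : ℝ) ≤ u := by exact_mod_cast hhu
  have hmain := H N hN1 h u hlog (hhu'.trans (hu.trans hsq)) (hu.trans hsq)
  refine le_trans ?_ hmain
  have hsub : ((Ioc (N / 2) N).filter (fun n => Even n ∧
        (((Icc 1 N).filter (fun p : ℕ => p.Prime ∧ (N : ℝ) ^ (51 / 100 : ℝ) < p ∧
          (p : ℝ) ≤ (N : ℝ) ^ (79 / 100 : ℝ) ∧
          u < n % (p - 1) ∧ n % (p - 1) ≤ u + h)).card : ℝ) < c * h)) ⊆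
      ((Ioc (N / 2) N).filter (fun n => (pairs N n u h : ℝ) < c * h)) := by
    intro n hn
    rw [mem_filter] at hn ⊢
    obtain ⟨hnI, -, hcard⟩ := hn
    refine ⟨hnI, lt_of_le_of_lt ?_ hcard⟩
    rw [mem_Ioc] at hnI
    have hkey : ∀ x : ℕ × ℕ, x ∈ ((Ioc u (u + h) ×ˢ (range (N + 1)).filter
      (fun p : ℕ => p.Prime ∧ (N : ℝ) ^ (0.51 : ℝ) < (p : ℝ) ∧
        (p : ℝ) ≤ (N : ℝ) ^ (0.53 : ℝ))).filter
      (fun x : ℕ × ℕ => (x.2 - 1) ∣ (n - x.1))) → n % (x.2 - 1) = x.1 ∧ u < x.1 ∧ x.1 ≤ u + h ∧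
        x.2.Prime ∧ x.2 ≤ N ∧ (N : ℝ) ^ (0.51 : ℝ) < (x.2 : ℝ) ∧
        (x.2 : ℝ) ≤ (N : ℝ) ^ (0.53 : ℝ) := by
      intro x hx
      rw [mem_filter, mem_product, mem_Ioc, mem_filter, mem_range] at hx
      obtain ⟨⟨⟨h1, h2⟩, h3, h4, h5, h6⟩, h7⟩ := hx
      have hx1 : (x.1 : ℝ) ≤ 2 * (N : ℝ) ^ (1 / 5 : ℝ) := by
        have : (x.1 : ℝ) ≤ u + h := by exact_mod_cast h2
        linarith
      have h2n : (N : ℝ) ≤ 2 * n := by
        have : N ≤ 2 * n := by omega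
        exact_mod_cast this
      have hen : x.1 ≤ n := by
        have : (x.1 : ℝ) ≤ n := by linarith
        exact_mod_cast this
      have hem : x.1 < x.2 - 1 := by
        have h8 : (x.1 : ℝ) + 1 < x.2 := by linarith
        have h9 : x.1 + 1 < x.2 := by exact_mod_cast h8
        omega
      exact ⟨eqf_mod hen hem h7, h1, h2, h4, by omega, h5, h6⟩
    have hle : pairs N n u h ≤ ((Icc 1 N).filter (fun p : ℕ => p.Prime ∧
        (N : ℝ) ^ (51 / 100 : ℝ) < p ∧ (p : ℝ) ≤ (N : ℝ) ^ (79 / 100 : ℝ) ∧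
          u < n % (p - 1) ∧ n % (p - 1) ≤ u + h)).card := by
      unfold pairs
      refine card_le_card_of_injOn (fun x => x.2) ?_ ?_
      · intro x hx
        obtain ⟨h1, h2, h3, h4, h5, h6, h7⟩ := hkey x hx
        simp only [coe_filter, Set.mem_ofPred_eq, mem_Icc]
        refine ⟨⟨h4.one_lt.le, h5⟩, h4, ?_, ?_, ?_, ?_⟩
        · refine lt_of_eq_of_lt ?_ h6
          norm_num
        · exact h7.trans (Real.rpow_le_rpow_of_exponent_le hN1' (by norm_num))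
        · rw [h1]; exact h2
        · rw [h1]; exact h3
      · intro x hx y hy hxy
        have hx' := hkey x hx
        have hy' := hkey y hy
        have hxy' : x.2 = y.2 := hxy
        have : x.1 = y.1 := by rw [← hx'.1, ← hy'.1, hxy']
        exact Prod.ext this hxy'
    exact_mod_cast hle
  exact_mod_cast card_le_card hsub

end Pool.Agent.BMR
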