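import Pool.Agent.BMR.VAR
import Pool.Agent.BMR.BLK

/-!
# BMR-ERR: error terms

`var_bound` with `T₀ = N^0.12`, `L₂ = N^0.3`, `L = lam` and the mean square bound `blk`. All
powers of `N` are written as
powers of `X = N^0.01 ≥ 4096`.
-/

open Finset MeasureTheory

namespace Pool.Agent.BMR

private lemma err_pow {n : ℝ} (hn : 0 ≤ n) (k : ℕ) {c : ℝ} (hc : c = k * 0.01) :
    n ^ c = (n ^ (0.01 : ℝ)) ^ k := by
  rw [← Real.rpow_natCast, ← Real.rpow_mul hn, hc, mul_comm]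

private lemma err_X {n : ℝ} (hn : Real.exp 1280 ≤ n) : 4096 ≤ n ^ (0.01 : ℝ) := by
  have hn0 : 0 < n := (Real.exp_pos _).trans_le hn
  have h1 : (2 : ℝ) ≤ Real.exp 1 := by
    have := Real.add_one_le_exp (1 : ℝ)
    linarith
  have h2 : (4096 : ℝ) ≤ Real.exp 12 := by
    have h3 : Real.exp 12 = Real.exp 1 ^ 12 := by
      rw [← Real.exp_nat_mul]
      norm_num
    rw [h3]
    calc (4096 : ℝ) = 2 ^ 12 := by norm_num
      _ ≤ _ := by gcongr
  have h4 : Real.exp 12 ≤ (Real.exp 1280) ^ (0.01 : ℝ) := by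
    rw [← Real.exp_mul]
    apply Real.exp_le_exp.2
    norm_num
  exact h2.trans (h4.trans (Real.rpow_le_rpow (Real.exp_pos _).le hn (by norm_num)))

/-- the ranges of the variable `r` -/
private lemma err_range {N D : ℕ} {X : ℝ} (hX : 4096 ≤ X) (hN : (N : ℝ) = X ^ 100)
    (hD8 : 8 ≤ D) (hD : (D : ℝ) ≤ X ^ 55) :
    X ^ 44 ≤ (ra N D : ℝ) ∧ (rb N D : ℝ) ≤ N ∧ ra N D ≤ rb N D ∧
      (rb N D : ℝ) ≤ 4096 * (ra N D : ℝ) ∧ (D : ℝ) * (rb N D : ℝ) ≤ 5 * N := by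
  have hX0 : 0 < X := by linarith
  have hX1 : 1 ≤ X := by linarith
  have hDpos : 0 < D := by omega
  have hD8' : (8 : ℝ) ≤ D := by exact_mod_cast hD8
  have R1 : (N : ℝ) < 512 * D * ((ra N D : ℝ) + 1) := by
    have := Nat.lt_mul_div_succ N (show 0 < 512 * D by omega)
    unfold ra
    exact_mod_cast this
  have R2 : 512 * (D : ℝ) * (ra N D : ℝ) ≤ N := by
    have := Nat.mul_div_le N (512 * D)
    unfold ra
    exact_mod_cast this
  have R3 : (D : ℝ) * (rb N D : ℝ) ≤ 4 * N + D := by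
    have h1 := Nat.mul_div_le (4 * N) D
    have h2 : D * (4 * N / D + 1) ≤ 4 * N + D := by
      rw [mul_add, mul_one]
      omega
    unfold rb
    exact_mod_cast h2
  have R4 : 4 * (N : ℝ) < D * (rb N D : ℝ) := by
    have := Nat.lt_mul_div_succ (4 * N) hDpos
    unfold rb
    exact_mod_cast this
  have ha0 : (0 : ℝ) ≤ (ra N D : ℝ) := Nat.cast_nonneg _
  have hb0 : (0 : ℝ) ≤ (rb N D : ℝ) := Nat.cast_nonneg _
  have hX55 : X ^ 55 * 4096 ≤ X ^ 100 := by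
    calc X ^ 55 * 4096 ≤ X ^ 55 * X := by gcongr
      _ = X ^ 56 := by ring
      _ ≤ X ^ 100 := pow_le_pow_right₀ hX1 (by norm_num)
  have hN1 : (D : ℝ) * 4096 ≤ N := by
    rw [hN]
    exact (mul_le_mul_of_nonneg_right hD (by norm_num)).trans hX55
  have hN8 : (8 : ℝ) ≤ N := by linarith
  refine ⟨?_, ?_, ?_, ?_, ?_⟩
  · by_contra hcon
    rw [not_le] at hcon
    have h1 : (1 : ℝ) ≤ X ^ 44 := one_le_pow₀ hX1
    have h2 : 512 * (D : ℝ) * ((ra N D : ℝ) + 1) ≤ 512 * X ^ 55 * (2 * X ^ 44) := by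
      gcongr
      linarith
    have h3 : 512 * X ^ 55 * (2 * X ^ 44) ≤ X ^ 100 := by
      calc 512 * X ^ 55 * (2 * X ^ 44) = 1024 * X ^ 99 := by ring
        _ ≤ X * X ^ 99 := by gcongr; linarith
        _ = X ^ 100 := by ring
    rw [hN] at R1
    linarith
  · have h1 : 8 * (rb N D : ℝ) ≤ 4 * N + 8 := by
      by_contra hcon
      rw [not_le] at hcon
      nlinarith
    linarith
  · have h1 : (ra N D : ℝ) < (rb N D : ℝ) := by
      have h2 : 512 * (D : ℝ) * (ra N D : ℝ) < D * (rb N D : ℝ) := by linarith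
      have h3 : (D : ℝ) * (ra N D : ℝ) ≤ 512 * (D : ℝ) * (ra N D : ℝ) := by
        nlinarith [mul_nonneg (by linarith : (0 : ℝ) ≤ D) ha0]
      exact lt_of_mul_lt_mul_left (h3.trans_lt h2) (by linarith)
    exact_mod_cast h1.le
  · have h1 : (D : ℝ) * (rb N D : ℝ) ≤ D * (4096 * (ra N D : ℝ)) := by nlinarith
    exact le_of_mul_le_mul_left h1 (by linarith)
  · linarith

private lemma err_prm (Q : ℕ) : ((prm Q).card : ℝ) ≤ 3 * Q := by
  have h1 : (prm Q).card ≤ 3 * Q := by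
    unfold prm
    refine (card_filter_le _ _).trans ?_
    rw [Nat.card_Ioc]
    omega
  exact_mod_cast h1

private lemma err_mul {a b c d a' b' c' d' : ℝ} (ha : 0 ≤ a) (hb : 0 ≤ b) (hc : 0 ≤ c)
    (hd : 0 ≤ d) (h1 : a ≤ a') (h2 : b ≤ b') (h3 : c ≤ c') (h4 : d ≤ d') :
    a * (b * (c * d)) ≤ a' * (b' * (c' * d')) := by
  have ha' := ha.trans h1
  have hb' := hb.trans h2
  have hc' := hc.trans h3
  gcongr

/-- the final numerical estimate -/
private lemma err_num {C₁ n h lam X c I : ℝ} (hC : 0 < C₁) (hX : 4096 ≤ X) (hn : n = X ^ 100)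
    (hh1 : 1 ≤ h) (hhX : h ≤ X) (hlam : 8 * n / h ≤ lam) (hc0 : 0 ≤ c) (hc : c ≤ 135 * n)
    (hI : I ≤ n ^ 2 * h ^ (-(3 / 200 : ℝ))) :
    C₁ / lam ^ 2 * ((X ^ 12) ^ 3 / (X ^ 30) ^ 2 * c ^ 2 + I) ≤
      300 * C₁ * h ^ (2 - 3 / 200 : ℝ) := by
  have hX0 : 0 < X := by linarith
  have hX1 : 1 ≤ X := by linarith
  have hh0 : 0 < h := by linarith
  have hn0 : 0 < n := by rw [hn]; positivity
  have hlam0 : 0 < lam := lt_of_lt_of_le (by positivity) hlam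
  set y : ℝ := h ^ (-(3 / 200 : ℝ)) with hy
  have hy0 : 0 < y := Real.rpow_pos_of_pos hh0 _
  have hyX : (X ^ 24)⁻¹ ≤ y := by
    rw [hy, Real.rpow_neg hh0.le]
    apply inv_anti₀ (Real.rpow_pos_of_pos hh0 _)
    calc h ^ (3 / 200 : ℝ) ≤ X ^ (3 / 200 : ℝ) := Real.rpow_le_rpow hh0.le hhX (by norm_num)
      _ ≤ X ^ (24 : ℝ) := Real.rpow_le_rpow_of_exponent_le hX1 (by norm_num)
      _ = X ^ 24 := by
        rw [← Real.rpow_natCast]
        norm_num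
  have h1 : (X ^ 12) ^ 3 / (X ^ 30) ^ 2 * c ^ 2 ≤ 18225 * (n ^ 2 * y) := by
    calc (X ^ 12) ^ 3 / (X ^ 30) ^ 2 * c ^ 2 ≤ (X ^ 12) ^ 3 / (X ^ 30) ^ 2 * (135 * n) ^ 2 := by
          gcongr
      _ = 18225 * (n ^ 2 * (X ^ 24)⁻¹) := by
          field_simp
          ring
      _ ≤ 18225 * (n ^ 2 * y) := by gcongr
  have h2 : (X ^ 12) ^ 3 / (X ^ 30) ^ 2 * c ^ 2 + I ≤ 18226 * (n ^ 2 * y) := by linarith
  have h3 : C₁ / lam ^ 2 ≤ C₁ * h ^ 2 / (64 * n ^ 2) := by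
    rw [div_le_div_iff₀ (by positivity) (by positivity)]
    have h4 : 8 * n ≤ lam * h := by
      rwa [div_le_iff₀ hh0] at hlam
    have h5 : (8 * n) ^ 2 ≤ (lam * h) ^ 2 := by gcongr
    nlinarith
  have h6 : h ^ (2 - 3 / 200 : ℝ) = h ^ 2 * y := by
    rw [sub_eq_add_neg, Real.rpow_add hh0, hy]
    congr 1
    rw [← Real.rpow_natCast]
    norm_num
  calc C₁ / lam ^ 2 * ((X ^ 12) ^ 3 / (X ^ 30) ^ 2 * c ^ 2 + I)
      ≤ C₁ / lam ^ 2 * (18226 * (n ^ 2 * y)) := by gcongr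
    _ ≤ C₁ * h ^ 2 / (64 * n ^ 2) * (18226 * (n ^ 2 * y)) := by gcongr
    _ = (18226 / 64) * (C₁ * (h ^ 2 * y)) := by
        field_simp
    _ ≤ 300 * (C₁ * (h ^ 2 * y)) := by
        have : 0 ≤ C₁ * (h ^ 2 * y) := by positivity
        gcongr
        norm_num
    _ = 300 * C₁ * h ^ (2 - 3 / 200 : ℝ) := by
        rw [h6]
        ring

/-- sums over the product set -/
private lemma err_sum {M : Type*} [AddCommMonoid M] (A B C E : Finset ℕ) (f : ℝ → M) :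
    ∑ i ∈ A ×ˢ B ×ˢ C ×ˢ E, f ((i.1 * i.2.1 * (i.2.2.1 - 1) * i.2.2.2 : ℕ) : ℝ) =
      ∑ q ∈ A, ∑ s ∈ B, ∑ p ∈ C, ∑ r ∈ E, f ((q * s * (p - 1) * r : ℕ) : ℝ) := by
  rw [Finset.sum_product]
  refine Finset.sum_congr rfl fun q _ => ?_
  rw [Finset.sum_product]
  refine Finset.sum_congr rfl fun s _ => ?_
  rw [Finset.sum_product]

theorem err : ∃ A C N₀ : ℝ, 0 < A ∧ 0 < C ∧ 1 ≤ N₀ ∧ ∀ (N : ℕ) (h : ℝ), N₀ ≤ N → Real.log N ^ A ≤ h →
    h ≤ (N : ℝ) ^ (0.01 : ℝ) → ∀ (Q Q' P : ℕ) (S : Finset ℕ), √h ≤ Q → 4 * (Q : ℝ) ≤ h → 1 ≤ Q' →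
      4 * (Q' : ℝ) ≤ h → ((Q' = 1 ∧ S = {1}) ∨ S = prm Q') → 1 ≤ P → (P : ℝ) ≤ (N : ℝ) ^ (0.53 : ℝ) →
      ∀ lam b u₀ : ℝ, 8 * N / h ≤ lam → lam ≤ 1280 * N / h → 0 ≤ b → b ≤ 160 * Real.pi * h / (1280 * N) →
        ∫ u in (u₀ - 1)..(u₀ + 1), (FF N P Q Q' S lam (u - b) -
          (N : ℝ) ^ (0.3 : ℝ) / lam * FF N P Q Q' S ((N : ℝ) ^ (0.3 : ℝ)) u) ^ 2 ≤
        C * h ^ (2 - 3 / 200 : ℝ) := by
  obtain ⟨C₁, hC₁, hvar⟩ := var_bound
  obtain ⟨A₁, N₁, hA₁, hN₁, hblk⟩ := blk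
  refine ⟨max A₁ 1, 300 * C₁, max N₁ (Real.exp 1280), lt_max_of_lt_left hA₁, by positivity,
    le_max_of_le_left hN₁, ?_⟩
  intro N h hN hlog hh Q Q' P S hQ hQh hQ' hQ'h hS hP hPN lam b u₀ hlam1 hlam2 hb0 hb
  have hNe : Real.exp 1280 ≤ (N : ℝ) := (le_max_right _ _).trans hN
  have hn0 : (0 : ℝ) < N := (Real.exp_pos _).trans_le hNe
  have hlogN : 1280 ≤ Real.log N := by
    rw [← Real.log_exp 1280]
    exact Real.log_le_log (Real.exp_pos _) hNe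
  have hlog1 : Real.log N ^ A₁ ≤ h :=
    (Real.rpow_le_rpow_of_exponent_le (by linarith) (le_max_left _ _)).trans hlog
  have hh1280 : 1280 ≤ h := by
    have h1 : Real.log N ^ (1 : ℝ) ≤ Real.log N ^ (max A₁ 1) :=
      Real.rpow_le_rpow_of_exponent_le (by linarith) (le_max_right _ _)
    rw [Real.rpow_one] at h1
    linarith
  have hh0 : 0 < h := by linarith
  obtain ⟨X, hXdef⟩ : ∃ X : ℝ, X = (N : ℝ) ^ (0.01 : ℝ) := ⟨_, rfl⟩
  have hX : 4096 ≤ X := by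
    rw [hXdef]
    exact err_X hNe
  have hX0 : 0 < X := by linarith
  have hX1 : 1 ≤ X := by linarith
  have e12 : (N : ℝ) ^ (0.12 : ℝ) = X ^ 12 := by
    rw [hXdef]
    exact err_pow hn0.le 12 (by norm_num)
  have e30 : (N : ℝ) ^ (0.3 : ℝ) = X ^ 30 := by
    rw [hXdef]
    exact err_pow hn0.le 30 (by norm_num)
  have e44 : (N : ℝ) ^ (0.44 : ℝ) = X ^ 44 := by
    rw [hXdef]
    exact err_pow hn0.le 44 (by norm_num)
  have e53 : (N : ℝ) ^ (0.53 : ℝ) = X ^ 53 := by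
    rw [hXdef]
    exact err_pow hn0.le 53 (by norm_num)
  have e100 : (N : ℝ) = X ^ 100 := by
    rw [hXdef, ← err_pow hn0.le 100 (c := 1) (by norm_num), Real.rpow_one]
  have hhX : h ≤ X := by rwa [hXdef]
  rw [e53] at hPN
  -- the modulus
  have hQ8 : (8 : ℝ) ≤ Q := by
    refine le_trans ?_ hQ
    apply Real.le_sqrt_of_sq_le
    linarith
  have hQ8' : 8 ≤ Q := by exact_mod_cast hQ8
  have hD8 : 8 ≤ Q * Q' * P := by
    have h1 : Q * 1 * 1 ≤ Q * Q' * P := Nat.mul_le_mul (Nat.mul_le_mul_left _ hQ') hP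
    omega
  have hD : ((Q * Q' * P : ℕ) : ℝ) ≤ X ^ 55 := by
    push_cast
    have h1 : (Q : ℝ) ≤ X := by linarith
    have h2 : (Q' : ℝ) ≤ X := by linarith
    calc (Q : ℝ) * Q' * P ≤ X * X * X ^ 53 := by gcongr
      _ = X ^ 55 := by ring
  obtain ⟨g1, g2, g3, g4, g5⟩ := err_range hX e100 hD8 hD
  -- the parameters
  have hL30 : X ^ 30 ≤ 8 * N / h := by
    rw [le_div_iff₀ hh0, e100]
    calc X ^ 30 * h ≤ X ^ 30 * X := by gcongr
      _ = X ^ 31 := by ring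
      _ ≤ X ^ 100 := pow_le_pow_right₀ hX1 (by norm_num)
      _ ≤ 8 * X ^ 100 := by
        have : 0 ≤ X ^ 100 := by positivity
        linarith
  have hX1230 : X ^ 12 ≤ X ^ 30 := pow_le_pow_right₀ hX1 (by norm_num)
  have hlamN : lam ≤ N := by
    refine hlam2.trans ?_
    rw [div_le_iff₀ hh0]
    nlinarith
  have hlam2' : lam ≤ 2000 * N / h := by
    refine hlam2.trans ?_
    gcongr
    norm_num
  have hS' : S = {1} ∨ S = prm Q' := by
    rcases hS with ⟨-, h1⟩ | h1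
    · exact Or.inl h1
    · exact Or.inr h1
  have hbl := hblk N h ((le_max_left _ _).trans hN) hlog1 hh Q Q' P
    (ra N (Q * Q' * P)) (rb N (Q * Q' * P)) S lam hQ hQh hQ' hS' hP (by rw [e44]; exact g1) g2 g3
    (by exact_mod_cast g4) (by
      have h1 := g5
      push_cast at h1
      exact h1) (by rw [e12]; exact (hX1230.trans hL30).trans hlam1) hlam2' hlamN
  have hbabs : |b| ≤ 4 / X ^ 30 := by
    rw [abs_of_nonneg hb0, le_div_iff₀ (by positivity)]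
    have h1 : 160 * Real.pi * h / (1280 * N) ≤ 640 * h / (1280 * N) := by
      gcongr
      have := Real.pi_le_four
      linarith
    calc b * X ^ 30 ≤ (640 * h / (1280 * N)) * X ^ 30 := by
          gcongr
          exact hb.trans h1
      _ = (h * X ^ 30) / (2 * N) := by
          field_simp
          ring
      _ ≤ 4 := by
          rw [div_le_iff₀ (by positivity), e100]
          calc h * X ^ 30 ≤ X * X ^ 30 := by gcongr
            _ = X ^ 31 := by ring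
            _ ≤ X ^ 100 := pow_le_pow_right₀ hX1 (by norm_num)
            _ ≤ 4 * (2 * X ^ 100) := by
              have : 0 ≤ X ^ 100 := by positivity
              linarith
  -- the variance bound
  have hpos : ∀ i ∈ prm Q ×ˢ S ×ˢ prm P ×ˢ Ioc (ra N (Q * Q' * P)) (rb N (Q * Q' * P)),
      (0 : ℝ) < ((i.1 * i.2.1 * (i.2.2.1 - 1) * i.2.2.2 : ℕ) : ℝ) := by
    rintro ⟨q, s, p, r⟩ hi
    rw [mem_product, mem_product, mem_product] at hi
    obtain ⟨h1, h2, h3, h4⟩ := hi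
    change s ∈ S at h2
    change p ∈ prm P at h3
    change r ∈ Ioc (ra N (Q * Q' * P)) (rb N (Q * Q' * P)) at h4
    have p1 : 0 < q := (mem_prm.1 h1).2.pos
    have p2 : 0 < s := by
      rcases hS' with h5 | h5
      · rw [h5, mem_singleton] at h2
        omega
      · rw [h5] at h2
        exact (mem_prm.1 h2).2.pos
    have p3 : 0 < p - 1 := by
      have := (mem_prm.1 h3).2.two_le
      omega
    have p4 : 0 < r := (Nat.zero_le _).trans_lt (mem_Ioc.1 h4).1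
    have : 0 < q * s * (p - 1) * r := by positivity
    exact_mod_cast this
  have hv := hvar (prm Q ×ˢ S ×ˢ prm P ×ˢ Ioc (ra N (Q * Q' * P)) (rb N (Q * Q' * P)))
    (fun i => ((i.1 * i.2.1 * (i.2.2.1 - 1) * i.2.2.2 : ℕ) : ℝ)) hpos (X ^ 12) (X ^ 30) lam b u₀
    (one_le_pow₀ hX1) hX1230 (hL30.trans hlam1) hbabs
  rw [e30]
  have hF1 : ∀ L v : ℝ, FF N P Q Q' S L v =
      ∑ i ∈ prm Q ×ˢ S ×ˢ prm P ×ˢ Ioc (ra N (Q * Q' * P)) (rb N (Q * Q' * P)),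
        fj (L * (Real.log ((i.1 * i.2.1 * (i.2.2.1 - 1) * i.2.2.2 : ℕ) : ℝ) - v)) := by
    intro L v
    unfold FF
    exact (err_sum _ _ _ _ (fun x => fj (L * (Real.log x - v)))).symm
  have hint : ∫ u in (u₀ - 1)..(u₀ + 1), (FF N P Q Q' S lam (u - b) -
      X ^ 30 / lam * FF N P Q Q' S (X ^ 30) u) ^ 2 =
      ∫ u in (u₀ - 1)..(u₀ + 1),
        (∑ i ∈ prm Q ×ˢ S ×ˢ prm P ×ˢ Ioc (ra N (Q * Q' * P)) (rb N (Q * Q' * P)),
          fj (lam * (Real.log ((i.1 * i.2.1 * (i.2.2.1 - 1) * i.2.2.2 : ℕ) : ℝ) - u + b)) -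
        X ^ 30 / lam *
          ∑ i ∈ prm Q ×ˢ S ×ˢ prm P ×ˢ Ioc (ra N (Q * Q' * P)) (rb N (Q * Q' * P)),
          fj (X ^ 30 * (Real.log ((i.1 * i.2.1 * (i.2.2.1 - 1) * i.2.2.2 : ℕ) : ℝ) - u))) ^ 2 := by
    refine intervalIntegral.integral_congr fun u _ => ?_
    have hr : ∀ x : ℝ, lam * (x - (u - b)) = lam * (x - u + b) := fun x => by ring
    simp only [hF1, hr]
  rw [hint]
  refine hv.trans ?_
  have hcard : (((prm Q ×ˢ S ×ˢ prm P ×ˢ
      Ioc (ra N (Q * Q' * P)) (rb N (Q * Q' * P))).card : ℕ) : ℝ) ≤ 135 * N := by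
    rw [card_product, card_product, card_product, Nat.card_Ioc]
    push_cast
    have c1 := err_prm Q
    have c3 := err_prm P
    have c2 : (S.card : ℝ) ≤ 3 * Q' := by
      rcases hS with ⟨h1, h2⟩ | h1
      · rw [h1, h2, card_singleton]
        norm_num
      · rw [h1]
        exact err_prm Q'
    have c4 : ((rb N (Q * Q' * P) - ra N (Q * Q' * P) : ℕ) : ℝ) ≤ (rb N (Q * Q' * P) : ℝ) := by
      exact_mod_cast Nat.sub_le _ _
    push_cast at g5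
    calc ((prm Q).card : ℝ) * ((S.card : ℝ) * (((prm P).card : ℝ) *
          ((rb N (Q * Q' * P) - ra N (Q * Q' * P) : ℕ) : ℝ)))
        ≤ (3 * Q) * ((3 * Q') * ((3 * P) * (rb N (Q * Q' * P) : ℝ))) :=
          err_mul (Nat.cast_nonneg _) (Nat.cast_nonneg _) (Nat.cast_nonneg _) (Nat.cast_nonneg _)
            c1 c2 c3 c4
      _ = 27 * ((Q : ℝ) * Q' * P * (rb N (Q * Q' * P) : ℝ)) := by ring
      _ ≤ 135 * N := by linarith
  have hI : ∫ τ in (X ^ 12)..lam,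
      ‖∑ i ∈ prm Q ×ˢ S ×ˢ prm P ×ˢ Ioc (ra N (Q * Q' * P)) (rb N (Q * Q' * P)),
        z τ ((i.1 * i.2.1 * (i.2.2.1 - 1) * i.2.2.2 : ℕ) : ℝ)‖ ^ 2 ≤
      (N : ℝ) ^ 2 * h ^ (-(3 / 200 : ℝ)) := by
    rw [e12] at hbl
    refine le_trans (le_of_eq ?_) hbl
    refine intervalIntegral.integral_congr fun τ _ => ?_
    have hz := err_sum (prm Q) S (prm P) (Ioc (ra N (Q * Q' * P)) (rb N (Q * Q' * P)))
      (fun x => z τ x)
    simp only [hz]
  exact err_num hC₁ hX e100 (by linarith) hhX hlam1 (Nat.cast_nonneg _) hcard hI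

end Pool.Agent.BMR
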