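import Pool.Agent.BMR.MEAS

/-!
# BMR-FIN (1.3h): the statement for integers

For `n` in `(N/2, N]` let `y = n - e₀ - h/2` (real). For `u ∈ [log y, log(y+1))` and `|log k - u| ≤ h/(8N)`: `y - h/7 ≤ k ≤ y + 1 + h/7`, so
`e := n - k` satisfies `e₀ < e ≤ e₀ + h` (`h` large). Hence the window sum of `meas` is at most `∑_{e ∈ Ioc e₀ (e₀+h)} rho P (n-e)`. If `n` is
bad all `u` in `[log y, log(y+1))` are in the bad set of `meas` (`y ≥ N/3`, `y + 1 ≤ N`), these intervals are disjoint for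
different `n` and have length `≥ 1/(2N)`. So `#bad ≤ 2N h^(-1/100) ≤ N h^(-1/200)`.
-/

open Finset MeasureTheory

namespace Pool.Agent.BMR

theorem fin1 : ∃ c A : ℝ, 0 < c ∧ 0 < A ∧ ∃ N₀ : ℕ, ∀ N : ℕ, N₀ ≤ N → ∀ h e₀ P : ℕ,
    Real.log N ^ A ≤ h → (h : ℝ) ≤ (N : ℝ) ^ (0.01 : ℝ) → (e₀ : ℝ) ≤ 2 * √N →
      (N : ℝ) ^ (0.4 : ℝ) ≤ P → (P : ℝ) ≤ (N : ℝ) ^ (0.53 : ℝ) →
        (((Ioc (N / 2) N).filter (fun n => (∑ e ∈ Ioc e₀ (e₀ + h), (rho P (n - e) : ℝ)) <
          c * h / Real.log N)).card : ℝ) ≤ N * (h : ℝ) ^ (-(1 / 200 : ℝ)) := by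
  obtain ⟨c, A, N₀, hc, hA, hN₀, hm⟩ := meas
  refine ⟨c, max A 1, hc, lt_max_of_lt_left hA, max 225 ⌈N₀⌉₊, ?_⟩
  intro N hN h e₀ P hlo hhi he₀ hP1 hP2
  have hN225 : 225 ≤ N := (le_max_left _ _).trans hN
  have hNr : (225 : ℝ) ≤ N := by exact_mod_cast hN225
  have hN0 : (0 : ℝ) < N := by linarith
  have hNN₀ : N₀ ≤ N := (Nat.le_ceil N₀).trans (by exact_mod_cast (le_max_right 225 ⌈N₀⌉₊).trans hN)
  have hlog : (3 : ℝ) ≤ Real.log N := by
    rw [Real.le_log_iff_exp_le hN0]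
    have h1 : Real.exp 3 = Real.exp 1 ^ 3 := by
      rw [← Real.exp_nat_mul]
      norm_num
    have h2 := Real.exp_one_lt_d9
    have h3 := Real.exp_pos 1
    rw [h1]
    calc Real.exp 1 ^ 3 ≤ (3 : ℝ) ^ 3 := pow_le_pow_left₀ h3.le (by linarith) 3
      _ ≤ N := by linarith
  have hh3 : (3 : ℝ) ≤ h := by
    calc (3 : ℝ) ≤ Real.log N := hlog
      _ = Real.log N ^ (1 : ℝ) := (Real.rpow_one _).symm
      _ ≤ Real.log N ^ (max A 1) :=
          Real.rpow_le_rpow_of_exponent_le (by linarith) (le_max_right _ _)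
      _ ≤ h := hlo
  have hloA : Real.log N ^ A ≤ (h : ℝ) :=
    (Real.rpow_le_rpow_of_exponent_le (by linarith) (le_max_left _ _)).trans hlo
  have hm1 := hm N h hNN₀ hloA hhi P hP1 hP2
  set B : Set ℝ := {u : ℝ | Real.log (N / 3) ≤ u ∧ u ≤ Real.log N ∧
          (∑ k ∈ Icc 1 (2 * N), if |Real.log k - u| ≤ h / (8 * N) then (rho P k : ℝ) else 0) <
            c * h / Real.log N} with hB
  set bad := (Ioc (N / 2) N).filter (fun n => (∑ e ∈ Ioc e₀ (e₀ + h), (rho P (n - e) : ℝ)) <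
          c * h / Real.log N) with hbad
  have hsq : (h : ℝ) ≤ √N := by
    rw [Real.sqrt_eq_rpow]
    exact hhi.trans (Real.rpow_le_rpow_of_exponent_le (by linarith) (by norm_num))
  have hs15 : (15 : ℝ) ≤ √N := by
    apply Real.le_sqrt_of_sq_le
    norm_num
    exact hN225
  have hss : √N * √N = N := Real.mul_self_sqrt hN0.le
  have hylo : ∀ n ∈ bad, (N : ℝ) / 3 ≤ (n : ℝ) - e₀ - h / 2 := by
    intro n hn
    rw [hbad, mem_filter, mem_Ioc] at hn
    have h1 : N < 2 * n := by omega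
    have h2 : (N : ℝ) < 2 * n := by exact_mod_cast h1
    nlinarith
  have hyhi : ∀ n ∈ bad, (n : ℝ) - e₀ - h / 2 + 1 ≤ N := by
    intro n hn
    rw [hbad, mem_filter, mem_Ioc] at hn
    have h1 : (n : ℝ) ≤ N := by exact_mod_cast hn.1.2
    have h2 : (0 : ℝ) ≤ e₀ := Nat.cast_nonneg _
    linarith
  have hδ0 : (0 : ℝ) < h / (8 * N) := by positivity
  have hδ8 : (h : ℝ) / (8 * N) ≤ 1 / 8 := by
    rw [div_le_iff₀ (by positivity)]
    nlinarith
  have hNδ : (N : ℝ) * (h / (8 * N)) = h / 8 := by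
    field_simp
  have hsub : ∀ n ∈ bad, Set.Ico (Real.log ((n : ℝ) - e₀ - h / 2))
      (Real.log ((n : ℝ) - e₀ - h / 2 + 1)) ⊆ B := by
    intro n hn u hu
    have hy1 := hylo n hn
    have hy2 := hyhi n hn
    set y : ℝ := (n : ℝ) - e₀ - h / 2 with hy
    have hy0 : 0 < y := by linarith
    have hu1 : y ≤ Real.exp u := (Real.log_le_iff_le_exp hy0).1 hu.1
    have hu2 : Real.exp u < y + 1 := (Real.lt_log_iff_exp_lt (by linarith)).1 hu.2
    refine ⟨(Real.log_le_log (by positivity) hy1).trans hu.1,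
      hu.2.le.trans (Real.log_le_log (by linarith) hy2), ?_⟩
    refine lt_of_le_of_lt ?_ ((mem_filter.1 hn).2)
    rw [← sum_filter]
    set F := (Icc 1 (2 * N)).filter (fun k : ℕ => |Real.log k - u| ≤ h / (8 * N)) with hF
    have hk : ∀ k ∈ F, k + e₀ < n ∧ n ≤ k + e₀ + h := by
      intro k hk
      rw [hF, mem_filter, mem_Icc] at hk
      obtain ⟨⟨hk1, _⟩, hk2⟩ := hk
      have hk0 : (0 : ℝ) < k := by exact_mod_cast hk1
      rw [abs_le] at hk2
      have a1 : Real.exp (u - h / (8 * N)) ≤ k := by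
        rw [← Real.le_log_iff_exp_le hk0]
        linarith [hk2.1]
      have a2 : (k : ℝ) ≤ Real.exp (u + h / (8 * N)) := by
        rw [← Real.log_le_iff_le_exp hk0]
        linarith [hk2.2]
      set δ : ℝ := (h : ℝ) / (8 * N) with hδ
      have b1 : 1 - δ ≤ Real.exp (-δ) := by linarith [Real.add_one_le_exp (-δ)]
      have b2 : Real.exp δ * (1 - δ) ≤ 1 := by
        calc Real.exp δ * (1 - δ) ≤ Real.exp δ * Real.exp (-δ) :=
              mul_le_mul_of_nonneg_left b1 (Real.exp_pos δ).le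
          _ = 1 := by rw [← Real.exp_add]; simp
      have b3 : Real.exp δ ≤ 1 + 8 / 7 * δ := by
        have : 1 ≤ (1 + 8 / 7 * δ) * (1 - δ) := by nlinarith
        have h1 : 0 < 1 - δ := by linarith
        by_contra hcon
        push Not at hcon
        nlinarith
      have d1 : (n : ℝ) - e₀ - h / 2 - h / 8 ≤ k := by
        calc (n : ℝ) - e₀ - h / 2 - h / 8 ≤ y * (1 - δ) := by
              have : y * δ ≤ N * δ := mul_le_mul_of_nonneg_right (by linarith) hδ0.le
              nlinarith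
          _ ≤ Real.exp u * Real.exp (-δ) := mul_le_mul hu1 b1 (by linarith) (Real.exp_pos u).le
          _ = Real.exp (u - δ) := by rw [← Real.exp_add]; rfl
          _ ≤ k := a1
      have d2 : (k : ℝ) ≤ n - e₀ - h / 2 + 1 + h / 7 := by
        calc (k : ℝ) ≤ Real.exp (u + δ) := a2
          _ = Real.exp u * Real.exp δ := Real.exp_add _ _
          _ ≤ (y + 1) * (1 + 8 / 7 * δ) :=
              mul_le_mul hu2.le b3 (Real.exp_pos δ).le (by linarith)
          _ ≤ n - e₀ - h / 2 + 1 + h / 7 := by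
              have : (y + 1) * δ ≤ N * δ := mul_le_mul_of_nonneg_right hy2 hδ0.le
              nlinarith
      constructor
      · have : (k : ℝ) + e₀ < n := by linarith
        exact_mod_cast this
      · have : (n : ℝ) ≤ k + e₀ + h := by linarith
        exact_mod_cast this
    have hinj : Set.InjOn (fun k => n - k) (F : Set ℕ) := by
      intro k1 h1 k2 h2 h12
      have := (hk k1 h1).1
      have := (hk k2 h2).1
      simp only at h12
      omega
    have e1 : ∑ k ∈ F, (rho P k : ℝ) = ∑ e ∈ F.image (fun k => n - k), (rho P (n - e) : ℝ) := by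
      rw [sum_image hinj]
      refine sum_congr rfl (fun k hk' => ?_)
      have := (hk k hk').1
      have h2 : n - (n - k) = k := by omega
      rw [h2]
    rw [e1]
    refine sum_le_sum_of_subset_of_nonneg ?_ (fun _ _ _ => Nat.cast_nonneg _)
    intro e he
    rw [mem_image] at he
    obtain ⟨k, hk', rfl⟩ := he
    have := hk k hk'
    rw [mem_Ioc]
    omega
  have hdis : (bad : Set ℕ).PairwiseDisjoint (fun n : ℕ =>
      Set.Ico (Real.log ((n : ℝ) - e₀ - h / 2)) (Real.log ((n : ℝ) - e₀ - h / 2 + 1))) := by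
    have key : ∀ n ∈ bad, ∀ m ∈ bad, n < m → Disjoint
        (Set.Ico (Real.log ((n : ℝ) - e₀ - h / 2)) (Real.log ((n : ℝ) - e₀ - h / 2 + 1)))
        (Set.Ico (Real.log ((m : ℝ) - e₀ - h / 2)) (Real.log ((m : ℝ) - e₀ - h / 2 + 1))) := by
      intro n hn m hm' hnm
      rw [Set.disjoint_left]
      intro x hx1 hx2
      have h1 : (n : ℝ) + 1 ≤ m := by exact_mod_cast hnm
      have h2 := hylo n hn
      have h3 : Real.log ((n : ℝ) - e₀ - h / 2 + 1) ≤ Real.log ((m : ℝ) - e₀ - h / 2) :=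
        Real.log_le_log (by linarith) (by linarith)
      linarith [hx1.2, hx2.1]
    intro n hn m hm' hnm
    rcases lt_or_gt_of_ne hnm with h1 | h1
    · exact key n hn m hm' h1
    · exact (key m hm' n hn h1).symm
  have hfin : volume B ≠ ⊤ := by
    refine ne_top_of_le_ne_top ?_ (measure_mono (t := Set.Icc (Real.log (N / 3)) (Real.log N)) ?_)
    · rw [Real.volume_Icc]
      exact ENNReal.ofReal_ne_top
    · intro u hu
      exact ⟨hu.1, hu.2.1⟩
  have hvol : ENNReal.ofReal (bad.card * (1 / N : ℝ)) ≤ volume B := by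
    calc ENNReal.ofReal (bad.card * (1 / N : ℝ)) = ∑ n ∈ bad, ENNReal.ofReal (1 / N : ℝ) := by
          rw [sum_const, nsmul_eq_mul, ENNReal.ofReal_mul (Nat.cast_nonneg _),
            ENNReal.ofReal_natCast]
      _ ≤ ∑ n ∈ bad, volume (Set.Ico (Real.log ((n : ℝ) - e₀ - h / 2))
            (Real.log ((n : ℝ) - e₀ - h / 2 + 1))) := by
          refine sum_le_sum (fun n hn => ?_)
          rw [Real.volume_Ico]
          apply ENNReal.ofReal_le_ofReal
          have h1 := hylo n hn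
          have h2 := hyhi n hn
          have h3 : 0 < (n : ℝ) - e₀ - h / 2 := by linarith
          rw [← Real.log_div (by linarith) h3.ne']
          refine le_trans ?_ (Real.one_sub_inv_le_log_of_pos (by positivity))
          rw [inv_div, div_le_iff₀ hN0, sub_mul, one_mul]
          have h4 : ((n : ℝ) - e₀ - h / 2) / ((n : ℝ) - e₀ - h / 2 + 1) =
              1 - 1 / ((n : ℝ) - e₀ - h / 2 + 1) := by
            have h6 : (n : ℝ) - e₀ - h / 2 + 1 ≠ 0 := by linarith
            rw [eq_sub_iff_add_eq, ← add_div, div_self h6]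
          rw [h4, sub_mul, one_mul]
          have h5 : 1 ≤ 1 / ((n : ℝ) - e₀ - h / 2 + 1) * N := by
            rw [one_div, inv_mul_eq_div, le_div_iff₀ (by linarith)]
            linarith
          linarith
      _ = volume (⋃ n ∈ bad, Set.Ico (Real.log ((n : ℝ) - e₀ - h / 2))
            (Real.log ((n : ℝ) - e₀ - h / 2 + 1))) :=
          (measure_biUnion_finset hdis (fun n _ => measurableSet_Ico)).symm
      _ ≤ volume B := measure_mono (Set.iUnion₂_subset hsub)
  have hfinal : (bad.card : ℝ) * (1 / N) ≤ (h : ℝ) ^ (-(1 / 100 : ℝ)) := by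
    refine le_trans ?_ hm1
    exact (ENNReal.ofReal_le_iff_le_toReal hfin).1 hvol
  have hlast : (h : ℝ) ^ (-(1 / 100 : ℝ)) ≤ (h : ℝ) ^ (-(1 / 200 : ℝ)) :=
    Real.rpow_le_rpow_of_exponent_le (by linarith) (by norm_num)
  rw [mul_one_div, div_le_iff₀ hN0] at hfinal
  calc (bad.card : ℝ) ≤ (h : ℝ) ^ (-(1 / 100 : ℝ)) * N := hfinal
    _ ≤ (h : ℝ) ^ (-(1 / 200 : ℝ)) * N := mul_le_mul_of_nonneg_right hlast hN0.le
    _ = N * (h : ℝ) ^ (-(1 / 200 : ℝ)) := mul_comm _ _

end Pool.Agent.BMR
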