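import Pool.Agent.BMR.Defs

/-!
# BMR-FJ (0.9h): the Fejer kernel

`fj v = (sin(v/2)/(v/2))²`, `fj 0 = 1`.
* `fj_le`: `sin² ≤ 1`. `fj_ge`: `|v/2| ≤ 3/2 ≤ π/2`, Jordan's inequality `|sin x| ≥ (2/π)|x|` (`Real.mul_le_sin`), `4/π² ≥ 2/5`.
* `fj_two`: `sin²(v/2) + sin²((v+π)/2) = sin² + cos² = 1`, so the sum is `≥ 4/(|v|+π)²` and `(|v|+π)² ≤ 2v² + 2π² ≤ 20(1+v²)`
  (treat `v = 0`, `v = -π` separately: the sum is then `≥ 1`).
* `fj_repr`: direct integration: `∫_{-1}^{1} (1-|s|) cos(sv) ds = 2(1-cos v)/v² = fj v` for `v ≠ 0` (the imaginary part is odd);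
  split at 0, integrate by parts or differentiate an explicit primitive. `v = 0`: the integral is 1.
* `continuous_fj`: from `fj_repr` (continuity of a parametric interval integral) or directly.
* `fj_minor`: for `|v| > B`: `fj v ≤ 4/v²` and `(40/B²)(fj(v/B) + fj(v/B+π)) ≥ (40/B²)/(5(1+v²/B²)) = 8/(B²+v²) ≥ 4/v²`.
-/

namespace Pool.Agent.BMR

theorem fj_nonneg (v : ℝ) : 0 ≤ fj v := by
  unfold fj
  split_ifs
  · exact zero_le_one
  · positivity

private theorem fj_ne {v : ℝ} (hv : v ≠ 0) : fj v = Real.sin (v / 2) ^ 2 * (4 / v ^ 2) := by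
  unfold fj
  rw [if_neg hv]
  field_simp
  ring

theorem fj_le_one (v : ℝ) : fj v ≤ 1 := by
  by_cases hv : v = 0
  · unfold fj
    rw [if_pos hv]
  · rw [fj_ne hv]
    have h := Real.sin_sq_le_sq (x := v / 2)
    have hv2 : 0 < v ^ 2 := by positivity
    calc Real.sin (v / 2) ^ 2 * (4 / v ^ 2) ≤ (v / 2) ^ 2 * (4 / v ^ 2) :=
          mul_le_mul_of_nonneg_right h (by positivity)
      _ = 1 := by
          field_simp
          norm_num

theorem fj_le (v : ℝ) (hv : v ≠ 0) : fj v ≤ 4 / v ^ 2 := by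
  rw [fj_ne hv]
  have h := Real.sin_sq_le_one (v / 2)
  calc Real.sin (v / 2) ^ 2 * (4 / v ^ 2) ≤ 1 * (4 / v ^ 2) :=
        mul_le_mul_of_nonneg_right h (by positivity)
    _ = 4 / v ^ 2 := one_mul _

theorem fj_ge (v : ℝ) (hv : |v| ≤ 3) : 2 / 5 ≤ fj v := by
  by_cases h0 : v = 0
  · unfold fj
    rw [if_pos h0]
    norm_num
  · rw [fj_ne h0]
    have hpi := Real.pi_gt_three
    have hpi2 := Real.pi_lt_d2
    have habs : Real.sin (v / 2) ^ 2 = Real.sin (|v| / 2) ^ 2 := by
      rcases abs_choice v with h | h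
      · rw [h]
      · rw [h, neg_div, Real.sin_neg, neg_sq]
    have h1 : 2 / Real.pi * (|v| / 2) ≤ Real.sin (|v| / 2) :=
      Real.mul_le_sin (by positivity) (by linarith)
    have h2 : (2 / Real.pi * (|v| / 2)) ^ 2 ≤ Real.sin (|v| / 2) ^ 2 :=
      pow_le_pow_left₀ (by positivity) h1 2
    have hv2 : 0 < v ^ 2 := by positivity
    rw [habs]
    have h3 : (2 / Real.pi * (|v| / 2)) ^ 2 * (4 / v ^ 2) = 4 / Real.pi ^ 2 := by
      have : (2 / Real.pi * (|v| / 2)) ^ 2 = v ^ 2 / Real.pi ^ 2 := by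
        rw [mul_pow, div_pow, div_pow, sq_abs]
        field_simp
      rw [this]
      field_simp
    have h4 : (2 : ℝ) / 5 ≤ 4 / Real.pi ^ 2 := by
      rw [div_le_div_iff₀ (by norm_num) (by positivity)]
      nlinarith
    calc (2 : ℝ) / 5 ≤ 4 / Real.pi ^ 2 := h4
      _ = (2 / Real.pi * (|v| / 2)) ^ 2 * (4 / v ^ 2) := h3.symm
      _ ≤ _ := mul_le_mul_of_nonneg_right h2 (by positivity)

theorem fj_two (v : ℝ) : 1 / (5 * (1 + v ^ 2)) ≤ fj v + fj (v + Real.pi) := by
  have hpi := Real.pi_gt_three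
  have hpi2 := Real.pi_lt_d2
  have hsmall : 1 / (5 * (1 + v ^ 2)) ≤ 1 := by
    rw [div_le_one (by positivity)]
    nlinarith [sq_nonneg v]
  by_cases h0 : v = 0
  · have h1 : fj v = 1 := by
      unfold fj
      rw [if_pos h0]
    have h2 := fj_nonneg (v + Real.pi)
    linarith
  by_cases h1 : v + Real.pi = 0
  · have h2 : fj (v + Real.pi) = 1 := by
      unfold fj
      rw [if_pos h1]
    have h3 := fj_nonneg v
    linarith
  rw [fj_ne h0, fj_ne h1]
  have hs : Real.sin ((v + Real.pi) / 2) = Real.cos (v / 2) := by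
    rw [add_div, Real.sin_add_pi_div_two]
  rw [hs]
  have hM : (0 : ℝ) < (|v| + Real.pi) ^ 2 := by positivity
  have ha : 4 / (|v| + Real.pi) ^ 2 ≤ 4 / v ^ 2 := by
    apply div_le_div_of_nonneg_left (by norm_num) (by positivity)
    rw [← sq_abs v]
    exact pow_le_pow_left₀ (abs_nonneg v) (by linarith) 2
  have hb : 4 / (|v| + Real.pi) ^ 2 ≤ 4 / (v + Real.pi) ^ 2 := by
    apply div_le_div_of_nonneg_left (by norm_num) (by positivity)
    rw [← sq_abs (v + Real.pi)]
    refine pow_le_pow_left₀ (abs_nonneg _) ?_ 2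
    calc |v + Real.pi| ≤ |v| + |Real.pi| := abs_add_le _ _
      _ = |v| + Real.pi := by rw [abs_of_pos Real.pi_pos]
  have hc : 1 / (5 * (1 + v ^ 2)) ≤ 4 / (|v| + Real.pi) ^ 2 := by
    rw [div_le_div_iff₀ (by positivity) hM]
    have h5 : v ^ 2 = |v| ^ 2 := (sq_abs v).symm
    rw [h5]
    have h6 := abs_nonneg v
    nlinarith [sq_nonneg (|v| - Real.pi)]
  calc 1 / (5 * (1 + v ^ 2)) ≤ 4 / (|v| + Real.pi) ^ 2 := hc
    _ = Real.sin (v / 2) ^ 2 * (4 / (|v| + Real.pi) ^ 2) +
        Real.cos (v / 2) ^ 2 * (4 / (|v| + Real.pi) ^ 2) := by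
        rw [← add_mul, Real.sin_sq_add_cos_sq, one_mul]
    _ ≤ _ := add_le_add (mul_le_mul_of_nonneg_left ha (by positivity))
        (mul_le_mul_of_nonneg_left hb (by positivity))

private theorem fj_split (v : ℝ) :
    (∫ s in (-1 : ℝ)..1, ((1 - |s| : ℝ) : ℂ) * Complex.exp (Complex.I * ((s * v : ℝ) : ℂ))) =
    (∫ s in (-1 : ℝ)..0, (1 + (s : ℂ)) * Complex.exp (Complex.I * ((s * v : ℝ) : ℂ))) +
    ∫ s in (0 : ℝ)..1, (1 - (s : ℂ)) * Complex.exp (Complex.I * ((s * v : ℝ) : ℂ)) := by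
  have hcont : Continuous fun s : ℝ =>
      ((1 - |s| : ℝ) : ℂ) * Complex.exp (Complex.I * ((s * v : ℝ) : ℂ)) := by
    fun_prop
  rw [← intervalIntegral.integral_add_adjacent_intervals
    (hcont.intervalIntegrable (-1) 0) (hcont.intervalIntegrable 0 1)]
  congr 1
  · refine intervalIntegral.integral_congr fun s hs => ?_
    rw [Set.uIcc_of_le (by norm_num)] at hs
    rw [abs_of_nonpos hs.2]
    push_cast
    ring
  · refine intervalIntegral.integral_congr fun s hs => ?_
    rw [Set.uIcc_of_le (by norm_num)] at hs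
    rw [abs_of_nonneg hs.1]
    push_cast
    ring

theorem fj_repr (v : ℝ) : ((fj v : ℝ) : ℂ) =
    ∫ s in (-1 : ℝ)..1, ((1 - |s| : ℝ) : ℂ) * Complex.exp (Complex.I * ((s * v : ℝ) : ℂ)) := by
  rw [fj_split]
  by_cases hv : v = 0
  · subst hv
    have h1 : ∀ s : ℝ, HasDerivAt (fun s : ℝ => ((s : ℂ) + (s : ℂ) ^ 2 / 2)) (1 + (s : ℂ)) s := by
      intro s
      have h2 : HasDerivAt (fun s : ℝ => (s : ℂ)) 1 s := by
        simpa using (hasDerivAt_id s).ofReal_comp
      have h3 := h2.add ((h2.pow 2).div_const 2)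
      refine HasDerivAt.congr_deriv (f := fun s : ℝ => ((s : ℂ) + (s : ℂ) ^ 2 / 2)) h3 ?_
      push_cast
      ring
    have h4 : ∀ s : ℝ, HasDerivAt (fun s : ℝ => ((s : ℂ) - (s : ℂ) ^ 2 / 2)) (1 - (s : ℂ)) s := by
      intro s
      have h2 : HasDerivAt (fun s : ℝ => (s : ℂ)) 1 s := by
        simpa using (hasDerivAt_id s).ofReal_comp
      have h3 := h2.sub ((h2.pow 2).div_const 2)
      refine HasDerivAt.congr_deriv (f := fun s : ℝ => ((s : ℂ) - (s : ℂ) ^ 2 / 2)) h3 ?_
      push_cast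
      ring
    have e1 : (∫ s in (-1 : ℝ)..0, (1 + (s : ℂ)) * Complex.exp (Complex.I * ((s * 0 : ℝ) : ℂ))) =
        ∫ s in (-1 : ℝ)..0, (1 + (s : ℂ)) := by
      refine intervalIntegral.integral_congr fun s _ => ?_
      simp
    have e2 : (∫ s in (0 : ℝ)..1, (1 - (s : ℂ)) * Complex.exp (Complex.I * ((s * 0 : ℝ) : ℂ))) =
        ∫ s in (0 : ℝ)..1, (1 - (s : ℂ)) := by
      refine intervalIntegral.integral_congr fun s _ => ?_
      simp
    rw [e1, e2, intervalIntegral.integral_eq_sub_of_hasDerivAt (fun s _ => h1 s)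
      ((by fun_prop : Continuous fun s : ℝ => (1 + (s : ℂ))).intervalIntegrable _ _),
      intervalIntegral.integral_eq_sub_of_hasDerivAt (fun s _ => h4 s)
      ((by fun_prop : Continuous fun s : ℝ => (1 - (s : ℂ))).intervalIntegrable _ _)]
    unfold fj
    rw [if_pos rfl]
    push_cast
    norm_num
  · have hvc : (v : ℂ) ≠ 0 := by exact_mod_cast hv
    have hc : Complex.I * (v : ℂ) ≠ 0 := mul_ne_zero Complex.I_ne_zero hvc
    set c : ℂ := Complex.I * (v : ℂ) with hcdef
    have hexp : ∀ s : ℝ, HasDerivAt (fun s : ℝ => Complex.exp (c * (s : ℂ)))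
        (c * Complex.exp (c * (s : ℂ))) s := by
      intro s
      have h2 : HasDerivAt (fun s : ℝ => (s : ℂ)) 1 s := by
        simpa using (hasDerivAt_id s).ofReal_comp
      have h3 := (h2.const_mul c).cexp
      refine h3.congr_deriv ?_
      ring
    have hid : ∀ s : ℝ, HasDerivAt (fun s : ℝ => (s : ℂ)) 1 s := by
      intro s
      simpa using (hasDerivAt_id s).ofReal_comp
    have hre : ∀ s : ℝ, Complex.exp (Complex.I * ((s * v : ℝ) : ℂ)) =
        Complex.exp (c * (s : ℂ)) := by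
      intro s
      congr 1
      rw [hcdef]
      push_cast
      ring
    have h1 : ∀ s : ℝ, HasDerivAt (fun s : ℝ => (1 + (s : ℂ)) * Complex.exp (c * (s : ℂ)) / c -
        Complex.exp (c * (s : ℂ)) / c ^ 2) ((1 + (s : ℂ)) * Complex.exp (c * (s : ℂ))) s := by
      intro s
      have h := ((((hid s).const_add 1).mul (hexp s)).div_const c).sub
        ((hexp s).div_const (c ^ 2))
      refine h.congr_deriv ?_
      field_simp
      ring
    have h4 : ∀ s : ℝ, HasDerivAt (fun s : ℝ => (1 - (s : ℂ)) * Complex.exp (c * (s : ℂ)) / c +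
        Complex.exp (c * (s : ℂ)) / c ^ 2) ((1 - (s : ℂ)) * Complex.exp (c * (s : ℂ))) s := by
      intro s
      have h := ((((hid s).const_sub 1).mul (hexp s)).div_const c).add
        ((hexp s).div_const (c ^ 2))
      refine h.congr_deriv ?_
      field_simp
      ring
    simp only [hre]
    rw [intervalIntegral.integral_eq_sub_of_hasDerivAt (fun s _ => h1 s)
      ((by fun_prop : Continuous fun s : ℝ =>
        (1 + (s : ℂ)) * Complex.exp (c * (s : ℂ))).intervalIntegrable _ _),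
      intervalIntegral.integral_eq_sub_of_hasDerivAt (fun s _ => h4 s)
      ((by fun_prop : Continuous fun s : ℝ =>
        (1 - (s : ℂ)) * Complex.exp (c * (s : ℂ))).intervalIntegrable _ _)]
    rw [fj_ne hv]
    have hI : c ^ 2 = -(v : ℂ) ^ 2 := by
      rw [hcdef, mul_pow, Complex.I_sq]
      ring
    have hcos : Complex.exp c + Complex.exp (-c) = 2 * (Real.cos v : ℂ) := by
      rw [Complex.ofReal_cos, Complex.cos, hcdef]
      have : -(Complex.I * (v : ℂ)) = -(v : ℂ) * Complex.I := by ring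
      rw [this, mul_comm Complex.I]
      ring
    have hsin : Real.cos v = 1 - 2 * Real.sin (v / 2) ^ 2 := by
      have h5 := Real.cos_two_mul (v / 2)
      have h6 := Real.sin_sq_add_cos_sq (v / 2)
      have h7 : 2 * (v / 2) = v := by ring
      rw [h7] at h5
      linarith
    have hsinc : (Real.cos v : ℂ) = 1 - 2 * ((Real.sin (v / 2) ^ 2 : ℝ) : ℂ) := by
      rw [hsin]
      push_cast
      ring
    have hfin : Complex.exp c + Complex.exp (-c) =
        2 * (1 - 2 * (Complex.sin ((v : ℂ) / 2) ^ 2)) := by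
      rw [hcos, hsinc]
      push_cast
      ring
    have key : Complex.sin ((v : ℂ) / 2) ^ 2 * (4 / (v : ℂ) ^ 2) =
        (Complex.exp c + Complex.exp (-c) - 2) / c ^ 2 := by
      rw [hfin, hI]
      field_simp
      ring
    push_cast
    rw [key]
    have e1 : c * (-1 : ℂ) = -c := by ring
    simp only [mul_zero, mul_one, Complex.exp_zero, e1]
    ring

theorem continuous_fj : Continuous fj := by
  have h : Continuous fun v : ℝ => ((fj v : ℝ) : ℂ) := by
    simp only [fj_repr]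
    apply intervalIntegral.continuous_parametric_intervalIntegral_of_continuous'
    fun_prop
  have h2 := Complex.continuous_re.comp h
  exact h2

theorem fj_minor (B : ℝ) (hB : 1 ≤ B) (v : ℝ) :
    fj v - 40 / B ^ 2 * (fj (v / B) + fj (v / B + Real.pi)) ≤ if |v| ≤ B then 1 else 0 := by
  have hBpos : 0 < B := by linarith
  have hn : 0 ≤ 40 / B ^ 2 * (fj (v / B) + fj (v / B + Real.pi)) :=
    mul_nonneg (by positivity) (add_nonneg (fj_nonneg _) (fj_nonneg _))
  split_ifs with h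
  · have := fj_le_one v
    linarith
  · push Not at h
    have hv : v ≠ 0 := by
      intro h0
      rw [h0, abs_zero] at h
      linarith
    have hv2 : 0 < v ^ 2 := by positivity
    have h1 := fj_le v hv
    have h2 := fj_two (v / B)
    have hsq : B ^ 2 ≤ v ^ 2 := by
      rw [← sq_abs v]
      exact pow_le_pow_left₀ hBpos.le h.le 2
    have h3 : 4 / v ^ 2 ≤ 40 / B ^ 2 * (1 / (5 * (1 + (v / B) ^ 2))) := by
      have e : 40 / B ^ 2 * (1 / (5 * (1 + (v / B) ^ 2))) = 8 / (B ^ 2 + v ^ 2) := by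
        field_simp
        ring
      rw [e, div_le_div_iff₀ hv2 (by positivity)]
      nlinarith
    have h4 : 40 / B ^ 2 * (1 / (5 * (1 + (v / B) ^ 2))) ≤
        40 / B ^ 2 * (fj (v / B) + fj (v / B + Real.pi)) :=
      mul_le_mul_of_nonneg_left h2 (by positivity)
    linarith

end Pool.Agent.BMR
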