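import Pool.Agent.BMR.FIN

/-!
# BMR-LONG (1.2h): long intervals, all blocks of `p`

`fin2`: for `h ≤ N^0.01` this is `fin1`. Otherwise let `h₁ = ⌊N^0.01⌋`, `w = ⌊h/h₁⌋ ≥ 1` disjoint windows `Ioc (e₀ + t h₁) (e₀ + (t+1) h₁)`, `t < w`
(`e₀ + h ≤ 2√N`); each is bad for at most `N h₁^(-1/200)` numbers `n`, so at most `2 N h₁^(-1/200)` numbers `n` have `≥ w/2` bad windows (double
counting); for the others the sum is `≥ (w/2) c h₁/log N ≥ (c/4) h/log N`. `2 h₁^(-1/200) ≤ h^(-kappa)` with `kappa = 10^(-5)` as `h ≤ √N`.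
`eq_pairs`: `P_j = 4^j ⌈N^0.51⌉`, `j < J = ⌊log N/100⌋` (`4^J ≤ N^0.015`, so `4 P_j ≤ N^0.53`); `pairs ≥ ∑_j ∑_e rho P_j (n-e)` (disjoint blocks of
primes in `(N^0.51, N^0.53]`); if all `j` are good it is `≥ J c h/log N ≥ c' h`; the union over `j` costs `log N ≤ h^(kappa/2)`.
-/

open Finset

namespace Pool.Agent.BMR

private theorem sum_windows (g : ℕ → ℝ) (e₀ h₁ w : ℕ) :
    ∑ t ∈ range w, ∑ e ∈ Ioc (e₀ + t * h₁) (e₀ + t * h₁ + h₁), g e =
      ∑ e ∈ Ioc e₀ (e₀ + w * h₁), g e := by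
  induction w with
  | zero => simp
  | succ w ih =>
    rw [sum_range_succ, ih]
    have h1 : e₀ ≤ e₀ + w * h₁ := Nat.le_add_right _ _
    have h2 : e₀ + w * h₁ ≤ e₀ + w * h₁ + h₁ := Nat.le_add_right _ _
    rw [sum_Ioc_consecutive g h1 h2]
    congr 2
    ring

private theorem window_count (S : Finset ℕ) (f : ℕ → ℕ → ℝ) (hf : ∀ n e, 0 ≤ f n e)
    (e₀ h h₁ w : ℕ) (hw : 1 ≤ w) (hwh : w * h₁ ≤ h) (X B : ℝ) (hX : 0 ≤ X)
    (hB : ∀ t, t < w → ((S.filter (fun n => ∑ e ∈ Ioc (e₀ + t * h₁) (e₀ + t * h₁ + h₁), f n e < X)).card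
      : ℝ) ≤ B) :
    ((S.filter (fun n => ∑ e ∈ Ioc e₀ (e₀ + h), f n e < w / 2 * X)).card : ℝ) ≤ 2 * B := by
  classical
  set T := S.filter (fun n => ∑ e ∈ Ioc e₀ (e₀ + h), f n e < w / 2 * X) with hT
  have hw0 : (0 : ℝ) < w := by exact_mod_cast hw
  -- many bad windows for each element of `T`
  have h1 : ∀ n ∈ T, (w : ℝ) / 2 ≤ (((range w).filter (fun t =>
      ∑ e ∈ Ioc (e₀ + t * h₁) (e₀ + t * h₁ + h₁), f n e < X)).card : ℝ) := by
    intro n hn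
    by_contra hcon
    push Not at hcon
    have hn2 := (mem_filter.mp hn).2
    have h3 : ∑ e ∈ Ioc e₀ (e₀ + w * h₁), f n e ≤ ∑ e ∈ Ioc e₀ (e₀ + h), f n e := by
      refine sum_le_sum_of_subset_of_nonneg ?_ (fun e _ _ => hf n e)
      intro e he
      rw [mem_Ioc] at he ⊢
      exact ⟨he.1, he.2.trans (by omega)⟩
    rw [← sum_windows] at h3
    have h4 : ∑ t ∈ (range w).filter (fun t =>
        ¬ ∑ e ∈ Ioc (e₀ + t * h₁) (e₀ + t * h₁ + h₁), f n e < X), X ≤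
        ∑ t ∈ range w, ∑ e ∈ Ioc (e₀ + t * h₁) (e₀ + t * h₁ + h₁), f n e := by
      refine le_trans (sum_le_sum (g := fun t =>
        ∑ e ∈ Ioc (e₀ + t * h₁) (e₀ + t * h₁ + h₁), f n e) ?_)
        (sum_le_sum_of_subset_of_nonneg (filter_subset _ _) (fun t _ _ =>
          sum_nonneg fun e _ => hf n e))
      intro t ht
      exact not_lt.mp (mem_filter.mp ht).2
    rw [sum_const, nsmul_eq_mul] at h4
    have h5 : (((range w).filter (fun t =>
        ∑ e ∈ Ioc (e₀ + t * h₁) (e₀ + t * h₁ + h₁), f n e < X)).card : ℝ) +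
        (((range w).filter (fun t =>
        ¬ ∑ e ∈ Ioc (e₀ + t * h₁) (e₀ + t * h₁ + h₁), f n e < X)).card : ℝ) = w := by
      have := card_filter_add_card_filter_not (s := range w) (fun t =>
        ∑ e ∈ Ioc (e₀ + t * h₁) (e₀ + t * h₁ + h₁), f n e < X)
      rw [card_range] at this
      exact_mod_cast this
    have h6 : (w : ℝ) / 2 ≤ (((range w).filter (fun t =>
        ¬ ∑ e ∈ Ioc (e₀ + t * h₁) (e₀ + t * h₁ + h₁), f n e < X)).card : ℝ) := by linarith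
    have h7 := mul_le_mul_of_nonneg_right h6 hX
    linarith
  -- double counting
  have h2 : ∑ n ∈ T, (((range w).filter (fun t =>
      ∑ e ∈ Ioc (e₀ + t * h₁) (e₀ + t * h₁ + h₁), f n e < X)).card : ℝ) ≤ w * B := by
    calc ∑ n ∈ T, (((range w).filter (fun t =>
        ∑ e ∈ Ioc (e₀ + t * h₁) (e₀ + t * h₁ + h₁), f n e < X)).card : ℝ)
        = ∑ n ∈ T, ∑ t ∈ range w,
          (if ∑ e ∈ Ioc (e₀ + t * h₁) (e₀ + t * h₁ + h₁), f n e < X then (1 : ℝ) else 0) := by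
          refine sum_congr rfl fun n _ => ?_
          rw [card_filter]
          push_cast
          rfl
      _ = ∑ t ∈ range w, ∑ n ∈ T,
          (if ∑ e ∈ Ioc (e₀ + t * h₁) (e₀ + t * h₁ + h₁), f n e < X then (1 : ℝ) else 0) :=
          sum_comm
      _ ≤ ∑ t ∈ range w, B := by
          refine sum_le_sum fun t ht => ?_
          refine le_trans ?_ (hB t (mem_range.mp ht))
          rw [card_filter]
          push_cast
          refine sum_le_sum_of_subset_of_nonneg (filter_subset _ _) (fun n _ _ => ?_)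
          split_ifs <;> norm_num
      _ = w * B := by rw [sum_const, card_range, nsmul_eq_mul]
  have h3 : ∑ n ∈ T, (w : ℝ) / 2 ≤ w * B := (sum_le_sum h1).trans h2
  rw [sum_const, nsmul_eq_mul] at h3
  have h4 : (w : ℝ) * (T.card : ℝ) ≤ w * (2 * B) := by linarith
  exact le_of_mul_le_mul_left h4 hw0

theorem fin2 : ∃ c A kappa : ℝ, 0 < c ∧ 0 < A ∧ 0 < kappa ∧ ∃ N₀ : ℕ, ∀ N : ℕ, N₀ ≤ N → ∀ h e₀ P : ℕ,
    Real.log N ^ A ≤ h → (h : ℝ) ≤ √N → (e₀ : ℝ) ≤ √N →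
      (N : ℝ) ^ (0.4 : ℝ) ≤ P → (P : ℝ) ≤ (N : ℝ) ^ (0.53 : ℝ) →
        (((Ioc (N / 2) N).filter (fun n => (∑ e ∈ Ioc e₀ (e₀ + h), (rho P (n - e) : ℝ)) <
          c * h / Real.log N)).card : ℝ) ≤ N * (h : ℝ) ^ (-kappa) := by
  obtain ⟨c, A, hc, hA, N₁, H⟩ := fin1
  have ev1 : ∀ᶠ N : ℕ in Filter.atTop, Real.log N ^ A ≤ 1 / 2 * (N : ℝ) ^ (0.01 : ℝ) := by
    have h1 := (isLittleO_log_rpow_rpow_atTop A (show (0 : ℝ) < 0.01 by norm_num)).bound
      (show (0 : ℝ) < 1 / 2 by norm_num)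
    have h2 := tendsto_natCast_atTop_atTop (R := ℝ) |>.eventually h1
    filter_upwards [h2, Filter.eventually_ge_atTop 3] with N hN hN3
    have hNR : (3 : ℝ) ≤ N := by exact_mod_cast hN3
    have hlog : 0 ≤ Real.log N := Real.log_nonneg (by linarith)
    rwa [Real.norm_of_nonneg (Real.rpow_nonneg hlog _),
      Real.norm_of_nonneg (Real.rpow_nonneg (by linarith) _)] at hN
  have ev2 : ∀ᶠ N : ℕ in Filter.atTop, (2 : ℝ) ≤ (N : ℝ) ^ (0.01 : ℝ) :=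
    tendsto_natCast_atTop_atTop (R := ℝ) |>.eventually
      ((tendsto_rpow_atTop (show (0 : ℝ) < 0.01 by norm_num)).eventually_ge_atTop 2)
  have ev3 : ∀ᶠ N : ℕ in Filter.atTop, (4 : ℝ) ≤ (N : ℝ) ^ (0.000045 : ℝ) :=
    tendsto_natCast_atTop_atTop (R := ℝ) |>.eventually
      ((tendsto_rpow_atTop (show (0 : ℝ) < 0.000045 by norm_num)).eventually_ge_atTop 4)
  obtain ⟨N₂, hN₂⟩ := Filter.eventually_atTop.mp (ev1.and (ev2.and ev3))
  refine ⟨c / 4, A, 1 / 100000, by linarith, hA, by norm_num, max (max N₁ N₂) 3, ?_⟩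
  intro N hN h e₀ P hh1 hh2 he hP1 hP2
  have hN1 : N₁ ≤ N := le_trans (le_trans (le_max_left _ _) (le_max_left _ _)) hN
  have hN2 : N₂ ≤ N := le_trans (le_trans (le_max_right _ _) (le_max_left _ _)) hN
  have hN3 : 3 ≤ N := le_trans (le_max_right _ _) hN
  obtain ⟨e1, e2, e3⟩ := hN₂ N hN2
  have hNR : (3 : ℝ) ≤ N := by exact_mod_cast hN3
  have hN0 : (0 : ℝ) < N := by linarith
  have hlog : 0 < Real.log N := Real.log_pos (by linarith)
  have hsq : 0 ≤ √(N : ℝ) := Real.sqrt_nonneg _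
  have hh0 : (0 : ℝ) < h := lt_of_lt_of_le (Real.rpow_pos_of_pos hlog _) hh1
  have hh0' : 1 ≤ h := by
    have : (0 : ℝ) < (h : ℝ) := hh0
    exact_mod_cast this
  have hh1R : (1 : ℝ) ≤ h := by exact_mod_cast hh0'
  by_cases hcase : (h : ℝ) ≤ (N : ℝ) ^ (0.01 : ℝ)
  · have h1 := H N hN1 h e₀ P hh1 hcase (by linarith) hP1 hP2
    refine le_trans ?_ (h1.trans ?_)
    · have h2 : ((Ioc (N / 2) N).filter (fun n => (∑ e ∈ Ioc e₀ (e₀ + h), (rho P (n - e) : ℝ)) <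
          c / 4 * h / Real.log N)) ⊆ ((Ioc (N / 2) N).filter (fun n =>
          (∑ e ∈ Ioc e₀ (e₀ + h), (rho P (n - e) : ℝ)) < c * h / Real.log N)) := by
        intro n hn
        rw [mem_filter] at hn ⊢
        refine ⟨hn.1, hn.2.trans_le ?_⟩
        gcongr
        linarith
      exact_mod_cast card_le_card h2
    · refine mul_le_mul_of_nonneg_left ?_ hN0.le
      exact Real.rpow_le_rpow_of_exponent_le hh1R (by norm_num)
  · push Not at hcase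
    set h₁ : ℕ := ⌊(N : ℝ) ^ (0.01 : ℝ)⌋₊ with hh₁
    have hX0 : (0 : ℝ) ≤ (N : ℝ) ^ (0.01 : ℝ) := Real.rpow_nonneg hN0.le _
    have h1a : (h₁ : ℝ) ≤ (N : ℝ) ^ (0.01 : ℝ) := Nat.floor_le hX0
    have h1b : 1 / 2 * (N : ℝ) ^ (0.01 : ℝ) ≤ h₁ := by
      have := Nat.lt_floor_add_one ((N : ℝ) ^ (0.01 : ℝ))
      rw [← hh₁] at this
      linarith
    have h1pos : (1 : ℝ) ≤ h₁ := by linarith
    have h1pos' : 1 ≤ h₁ := by exact_mod_cast h1pos
    have hle : h₁ ≤ h := by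
      have : (h₁ : ℝ) ≤ h := by linarith
      exact_mod_cast this
    set w := h / h₁ with hwdef
    have hw : 1 ≤ w := Nat.div_pos hle h1pos'
    have hwh : w * h₁ ≤ h := Nat.div_mul_le_self h h₁
    have hwh2 : h ≤ 2 * (w * h₁) := by
      have h3 : h < w * h₁ + h₁ := Nat.lt_div_mul_add h1pos'
      have h4 : h₁ ≤ w * h₁ := Nat.le_mul_of_pos_left h₁ hw
      omega
    have hX : 0 ≤ c * h₁ / Real.log N := by positivity
    have hcount := window_count (Ioc (N / 2) N) (fun n e => (rho P (n - e) : ℝ))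
      (fun n e => Nat.cast_nonneg _) e₀ h h₁ w hw hwh (c * h₁ / Real.log N)
      (N * (h₁ : ℝ) ^ (-(1 / 200 : ℝ))) hX (by
        intro t ht
        refine H N hN1 h₁ (e₀ + t * h₁) P (by linarith) h1a ?_ hP1 hP2
        have h5 : t * h₁ ≤ h := (Nat.mul_le_mul_right h₁ ht.le).trans hwh
        have h6 : ((t * h₁ : ℕ) : ℝ) ≤ h := by exact_mod_cast h5
        push_cast at h6 ⊢
        linarith)
    refine le_trans ?_ (hcount.trans ?_)
    · have h2 : ((Ioc (N / 2) N).filter (fun n => (∑ e ∈ Ioc e₀ (e₀ + h), (rho P (n - e) : ℝ)) <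
          c / 4 * h / Real.log N)) ⊆ ((Ioc (N / 2) N).filter (fun n =>
          (∑ e ∈ Ioc e₀ (e₀ + h), (rho P (n - e) : ℝ)) <
            (w : ℝ) / 2 * (c * h₁ / Real.log N))) := by
        intro n hn
        rw [mem_filter] at hn ⊢
        refine ⟨hn.1, hn.2.trans_le ?_⟩
        have h7 : (h : ℝ) ≤ 2 * (w * h₁) := by exact_mod_cast hwh2
        have h8 : (w : ℝ) / 2 * (c * h₁ / Real.log N) = c / 4 * (2 * (w * h₁)) / Real.log N := by
          ring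
        rw [h8]
        gcongr
      exact_mod_cast card_le_card h2
    · -- `2 N h₁^(-1/200) ≤ N h^(-1/100000)`
      have h3 : (h₁ : ℝ) ^ (-(1 / 200 : ℝ)) ≤ (1 / 2 * (N : ℝ) ^ (0.01 : ℝ)) ^ (-(1 / 200 : ℝ)) :=
        Real.rpow_le_rpow_of_nonpos (by positivity) h1b (by norm_num)
      have h4 : (1 / 2 * (N : ℝ) ^ (0.01 : ℝ)) ^ (-(1 / 200 : ℝ)) =
          (2 : ℝ) ^ (1 / 200 : ℝ) * (N : ℝ) ^ (-(0.00005 : ℝ)) := by
        rw [Real.mul_rpow (by norm_num) hX0, ← Real.rpow_mul hN0.le, one_div,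
          Real.inv_rpow (by norm_num), ← Real.rpow_neg (by norm_num)]
        norm_num
      have h5 : (2 : ℝ) ^ (1 / 200 : ℝ) ≤ 2 := by
        calc (2 : ℝ) ^ (1 / 200 : ℝ) ≤ (2 : ℝ) ^ (1 : ℝ) :=
              Real.rpow_le_rpow_of_exponent_le (by norm_num) (by norm_num)
          _ = 2 := Real.rpow_one 2
      have h6 : (N : ℝ) ^ (-(0.000005 : ℝ)) ≤ (h : ℝ) ^ (-(1 / 100000 : ℝ)) := by
        have h7 : (√(N : ℝ)) ^ (-(1 / 100000 : ℝ)) ≤ (h : ℝ) ^ (-(1 / 100000 : ℝ)) :=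
          Real.rpow_le_rpow_of_nonpos hh0 hh2 (by norm_num)
        rw [Real.sqrt_eq_rpow, ← Real.rpow_mul hN0.le] at h7
        have h8 : (1 / 2 : ℝ) * -(1 / 100000) = -(0.000005 : ℝ) := by norm_num
        rwa [h8] at h7
      have h9 : (N : ℝ) ^ (-(0.000005 : ℝ)) = (N : ℝ) ^ (0.000045 : ℝ) * (N : ℝ) ^ (-(0.00005 : ℝ)) := by
        rw [← Real.rpow_add hN0]
        norm_num
      have h10 : (0 : ℝ) ≤ (N : ℝ) ^ (-(0.00005 : ℝ)) := Real.rpow_nonneg hN0.le _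
      have h11 : 2 * (h₁ : ℝ) ^ (-(1 / 200 : ℝ)) ≤ (h : ℝ) ^ (-(1 / 100000 : ℝ)) := by
        calc 2 * (h₁ : ℝ) ^ (-(1 / 200 : ℝ)) ≤ 2 * ((2 : ℝ) ^ (1 / 200 : ℝ) *
              (N : ℝ) ^ (-(0.00005 : ℝ))) := by rw [← h4]; linarith
          _ ≤ 2 * (2 * (N : ℝ) ^ (-(0.00005 : ℝ))) := by
              have := mul_le_mul_of_nonneg_right h5 h10
              linarith
          _ = 4 * (N : ℝ) ^ (-(0.00005 : ℝ)) := by ring
          _ ≤ (N : ℝ) ^ (0.000045 : ℝ) * (N : ℝ) ^ (-(0.00005 : ℝ)) :=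
              mul_le_mul_of_nonneg_right e3 h10
          _ = (N : ℝ) ^ (-(0.000005 : ℝ)) := h9.symm
          _ ≤ _ := h6
      have h12 := mul_le_mul_of_nonneg_left h11 hN0.le
      linarith

private theorem sum_blocks (D : ℕ → Prop) [DecidablePred D] (P₀ J : ℕ) :
    ∑ j ∈ range J, ((prm (4 ^ j * P₀)).filter D).card =
      ((Ioc P₀ (4 ^ J * P₀)).filter (fun p => p.Prime ∧ D p)).card := by
  induction J with
  | zero => simp
  | succ J ih =>
    rw [sum_range_succ, ih]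
    unfold prm
    rw [filter_filter, card_filter, card_filter, card_filter]
    have h1 : P₀ ≤ 4 ^ J * P₀ := Nat.le_mul_of_pos_left P₀ (by positivity)
    have h2 : 4 ^ J * P₀ ≤ 4 * (4 ^ J * P₀) := by omega
    rw [sum_Ioc_consecutive (fun p => if p.Prime ∧ D p then 1 else 0) h1 h2]
    congr 2
    rw [pow_succ]
    ring

private theorem pairs_ge (N n e₀ h P₀ J : ℕ) (h1 : (N : ℝ) ^ (0.51 : ℝ) ≤ P₀)
    (h2 : ((4 ^ J * P₀ : ℕ) : ℝ) ≤ (N : ℝ) ^ (0.53 : ℝ)) (h3 : (N : ℝ) ^ (0.53 : ℝ) ≤ N) :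
    ∑ j ∈ range J, ∑ e ∈ Ioc e₀ (e₀ + h), rho (4 ^ j * P₀) (n - e) ≤ pairs N n e₀ h := by
  classical
  rw [sum_comm]
  unfold pairs rho
  rw [card_filter, sum_product]
  refine sum_le_sum fun e he => ?_
  rw [sum_blocks, ← card_filter]
  refine card_le_card ?_
  intro p hp
  rw [mem_filter, mem_Ioc] at hp
  rw [mem_filter, mem_filter, mem_range]
  obtain ⟨⟨ha, hb⟩, hpr, hd⟩ := hp
  have ha' : (P₀ : ℝ) < p := by exact_mod_cast ha
  have hb' : (p : ℝ) ≤ ((4 ^ J * P₀ : ℕ) : ℝ) := by exact_mod_cast hb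
  refine ⟨⟨?_, hpr, lt_of_le_of_lt h1 ha', hb'.trans h2⟩, hd⟩
  have : (p : ℝ) ≤ N := hb'.trans (h2.trans h3)
  have h4 : p ≤ N := by exact_mod_cast this
  omega

theorem eq_pairs : ∃ c A kappa : ℝ, 0 < c ∧ 0 < A ∧ 0 < kappa ∧ ∃ N₀ : ℕ, ∀ N : ℕ, N₀ ≤ N →
    ∀ h e₀ : ℕ, Real.log N ^ A ≤ h → (h : ℝ) ≤ √N → (e₀ : ℝ) ≤ √N →
      (((Ioc (N / 2) N).filter (fun n => (pairs N n e₀ h : ℝ) < c * h)).card : ℝ) ≤
        N * (h : ℝ) ^ (-kappa) := by
  classical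
  obtain ⟨c, A, kappa, hc, hA, hk, N₁, H⟩ := fin2
  have ev1 : ∀ᶠ N : ℕ in Filter.atTop, (200 : ℝ) ≤ Real.log N :=
    tendsto_natCast_atTop_atTop (R := ℝ) |>.eventually
      (Real.tendsto_log_atTop.eventually_ge_atTop 200)
  have ev2 : ∀ᶠ N : ℕ in Filter.atTop, (2 : ℝ) ≤ (N : ℝ) ^ (0.005 : ℝ) :=
    tendsto_natCast_atTop_atTop (R := ℝ) |>.eventually
      ((tendsto_rpow_atTop (show (0 : ℝ) < 0.005 by norm_num)).eventually_ge_atTop 2)
  obtain ⟨N₂, hN₂⟩ := Filter.eventually_atTop.mp (ev1.and ev2)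
  refine ⟨c / 200, A + 2 / kappa, kappa / 2, by positivity, by positivity, by positivity,
    max (max N₁ N₂) 3, ?_⟩
  intro N hN h e₀ hh1 hh2 he
  have hN1 : N₁ ≤ N := le_trans (le_trans (le_max_left _ _) (le_max_left _ _)) hN
  have hN2 : N₂ ≤ N := le_trans (le_trans (le_max_right _ _) (le_max_left _ _)) hN
  have hN3 : 3 ≤ N := le_trans (le_max_right _ _) hN
  obtain ⟨e1, e2⟩ := hN₂ N hN2
  have hNR : (3 : ℝ) ≤ N := by exact_mod_cast hN3
  have hN0 : (0 : ℝ) < N := by linarith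
  have hN1R : (1 : ℝ) ≤ N := by linarith
  have hlog : 0 < Real.log N := by linarith
  have hlog1 : 1 ≤ Real.log N := by linarith
  have hh0 : (0 : ℝ) < h := lt_of_lt_of_le (Real.rpow_pos_of_pos hlog _) hh1
  have hA1 : Real.log N ^ A ≤ h :=
    le_trans (Real.rpow_le_rpow_of_exponent_le hlog1 (by
      have : 0 < 2 / kappa := by positivity
      linarith)) hh1
  have hA2 : Real.log N ^ (2 / kappa) ≤ h :=
    le_trans (Real.rpow_le_rpow_of_exponent_le hlog1 (by linarith)) hh1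
  have hlogh : Real.log N ≤ (h : ℝ) ^ (kappa / 2) := by
    have h1 := Real.rpow_le_rpow (Real.rpow_nonneg hlog.le _) hA2
      (show 0 ≤ kappa / 2 by positivity)
    rw [← Real.rpow_mul hlog.le] at h1
    have h2 : 2 / kappa * (kappa / 2) = 1 := by field_simp
    rwa [h2, Real.rpow_one] at h1
  set P₀ : ℕ := ⌈(N : ℝ) ^ (0.51 : ℝ)⌉₊ with hP₀
  set J : ℕ := ⌊Real.log N / 100⌋₊ with hJ
  have hX1 : (1 : ℝ) ≤ (N : ℝ) ^ (0.51 : ℝ) := Real.one_le_rpow hN1R (by norm_num)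
  have hP0a : (N : ℝ) ^ (0.51 : ℝ) ≤ P₀ := Nat.le_ceil _
  have hP0b : (P₀ : ℝ) ≤ 2 * (N : ℝ) ^ (0.51 : ℝ) := by
    have := (Nat.ceil_lt_add_one (show (0 : ℝ) ≤ (N : ℝ) ^ (0.51 : ℝ) by linarith)).le
    rw [← hP₀] at this
    linarith
  have hJa : (J : ℝ) ≤ Real.log N / 100 := Nat.floor_le (by positivity)
  have hJb : Real.log N / 200 ≤ J := by
    have := (Nat.lt_floor_add_one (Real.log N / 100)).le
    rw [← hJ] at this
    linarith
  have h4J : ((4 : ℝ)) ^ J ≤ (N : ℝ) ^ (0.015 : ℝ) := by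
    have h1 : (4 : ℝ) ^ J = Real.exp (J * Real.log 4) := by
      rw [mul_comm, Real.exp_mul, Real.exp_log (by norm_num), Real.rpow_natCast]
    have h2 : Real.log 4 ≤ 3 / 2 := by
      have h3 : Real.log 4 = 2 * Real.log 2 := by
        rw [show (4 : ℝ) = 2 ^ 2 by norm_num, Real.log_pow]
        norm_num
      rw [h3]
      have := Real.log_two_lt_d9
      linarith
    have h4 : (N : ℝ) ^ (0.015 : ℝ) = Real.exp (Real.log N * 0.015) := by
      rw [Real.rpow_def_of_pos hN0]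
    rw [h1, h4]
    apply Real.exp_le_exp.mpr
    have h5 : (0 : ℝ) ≤ J := Nat.cast_nonneg _
    calc (J : ℝ) * Real.log 4 ≤ J * (3 / 2) := mul_le_mul_of_nonneg_left h2 h5
      _ ≤ Real.log N / 100 * (3 / 2) := mul_le_mul_of_nonneg_right hJa (by norm_num)
      _ = Real.log N * 0.015 := by ring
  have h4P : (((4 ^ J * P₀ : ℕ) : ℝ)) ≤ (N : ℝ) ^ (0.53 : ℝ) := by
    push_cast
    calc (4 : ℝ) ^ J * P₀ ≤ (N : ℝ) ^ (0.015 : ℝ) * (2 * (N : ℝ) ^ (0.51 : ℝ)) := by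
          gcongr
      _ ≤ (N : ℝ) ^ (0.015 : ℝ) * ((N : ℝ) ^ (0.005 : ℝ) * (N : ℝ) ^ (0.51 : ℝ)) := by
          gcongr
      _ = (N : ℝ) ^ (0.53 : ℝ) := by
          rw [← Real.rpow_add hN0, ← Real.rpow_add hN0]
          norm_num
  have h53 : (N : ℝ) ^ (0.53 : ℝ) ≤ N := by
    calc (N : ℝ) ^ (0.53 : ℝ) ≤ (N : ℝ) ^ (1 : ℝ) :=
          Real.rpow_le_rpow_of_exponent_le hN1R (by norm_num)
      _ = N := Real.rpow_one _
  have hblock : ∀ j ∈ range J, (N : ℝ) ^ (0.4 : ℝ) ≤ ((4 ^ j * P₀ : ℕ) : ℝ) ∧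
      ((4 ^ j * P₀ : ℕ) : ℝ) ≤ (N : ℝ) ^ (0.53 : ℝ) := by
    intro j hj
    constructor
    · have h1 : P₀ ≤ 4 ^ j * P₀ := Nat.le_mul_of_pos_left P₀ (by positivity)
      have h2 : (P₀ : ℝ) ≤ ((4 ^ j * P₀ : ℕ) : ℝ) := by exact_mod_cast h1
      refine le_trans ?_ (hP0a.trans h2)
      exact Real.rpow_le_rpow_of_exponent_le hN1R (by norm_num)
    · refine le_trans ?_ h4P
      have h1 : 4 ^ j * P₀ ≤ 4 ^ J * P₀ :=
        Nat.mul_le_mul_right P₀ (Nat.pow_le_pow_right (by norm_num) (mem_range.mp hj).le)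
      exact_mod_cast h1
  have hsub : ((Ioc (N / 2) N).filter (fun n => (pairs N n e₀ h : ℝ) < c / 200 * h)) ⊆
      (range J).biUnion (fun j => (Ioc (N / 2) N).filter (fun n =>
        (∑ e ∈ Ioc e₀ (e₀ + h), (rho (4 ^ j * P₀) (n - e) : ℝ)) < c * h / Real.log N)) := by
    intro n hn
    rw [mem_filter] at hn
    rw [mem_biUnion]
    by_contra hcon
    push Not at hcon
    have h1 : ∀ j ∈ range J, c * h / Real.log N ≤
        ∑ e ∈ Ioc e₀ (e₀ + h), (rho (4 ^ j * P₀) (n - e) : ℝ) := by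
      intro j hj
      have h2 := hcon j hj
      rw [mem_filter] at h2
      by_contra h3
      push Not at h3
      exact h2 ⟨hn.1, h3⟩
    have h2 := sum_le_sum h1
    rw [sum_const, card_range, nsmul_eq_mul] at h2
    have h3 : ((∑ j ∈ range J, ∑ e ∈ Ioc e₀ (e₀ + h), rho (4 ^ j * P₀) (n - e) : ℕ) : ℝ) ≤
        (pairs N n e₀ h : ℝ) := by
      exact_mod_cast pairs_ge N n e₀ h P₀ J hP0a h4P h53
    push_cast at h3
    have h4 : c / 200 * h ≤ J * (c * h / Real.log N) := by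
      have h5 : c / 200 * h = Real.log N / 200 * (c * h / Real.log N) := by
        field_simp
      rw [h5]
      exact mul_le_mul_of_nonneg_right hJb (by positivity)
    linarith [hn.2]
  have hcard : (((Ioc (N / 2) N).filter (fun n => (pairs N n e₀ h : ℝ) < c / 200 * h)).card : ℝ) ≤
      ∑ j ∈ range J, (N : ℝ) * (h : ℝ) ^ (-kappa) := by
    have h1 := (card_le_card hsub).trans card_biUnion_le
    have h2 : (((Ioc (N / 2) N).filter (fun n => (pairs N n e₀ h : ℝ) < c / 200 * h)).card : ℝ) ≤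
        ((∑ j ∈ range J, ((Ioc (N / 2) N).filter (fun n =>
        (∑ e ∈ Ioc e₀ (e₀ + h), (rho (4 ^ j * P₀) (n - e) : ℝ)) < c * h / Real.log N)).card : ℕ)
          : ℝ) := by exact_mod_cast h1
    refine h2.trans ?_
    push_cast
    refine sum_le_sum fun j hj => ?_
    exact H N hN1 h e₀ (4 ^ j * P₀) hA1 hh2 he (hblock j hj).1 (hblock j hj).2
  refine hcard.trans ?_
  rw [sum_const, card_range, nsmul_eq_mul]
  have hsplit : (h : ℝ) ^ (-(kappa / 2)) = (h : ℝ) ^ (kappa / 2) * (h : ℝ) ^ (-kappa) := by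
    rw [← Real.rpow_add hh0]
    congr 1
    ring
  rw [hsplit]
  have hJl : (J : ℝ) ≤ (h : ℝ) ^ (kappa / 2) := by
    refine le_trans ?_ hlogh
    linarith
  have hk0 : (0 : ℝ) ≤ (h : ℝ) ^ (-kappa) := Real.rpow_nonneg hh0.le _
  calc (J : ℝ) * (N * (h : ℝ) ^ (-kappa)) = N * (J * (h : ℝ) ^ (-kappa)) := by ring
    _ ≤ N * ((h : ℝ) ^ (kappa / 2) * (h : ℝ) ^ (-kappa)) := by
        gcongr

end Pool.Agent.BMR
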