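import Pool.Agent.BMR.Defs

/-!
# BMR-PT (1.2h): pointwise inequality (Bonferroni)

Fix `k` with `N ≤ 4k`, `k ≤ 2N`. For `q ∈ prm Qi`, `s ∈ S` (`Q' ≤ s ≤ 4Q'`), `p ∈ prm P` with `q s (p-1) r = k` one has automatically
`ra < r ≤ rb`: `Qi Q' P ≤ q s (p-1) < 64 Qi Q' P`, so `N/(256 D) < r ≤ 2N/D`. For `p ∈ prm P` with `p - 1 ∣ k` let `m = k/(p-1)` and `ω` = number
of pairs `(i, q)`, `i < I`, `q ∈ prm (4^i Q)`, `q ∣ m` (different pairs have different `q`: the intervals `(4^i Q, 4^(i+1) Q]` are disjoint). The left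
side is `∑_p ω_p`; the double sum is at least `∑_p C(ω_p, 2)`: for two different primes `q`, `q'` of the blocks `i ≤ j` dividing `m`
also `q q' ∣ m` (for `i = j` both orders are counted). And `ω ≤ 1 + C(ω, 2)` for every natural number `ω`.
-/

open Finset

namespace Pool.Agent.BMR

private def AA (k Q p : ℕ) : Finset ℕ := (prm Q).filter (fun q => q ∣ k / (p - 1))

private def DD (P k : ℕ) : Finset ℕ := (prm P).filter (fun p => (p - 1) ∣ k)

private def BB (k Q Q' p : ℕ) : Finset (ℕ × ℕ) :=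
  (AA k Q p ×ˢ AA k Q' p).filter (fun x => x.1 ≠ x.2)

private theorem lemA (N P Q k : ℕ) (hk : 0 < k) :
    WW N P Q 1 {1} k ≤ ∑ p ∈ DD P k, (AA k Q p).card := by
  rw [← Finset.card_sigma]
  unfold WW
  apply Finset.card_le_card_of_injOn
    (fun x : ℕ × ℕ × ℕ × ℕ => (⟨x.2.2.1, x.1⟩ : Sigma fun _ : ℕ => ℕ))
  · rintro ⟨q, s, p, r⟩ hx
    obtain ⟨h1, h2⟩ := Finset.mem_filter.1 (Finset.mem_coe.1 hx)
    rw [Finset.mem_product, Finset.mem_product, Finset.mem_product] at h1
    simp only at h1 h2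
    obtain ⟨hq, hs, hp, hr⟩ := h1
    have hp0 : 0 < p - 1 := by
      rcases Nat.eq_zero_or_pos (p - 1) with h | h
      · rw [h] at h2
        simp at h2
        omega
      · exact h
    refine Finset.mem_coe.2 (Finset.mem_sigma.2 ⟨?_, ?_⟩)
    · refine Finset.mem_filter.2 ⟨hp, ⟨q * s * r, ?_⟩⟩
      rw [← h2]
      ring
    · refine Finset.mem_filter.2 ⟨hq, ⟨s * r, ?_⟩⟩
      show k / (p - 1) = q * (s * r)
      rw [← h2]
      apply Nat.div_eq_of_eq_mul_left hp0
      ring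
  · rintro ⟨q, s, p, r⟩ hx ⟨q', s', p', r'⟩ hx' h
    obtain ⟨h1, h2⟩ := Finset.mem_filter.1 (Finset.mem_coe.1 hx)
    obtain ⟨h1', h2'⟩ := Finset.mem_filter.1 (Finset.mem_coe.1 hx')
    rw [Finset.mem_product, Finset.mem_product, Finset.mem_product] at h1 h1'
    simp only at h1 h2 h1' h2'
    obtain ⟨hq, hs, hp, hr⟩ := h1
    obtain ⟨hq', hs', hp', hr'⟩ := h1'
    have e1 : p = p' := congrArg Sigma.fst h
    have e2 : q = q' := congrArg Sigma.snd h
    subst e1
    subst e2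
    have e3 : s = s' := (Finset.mem_singleton.1 hs).trans (Finset.mem_singleton.1 hs').symm
    subst e3
    have e4 : 0 < q * s * (p - 1) := by
      rcases Nat.eq_zero_or_pos (q * s * (p - 1)) with h | h
      · rw [h] at h2
        omega
      · exact h
    have e5 : r = r' := Nat.eq_of_mul_eq_mul_left e4 (h2.trans h2'.symm)
    rw [e5]

private theorem lemB (N P Q Q' k : ℕ) (hP : 1 ≤ P) (hQ : 1 ≤ Q) (hQ' : 1 ≤ Q') (hk : 0 < k)
    (h1 : N ≤ 4 * k) (h2 : k ≤ 2 * N) :
    ∑ p ∈ DD P k, (BB k Q Q' p).card ≤ WW N P Q Q' (prm Q') k := by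
  rw [← Finset.card_sigma]
  unfold WW
  have key : ∀ p q s : ℕ, p ∈ DD P k → (q, s) ∈ BB k Q Q' p →
      q * s * (p - 1) * (k / ((p - 1) * (q * s))) = k := by
    intro p q s hp hqs
    obtain ⟨hpp, hpk⟩ := Finset.mem_filter.1 hp
    obtain ⟨hx, hne⟩ := Finset.mem_filter.1 hqs
    obtain ⟨hq, hs⟩ := Finset.mem_product.1 hx
    obtain ⟨hq1, hq2⟩ := Finset.mem_filter.1 hq
    obtain ⟨hs1, hs2⟩ := Finset.mem_filter.1 hs
    have hqp := (mem_prm.1 hq1).2
    have hsp := (mem_prm.1 hs1).2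
    have hd : q * s ∣ k / (p - 1) :=
      Nat.Coprime.mul_dvd_of_dvd_of_dvd ((Nat.coprime_primes hqp hsp).2 hne) hq2 hs2
    have hd2 : (p - 1) * (q * s) ∣ k := by
      obtain ⟨t, ht⟩ := hd
      refine ⟨t, ?_⟩
      rw [mul_assoc, ← ht]
      exact (Nat.mul_div_cancel' hpk).symm
    calc q * s * (p - 1) * (k / ((p - 1) * (q * s)))
        = (p - 1) * (q * s) * (k / ((p - 1) * (q * s))) := by ring
      _ = k := Nat.mul_div_cancel' hd2
  apply Finset.card_le_card_of_injOn
    (fun x : Sigma fun _ : ℕ => ℕ × ℕ =>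
      ((x.2.1, x.2.2, x.1, k / ((x.1 - 1) * (x.2.1 * x.2.2))) : ℕ × ℕ × ℕ × ℕ))
  · rintro ⟨p, q, s⟩ hx
    obtain ⟨hp, hqs⟩ := Finset.mem_sigma.1 (Finset.mem_coe.1 hx)
    have hkey := key p q s hp hqs
    obtain ⟨hpp, hpk⟩ := Finset.mem_filter.1 hp
    obtain ⟨hx, hne⟩ := Finset.mem_filter.1 hqs
    obtain ⟨hq, hs⟩ := Finset.mem_product.1 hx
    obtain ⟨hq1, hq2⟩ := Finset.mem_filter.1 hq
    obtain ⟨hs1, hs2⟩ := Finset.mem_filter.1 hs
    have bq := (mem_prm.1 hq1).1
    have bs := (mem_prm.1 hs1).1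
    have bp := (mem_prm.1 hpp).1
    simp only at hq hs hne hq1 hs1 bq bs bp hp hpp hpk
    refine Finset.mem_coe.2 (Finset.mem_filter.2 ⟨?_, hkey⟩)
    rw [Finset.mem_product, Finset.mem_product, Finset.mem_product]
    refine ⟨hq1, hs1, hpp, ?_⟩
    show k / ((p - 1) * (q * s)) ∈ Ioc (ra N (Q * Q' * P)) (rb N (Q * Q' * P))
    generalize k / ((p - 1) * (q * s)) = r at hkey ⊢
    have hD : 0 < Q * Q' * P := by positivity
    have hr0 : 0 < r := by
      rcases Nat.eq_zero_or_pos r with h | h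
      · rw [h] at hkey
        simp at hkey
        omega
      · exact h
    rw [Finset.mem_Ioc]
    constructor
    · unfold ra
      rw [Nat.div_lt_iff_lt_mul (by positivity)]
      have hle : q * s * (p - 1) * r ≤ (4 * Q) * (4 * Q') * (4 * P) * r := by
        apply Nat.mul_le_mul_right
        apply Nat.mul_le_mul
        · exact Nat.mul_le_mul bq.2 bs.2
        · omega
      have : 0 < Q * Q' * P * r := Nat.mul_pos hD hr0
      calc N ≤ 4 * k := h1
        _ = 4 * (q * s * (p - 1) * r) := by rw [hkey]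
        _ ≤ 4 * ((4 * Q) * (4 * Q') * (4 * P) * r) := Nat.mul_le_mul_left _ hle
        _ = 256 * (Q * Q' * P * r) := by ring
        _ < 512 * (Q * Q' * P * r) := by omega
        _ = r * (512 * (Q * Q' * P)) := by ring
    · unfold rb
      have hge : Q * Q' * P * r ≤ q * s * (p - 1) * r := by
        apply Nat.mul_le_mul_right
        apply Nat.mul_le_mul
        · exact Nat.mul_le_mul bq.1.le bs.1.le
        · omega
      have : r ≤ 4 * N / (Q * Q' * P) := by
        rw [Nat.le_div_iff_mul_le hD]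
        calc r * (Q * Q' * P) = Q * Q' * P * r := by ring
          _ ≤ q * s * (p - 1) * r := hge
          _ = k := hkey
          _ ≤ 4 * N := by omega
      omega
  · rintro ⟨p, q, s⟩ _ ⟨p', q', s'⟩ _ h
    simp only [Prod.mk.injEq] at h
    obtain ⟨h1, h2, h3, -⟩ := h
    subst h1
    subst h2
    subst h3
    rfl

private theorem arith (a : ℕ → ℕ) (I : ℕ) : (∑ i ∈ range I, a i) * (∑ i ∈ range I, a i) ≤
    ∑ i ∈ range I, a i + 2 * ∑ i ∈ range I, ∑ j ∈ Ico i I,
      (if i = j then a i * (a i - 1) else a i * a j) := by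
  induction I with
  | zero => simp
  | succ I ih =>
    have e1 : ∑ i ∈ range (I + 1), ∑ j ∈ Ico i (I + 1),
        (if i = j then a i * (a i - 1) else a i * a j) =
        ∑ i ∈ range I, ∑ j ∈ Ico i I, (if i = j then a i * (a i - 1) else a i * a j) +
        (∑ i ∈ range I, a i) * a I + a I * (a I - 1) := by
      rw [Finset.sum_range_succ]
      have e2 : ∑ j ∈ Ico I (I + 1), (if I = j then a I * (a I - 1) else a I * a j) =
          a I * (a I - 1) := by
        rw [Nat.Ico_succ_singleton, Finset.sum_singleton, if_pos rfl]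
      rw [e2, Finset.sum_mul, ← Finset.sum_add_distrib]
      congr 1
      refine Finset.sum_congr rfl fun i hi => ?_
      have hi' := Finset.mem_range.1 hi
      rw [Finset.sum_Ico_succ_top hi'.le, if_neg hi'.ne]
    rw [e1, Finset.sum_range_succ]
    generalize ∑ i ∈ range I, ∑ j ∈ Ico i I, (if i = j then a i * (a i - 1) else a i * a j) = g at ih ⊢
    generalize ∑ i ∈ range I, a i = f at ih ⊢
    generalize a I = b
    have e3 : b ≤ b * b := by
      rcases Nat.eq_zero_or_pos b with h | h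
      · rw [h]
      · exact Nat.le_mul_of_pos_left _ h
    have e4 : b * (b - 1) + b = b * b := by
      rcases Nat.eq_zero_or_pos b with h | h
      · rw [h]
      · obtain ⟨c, rfl⟩ := Nat.exists_eq_add_of_le h
        rw [show 1 + c - 1 = c by omega]
        ring
    nlinarith

private theorem arith2 (a : ℕ → ℕ) (I : ℕ) : ∑ i ∈ range I, a i ≤
    1 + ∑ i ∈ range I, ∑ j ∈ Ico i I, (if i = j then a i * (a i - 1) else a i * a j) := by
  have h := arith a I
  generalize ∑ i ∈ range I, ∑ j ∈ Ico i I, (if i = j then a i * (a i - 1) else a i * a j) = g at h ⊢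
  generalize ∑ i ∈ range I, a i = f at h ⊢
  by_contra hcon
  push Not at hcon
  have h2 : 2 ≤ f := by omega
  obtain ⟨c, rfl⟩ := Nat.exists_eq_add_of_le h2
  nlinarith

theorem pt (N P Q I k : ℕ) (hP : 1 ≤ P) (hQ : 1 ≤ Q) (hN : 1 ≤ N) (h1 : N ≤ 4 * k) (h2 : k ≤ 2 * N) :
    ∑ i ∈ range I, WW N P (4 ^ i * Q) 1 {1} k ≤ rho P k +
      ∑ i ∈ range I, ∑ j ∈ Ico i I, WW N P (4 ^ i * Q) (4 ^ j * Q) (prm (4 ^ j * Q)) k := by
  have hk : 0 < k := by omega
  have hQi : ∀ i, 1 ≤ 4 ^ i * Q := fun i => Nat.mul_pos (by positivity) hQ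
  have hBB : ∀ p, ∀ i j, i ≤ j → (if i = j then (AA k (4 ^ i * Q) p).card *
      ((AA k (4 ^ i * Q) p).card - 1) else (AA k (4 ^ i * Q) p).card * (AA k (4 ^ j * Q) p).card) ≤
      (BB k (4 ^ i * Q) (4 ^ j * Q) p).card := by
    intro p i j hij
    split_ifs with h
    · subst h
      have : BB k (4 ^ i * Q) (4 ^ i * Q) p = (AA k (4 ^ i * Q) p).offDiag := by
        ext ⟨q, s⟩
        unfold BB
        rw [Finset.mem_filter, Finset.mem_product, Finset.mem_offDiag]
        tauto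
      rw [this, Finset.offDiag_card, Nat.mul_sub_one]
    · have hlt : i < j := lt_of_le_of_ne hij h
      have : BB k (4 ^ i * Q) (4 ^ j * Q) p = AA k (4 ^ i * Q) p ×ˢ AA k (4 ^ j * Q) p := by
        unfold BB
        rw [Finset.filter_eq_self]
        rintro ⟨q, s⟩ hx
        obtain ⟨hq, hs⟩ := Finset.mem_product.1 hx
        have bq := (mem_prm.1 (Finset.mem_filter.1 hq).1).1
        have bs := (mem_prm.1 (Finset.mem_filter.1 hs).1).1
        simp only at bq bs ⊢
        have hpow : 4 ^ (i + 1) ≤ 4 ^ j := Nat.pow_le_pow_right (by norm_num) hlt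
        have : 4 * (4 ^ i * Q) ≤ 4 ^ j * Q := by
          calc 4 * (4 ^ i * Q) = 4 ^ (i + 1) * Q := by ring
            _ ≤ 4 ^ j * Q := Nat.mul_le_mul_right _ hpow
        omega
      rw [this, Finset.card_product]
  calc ∑ i ∈ range I, WW N P (4 ^ i * Q) 1 {1} k
      ≤ ∑ i ∈ range I, ∑ p ∈ DD P k, (AA k (4 ^ i * Q) p).card :=
        Finset.sum_le_sum fun i _ => lemA N P (4 ^ i * Q) k hk
    _ = ∑ p ∈ DD P k, ∑ i ∈ range I, (AA k (4 ^ i * Q) p).card := Finset.sum_comm
    _ ≤ ∑ p ∈ DD P k, (1 + ∑ i ∈ range I, ∑ j ∈ Ico i I,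
          (BB k (4 ^ i * Q) (4 ^ j * Q) p).card) := by
        refine Finset.sum_le_sum fun p _ => ?_
        refine (arith2 (fun i => (AA k (4 ^ i * Q) p).card) I).trans ?_
        refine Nat.add_le_add_left ?_ 1
        refine Finset.sum_le_sum fun i _ => Finset.sum_le_sum fun j hj => ?_
        exact hBB p i j (Finset.mem_Ico.1 hj).1
    _ = rho P k + ∑ i ∈ range I, ∑ j ∈ Ico i I,
          ∑ p ∈ DD P k, (BB k (4 ^ i * Q) (4 ^ j * Q) p).card := by
        rw [Finset.sum_add_distrib]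
        congr 1
        · unfold rho DD
          simp
        · rw [Finset.sum_comm]
          refine Finset.sum_congr rfl fun i _ => ?_
          rw [Finset.sum_comm]
    _ ≤ _ := by
        refine Nat.add_le_add_left ?_ _
        refine Finset.sum_le_sum fun i _ => Finset.sum_le_sum fun j _ => ?_
        exact lemB N P (4 ^ i * Q) (4 ^ j * Q) k hP (hQi i) (hQi j) hk h1 h2

end Pool.Agent.BMR
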