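import Pool.Agent.BMR.FJ
import Pool.Agent.BMR.PT

/-!
# BMR-LOW (1.3h): lower bound for the window sum at a fixed `u`

Window: `|log k - u| ≤ 160/L ≤ 1/10`, so `N ≤ 4k`, `1 ≤ k ≤ 2N` (`exp(-0.1)/3 ≥ 1/4`, `exp(0.1) ≤ 2`) and `pt` applies.
`∑_{window} WW(k)` = number of tuples `(q,s,p,r)` whose product `x` has `|log x - u| ≤ 160/L` (all these products are `≥ 1`; they are `≤ 2N`).
First family (`Q' = 1`, `S = {1}`): at least `∑ ψ(L(log x - u))`, `ψ = fj_minor` with `B = 160`: `40/160² = 1/640`,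
`fj(v/160 + π) = fj((L/160)(log x - (u - 160π/L)))`. Second family: `|(L/160)(log x - u)| ≤ 1 ≤ 3`, so each tuple in the window has
`1 ≤ (5/2) fj(...)`, the others contribute `≥ 0`.
-/

open Finset

namespace Pool.Agent.BMR

private def TT (N P Q Q' : ℕ) (S : Finset ℕ) : Finset (ℕ × ℕ × ℕ × ℕ) :=
  prm Q ×ˢ S ×ˢ prm P ×ˢ Ioc (ra N (Q * Q' * P)) (rb N (Q * Q' * P))

private def vl (x : ℕ × ℕ × ℕ × ℕ) : ℕ := x.1 * x.2.1 * (x.2.2.1 - 1) * x.2.2.2

private noncomputable def Wd (N : ℕ) (L u : ℝ) : Finset ℕ :=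
  (Icc 1 (2 * N)).filter (fun k : ℕ => |Real.log k - u| ≤ 160 / L)

private theorem FF_eq (N P Q Q' : ℕ) (S : Finset ℕ) (L v : ℝ) :
    FF N P Q Q' S L v = ∑ x ∈ TT N P Q Q' S, fj (L * (Real.log (vl x : ℝ) - v)) := by
  unfold FF TT vl
  rw [sum_product]
  refine sum_congr rfl fun q _ => ?_
  rw [sum_product]
  refine sum_congr rfl fun s _ => ?_
  rw [sum_product]

private theorem WW_sum (N P Q Q' : ℕ) (S W : Finset ℕ) :
    ∑ k ∈ W, (WW N P Q Q' S k : ℝ) = ∑ x ∈ TT N P Q Q' S, if vl x ∈ W then (1 : ℝ) else 0 := by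
  rw [← Nat.cast_sum]
  have h : ∑ k ∈ W, WW N P Q Q' S k = ((TT N P Q Q' S).filter (fun x => vl x ∈ W)).card :=
    Finset.sum_card_fiberwise_eq_card_filter (TT N P Q Q' S) W vl
  rw [h, Finset.sum_boole]

private theorem mem_Wd_of (N : ℕ) (L u : ℝ) (hL : 1600 ≤ L) (hN : 3 ≤ N)
    (hu2 : u ≤ Real.log N) {k : ℕ} (hk : 1 ≤ k) (h : |Real.log k - u| ≤ 160 / L) :
    k ∈ Wd N L u := by
  unfold Wd
  rw [mem_filter, mem_Icc]
  refine ⟨⟨hk, ?_⟩, h⟩
  have hL0 : 0 < L := by linarith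
  have h1 : 160 / L ≤ 1 / 10 := by
    rw [div_le_div_iff₀ hL0 (by norm_num)]; linarith
  have h2 := (abs_le.1 h).2
  have hk0 : (0 : ℝ) < k := by exact_mod_cast hk
  have hN0 : (0 : ℝ) < N := by
    have : 0 < N := by omega
    exact_mod_cast this
  have h3 : Real.log k ≤ Real.log (2 * N) := by
    rw [Real.log_mul (by norm_num) hN0.ne']
    have := Real.log_two_gt_d9
    linarith
  have h4 : (k : ℝ) ≤ 2 * N := (Real.log_le_log_iff hk0 (by positivity)).1 h3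
  exact_mod_cast h4

private theorem low_k (N : ℕ) (L u : ℝ) (hL : 1600 ≤ L) (hN : 3 ≤ N)
    (hu1 : Real.log (N / 3) ≤ u) {k : ℕ} (hk : k ∈ Wd N L u) : N ≤ 4 * k := by
  unfold Wd at hk
  rw [mem_filter, mem_Icc] at hk
  obtain ⟨⟨hk1, hk2⟩, h⟩ := hk
  have hL0 : 0 < L := by linarith
  have h1 : 160 / L ≤ 1 / 10 := by
    rw [div_le_div_iff₀ hL0 (by norm_num)]; linarith
  have h2 := (abs_le.1 h).1
  have hk0 : (0 : ℝ) < k := by exact_mod_cast hk1
  have hN0 : (0 : ℝ) < N := by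
    have : 0 < N := by omega
    exact_mod_cast this
  have e1 : Real.log (3 / 4 : ℝ) ≤ -(1 / 10) := by
    have := Real.log_le_sub_one_of_pos (show (0 : ℝ) < 3 / 4 by norm_num)
    linarith
  have h3 : Real.log ((N : ℝ) / 4) ≤ Real.log k := by
    have : (N : ℝ) / 4 = (N : ℝ) / 3 * (3 / 4) := by ring
    rw [this, Real.log_mul (by positivity) (by norm_num)]
    linarith
  have h4 : (N : ℝ) / 4 ≤ k := (Real.log_le_log_iff (by positivity) hk0).1 h3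
  have h5 : (N : ℝ) ≤ 4 * k := by linarith
  exact_mod_cast h5

private theorem first (N P Q I : ℕ) (hN : 3 ≤ N) (L u : ℝ) (hL : 1600 ≤ L)
    (hu2 : u ≤ Real.log N) (A : ℕ) :
    FF N P A 1 {1} L u - 1 / 640 * (FF N P A 1 {1} (L / 160) u +
        FF N P A 1 {1} (L / 160) (u - 160 * Real.pi / L)) ≤
      ∑ k ∈ Wd N L u, (WW N P A 1 {1} k : ℝ) := by
  have hL0 : 0 < L := by linarith
  rw [FF_eq, FF_eq, FF_eq, WW_sum, ← sum_add_distrib, mul_sum, ← sum_sub_distrib]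
  refine sum_le_sum fun x hx => ?_
  have h1 := fj_minor 160 (by norm_num) (L * (Real.log (vl x : ℝ) - u))
  have e1 : L * (Real.log (vl x : ℝ) - u) / 160 = L / 160 * (Real.log (vl x : ℝ) - u) := by ring
  have e2 : L / 160 * (Real.log (vl x : ℝ) - u) + Real.pi
      = L / 160 * (Real.log (vl x : ℝ) - (u - 160 * Real.pi / L)) := by
    field_simp
    ring
  rw [e1, e2] at h1
  have e3 : (40 : ℝ) / 160 ^ 2 = 1 / 640 := by norm_num
  rw [e3] at h1
  refine h1.trans ?_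
  by_cases hc : |L * (Real.log (vl x : ℝ) - u)| ≤ 160
  · rw [if_pos hc]
    have hv : 1 ≤ vl x := by
      unfold TT at hx
      rw [mem_product, mem_product, mem_product, mem_Ioc, mem_prm, mem_prm, mem_singleton] at hx
      obtain ⟨⟨_, hq⟩, hs, ⟨_, hp⟩, hr, _⟩ := hx
      unfold vl
      have a1 : 1 ≤ x.1 := hq.one_lt.le
      have a2 : 1 ≤ x.2.2.1 - 1 := by have := hp.two_le; omega
      have a3 : 1 ≤ x.2.2.2 := by omega
      rw [hs, mul_one]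
      exact Nat.one_le_iff_ne_zero.2 (by positivity)
    have hw : |Real.log (vl x : ℝ) - u| ≤ 160 / L := by
      rw [abs_mul, abs_of_pos hL0] at hc
      rw [le_div_iff₀ hL0, mul_comm]; exact hc
    rw [if_pos (mem_Wd_of N L u hL hN hu2 hv hw)]
  · rw [if_neg hc]
    split_ifs <;> norm_num

private theorem second (N P A B : ℕ) (S : Finset ℕ) (L u : ℝ) (hL : 1600 ≤ L) :
    ∑ k ∈ Wd N L u, (WW N P A B S k : ℝ) ≤ 5 / 2 * FF N P A B S (L / 160) u := by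
  have hL0 : 0 < L := by linarith
  rw [FF_eq, WW_sum, mul_sum]
  refine sum_le_sum fun x _ => ?_
  by_cases hc : vl x ∈ Wd N L u
  · rw [if_pos hc]
    unfold Wd at hc
    rw [mem_filter] at hc
    have h1 : |L / 160 * (Real.log (vl x : ℝ) - u)| ≤ 3 := by
      rw [abs_mul, abs_of_pos (by positivity)]
      calc L / 160 * |Real.log (vl x : ℝ) - u| ≤ L / 160 * (160 / L) :=
            mul_le_mul_of_nonneg_left hc.2 (by positivity)
        _ = 1 := by field_simp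
        _ ≤ 3 := by norm_num
    have := fj_ge _ h1
    linarith
  · rw [if_neg hc]
    have := fj_nonneg (L / 160 * (Real.log (vl x : ℝ) - u))
    linarith

theorem low (N P Q I : ℕ) (hP : 1 ≤ P) (hQ : 1 ≤ Q) (hN : 3 ≤ N) (L u : ℝ) (hL : 1600 ≤ L)
    (hu1 : Real.log (N / 3) ≤ u) (hu2 : u ≤ Real.log N) :
    ∑ i ∈ range I, (FF N P (4 ^ i * Q) 1 {1} L u - 1 / 640 * (FF N P (4 ^ i * Q) 1 {1} (L / 160) u +
        FF N P (4 ^ i * Q) 1 {1} (L / 160) (u - 160 * Real.pi / L))) -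
      5 / 2 * ∑ i ∈ range I, ∑ j ∈ Ico i I,
        FF N P (4 ^ i * Q) (4 ^ j * Q) (prm (4 ^ j * Q)) (L / 160) u ≤
    ∑ k ∈ Icc 1 (2 * N), if |Real.log k - u| ≤ 160 / L then (rho P k : ℝ) else 0 := by
  have h1 : ∑ i ∈ range I, (FF N P (4 ^ i * Q) 1 {1} L u -
      1 / 640 * (FF N P (4 ^ i * Q) 1 {1} (L / 160) u +
        FF N P (4 ^ i * Q) 1 {1} (L / 160) (u - 160 * Real.pi / L))) ≤
      ∑ k ∈ Wd N L u, ∑ i ∈ range I, (WW N P (4 ^ i * Q) 1 {1} k : ℝ) := by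
    rw [sum_comm]
    exact sum_le_sum fun i _ => first N P Q I hN L u hL hu2 (4 ^ i * Q)
  have h2 : ∑ k ∈ Wd N L u, ∑ i ∈ range I, ∑ j ∈ Ico i I,
      (WW N P (4 ^ i * Q) (4 ^ j * Q) (prm (4 ^ j * Q)) k : ℝ) ≤
      5 / 2 * ∑ i ∈ range I, ∑ j ∈ Ico i I,
        FF N P (4 ^ i * Q) (4 ^ j * Q) (prm (4 ^ j * Q)) (L / 160) u := by
    rw [sum_comm, mul_sum]
    refine sum_le_sum fun i _ => ?_
    rw [sum_comm, mul_sum]
    exact sum_le_sum fun j _ => second N P (4 ^ i * Q) (4 ^ j * Q) _ L u hL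
  have h3 : ∑ k ∈ Wd N L u, ∑ i ∈ range I, (WW N P (4 ^ i * Q) 1 {1} k : ℝ) ≤
      ∑ k ∈ Wd N L u, (rho P k : ℝ) + ∑ k ∈ Wd N L u, ∑ i ∈ range I, ∑ j ∈ Ico i I,
      (WW N P (4 ^ i * Q) (4 ^ j * Q) (prm (4 ^ j * Q)) k : ℝ) := by
    rw [← sum_add_distrib]
    refine sum_le_sum fun k hk => ?_
    have hk2 : k ≤ 2 * N := by
      unfold Wd at hk
      rw [mem_filter, mem_Icc] at hk
      exact hk.1.2
    have h4 := pt N P Q I k hP hQ (by omega) (low_k N L u hL hN hu1 hk) hk2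
    exact_mod_cast h4
  have h4 : ∑ k ∈ Icc 1 (2 * N), (if |Real.log k - u| ≤ 160 / L then (rho P k : ℝ) else 0)
      = ∑ k ∈ Wd N L u, (rho P k : ℝ) := by
    unfold Wd
    rw [sum_filter]
  rw [h4]
  linarith

end Pool.Agent.BMR
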