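import Pool.Agent.BMR.CNT

/-!
# BMR-MAIN (0.9h): the smoothed counts at the large scale

`c = q s (p-1)`, `Q Q' P ≤ c < 64 Q Q' P` (`Q' ≤ s ≤ 4Q'`; for `main1` `s = 1`, `c < 16 QP`), `y = exp u/c`, `N/3 ≤ exp u ≤ N`.
`main1`: `fj_lower`: `2 ra ≤ N/(256 QP) ≤ N/(48 QP) ≤ y`, `2y ≤ 2N/(QP) ≤ rb`, `10 L ≤ N/(48QP)` from `hL2`.
`main2`: `fj_upper`: `rb ≤ 4N/D + 1 ≤ 5N/D ≤ 1000 y` (`y ≥ N/(192 D)`).
-/

open Finset

namespace Pool.Agent.BMR

private theorem prm_card_le (Q : ℕ) : (prm Q).card ≤ 3 * Q := by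
  unfold prm
  refine (card_filter_le _ _).trans ?_
  rw [Nat.card_Ioc]
  omega

private theorem cast_pred {P p : ℕ} (hp : p ∈ prm P) : ((p - 1 : ℕ) : ℝ) = (p : ℝ) - 1 := by
  have h := (mem_prm.mp hp).2.one_lt
  rw [Nat.cast_sub h.le, Nat.cast_one]

private theorem pred_ge {P p : ℕ} (hp : p ∈ prm P) : (P : ℝ) ≤ (p : ℝ) - 1 := by
  have h := (mem_prm.mp hp).1.1
  have h1 : P + 1 ≤ p := h
  have h2 : ((P + 1 : ℕ) : ℝ) ≤ (p : ℝ) := by exact_mod_cast h1
  push_cast at h2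
  linarith

private theorem pred_le {P p : ℕ} (hp : p ∈ prm P) : (p : ℝ) - 1 ≤ 4 * P := by
  have h := (mem_prm.mp hp).1.2
  have h2 : (p : ℝ) ≤ ((4 * P : ℕ) : ℝ) := by exact_mod_cast h
  push_cast at h2
  linarith

private theorem q_ge {Q q : ℕ} (hq : q ∈ prm Q) : (Q : ℝ) ≤ (q : ℝ) := by
  have h := (mem_prm.mp hq).1.1
  exact_mod_cast h.le

private theorem q_le {Q q : ℕ} (hq : q ∈ prm Q) : (q : ℝ) ≤ 4 * Q := by
  have h := (mem_prm.mp hq).1.2
  exact_mod_cast h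

theorem main1 (N P Q : ℕ) (hP : 1 ≤ P) (hQ : 1 ≤ Q) (L u : ℝ) (hL : 1 ≤ L)
    (hL2 : 480 * L * Q * P ≤ N) (hu1 : Real.log (N / 3) ≤ u) (hu2 : u ≤ Real.log N) :
    1 / 5 * (Real.exp u / L) * ((∑ q ∈ prm Q, 1 / (q : ℝ)) * ∑ p ∈ prm P, 1 / ((p : ℝ) - 1)) ≤
      FF N P Q 1 {1} L u := by
  have hPR : (1 : ℝ) ≤ P := by exact_mod_cast hP
  have hQR : (1 : ℝ) ≤ Q := by exact_mod_cast hQ
  have hQP : (1 : ℝ) ≤ Q * P := by nlinarith
  have hL0 : 0 < L := by linarith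
  have hNpos : (0 : ℝ) < N := by
    have : (0 : ℝ) < 480 * L * Q * P := by positivity
    linarith
  have he1 : (N : ℝ) / 3 ≤ Real.exp u := by
    rw [← Real.log_le_iff_le_exp (by positivity)]
    exact hu1
  have he2 : Real.exp u ≤ N := by
    rw [← Real.le_log_iff_exp_le hNpos]
    exact hu2
  unfold FF
  have key : ∀ q ∈ prm Q, ∀ p ∈ prm P,
      1 / 5 * (Real.exp u / L) * (1 / (q : ℝ) * (1 / ((p : ℝ) - 1))) ≤
        ∑ r ∈ Ioc (ra N (Q * 1 * P)) (rb N (Q * 1 * P)),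
          fj (L * (Real.log ((q * 1 * (p - 1) * r : ℕ) : ℝ) - u)) := by
    intro q hq p hp
    have hq1 := q_ge hq
    have hq2 := q_le hq
    have hp1 := pred_ge hp
    have hp2 := pred_le hp
    have hq0 : (0 : ℝ) < q := by linarith
    have hp0 : (0 : ℝ) < (p : ℝ) - 1 := by linarith
    have hc0 : 0 < (q : ℝ) * ((p : ℝ) - 1) := mul_pos hq0 hp0
    have hc1 : (Q : ℝ) * P ≤ (q : ℝ) * ((p : ℝ) - 1) :=
      mul_le_mul hq1 hp1 (by linarith) hq0.le
    have hc2 : (q : ℝ) * ((p : ℝ) - 1) ≤ 16 * (Q * P) := by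
      have := mul_le_mul hq2 hp2 hp0.le (by linarith)
      linarith
    have hy : (N : ℝ) / (48 * (Q * P)) ≤ Real.exp u / ((q : ℝ) * ((p : ℝ) - 1)) := by
      rw [div_le_div_iff₀ (by positivity) hc0]
      have h1 : (N : ℝ) * ((q : ℝ) * ((p : ℝ) - 1)) ≤ N * (16 * (Q * P)) :=
        mul_le_mul_of_nonneg_left hc2 hNpos.le
      have h2 : (N : ℝ) / 3 * (48 * (Q * P)) ≤ Real.exp u * (48 * (Q * P)) :=
        mul_le_mul_of_nonneg_right he1 (by positivity)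
      nlinarith
    have hra : 2 * ((ra N (Q * 1 * P) : ℕ) : ℝ) ≤ Real.exp u / ((q : ℝ) * ((p : ℝ) - 1)) := by
      refine le_trans ?_ hy
      have h1 : ((ra N (Q * 1 * P) : ℕ) : ℝ) ≤ (N : ℝ) / ((512 * (Q * 1 * P) : ℕ) : ℝ) := by
        unfold ra
        exact Nat.cast_div_le
      have h2 : (N : ℝ) / ((512 * (Q * 1 * P) : ℕ) : ℝ) = N / (512 * (Q * P)) := by
        push_cast
        ring
      rw [h2] at h1
      have h3 : 2 * ((N : ℝ) / (512 * (Q * P))) ≤ N / (48 * (Q * P)) := by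
        have h4 : (N : ℝ) / (48 * (Q * P)) = (512 / 48) * (N / (512 * (Q * P))) := by
          field_simp
        rw [h4]
        have h5 : 0 ≤ (N : ℝ) / (512 * (Q * P)) := by positivity
        linarith
      linarith
    have hrb : 2 * (Real.exp u / ((q : ℝ) * ((p : ℝ) - 1))) ≤ ((rb N (Q * 1 * P) : ℕ) : ℝ) := by
      have h1 : Real.exp u / ((q : ℝ) * ((p : ℝ) - 1)) ≤ N / (Q * P) := by
        rw [div_le_div_iff₀ hc0 (by positivity)]
        exact mul_le_mul he2 hc1 (by positivity) hNpos.le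
      have h2 : (4 * N : ℝ) / (Q * P) ≤ ((rb N (Q * 1 * P) : ℕ) : ℝ) := by
        unfold rb
        have hD : 0 < Q * 1 * P := by positivity
        have h3 : 4 * N < (4 * N / (Q * 1 * P) + 1) * (Q * 1 * P) := Nat.lt_div_mul_add hD |> fun h => by
          rw [add_mul, one_mul]; exact h
        have h4 : ((4 * N : ℕ) : ℝ) ≤ (((4 * N / (Q * 1 * P) + 1) * (Q * 1 * P) : ℕ) : ℝ) := by
          exact_mod_cast h3.le
        rw [div_le_iff₀ (by positivity)]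
        push_cast at h4 ⊢
        calc (4 * (N : ℝ)) ≤ _ := h4
          _ = _ := by ring
      have h5 : 2 * ((N : ℝ) / (Q * P)) ≤ (4 * N : ℝ) / (Q * P) := by
        have h6 : (4 * N : ℝ) / (Q * P) = 4 * ((N : ℝ) / (Q * P)) := by ring
        rw [h6]
        have h7 : 0 ≤ (N : ℝ) / (Q * P) := by positivity
        linarith
      linarith
    have hy10 : 10 * L ≤ Real.exp u / ((q : ℝ) * ((p : ℝ) - 1)) := by
      refine le_trans ?_ hy
      rw [le_div_iff₀ (by positivity)]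
      linarith
    have h := fj_lower ((q : ℝ) * ((p : ℝ) - 1)) u L hc0 hL (ra N (Q * 1 * P))
      (rb N (Q * 1 * P)) hra hrb hy10
    calc 1 / 5 * (Real.exp u / L) * (1 / (q : ℝ) * (1 / ((p : ℝ) - 1)))
        = 1 / 5 * (Real.exp u / ((q : ℝ) * ((p : ℝ) - 1)) / L) := by
          field_simp
      _ ≤ _ := h
      _ = _ := by
          refine sum_congr rfl fun r _ => ?_
          congr 4
          push_cast
          rw [cast_pred hp]
          ring
  calc 1 / 5 * (Real.exp u / L) * ((∑ q ∈ prm Q, 1 / (q : ℝ)) * ∑ p ∈ prm P, 1 / ((p : ℝ) - 1))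
      = ∑ q ∈ prm Q, ∑ p ∈ prm P,
          1 / 5 * (Real.exp u / L) * (1 / (q : ℝ) * (1 / ((p : ℝ) - 1))) := by
        rw [Finset.sum_mul_sum, mul_sum]
        refine sum_congr rfl fun q _ => ?_
        rw [mul_sum]
    _ ≤ ∑ q ∈ prm Q, ∑ p ∈ prm P, ∑ r ∈ Ioc (ra N (Q * 1 * P)) (rb N (Q * 1 * P)),
          fj (L * (Real.log ((q * 1 * (p - 1) * r : ℕ) : ℝ) - u)) :=
        sum_le_sum fun q hq => sum_le_sum fun p hp => key q hq p hp
    _ = _ := by
        refine sum_congr rfl fun q _ => ?_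
        rw [sum_singleton]

theorem main2 (N P Q Q' : ℕ) (hP : 1 ≤ P) (hQ : 1 ≤ Q) (hQ' : 1 ≤ Q') (L u : ℝ) (hL : 1 ≤ L)
    (hN : Q * Q' * P ≤ N) (hu1 : Real.log (N / 3) ≤ u) (hu2 : u ≤ Real.log N) (hN3 : 3 ≤ N) :
    FF N P Q Q' (prm Q') L u ≤ 10000 * (Real.exp u / L * ((∑ q ∈ prm Q, 1 / (q : ℝ)) *
      (∑ q ∈ prm Q', 1 / (q : ℝ)) * ∑ p ∈ prm P, 1 / ((p : ℝ) - 1)) + 27 * (Q * Q' * P : ℕ)) := by
  have hPR : (1 : ℝ) ≤ P := by exact_mod_cast hP
  have hQR : (1 : ℝ) ≤ Q := by exact_mod_cast hQ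
  have hQR' : (1 : ℝ) ≤ Q' := by exact_mod_cast hQ'
  have hL0 : 0 < L := by linarith
  have hNR : (3 : ℝ) ≤ N := by exact_mod_cast hN3
  have hNpos : (0 : ℝ) < N := by linarith
  have hDN : (Q : ℝ) * Q' * P ≤ N := by exact_mod_cast hN
  have hD0 : (0 : ℝ) < (Q : ℝ) * Q' * P := by positivity
  have he1 : (N : ℝ) / 3 ≤ Real.exp u := by
    rw [← Real.log_le_iff_le_exp (by positivity)]
    exact hu1
  unfold FF
  have key : ∀ q ∈ prm Q, ∀ s ∈ prm Q', ∀ p ∈ prm P,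
      ∑ r ∈ Ioc (ra N (Q * Q' * P)) (rb N (Q * Q' * P)),
          fj (L * (Real.log ((q * s * (p - 1) * r : ℕ) : ℝ) - u)) ≤
        10000 * (Real.exp u / L * (1 / (q : ℝ) * (1 / (s : ℝ)) * (1 / ((p : ℝ) - 1))) + 1) := by
    intro q hq s hs p hp
    have hq1 := q_ge hq
    have hq2 := q_le hq
    have hs1 := q_ge hs
    have hs2 := q_le hs
    have hp1 := pred_ge hp
    have hp2 := pred_le hp
    have hq0 : (0 : ℝ) < q := by linarith
    have hs0 : (0 : ℝ) < s := by linarith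
    have hp0 : (0 : ℝ) < (p : ℝ) - 1 := by linarith
    have hc0 : 0 < (q : ℝ) * s * ((p : ℝ) - 1) := mul_pos (mul_pos hq0 hs0) hp0
    have hc2 : (q : ℝ) * s * ((p : ℝ) - 1) ≤ 64 * (Q * Q' * P) := by
      have h1 : (q : ℝ) * s ≤ (4 * Q) * (4 * Q') := mul_le_mul hq2 hs2 hs0.le (by linarith)
      have h2 := mul_le_mul h1 hp2 hp0.le (by positivity)
      linarith
    have hy : (N : ℝ) / (192 * (Q * Q' * P)) ≤ Real.exp u / ((q : ℝ) * s * ((p : ℝ) - 1)) := by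
      rw [div_le_div_iff₀ (by positivity) hc0]
      have h1 : (N : ℝ) * ((q : ℝ) * s * ((p : ℝ) - 1)) ≤ N * (64 * (Q * Q' * P)) :=
        mul_le_mul_of_nonneg_left hc2 hNpos.le
      have h2 : (N : ℝ) / 3 * (192 * (Q * Q' * P)) ≤ Real.exp u * (192 * (Q * Q' * P)) :=
        mul_le_mul_of_nonneg_right he1 (by positivity)
      have h3 : (N : ℝ) / 3 * (192 * (Q * Q' * P)) = N * (64 * (Q * Q' * P)) := by ring
      linarith
    have hrb : ((rb N (Q * Q' * P) : ℕ) : ℝ) ≤ 1000 * (Real.exp u / ((q : ℝ) * s * ((p : ℝ) - 1))) := by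
      have h1 : ((rb N (Q * Q' * P) : ℕ) : ℝ) ≤ 4 * (N : ℝ) / (Q * Q' * P) + 1 := by
        unfold rb
        rw [Nat.cast_add, Nat.cast_one]
        have h2 : ((4 * N / (Q * Q' * P) : ℕ) : ℝ) ≤ ((4 * N : ℕ) : ℝ) / ((Q * Q' * P : ℕ) : ℝ) :=
          Nat.cast_div_le
        push_cast at h2
        linarith
      have h3 : 1 ≤ (N : ℝ) / (Q * Q' * P) := by
        rw [le_div_iff₀ hD0]
        linarith
      have h4 : 4 * (N : ℝ) / (Q * Q' * P) = 4 * ((N : ℝ) / (Q * Q' * P)) := by ring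
      have h5 : 1000 * ((N : ℝ) / (192 * (Q * Q' * P))) = 1000 / 192 * (N / (Q * Q' * P)) := by
        field_simp
      have h6 : 1000 * ((N : ℝ) / (192 * (Q * Q' * P))) ≤
          1000 * (Real.exp u / ((q : ℝ) * s * ((p : ℝ) - 1))) :=
        mul_le_mul_of_nonneg_left hy (by norm_num)
      rw [h5] at h6
      rw [h4] at h1
      linarith
    have h := fj_upper ((q : ℝ) * s * ((p : ℝ) - 1)) u L hc0 hL (ra N (Q * Q' * P))
      (rb N (Q * Q' * P)) hrb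
    calc ∑ r ∈ Ioc (ra N (Q * Q' * P)) (rb N (Q * Q' * P)),
          fj (L * (Real.log ((q * s * (p - 1) * r : ℕ) : ℝ) - u))
        = ∑ r ∈ Ioc (ra N (Q * Q' * P)) (rb N (Q * Q' * P)),
          fj (L * (Real.log ((q : ℝ) * s * ((p : ℝ) - 1) * r) - u)) := by
          refine sum_congr rfl fun r _ => ?_
          congr 4
          push_cast
          rw [cast_pred hp]
      _ ≤ 10000 * (Real.exp u / ((q : ℝ) * s * ((p : ℝ) - 1)) / L + 1) := h
      _ = _ := by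
          congr 2
          field_simp
  calc ∑ q ∈ prm Q, ∑ s ∈ prm Q', ∑ p ∈ prm P, ∑ r ∈ Ioc (ra N (Q * Q' * P)) (rb N (Q * Q' * P)),
          fj (L * (Real.log ((q * s * (p - 1) * r : ℕ) : ℝ) - u))
      ≤ ∑ q ∈ prm Q, ∑ s ∈ prm Q', ∑ p ∈ prm P,
        10000 * (Real.exp u / L * (1 / (q : ℝ) * (1 / (s : ℝ)) * (1 / ((p : ℝ) - 1))) + 1) :=
        sum_le_sum fun q hq => sum_le_sum fun s hs => sum_le_sum fun p hp => key q hq s hs p hp
    _ = 10000 * (Real.exp u / L * ((∑ q ∈ prm Q, 1 / (q : ℝ)) *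
          (∑ q ∈ prm Q', 1 / (q : ℝ)) * ∑ p ∈ prm P, 1 / ((p : ℝ) - 1)) +
          ((prm Q).card * (prm Q').card * (prm P).card : ℕ)) := by
        simp only [← mul_sum, sum_add_distrib, sum_const, nsmul_eq_mul, mul_one, ← sum_mul]
        push_cast
        ring
    _ ≤ _ := by
        have h1 : (prm Q).card * (prm Q').card * (prm P).card ≤ 27 * (Q * Q' * P) := by
          calc (prm Q).card * (prm Q').card * (prm P).card ≤ (3 * Q) * (3 * Q') * (3 * P) :=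
                Nat.mul_le_mul (Nat.mul_le_mul (prm_card_le Q) (prm_card_le Q')) (prm_card_le P)
            _ = 27 * (Q * Q' * P) := by ring
        have h2 : (((prm Q).card * (prm Q').card * (prm P).card : ℕ) : ℝ) ≤
            27 * ((Q * Q' * P : ℕ) : ℝ) := by exact_mod_cast h1
        have h3 := add_le_add_right h2 (Real.exp u / L * ((∑ q ∈ prm Q, 1 / (q : ℝ)) *
          (∑ q ∈ prm Q', 1 / (q : ℝ)) * ∑ p ∈ prm P, 1 / ((p : ℝ) - 1)))
        exact mul_le_mul_of_nonneg_left (by linarith) (by norm_num)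

end Pool.Agent.BMR
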