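import Pool.Agent.BMR.LOW
import Pool.Agent.BMR.MAIN
import Pool.Agent.BMR.ERR
import Pool.Agent.BMR.CHEB

/-!
# BMR-MEAS: few bad `u`

`core`: with the deterministic lower bound `pw` (from `low`, `main1`, `main2`) a bad `u` has large sum `G(u)` of the squares of the
error terms, the integral of `G` is small (`err`), and the Markov inequality bounds the measure. `meas`: choice of the parameters
`Q = ⌈√h⌉`, `I = ⌊η log Q⌋`, `η = min(1/4, 10^(-8)/C)`.
-/

open Finset MeasureTheory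

namespace Pool.Agent.BMR

private theorem continuous_FF (N P Q Q' : ℕ) (S : Finset ℕ) (L : ℝ) :
    Continuous (FF N P Q Q' S L) := by
  unfold FF
  refine continuous_finsetSum _ fun q _ => continuous_finsetSum _ fun s _ =>
    continuous_finsetSum _ fun p _ => continuous_finsetSum _ fun r _ => ?_
  exact continuous_fj.comp (by fun_prop)

private theorem nat_le_sq (I : ℕ) : (I : ℝ) ≤ (I : ℝ) ^ 2 := by
  rcases Nat.eq_zero_or_pos I with rfl | h
  · simp
  · have h1 : (1 : ℝ) ≤ I := by exact_mod_cast h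
    nlinarith

private theorem cs_all (I : ℕ) (e1 e2 e3 : ℕ → ℝ) (e4 : ℕ → ℕ → ℝ) :
    (∑ i ∈ range I, (|e1 i| + |e2 i| + |e3 i|) +
        ∑ i ∈ range I, ∑ j ∈ Ico i I, |e4 i j|) ^ 2 ≤
      4 * (I : ℝ) ^ 2 * (∑ i ∈ range I, (e1 i ^ 2 + e2 i ^ 2 + e3 i ^ 2) +
        ∑ i ∈ range I, ∑ j ∈ Ico i I, e4 i j ^ 2) := by
  have hI := nat_le_sq I
  have one : ∀ f : ℕ → ℝ, (∑ i ∈ range I, |f i|) ^ 2 ≤ (I : ℝ) ^ 2 * ∑ i ∈ range I, f i ^ 2 := by
    intro f
    have h1 := sq_sum_le_card_mul_sum_sq (s := range I) (f := fun i => |f i|)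
    rw [card_range] at h1
    simp only [sq_abs] at h1
    have h2 : 0 ≤ ∑ i ∈ range I, f i ^ 2 := sum_nonneg fun i _ => sq_nonneg _
    exact h1.trans (mul_le_mul_of_nonneg_right hI h2)
  have two : (∑ i ∈ range I, ∑ j ∈ Ico i I, |e4 i j|) ^ 2 ≤
      (I : ℝ) ^ 2 * ∑ i ∈ range I, ∑ j ∈ Ico i I, e4 i j ^ 2 := by
    rw [sum_sigma', sum_sigma']
    have h1 := sq_sum_le_card_mul_sum_sq (s := (range I).sigma (fun i => Ico i I))
      (f := fun x => |e4 x.1 x.2|)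
    simp only [sq_abs] at h1
    have h2 : 0 ≤ ∑ x ∈ (range I).sigma (fun i => Ico i I), e4 x.1 x.2 ^ 2 :=
      sum_nonneg fun i _ => sq_nonneg _
    refine h1.trans (mul_le_mul_of_nonneg_right ?_ h2)
    have h3 : ((range I).sigma (fun i => Ico i I)).card ≤ I * I := by
      rw [card_sigma]
      calc ∑ i ∈ range I, (Ico i I).card ≤ ∑ _i ∈ range I, I := by
            apply sum_le_sum
            intro i _
            rw [Nat.card_Ico]
            omega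
        _ = I * I := by rw [sum_const, card_range, smul_eq_mul]
    have h4 : (((range I).sigma (fun i => Ico i I)).card : ℝ) ≤ (I : ℝ) * I := by
      exact_mod_cast h3
    rw [pow_two]
    exact h4
  rw [sum_add_distrib, sum_add_distrib, sum_add_distrib, sum_add_distrib]
  have a1 := one e1
  have a2 := one e2
  have a3 := one e3
  set A1 := ∑ i ∈ range I, |e1 i|
  set A2 := ∑ i ∈ range I, |e2 i|
  set A3 := ∑ i ∈ range I, |e3 i|
  set A4 := ∑ i ∈ range I, ∑ j ∈ Ico i I, |e4 i j|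
  have h5 : (A1 + A2 + A3 + A4) ^ 2 ≤ 4 * (A1 ^ 2 + A2 ^ 2 + A3 ^ 2 + A4 ^ 2) := by
    nlinarith [sq_nonneg (A1 - A2), sq_nonneg (A1 - A3), sq_nonneg (A1 - A4), sq_nonneg (A2 - A3),
      sq_nonneg (A2 - A4), sq_nonneg (A3 - A4)]
  refine h5.trans ?_
  nlinarith

private theorem pw (I : ℕ) (W X L L₂ R mu D : ℝ) (F1 FL FLL FLb S : ℕ → ℝ) (F2 FG : ℕ → ℕ → ℝ)
    (hR : R = L₂ / L) (hL : 0 < L) (hL₂ : 0 < L₂) (hX : 0 < X) (hmu : 0 ≤ mu)
    (hS : ∀ i, 0 ≤ S i) (hs : ∑ i ∈ range I, S i ≤ 1 / 10 ^ 8) (hD : 0 ≤ D)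
    (h1 : ∀ i < I, 1 / 5 * (X / L₂) * (S i * mu) ≤ F1 i)
    (h2 : ∀ i < I, ∀ j < I, F2 i j ≤ 10000 * (X / L₂ * (S i * S j * mu) + 27 * D))
    (hlow : ∑ i ∈ range I, (FL i - 1 / 640 * (FLL i + FLb i)) -
      5 / 2 * ∑ i ∈ range I, ∑ j ∈ Ico i I, FG i j ≤ W) :
    X / L * (3 / 50) * ((∑ i ∈ range I, S i) * mu) - R * (108000000 * (I : ℝ) ^ 2 * D) -
      5 / 2 * (∑ i ∈ range I, (|FL i - R * F1 i| + |FLL i - 160 * R * F1 i| +
        |FLb i - 160 * R * F1 i|) +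
          ∑ i ∈ range I, ∑ j ∈ Ico i I, |FG i j - 160 * R * F2 i j|) ≤ W := by
  have hR0 : 0 < R := by rw [hR]; positivity
  have hRX : R * (X / L₂) = X / L := by
    rw [hR]
    field_simp
  set s := ∑ i ∈ range I, S i with hsdef
  have hs0 : 0 ≤ s := sum_nonneg fun i _ => hS i
  -- (a)
  have a : R / 2 * ∑ i ∈ range I, F1 i - 5 / 2 * ∑ i ∈ range I, (|FL i - R * F1 i| +
      |FLL i - 160 * R * F1 i| + |FLb i - 160 * R * F1 i|) ≤
      ∑ i ∈ range I, (FL i - 1 / 640 * (FLL i + FLb i)) := by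
    rw [mul_sum, mul_sum, ← sum_sub_distrib]
    apply sum_le_sum
    intro i _
    have b1 := neg_abs_le (FL i - R * F1 i)
    have b2 := le_abs_self (FLL i - 160 * R * F1 i)
    have b3 := le_abs_self (FLb i - 160 * R * F1 i)
    have b4 := abs_nonneg (FL i - R * F1 i)
    have b5 := abs_nonneg (FLL i - 160 * R * F1 i)
    have b6 := abs_nonneg (FLb i - 160 * R * F1 i)
    linarith
  have b : ∑ i ∈ range I, ∑ j ∈ Ico i I, FG i j ≤ 160 * R * ∑ i ∈ range I, ∑ j ∈ Ico i I, F2 i j +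
      ∑ i ∈ range I, ∑ j ∈ Ico i I, |FG i j - 160 * R * F2 i j| := by
    rw [mul_sum, ← sum_add_distrib]
    apply sum_le_sum
    intro i _
    rw [mul_sum, ← sum_add_distrib]
    apply sum_le_sum
    intro j _
    linarith [le_abs_self (FG i j - 160 * R * F2 i j)]
  have c : 1 / 10 * (X / L) * (s * mu) ≤ R / 2 * ∑ i ∈ range I, F1 i := by
    have c1 : 1 / 5 * (X / L₂) * (s * mu) ≤ ∑ i ∈ range I, F1 i := by
      rw [hsdef, sum_mul, mul_sum]
      apply sum_le_sum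
      intro i hi
      exact h1 i (mem_range.mp hi)
    calc 1 / 10 * (X / L) * (s * mu) = R / 2 * (1 / 5 * (X / L₂) * (s * mu)) := by
          rw [← hRX]; ring
      _ ≤ _ := mul_le_mul_of_nonneg_left c1 (by positivity)
  have d : ∑ i ∈ range I, ∑ j ∈ Ico i I, F2 i j ≤
      10000 * (X / L₂ * (s * s * mu) + 27 * ((I : ℝ) ^ 2 * D)) := by
    have d1 : ∑ i ∈ range I, ∑ j ∈ Ico i I, F2 i j ≤
        ∑ i ∈ range I, ∑ j ∈ range I, 10000 * (X / L₂ * (S i * S j * mu) + 27 * D) := by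
      apply sum_le_sum
      intro i hi
      have d2 : ∑ j ∈ Ico i I, F2 i j ≤
          ∑ j ∈ Ico i I, 10000 * (X / L₂ * (S i * S j * mu) + 27 * D) := by
        apply sum_le_sum
        intro j hj
        exact h2 i (mem_range.mp hi) j (mem_Ico.mp hj).2
      refine d2.trans (sum_le_sum_of_subset_of_nonneg ?_ ?_)
      · intro j hj
        exact mem_range.mpr (mem_Ico.mp hj).2
      · intro j _ _
        have := hS i
        have := hS j
        positivity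
    refine d1.trans (le_of_eq ?_)
    have d3 : ∀ i, ∑ j ∈ range I, 10000 * (X / L₂ * (S i * S j * mu) + 27 * D) =
        10000 * (X / L₂ * (S i * s * mu) + 27 * (I * D)) := by
      intro i
      rw [← mul_sum, sum_add_distrib, ← mul_sum, sum_const, card_range, nsmul_eq_mul, ← sum_mul,
        ← mul_sum]
      ring
    rw [sum_congr rfl fun i _ => d3 i, ← mul_sum, sum_add_distrib, ← mul_sum, sum_const, card_range,
      nsmul_eq_mul, ← sum_mul, ← sum_mul]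
    ring
  have d' : 400 * R * ∑ i ∈ range I, ∑ j ∈ Ico i I, F2 i j ≤
      4000000 * (X / L) * (s * s * mu) + R * (108000000 * (I : ℝ) ^ 2 * D) := by
    calc 400 * R * ∑ i ∈ range I, ∑ j ∈ Ico i I, F2 i j ≤
        400 * R * (10000 * (X / L₂ * (s * s * mu) + 27 * ((I : ℝ) ^ 2 * D))) :=
          mul_le_mul_of_nonneg_left d (by positivity)
      _ = 4000000 * (R * (X / L₂)) * (s * s * mu) + R * (1080000 * 100 * (I : ℝ) ^ 2 * D) := by ring
      _ = _ := by rw [hRX]; ring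
  have e : 4000000 * (X / L) * (s * s * mu) ≤ 1 / 25 * (X / L) * (s * mu) := by
    have e1 : s * s ≤ 1 / 10 ^ 8 * s := mul_le_mul_of_nonneg_right hs hs0
    have e2 : 0 ≤ X / L := by positivity
    have e3 : (X / L) * (s * s * mu) ≤ (X / L) * (1 / 10 ^ 8 * s * mu) :=
      mul_le_mul_of_nonneg_left (mul_le_mul_of_nonneg_right e1 hmu) e2
    calc 4000000 * (X / L) * (s * s * mu) = 4000000 * ((X / L) * (s * s * mu)) := by ring
      _ ≤ 4000000 * ((X / L) * (1 / 10 ^ 8 * s * mu)) := by linarith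
      _ = 1 / 25 * (X / L) * (s * mu) := by ring
  linarith

private theorem markov (G : ℝ → ℝ) (hG : Continuous G) (h0 : ∀ u, 0 ≤ G u) (a b T : ℝ) (hab : a ≤ b)
    (hT : 0 < T) (B : Set ℝ) (hB : B ⊆ Set.Ioc a b) (hBG : ∀ u ∈ B, T ≤ G u) :
    (volume B).toReal ≤ (∫ u in a..b, G u) / T := by
  have h1 : (volume B).toReal ≤ (volume.restrict (Set.Ioc a b)).real {u | T ≤ G u} := by
    have hm : MeasurableSet {u | T ≤ G u} := (isClosed_le continuous_const hG).measurableSet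
    rw [measureReal_restrict_apply hm]
    apply measureReal_mono
    · intro u hu
      exact ⟨hBG u hu, hB hu⟩
    · apply ne_of_lt
      refine lt_of_le_of_lt (measure_mono Set.inter_subset_right) ?_
      rw [Real.volume_Ioc]
      exact ENNReal.ofReal_lt_top
  have hint : Integrable G (volume.restrict (Set.Ioc a b)) := by
    have := hG.intervalIntegrable (μ := volume) a b
    rw [intervalIntegrable_iff_integrableOn_Ioc_of_le hab] at this
    exact this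
  have h2 := mul_meas_ge_le_integral_of_nonneg (μ := volume.restrict (Set.Ioc a b)) (f := G)
    (Filter.Eventually.of_forall h0) hint T
  rw [intervalIntegral.integral_of_le hab, le_div_iff₀ hT]
  calc (volume B).toReal * T ≤ (volume.restrict (Set.Ioc a b)).real {u | T ≤ G u} * T :=
        mul_le_mul_of_nonneg_right h1 hT.le
    _ = T * (volume.restrict (Set.Ioc a b)).real {u | T ≤ G u} := by ring
    _ ≤ _ := h2

private theorem exp_div (N : ℕ) (hN : 3 ≤ N) (h u L : ℝ) (hh : 0 < h) (hL : L = 1280 * N / h)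
    (hu : Real.log (N / 3) ≤ u) : h / 3840 ≤ Real.exp u / L := by
  have hN0 : (0 : ℝ) < N := by
    have : 0 < N := by omega
    exact_mod_cast this
  have h1 : (N : ℝ) / 3 ≤ Real.exp u := by
    calc (N : ℝ) / 3 = Real.exp (Real.log (N / 3)) := (Real.exp_log (by positivity)).symm
      _ ≤ _ := Real.exp_le_exp.mpr hu
  have hL0 : 0 < L := by rw [hL]; positivity
  rw [le_div_iff₀ hL0, hL]
  calc h / 3840 * (1280 * N / h) = (N : ℝ) / 3 := by field_simp; norm_num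
    _ ≤ _ := h1

private theorem core (N P Q I : ℕ) (h Ce mu T L₂ : ℝ) (hN : 3 ≤ N) (hP : 1 ≤ P) (hQ : 1 ≤ Q)
    (hI : 1 ≤ I) (hh : 0 < h) (hL : 1600 ≤ 1280 * N / h)
    (hQi : ∀ i < I, ((4 ^ i * Q : ℕ) : ℝ) ≤ h) (hL2 : 1 ≤ L₂)
    (hm1 : 480 * L₂ * h * P ≤ N) (hm2 : h * h * P ≤ N)
    (hmu : mu = ∑ p ∈ prm P, 1 / ((p : ℝ) - 1))
    (hs : ∑ i ∈ range I, ∑ q ∈ prm (4 ^ i * Q), 1 / (q : ℝ) ≤ 1 / 10 ^ 8)
    (he1 : ∀ i < I, ∀ lam b : ℝ, 8 * N / h ≤ lam → lam ≤ 1280 * N / h → 0 ≤ b →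
      b ≤ 160 * Real.pi * h / (1280 * N) →
      ∫ u in (Real.log N - 1 - 1)..(Real.log N - 1 + 1), (FF N P (4 ^ i * Q) 1 {1} lam (u - b) -
        L₂ / lam * FF N P (4 ^ i * Q) 1 {1} L₂ u) ^ 2 ≤ Ce)
    (he2 : ∀ i < I, ∀ j < I, ∀ lam b : ℝ, 8 * N / h ≤ lam → lam ≤ 1280 * N / h → 0 ≤ b →
      b ≤ 160 * Real.pi * h / (1280 * N) →
      ∫ u in (Real.log N - 1 - 1)..(Real.log N - 1 + 1),
        (FF N P (4 ^ i * Q) (4 ^ j * Q) (prm (4 ^ j * Q)) lam (u - b) -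
        L₂ / lam * FF N P (4 ^ i * Q) (4 ^ j * Q) (prm (4 ^ j * Q)) L₂ u) ^ 2 ≤ Ce)
    (hT : 0 < T)
    (hTm : 2 * T ≤ h / 3840 * (3 / 50) *
      ((∑ i ∈ range I, ∑ q ∈ prm (4 ^ i * Q), 1 / (q : ℝ)) * mu) -
        L₂ / (1280 * N / h) * (108000000 * (I : ℝ) ^ 2 * (h * h * P))) :
    (volume {u : ℝ | Real.log (N / 3) ≤ u ∧ u ≤ Real.log N ∧
      (∑ k ∈ Icc 1 (2 * N), if |Real.log k - u| ≤ h / (8 * N) then (rho P k : ℝ) else 0) <
        T}).toReal ≤ 100 * (I : ℝ) ^ 4 * Ce / T ^ 2 := by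
  have hN0 : (0 : ℝ) < N := by
    have : 0 < N := by omega
    exact_mod_cast this
  have hI0 : (0 : ℝ) < I := by exact_mod_cast hI
  have hP0 : (0 : ℝ) < P := by exact_mod_cast hP
  obtain ⟨L, hLd⟩ : ∃ L : ℝ, L = 1280 * N / h := ⟨_, rfl⟩
  rw [← hLd] at hL hTm
  have hL0 : 0 < L := by linarith
  have hL20 : 0 < L₂ := by linarith
  have hL160 : L / 160 = 8 * N / h := by
    rw [hLd]
    field_simp
    norm_num
  have hwin : 160 / L = h / (8 * N) := by
    rw [hLd]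
    field_simp
    norm_num
  have hbb : 160 * Real.pi / L = 160 * Real.pi * h / (1280 * N) := by
    rw [hLd]
    field_simp
  have hRR : L₂ / (L / 160) = 160 * (L₂ / L) := by
    field_simp
  have hlow8 : 8 * N / h ≤ L := by
    rw [← hL160]
    linarith
  have hpi := Real.pi_pos
  have hb0 : 0 ≤ 160 * Real.pi * h / (1280 * N) := by positivity
  obtain ⟨R, hR⟩ : ∃ R : ℝ, R = L₂ / L := ⟨_, rfl⟩
  have hR0 : 0 < R := by rw [hR]; positivity
  -- the errors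
  set e1 : ℕ → ℝ → ℝ := fun i u => FF N P (4 ^ i * Q) 1 {1} L u -
    R * FF N P (4 ^ i * Q) 1 {1} L₂ u with he1d
  set e2 : ℕ → ℝ → ℝ := fun i u => FF N P (4 ^ i * Q) 1 {1} (L / 160) u -
    160 * R * FF N P (4 ^ i * Q) 1 {1} L₂ u with he2d
  set e3 : ℕ → ℝ → ℝ := fun i u => FF N P (4 ^ i * Q) 1 {1} (L / 160) (u - 160 * Real.pi / L) -
    160 * R * FF N P (4 ^ i * Q) 1 {1} L₂ u with he3d
  set e4 : ℕ → ℕ → ℝ → ℝ := fun i j u =>
    FF N P (4 ^ i * Q) (4 ^ j * Q) (prm (4 ^ j * Q)) (L / 160) u -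
    160 * R * FF N P (4 ^ i * Q) (4 ^ j * Q) (prm (4 ^ j * Q)) L₂ u with he4d
  have c1 : ∀ i, Continuous (e1 i) := fun i =>
    (continuous_FF _ _ _ _ _ _).sub (continuous_const.mul (continuous_FF _ _ _ _ _ _))
  have c2 : ∀ i, Continuous (e2 i) := fun i =>
    (continuous_FF _ _ _ _ _ _).sub (continuous_const.mul (continuous_FF _ _ _ _ _ _))
  have c3 : ∀ i, Continuous (e3 i) := fun i =>
    ((continuous_FF _ _ _ _ _ _).comp (by fun_prop)).sub
      (continuous_const.mul (continuous_FF _ _ _ _ _ _))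
  have c4 : ∀ i j, Continuous (e4 i j) := fun i j =>
    (continuous_FF _ _ _ _ _ _).sub (continuous_const.mul (continuous_FF _ _ _ _ _ _))
  have I1 : ∀ i < I, ∫ u in (Real.log N - 1 - 1)..(Real.log N - 1 + 1), e1 i u ^ 2 ≤ Ce := by
    intro i hi
    have := he1 i hi L 0 hlow8 (le_of_eq hLd) le_rfl hb0
    simp only [sub_zero] at this
    rw [← hR] at this
    exact this
  have I2 : ∀ i < I, ∫ u in (Real.log N - 1 - 1)..(Real.log N - 1 + 1), e2 i u ^ 2 ≤ Ce := by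
    intro i hi
    have := he1 i hi (L / 160) 0 (le_of_eq hL160.symm) (by rw [← hLd]; linarith) le_rfl hb0
    simp only [sub_zero] at this
    rw [hRR, ← hR] at this
    exact this
  have I3 : ∀ i < I, ∫ u in (Real.log N - 1 - 1)..(Real.log N - 1 + 1), e3 i u ^ 2 ≤ Ce := by
    intro i hi
    have := he1 i hi (L / 160) (160 * Real.pi / L) (le_of_eq hL160.symm)
      (by rw [← hLd]; linarith) (by positivity) (le_of_eq hbb)
    rw [hRR, ← hR] at this
    exact this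
  have I4 : ∀ i < I, ∀ j < I,
      ∫ u in (Real.log N - 1 - 1)..(Real.log N - 1 + 1), e4 i j u ^ 2 ≤ Ce := by
    intro i hi j hj
    have := he2 i hi j hj (L / 160) 0 (le_of_eq hL160.symm) (by rw [← hLd]; linarith) le_rfl hb0
    simp only [sub_zero] at this
    rw [hRR, ← hR] at this
    exact this
  have hCe : 0 ≤ Ce := by
    refine le_trans ?_ (I1 0 hI)
    apply intervalIntegral.integral_nonneg (by linarith)
    intro u _
    positivity
  set G : ℝ → ℝ := fun u => ∑ i ∈ range I, (e1 i u ^ 2 + e2 i u ^ 2 + e3 i u ^ 2) +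
    ∑ i ∈ range I, ∑ j ∈ Ico i I, e4 i j u ^ 2 with hG
  have cG1 : Continuous fun u => ∑ i ∈ range I, (e1 i u ^ 2 + e2 i u ^ 2 + e3 i u ^ 2) :=
    continuous_finsetSum _ fun i _ => (((c1 i).pow 2).add ((c2 i).pow 2)).add ((c3 i).pow 2)
  have cG2 : Continuous fun u => ∑ i ∈ range I, ∑ j ∈ Ico i I, e4 i j u ^ 2 :=
    continuous_finsetSum _ fun i _ => continuous_finsetSum _ fun j _ => (c4 i j).pow 2
  have cG : Continuous G := cG1.add cG2
  have G0 : ∀ u, 0 ≤ G u := by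
    intro u
    rw [hG]
    simp only
    positivity
  have hint : ∫ u in (Real.log N - 1 - 1)..(Real.log N - 1 + 1), G u ≤ 4 * (I : ℝ) ^ 2 * Ce := by
    rw [hG]
    rw [intervalIntegral.integral_add (cG1.intervalIntegrable _ _) (cG2.intervalIntegrable _ _)]
    have k1 : ∀ i, Continuous fun u => e1 i u ^ 2 := fun i => (c1 i).pow 2
    have k2 : ∀ i, Continuous fun u => e2 i u ^ 2 := fun i => (c2 i).pow 2
    have k3 : ∀ i, Continuous fun u => e3 i u ^ 2 := fun i => (c3 i).pow 2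
    have k4 : ∀ i j, Continuous fun u => e4 i j u ^ 2 := fun i j => (c4 i j).pow 2
    have k12 : ∀ i, Continuous fun u => e1 i u ^ 2 + e2 i u ^ 2 := fun i => (k1 i).add (k2 i)
    have k123 : ∀ i, Continuous fun u => e1 i u ^ 2 + e2 i u ^ 2 + e3 i u ^ 2 := fun i =>
      (k12 i).add (k3 i)
    have k44 : ∀ i, Continuous fun u => ∑ j ∈ Ico i I, e4 i j u ^ 2 := fun i =>
      continuous_finsetSum _ fun j _ => k4 i j
    rw [intervalIntegral.integral_finsetSum (f := fun i u => e1 i u ^ 2 + e2 i u ^ 2 + e3 i u ^ 2)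
      (fun i _ => (k123 i).intervalIntegrable _ _)]
    rw [intervalIntegral.integral_finsetSum (f := fun i u => ∑ j ∈ Ico i I, e4 i j u ^ 2)
      (fun i _ => (k44 i).intervalIntegrable _ _)]
    have s1 : ∑ i ∈ range I, ∫ u in (Real.log N - 1 - 1)..(Real.log N - 1 + 1),
        (e1 i u ^ 2 + e2 i u ^ 2 + e3 i u ^ 2) ≤ ∑ _i ∈ range I, 3 * Ce := by
      apply sum_le_sum
      intro i hi
      have hi' := mem_range.mp hi
      rw [intervalIntegral.integral_add ((k12 i).intervalIntegrable _ _)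
        ((k3 i).intervalIntegrable _ _)]
      rw [intervalIntegral.integral_add ((k1 i).intervalIntegrable _ _)
        ((k2 i).intervalIntegrable _ _)]
      have := I1 i hi'
      have := I2 i hi'
      have := I3 i hi'
      linarith
    have s2 : ∑ i ∈ range I, ∫ u in (Real.log N - 1 - 1)..(Real.log N - 1 + 1),
        ∑ j ∈ Ico i I, e4 i j u ^ 2 ≤ ∑ _i ∈ range I, (I : ℝ) * Ce := by
      apply sum_le_sum
      intro i hi
      have hi' := mem_range.mp hi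
      rw [intervalIntegral.integral_finsetSum (f := fun j u => e4 i j u ^ 2)
        (fun j _ => (k4 i j).intervalIntegrable _ _)]
      calc ∑ j ∈ Ico i I, ∫ u in (Real.log N - 1 - 1)..(Real.log N - 1 + 1), e4 i j u ^ 2 ≤
          ∑ _j ∈ Ico i I, Ce := sum_le_sum fun j hj => I4 i hi' j (mem_Ico.mp hj).2
        _ = ((Ico i I).card : ℝ) * Ce := by rw [sum_const, nsmul_eq_mul]
        _ ≤ (I : ℝ) * Ce := by
            apply mul_le_mul_of_nonneg_right _ hCe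
            rw [Nat.card_Ico]
            exact_mod_cast Nat.sub_le _ _
    rw [sum_const, card_range, nsmul_eq_mul] at s1 s2
    have hsq := nat_le_sq I
    nlinarith
  -- the pointwise inequality
  have hpt : ∀ u ∈ {u : ℝ | Real.log (N / 3) ≤ u ∧ u ≤ Real.log N ∧
      (∑ k ∈ Icc 1 (2 * N), if |Real.log k - u| ≤ h / (8 * N) then (rho P k : ℝ) else 0) <
        T}, T ^ 2 / (25 * (I : ℝ) ^ 2) ≤ G u := by
    rintro u ⟨hu1, hu2, hu3⟩
    have hlow := low N P Q I hP hQ hN L u hL hu1 hu2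
    rw [hwin] at hlow
    have hp := pw I _ (Real.exp u) L L₂ R mu (h * h * P)
      (fun i => FF N P (4 ^ i * Q) 1 {1} L₂ u) (fun i => FF N P (4 ^ i * Q) 1 {1} L u)
      (fun i => FF N P (4 ^ i * Q) 1 {1} (L / 160) u)
      (fun i => FF N P (4 ^ i * Q) 1 {1} (L / 160) (u - 160 * Real.pi / L))
      (fun i => ∑ q ∈ prm (4 ^ i * Q), 1 / (q : ℝ))
      (fun i j => FF N P (4 ^ i * Q) (4 ^ j * Q) (prm (4 ^ j * Q)) L₂ u)
      (fun i j => FF N P (4 ^ i * Q) (4 ^ j * Q) (prm (4 ^ j * Q)) (L / 160) u)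
      hR hL0 hL20 (Real.exp_pos u)
      (by
        rw [hmu]
        apply sum_nonneg
        intro p hp
        have h1 := (mem_prm.mp hp).2.two_le
        have h2 : (2 : ℝ) ≤ p := by exact_mod_cast h1
        apply div_nonneg zero_le_one
        linarith)
      (fun i => sum_nonneg fun q _ => by positivity) hs (by positivity)
      (by
        intro i hi
        have hQi' : 1 ≤ 4 ^ i * Q := Nat.one_le_iff_ne_zero.mpr (by positivity)
        have := main1 N P (4 ^ i * Q) hP hQi' L₂ u hL2 ?_ hu1 hu2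
        · rw [hmu]
          exact this
        · have := hQi i hi
          refine le_trans ?_ hm1
          gcongr)
      (by
        intro i hi j hj
        have hQi' : 1 ≤ 4 ^ i * Q := Nat.one_le_iff_ne_zero.mpr (by positivity)
        have hQj' : 1 ≤ 4 ^ j * Q := Nat.one_le_iff_ne_zero.mpr (by positivity)
        have b1 := hQi i hi
        have b2 := hQi j hj
        have b3 : ((4 ^ i * Q * (4 ^ j * Q) * P : ℕ) : ℝ) ≤ h * h * P := by
          rw [Nat.cast_mul, Nat.cast_mul]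
          gcongr
        have b4 : 4 ^ i * Q * (4 ^ j * Q) * P ≤ N := by
          have := b3.trans hm2
          exact_mod_cast this
        have := main2 N P (4 ^ i * Q) (4 ^ j * Q) hP hQi' hQj' L₂ u hL2 b4 hu1 hu2 hN
        rw [hmu]
        refine this.trans ?_
        gcongr)
      hlow
    have hX := exp_div N hN h u L hh hLd hu1
    have hmu0 : 0 ≤ mu := by
      rw [hmu]
      apply sum_nonneg
      intro p hp
      have h1 := (mem_prm.mp hp).2.two_le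
      have h2 : (2 : ℝ) ≤ p := by exact_mod_cast h1
      apply div_nonneg zero_le_one
      linarith
    have hs0 : 0 ≤ ∑ i ∈ range I, ∑ q ∈ prm (4 ^ i * Q), 1 / (q : ℝ) :=
      sum_nonneg fun i _ => sum_nonneg fun q _ => by positivity
    have hm : h / 3840 * (3 / 50) * ((∑ i ∈ range I, ∑ q ∈ prm (4 ^ i * Q), 1 / (q : ℝ)) * mu) ≤
        Real.exp u / L * (3 / 50) *
          ((∑ i ∈ range I, ∑ q ∈ prm (4 ^ i * Q), 1 / (q : ℝ)) * mu) := by
      gcongr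
    have hA := cs_all I (fun i => e1 i u) (fun i => e2 i u) (fun i => e3 i u) (fun i j => e4 i j u)
    set A : ℝ := ∑ i ∈ range I, (|e1 i u| + |e2 i u| + |e3 i u|) +
      ∑ i ∈ range I, ∑ j ∈ Ico i I, |e4 i j u| with hAd
    have hp' : Real.exp u / L * (3 / 50) *
        ((∑ i ∈ range I, ∑ q ∈ prm (4 ^ i * Q), 1 / (q : ℝ)) * mu) -
        R * (108000000 * (I : ℝ) ^ 2 * (h * h * P)) - 5 / 2 * A ≤
        ∑ k ∈ Icc 1 (2 * N), if |Real.log k - u| ≤ h / (8 * N) then (rho P k : ℝ) else 0 := hp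
    rw [← hR] at hTm
    have hA1 : 2 / 5 * T ≤ A := by linarith
    have hA2 : (2 / 5 * T) ^ 2 ≤ A ^ 2 := pow_le_pow_left₀ (by positivity) hA1 2
    have hA3 : A ^ 2 ≤ 4 * (I : ℝ) ^ 2 * G u := hA
    rw [div_le_iff₀ (by positivity)]
    nlinarith
  have hlog3 : Real.log 3 < 2 := by
    have := Real.log_lt_sub_one_of_pos (x := 3) (by norm_num) (by norm_num)
    linarith
  have hmk := markov G cG G0 (Real.log N - 1 - 1) (Real.log N - 1 + 1) (T ^ 2 / (25 * (I : ℝ) ^ 2))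
    (by linarith) (by positivity) _ (by
      rintro u ⟨hu1, hu2, _⟩
      rw [Real.log_div hN0.ne' (by norm_num)] at hu1
      exact ⟨by linarith, by linarith⟩) hpt
  refine hmk.trans ?_
  calc (∫ u in (Real.log N - 1 - 1)..(Real.log N - 1 + 1), G u) / (T ^ 2 / (25 * (I : ℝ) ^ 2)) ≤
      (4 * (I : ℝ) ^ 2 * Ce) / (T ^ 2 / (25 * (I : ℝ) ^ 2)) :=
        div_le_div_of_nonneg_right hint (by positivity)
    _ = 100 * (I : ℝ) ^ 4 * Ce / T ^ 2 := by
        field_simp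
        ring

theorem meas : ∃ c A N₀ : ℝ, 0 < c ∧ 0 < A ∧ 1 ≤ N₀ ∧ ∀ (N : ℕ) (h : ℝ), N₀ ≤ N →
    Real.log N ^ A ≤ h → h ≤ (N : ℝ) ^ (0.01 : ℝ) → ∀ P : ℕ, (N : ℝ) ^ (0.4 : ℝ) ≤ P →
      (P : ℝ) ≤ (N : ℝ) ^ (0.53 : ℝ) →
        (volume {u : ℝ | Real.log (N / 3) ≤ u ∧ u ≤ Real.log N ∧
          (∑ k ∈ Icc 1 (2 * N), if |Real.log k - u| ≤ h / (8 * N) then (rho P k : ℝ) else 0) <
            c * h / Real.log N}).toReal ≤ h ^ (-(1 / 100 : ℝ)) := by
  obtain ⟨Ae, Ce, Ne, hAe, hCe, hNe, herr⟩ := err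
  obtain ⟨cb, Cb, hcb, hCb, hblk0⟩ := cheb_blocks
  obtain ⟨cl, hcl, Ql, hQl, hlow0⟩ := cheb_lower
  obtain ⟨η, hηd⟩ : ∃ η : ℝ, η = min (1 / 4) (1 / 10 ^ 8 / Cb) := ⟨_, rfl⟩
  have hη0 : 0 < η := by rw [hηd]; positivity
  have hη4 : η ≤ 1 / 4 := by rw [hηd]; exact min_le_left _ _
  have hηC : Cb * η ≤ 1 / 10 ^ 8 := by
    have h1 : η ≤ 1 / 10 ^ 8 / Cb := by rw [hηd]; exact min_le_right _ _
    calc Cb * η ≤ Cb * (1 / 10 ^ 8 / Cb) := mul_le_mul_of_nonneg_left h1 hCb.le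
      _ = 1 / 10 ^ 8 := by field_simp
  obtain ⟨Q₀, hQ₀, hblk⟩ := hblk0 η hη0 (by linarith)
  obtain ⟨K, hK⟩ : ∃ K : ℝ, K = 3 / 50 / 3840 * cb * η * cl := ⟨_, rfl⟩
  have hK0 : 0 < K := by rw [hK]; positivity
  obtain ⟨c, hc⟩ : ∃ c : ℝ, c = K / 4 := ⟨_, rfl⟩
  have hc0 : 0 < c := by rw [hc]; positivity
  obtain ⟨B, hB⟩ : ∃ B : ℝ, B = 64 + (Q₀ : ℝ) ^ 2 + 100 * Ce / c ^ 2 + Real.exp (2 / η) +
    3 * Ql := ⟨_, rfl⟩
  have ev : ∀ᶠ x : ℝ in Filter.atTop, Ne ≤ x ∧ B ≤ Real.log x ∧ 480 ≤ x ^ (0.16 : ℝ) ∧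
      84375 * Real.log x ^ 3 ≤ K / 2 * x ^ (0.15 : ℝ) ∧ 3 ≤ x := by
    have e1 : ∀ᶠ x : ℝ in Filter.atTop, B ≤ Real.log x :=
      Real.tendsto_log_atTop.eventually_ge_atTop B
    have e2 : ∀ᶠ x : ℝ in Filter.atTop, 480 ≤ x ^ (0.16 : ℝ) :=
      (tendsto_rpow_atTop (by norm_num)).eventually_ge_atTop 480
    have e3 : ∀ᶠ x : ℝ in Filter.atTop, 84375 * Real.log x ^ 3 ≤ K / 2 * x ^ (0.15 : ℝ) := by
      have h1 := (isLittleO_log_rpow_rpow_atTop (s := 0.15) 3 (by norm_num)).def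
        (c := K / 2 / 84375) (by positivity)
      filter_upwards [h1, Filter.eventually_ge_atTop 1] with x hx hx1
      have hl : 0 ≤ Real.log x := Real.log_nonneg hx1
      have h3 : Real.log x ^ (3 : ℝ) = Real.log x ^ 3 := by
        exact_mod_cast Real.rpow_natCast (Real.log x) 3
      rw [h3, Real.norm_of_nonneg (by positivity), Real.norm_of_nonneg (by positivity)] at hx
      calc 84375 * Real.log x ^ 3 ≤ 84375 * (K / 2 / 84375 * x ^ (0.15 : ℝ)) := by linarith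
        _ = K / 2 * x ^ (0.15 : ℝ) := by ring
    filter_upwards [Filter.eventually_ge_atTop Ne, e1, e2, e3, Filter.eventually_ge_atTop 3]
      with x h1 h2 h3 h4 h5
    exact ⟨h1, h2, h3, h4, h5⟩
  obtain ⟨N₀, hN₀⟩ := Filter.eventually_atTop.mp ev
  refine ⟨c, max Ae 1400, max N₀ 1, hc0, lt_of_lt_of_le hAe (le_max_left _ _), le_max_right _ _, ?_⟩
  intro N h hNN hhA hhN P hP1 hP2
  obtain ⟨hNe', hB', h480, h84, hN3⟩ := hN₀ N (le_trans (le_max_left _ _) hNN)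
  have hN3' : 3 ≤ N := by exact_mod_cast hN3
  have hN0 : (0 : ℝ) < N := by linarith
  have hN1 : (1 : ℝ) ≤ N := by linarith
  obtain ⟨l, hl⟩ : ∃ l : ℝ, l = Real.log N := ⟨_, rfl⟩
  rw [← hl] at hB' h84 hhA
  have hexp : 0 < Real.exp (2 / η) := Real.exp_pos _
  have hCc : 0 ≤ 100 * Ce / c ^ 2 := by positivity
  have hl64 : 64 ≤ l := by
    have h1 : 0 ≤ (Q₀ : ℝ) ^ 2 := by positivity
    have h2 : 0 ≤ (3 : ℝ) * Ql := by positivity
    linarith
  have hlQ : (Q₀ : ℝ) ^ 2 ≤ l := by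
    have h2 : 0 ≤ (3 : ℝ) * Ql := by positivity
    linarith
  have hlC : 100 * Ce / c ^ 2 ≤ l := by
    have h1 : 0 ≤ (Q₀ : ℝ) ^ 2 := by positivity
    have h2 : 0 ≤ (3 : ℝ) * Ql := by positivity
    linarith
  have hlE : Real.exp (2 / η) ≤ l := by
    have h1 : 0 ≤ (Q₀ : ℝ) ^ 2 := by positivity
    have h2 : 0 ≤ (3 : ℝ) * Ql := by positivity
    linarith
  have hlP : (3 : ℝ) * Ql ≤ l := by
    have h1 : 0 ≤ (Q₀ : ℝ) ^ 2 := by positivity
    linarith
  have hl1 : 1 ≤ l := by linarith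
  have hl0 : 0 < l := by linarith
  have hA1 : l ^ Ae ≤ h :=
    (Real.rpow_le_rpow_of_exponent_le hl1 (le_max_left _ _)).trans hhA
  have hA2 : l ^ (1400 : ℝ) ≤ h :=
    (Real.rpow_le_rpow_of_exponent_le hl1 (le_max_right _ _)).trans hhA
  have hlh : l ≤ h := by
    refine le_trans ?_ hA2
    calc l = l ^ (1 : ℝ) := (Real.rpow_one l).symm
      _ ≤ l ^ (1400 : ℝ) := Real.rpow_le_rpow_of_exponent_le hl1 (by norm_num)
  have hh0 : 0 < h := by linarith
  have hh64 : 64 ≤ h := by linarith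
  -- the square root of h
  have hr0 : 0 ≤ √h := Real.sqrt_nonneg h
  have hr2 : √h * √h = h := Real.mul_self_sqrt hh0.le
  have hr8 : 8 ≤ √h := by
    apply Real.le_sqrt_of_sq_le
    linarith
  obtain ⟨Q, hQd⟩ : ∃ Q : ℕ, Q = ⌈√h⌉₊ := ⟨_, rfl⟩
  have hQ1 : √h ≤ Q := by rw [hQd]; exact Nat.le_ceil _
  have hQ2 : (Q : ℝ) ≤ 2 * √h := by
    have := Nat.ceil_lt_add_one hr0
    rw [← hQd] at this
    linarith
  have hQpos : (0 : ℝ) < Q := by linarith
  have hQ1' : 1 ≤ Q := by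
    have : 0 < Q := by exact_mod_cast hQpos
    omega
  have hQQ : Q₀ ≤ Q := by
    have h1 : (Q₀ : ℝ) ≤ √h := by
      apply Real.le_sqrt_of_sq_le
      linarith
    exact_mod_cast h1.trans hQ1
  have hQh : (Q : ℝ) ≤ h := by nlinarith
  have hxp : ∀ a b : ℝ, (N : ℝ) ^ a * (N : ℝ) ^ b = (N : ℝ) ^ (a + b) := fun a b =>
    (Real.rpow_add hN0 a b).symm
  have hxle : ∀ a : ℝ, a ≤ 1 → (N : ℝ) ^ a ≤ N := by
    intro a ha
    calc (N : ℝ) ^ a ≤ (N : ℝ) ^ (1 : ℝ) := Real.rpow_le_rpow_of_exponent_le hN1 ha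
      _ = N := Real.rpow_one _
  have hhN' : h ≤ N := hhN.trans (hxle _ (by norm_num))
  obtain ⟨I, hId⟩ : ∃ I : ℕ, I = ⌊η * Real.log Q⌋₊ := ⟨_, rfl⟩
  obtain ⟨hs1, hs2⟩ := hblk Q hQQ
  rw [← hId] at hs1 hs2
  have hlogQ : 1 / η ≤ Real.log Q := by
    have h1 : 2 / η ≤ Real.log h := by
      rw [Real.le_log_iff_exp_le hh0]
      linarith
    have h2 : Real.log (√h) = Real.log h / 2 := Real.log_sqrt hh0.le
    have h3 : Real.log (√h) ≤ Real.log Q := Real.log_le_log (by linarith) hQ1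
    have h4 : 2 / η = 2 * (1 / η) := by ring
    linarith
  have hlogQ0 : 0 ≤ Real.log Q := le_trans (by positivity) hlogQ
  have hI1 : 1 ≤ I := by
    rw [hId]
    apply Nat.le_floor
    rw [Nat.cast_one]
    calc (1 : ℝ) = η * (1 / η) := by field_simp
      _ ≤ η * Real.log Q := mul_le_mul_of_nonneg_left hlogQ hη0.le
  have hIle : (I : ℝ) ≤ η * Real.log Q := by
    rw [hId]
    exact Nat.floor_le (by positivity)
  have hIle2 : (I : ℝ) ≤ Real.log Q / 4 := by nlinarith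
  have hlogQl : Real.log Q ≤ l := by
    rw [hl]
    exact Real.log_le_log hQpos (hQh.trans hhN')
  have hIl : (I : ℝ) ≤ l := by linarith
  -- the blocks
  have h16 : (16 : ℝ) ^ I ≤ Q := by
    have h1 : Real.log 16 ≤ 4 := by
      have h2 : Real.log 16 = 4 * Real.log 2 := by
        rw [show (16 : ℝ) = 2 ^ 4 by norm_num, Real.log_pow]
        norm_num
      have h3 := Real.log_two_lt_d9
      rw [h2]
      linarith
    rw [← Real.log_le_log_iff (by positivity) hQpos, Real.log_pow]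
    have hI0 : (0 : ℝ) ≤ I := by positivity
    nlinarith
  have h4I : (4 : ℝ) ^ I * Q ≤ h := by
    have h1 : ((4 : ℝ) ^ I * Q) ^ 2 ≤ h ^ 2 := by
      have h2 : ((4 : ℝ) ^ I) ^ 2 = 16 ^ I := by
        rw [← pow_mul, mul_comm, pow_mul]
        norm_num
      calc ((4 : ℝ) ^ I * Q) ^ 2 = 16 ^ I * (Q : ℝ) ^ 2 := by rw [mul_pow, h2]
        _ ≤ Q * (Q : ℝ) ^ 2 := mul_le_mul_of_nonneg_right h16 (by positivity)
        _ = (Q : ℝ) ^ 3 := by ring
        _ ≤ (2 * √h) ^ 3 := pow_le_pow_left₀ hQpos.le hQ2 3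
        _ = 8 * (√h * (√h * √h)) := by ring
        _ = 8 * √h * h := by rw [hr2]; ring
        _ ≤ √h * √h * h := by
            apply mul_le_mul_of_nonneg_right _ hh0.le
            exact mul_le_mul_of_nonneg_right hr8 hr0
        _ = h ^ 2 := by rw [hr2]; ring
    exact (pow_le_pow_iff_left₀ (by positivity) hh0.le (by norm_num)).mp h1
  have hQi4 : ∀ i < I, 4 * ((4 ^ i * Q : ℕ) : ℝ) ≤ h := by
    intro i hi
    refine le_trans ?_ h4I
    push_cast
    calc 4 * ((4 : ℝ) ^ i * Q) = 4 ^ (i + 1) * Q := by ring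
      _ ≤ 4 ^ I * Q := by
        apply mul_le_mul_of_nonneg_right _ hQpos.le
        exact pow_le_pow_right₀ (by norm_num) hi
  have hQi : ∀ i < I, ((4 ^ i * Q : ℕ) : ℝ) ≤ h := by
    intro i hi
    have h1 := hQi4 i hi
    have h2 : (0 : ℝ) ≤ ((4 ^ i * Q : ℕ) : ℝ) := by positivity
    linarith
  have hQir : ∀ i : ℕ, √h ≤ ((4 ^ i * Q : ℕ) : ℝ) := by
    intro i
    refine hQ1.trans ?_
    have : Q ≤ 4 ^ i * Q := Nat.le_mul_of_pos_left _ (by positivity)
    exact_mod_cast this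
  have hQi1 : ∀ i : ℕ, 1 ≤ 4 ^ i * Q := fun i => Nat.one_le_iff_ne_zero.mpr (by positivity)
  -- P
  have hP0 : (1 : ℝ) ≤ P := le_trans (Real.one_le_rpow hN1 (by norm_num)) hP1
  have hP0' : 1 ≤ P := by exact_mod_cast hP0
  have hPQ : Ql ≤ P := by
    have h1 : (Ql : ℝ) ≤ (N : ℝ) ^ (0.4 : ℝ) := by
      rw [Real.rpow_def_of_pos hN0, ← hl]
      have := Real.add_one_le_exp (l * 0.4)
      linarith
    exact_mod_cast h1.trans hP1
  have hP2' : (2 : ℝ) ≤ P := by exact_mod_cast hQl.trans hPQ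
  obtain ⟨mu, hmu⟩ : ∃ mu : ℝ, mu = ∑ p ∈ prm P, 1 / ((p : ℝ) - 1) := ⟨_, rfl⟩
  have hmul : cl / l ≤ mu := by
    rw [hmu]
    refine le_trans ?_ (hlow0 P hPQ)
    apply div_le_div_of_nonneg_left hcl.le (Real.log_pos (by linarith))
    rw [hl]
    exact Real.log_le_log (by linarith) (hP2.trans (hxle _ (by norm_num)))
  have hmu0 : 0 ≤ mu := le_trans (by positivity) hmul
  obtain ⟨s, hsd⟩ : ∃ s : ℝ, s = ∑ i ∈ range I, ∑ q ∈ prm (4 ^ i * Q), 1 / (q : ℝ) := ⟨_, rfl⟩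
  rw [← hsd] at hs1 hs2
  have hs0 : 0 ≤ s := le_trans (by positivity) hs1
  obtain ⟨L₂, hL₂⟩ : ∃ L₂ : ℝ, L₂ = (N : ℝ) ^ (0.3 : ℝ) := ⟨_, rfl⟩
  have hL₂1 : 1 ≤ L₂ := by
    rw [hL₂]
    exact Real.one_le_rpow hN1 (by norm_num)
  have hT0 : 0 < c * h / l := by positivity
  have hprod : L₂ * h * P ≤ (N : ℝ) ^ (0.84 : ℝ) := by
    calc L₂ * h * P ≤ (N : ℝ) ^ (0.3 : ℝ) * (N : ℝ) ^ (0.01 : ℝ) * (N : ℝ) ^ (0.53 : ℝ) := by
          rw [hL₂]
          gcongr
      _ = (N : ℝ) ^ (0.84 : ℝ) := by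
          rw [hxp, hxp]
          norm_num
  have hm1 : 480 * L₂ * h * P ≤ N := by
    calc 480 * L₂ * h * P = 480 * (L₂ * h * P) := by ring
      _ ≤ (N : ℝ) ^ (0.16 : ℝ) * (N : ℝ) ^ (0.84 : ℝ) := by gcongr
      _ = N := by
          rw [hxp]
          norm_num
  have hm2 : h * h * P ≤ N := by
    calc h * h * P ≤ (N : ℝ) ^ (0.01 : ℝ) * (N : ℝ) ^ (0.01 : ℝ) * (N : ℝ) ^ (0.53 : ℝ) := by
          gcongr
      _ = (N : ℝ) ^ (0.55 : ℝ) := by
          rw [hxp, hxp]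
          norm_num
      _ ≤ N := hxle _ (by norm_num)
  have hL : 1600 ≤ 1280 * N / h := by
    rw [le_div_iff₀ hh0]
    have h1 : h * h ≤ N := by
      refine le_trans ?_ hm2
      have : 0 ≤ h * h := by positivity
      nlinarith
    nlinarith
  have hsmall : L₂ / (1280 * N / h) * (108000000 * (I : ℝ) ^ 2 * (h * h * P)) ≤
      K / 2 * h / l := by
    have h1 : L₂ / (1280 * N / h) * (108000000 * (I : ℝ) ^ 2 * (h * h * P)) =
        84375 * (I : ℝ) ^ 2 * h * ((L₂ * h * P) * h) / N := by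
      field_simp
      ring
    rw [h1, div_le_iff₀ hN0]
    have h2 : (L₂ * h * P) * h ≤ (N : ℝ) ^ (0.85 : ℝ) := by
      calc (L₂ * h * P) * h ≤ (N : ℝ) ^ (0.84 : ℝ) * (N : ℝ) ^ (0.01 : ℝ) := by gcongr
        _ = (N : ℝ) ^ (0.85 : ℝ) := by
            rw [hxp]
            norm_num
    have h3 : (N : ℝ) = (N : ℝ) ^ (0.15 : ℝ) * (N : ℝ) ^ (0.85 : ℝ) := by
      rw [hxp]
      norm_num
    calc 84375 * (I : ℝ) ^ 2 * h * ((L₂ * h * P) * h) ≤
        84375 * l ^ 2 * h * (N : ℝ) ^ (0.85 : ℝ) := by gcongr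
      _ = (84375 * l ^ 3) * (h / l) * (N : ℝ) ^ (0.85 : ℝ) := by
          field_simp
      _ ≤ (K / 2 * (N : ℝ) ^ (0.15 : ℝ)) * (h / l) * (N : ℝ) ^ (0.85 : ℝ) := by gcongr
      _ = K / 2 * h / l * ((N : ℝ) ^ (0.15 : ℝ) * (N : ℝ) ^ (0.85 : ℝ)) := by ring
      _ = K / 2 * h / l * N := by rw [← h3]
  have hmain : K * h / l ≤ h / 3840 * (3 / 50) * (s * mu) := by
    have h1 : cb * η * (cl / l) ≤ s * mu := mul_le_mul hs1 hmul (by positivity) hs0
    calc K * h / l = h / 3840 * (3 / 50) * (cb * η * (cl / l)) := by rw [hK]; ring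
      _ ≤ _ := mul_le_mul_of_nonneg_left h1 (by positivity)
  have hcore := core N P Q I h (Ce * h ^ (2 - 3 / 200 : ℝ)) mu (c * h / l) L₂ hN3' hP0' hQ1' hI1 hh0
    hL hQi hL₂1 hm1 hm2 hmu (by rw [← hsd]; exact hs2.trans hηC)
    (by
      intro i hi lam b h1 h2 h3 h4
      have := herr N h hNe' (by rw [← hl]; exact hA1) hhN (4 ^ i * Q) 1 P {1} (hQir i) (hQi4 i hi)
        le_rfl (by push_cast; linarith) (Or.inl ⟨rfl, rfl⟩) hP0' hP2 lam b (Real.log N - 1)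
        h1 h2 h3 h4
      rw [← hL₂] at this
      exact this)
    (by
      intro i hi j hj lam b h1 h2 h3 h4
      have := herr N h hNe' (by rw [← hl]; exact hA1) hhN (4 ^ i * Q) (4 ^ j * Q) P
        (prm (4 ^ j * Q)) (hQir i) (hQi4 i hi) (hQi1 j) (hQi4 j hj) (Or.inr rfl) hP0' hP2 lam b
        (Real.log N - 1) h1 h2 h3 h4
      rw [← hL₂] at this
      exact this)
    hT0 (by
      rw [← hsd]
      have h1 : 2 * (c * h / l) = K * h / l - K / 2 * h / l := by rw [hc]; ring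
      rw [h1]
      linarith)
  rw [hl] at hcore
  refine hcore.trans ?_
  rw [← hl]
  have hI0 : (0 : ℝ) ≤ I := by positivity
  have hl7 : l ^ 7 ≤ h ^ (1 / 200 : ℝ) := by
    calc l ^ 7 = (l ^ (1400 : ℝ)) ^ (1 / 200 : ℝ) := by
          rw [← Real.rpow_mul hl0.le]
          norm_num
      _ ≤ h ^ (1 / 200 : ℝ) := Real.rpow_le_rpow (by positivity) hA2 (by norm_num)
  have hpow : h ^ (2 - 3 / 200 : ℝ) = h ^ 2 * h ^ (-(3 / 200) : ℝ) := by
    rw [sub_eq_add_neg, Real.rpow_add hh0]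
    norm_num
  calc 100 * (I : ℝ) ^ 4 * (Ce * h ^ (2 - 3 / 200 : ℝ)) / (c * h / l) ^ 2 ≤
      100 * l ^ 4 * (Ce * h ^ (2 - 3 / 200 : ℝ)) / (c * h / l) ^ 2 := by gcongr
    _ = (100 * Ce / c ^ 2) * l ^ 6 * h ^ (-(3 / 200) : ℝ) := by
        rw [hpow]
        field_simp
    _ ≤ l * l ^ 6 * h ^ (-(3 / 200) : ℝ) := by gcongr
    _ = l ^ 7 * h ^ (-(3 / 200) : ℝ) := by ring
    _ ≤ h ^ (1 / 200 : ℝ) * h ^ (-(3 / 200) : ℝ) := by gcongr
    _ = h ^ (-(1 / 100 : ℝ)) := by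
        rw [← Real.rpow_add hh0]
        norm_num

end Pool.Agent.BMR
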