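import Pool.Agent.BMR.FJ

/-!
# BMR-MVT (1.2h): mean value theorem for Dirichlet polynomials

Weight `w(τ) = 2(1 - |τ|/(2T))` on `[-2T, 2T]`: `w ≥ 0`, `w ≥ 1` on `[-T,T]`. `z τ k * star (z τ l) = exp(iτ log(k/l))`,
`∫_{-2T}^{2T} w(τ) exp(iτξ) dτ = 4T fj(2Tξ)` (`fj_repr`, `τ = 2T s`). So
`LHS ≤ ∑_{k,l} |c_k||c_l| 4T fj(2T log(k/l)) ≤ ∑_k |c_k|² ∑_l 4T fj(2T log(k/l))` (symmetric, `|ab| ≤ (a²+b²)/2`).
For `k, l ≤ M`: `|log(k/l)| ≥ |k-l|/M`, `fj(v) ≤ min(1, 4/v²)`, so `∑_l 4T fj ≤ 4T (1 + 2 ∑_{j≥1} min(1, M²/(T² j²))) ≤ 4T(1 + 6M/T)`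
(`∑_{j≥1} min(1, a²/j²) ≤ 3a`: for `a ≥ 1` at most `a` terms are 1 and `∑_{j>a} a²/j² ≤ 2a`; for `a < 1` it is `≤ a²π²/6 ≤ 2a`).
-/

open MeasureTheory

namespace Pool.Agent.BMR

private lemma fj_even (v : ℝ) : fj (-v) = fj v := by
  unfold fj
  by_cases hv : v = 0
  · simp [hv]
  · rw [if_neg hv, if_neg (neg_ne_zero.2 hv), neg_div, Real.sin_neg, neg_div_neg_eq]

private lemma log_gap {k l M : ℕ} (hl : 1 ≤ l) (hlk : l < k) (hkM : k ≤ M) :
    ((k : ℝ) - l) / M ≤ Real.log k - Real.log l := by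
  have hl0 : (0 : ℝ) < l := by exact_mod_cast hl
  have hk0 : (0 : ℝ) < k := by
    have : 0 < k := by omega
    exact_mod_cast this
  have hkl : (0 : ℝ) < (k : ℝ) - l := by
    have : (l : ℝ) < k := by exact_mod_cast hlk
    linarith
  have hM : (k : ℝ) ≤ M := by exact_mod_cast hkM
  rw [← Real.log_div hk0.ne' hl0.ne']
  have h1 := Real.one_sub_inv_le_log_of_pos (x := (k : ℝ) / l) (by positivity)
  refine le_trans ?_ h1
  have h2 : 1 - ((k : ℝ) / l)⁻¹ = ((k : ℝ) - l) / k := by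
    rw [inv_div]
    field_simp
  rw [h2]
  exact div_le_div_of_nonneg_left hkl.le hk0 hM

private lemma fj_log_le {T : ℝ} (hT : 1 ≤ T) {M A : ℕ} (hA : (M : ℝ) / T ≤ A) {k l : ℕ}
    (hl : 1 ≤ l) (hlk : l < k) (hkM : k ≤ M) :
    fj (2 * T * (Real.log k - Real.log l)) ≤ (A : ℝ) ^ 2 * (((k - l : ℕ) : ℝ) ^ 2)⁻¹ := by
  have hMn : 0 < M := by omega
  have hM : (0 : ℝ) < M := by exact_mod_cast hMn
  have hT0 : 0 < T := by linarith
  have hkl : (0 : ℝ) < (k : ℝ) - l := by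
    have : (l : ℝ) < k := by exact_mod_cast hlk
    linarith
  have hg := log_gap hl hlk hkM
  have hpos : 0 < ((k : ℝ) - l) / M := by positivity
  have hv : 0 < 2 * T * (Real.log k - Real.log l) := by
    have : 0 < Real.log k - Real.log l := lt_of_lt_of_le hpos hg
    positivity
  refine (fj_le _ hv.ne').trans ?_
  have h1 : 2 * T * (((k : ℝ) - l) / M) ≤ 2 * T * (Real.log k - Real.log l) :=
    mul_le_mul_of_nonneg_left hg (by positivity)
  have h2 : 4 / (2 * T * (Real.log k - Real.log l)) ^ 2 ≤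
      4 / (2 * T * (((k : ℝ) - l) / M)) ^ 2 := by
    apply div_le_div_of_nonneg_left (by norm_num) (by positivity)
    exact pow_le_pow_left₀ (by positivity) h1 2
  refine h2.trans ?_
  rw [Nat.cast_sub hlk.le]
  have h3 : 4 / (2 * T * (((k : ℝ) - l) / M)) ^ 2 = ((M : ℝ) / T) ^ 2 * (((k : ℝ) - l) ^ 2)⁻¹ := by
    field_simp
    norm_num
  rw [h3]
  apply mul_le_mul_of_nonneg_right _ (by positivity)
  exact pow_le_pow_left₀ (by positivity) hA 2

private noncomputable def HH (A j : ℕ) : ℝ := if j ≤ A then 1 else (A : ℝ) ^ 2 * ((j : ℝ) ^ 2)⁻¹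

private lemma HH_nonneg (A j : ℕ) : 0 ≤ HH A j := by
  unfold HH
  split_ifs
  · norm_num
  · positivity

private lemma sum_HH {A : ℕ} (hA : 1 ≤ A) (M : ℕ) : ∑ j ∈ Finset.range M, HH A j ≤ 2 * A + 1 := by
  have hA0 : (0 : ℝ) < A := by exact_mod_cast hA
  have h1 : ∑ j ∈ Finset.range M, HH A j ≤ ∑ j ∈ Finset.range (A + 1 + M), HH A j := by
    apply Finset.sum_le_sum_of_subset_of_nonneg
    · intro j hj
      rw [Finset.mem_range] at hj ⊢
      omega
    · intro j _ _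
      exact HH_nonneg A j
  refine h1.trans ?_
  rw [Finset.sum_range_add]
  have h2 : ∑ j ∈ Finset.range (A + 1), HH A j = A + 1 := by
    rw [Finset.sum_congr rfl (g := fun _ => (1 : ℝ))]
    · simp
    · intro j hj
      rw [Finset.mem_range] at hj
      unfold HH
      rw [if_pos (by omega)]
  have h3 : ∑ j ∈ Finset.range M, HH A (A + 1 + j) ≤ A := by
    have h4 : ∑ j ∈ Finset.range M, HH A (A + 1 + j) =
        (A : ℝ) ^ 2 * ∑ i ∈ Finset.Ioc A (A + M), ((i : ℝ) ^ 2)⁻¹ := by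
      rw [Finset.mul_sum]
      have h5 : Finset.Ioc A (A + M) = (Finset.range M).image (fun j => A + 1 + j) := by
        ext i
        simp only [Finset.mem_Ioc, Finset.mem_image, Finset.mem_range]
        constructor
        · intro h
          exact ⟨i - (A + 1), by omega, by omega⟩
        · rintro ⟨j, hj, rfl⟩
          omega
      rw [h5, Finset.sum_image (by intro a _ b _ h; simp only at h; omega)]
      refine Finset.sum_congr rfl fun j _ => ?_
      unfold HH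
      rw [if_neg (by omega)]
    rw [h4]
    have h6 := sum_Ioc_inv_sq_le_sub (α := ℝ) (k := A) (n := A + M) (by omega) (by omega)
    have h7 : ((A + M : ℕ) : ℝ)⁻¹ ≥ 0 := by positivity
    have h8 : ∑ i ∈ Finset.Ioc A (A + M), ((i : ℝ) ^ 2)⁻¹ ≤ (A : ℝ)⁻¹ := by linarith
    calc (A : ℝ) ^ 2 * ∑ i ∈ Finset.Ioc A (A + M), ((i : ℝ) ^ 2)⁻¹ ≤ (A : ℝ) ^ 2 * (A : ℝ)⁻¹ :=
          mul_le_mul_of_nonneg_left h8 (by positivity)
      _ = A := by field_simp
  rw [h2]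
  linarith

private lemma row_sum {T : ℝ} (hT : 1 ≤ T) {M A : ℕ} (hA1 : 1 ≤ A) (hA : (M : ℝ) / T ≤ A) {k : ℕ}
    (hk : k ∈ Finset.Icc 1 M) :
    ∑ l ∈ Finset.Icc 1 M, fj (2 * T * (Real.log k - Real.log l)) ≤ 4 * A + 2 := by
  rw [Finset.mem_Icc] at hk
  have hterm : ∀ l ∈ Finset.Icc 1 M, fj (2 * T * (Real.log k - Real.log l)) ≤
      (if l ≤ k then HH A (k - l) else 0) + (if k < l then HH A (l - k) else 0) := by
    intro l hl
    rw [Finset.mem_Icc] at hl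
    rcases lt_trichotomy l k with h | h | h
    · rw [if_pos h.le, if_neg (by omega), add_zero]
      unfold HH
      split_ifs
      · exact fj_le_one _
      · exact fj_log_le hT hA hl.1 h hk.2
    · rw [if_pos h.le, if_neg (by omega), add_zero]
      unfold HH
      rw [if_pos (by omega)]
      exact fj_le_one _
    · rw [if_neg (by omega), if_pos h, zero_add]
      unfold HH
      split_ifs
      · exact fj_le_one _
      · have h1 : 2 * T * (Real.log k - Real.log l) = -(2 * T * (Real.log l - Real.log k)) := by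
          ring
        rw [h1, fj_even]
        exact fj_log_le hT hA hk.1 h hl.2
  refine (Finset.sum_le_sum hterm).trans ?_
  rw [Finset.sum_add_distrib, ← Finset.sum_filter, ← Finset.sum_filter]
  have h1 : ∑ l ∈ (Finset.Icc 1 M).filter (fun l => l ≤ k), HH A (k - l) ≤
      ∑ j ∈ Finset.range M, HH A j := by
    rw [← Finset.sum_image (f := fun j => HH A j) (g := fun l => k - l)]
    · apply Finset.sum_le_sum_of_subset_of_nonneg
      · intro j hj
        rw [Finset.mem_image] at hj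
        obtain ⟨l, hl, rfl⟩ := hj
        rw [Finset.mem_filter, Finset.mem_Icc] at hl
        rw [Finset.mem_range]
        omega
      · intro j _ _
        exact HH_nonneg A j
    · intro a ha b hb h
      rw [Finset.mem_coe, Finset.mem_filter, Finset.mem_Icc] at ha hb
      simp only at h
      omega
  have h2 : ∑ l ∈ (Finset.Icc 1 M).filter (fun l => k < l), HH A (l - k) ≤
      ∑ j ∈ Finset.range M, HH A j := by
    rw [← Finset.sum_image (f := fun j => HH A j) (g := fun l => l - k)]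
    · apply Finset.sum_le_sum_of_subset_of_nonneg
      · intro j hj
        rw [Finset.mem_image] at hj
        obtain ⟨l, hl, rfl⟩ := hj
        rw [Finset.mem_filter, Finset.mem_Icc] at hl
        rw [Finset.mem_range]
        omega
      · intro j _ _
        exact HH_nonneg A j
    · intro a ha b hb h
      rw [Finset.mem_coe, Finset.mem_filter, Finset.mem_Icc] at ha hb
      simp only at h
      omega
  have h3 := sum_HH hA1 M
  linarith

private lemma weight_int {T : ℝ} (hT : 1 ≤ T) (ξ : ℝ) :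
    ∫ τ in (-(2 * T))..(2 * T), ((2 * (1 - |τ| / (2 * T)) : ℝ) : ℂ) *
      Complex.exp (Complex.I * ((τ * ξ : ℝ) : ℂ)) = ((4 * T * fj (2 * T * ξ) : ℝ) : ℂ) := by
  have hT0 : 0 < T := by linarith
  have h1 := intervalIntegral.smul_integral_comp_mul_left (a := -1) (b := 1)
    (f := fun τ : ℝ => ((2 * (1 - |τ| / (2 * T)) : ℝ) : ℂ) *
      Complex.exp (Complex.I * ((τ * ξ : ℝ) : ℂ))) (2 * T)
  rw [mul_neg_one, mul_one] at h1
  rw [← h1]
  have h2 : ∀ s : ℝ, ((2 * (1 - |2 * T * s| / (2 * T)) : ℝ) : ℂ) *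
      Complex.exp (Complex.I * ((2 * T * s * ξ : ℝ) : ℂ)) =
      2 * (((1 - |s| : ℝ) : ℂ) * Complex.exp (Complex.I * ((s * (2 * T * ξ) : ℝ) : ℂ))) := by
    intro s
    have h3 : |2 * T * s| / (2 * T) = |s| := by
      rw [abs_mul, abs_of_pos (by positivity : (0 : ℝ) < 2 * T)]
      field_simp
    rw [h3, show 2 * T * s * ξ = s * (2 * T * ξ) by ring]
    push_cast
    ring
  simp only [h2]
  rw [intervalIntegral.integral_const_mul, ← fj_repr]
  rw [Complex.real_smul]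
  push_cast
  ring

theorem mvt : ∃ C : ℝ, 0 < C ∧ ∀ T : ℝ, 1 ≤ T → ∀ M : ℕ, 1 ≤ M → ∀ c : ℕ → ℂ,
    ∫ τ in (-T)..T, ‖∑ k ∈ Finset.Icc 1 M, c k * z τ k‖ ^ 2 ≤
      C * (T + M) * ∑ k ∈ Finset.Icc 1 M, ‖c k‖ ^ 2 := by
  refine ⟨24, by norm_num, fun T hT M hM c => ?_⟩
  have hT0 : 0 < T := by linarith
  have hMr : (1 : ℝ) ≤ M := by exact_mod_cast hM
  obtain ⟨f, hf⟩ : ∃ f : ℝ → ℂ, f = fun τ => ∑ k ∈ Finset.Icc 1 M, c k * z τ k := ⟨_, rfl⟩
  have hfc : Continuous f := by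
    rw [hf]
    exact continuous_finsetSum _ fun k _ => continuous_const.mul (continuous_z _)
  obtain ⟨w, hw⟩ : ∃ w : ℝ → ℝ, w = fun τ => 2 * (1 - |τ| / (2 * T)) := ⟨_, rfl⟩
  have hwc : Continuous w := by
    rw [hw]
    fun_prop
  have hwn : ∀ τ ∈ Set.Ioc (-(2 * T)) (2 * T), 0 ≤ w τ := by
    intro τ hτ
    have h1 : |τ| ≤ 2 * T := abs_le.2 ⟨hτ.1.le, hτ.2⟩
    have h2 : |τ| / (2 * T) ≤ 1 := by
      rw [div_le_one (by positivity)]
      exact h1
    rw [hw]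
    simp only
    linarith
  have hw1 : ∀ τ ∈ Set.Icc (-T) T, 1 ≤ w τ := by
    intro τ hτ
    have h1 : |τ| ≤ T := abs_le.2 ⟨hτ.1, hτ.2⟩
    have h2 : |τ| / (2 * T) ≤ 1 / 2 := by
      rw [div_le_iff₀ (by positivity)]
      linarith
    rw [hw]
    simp only
    linarith
  have hcont : Continuous fun τ => w τ * ‖f τ‖ ^ 2 := hwc.mul (hfc.norm.pow 2)
  have hI1 : ∫ τ in (-T)..T, ‖f τ‖ ^ 2 ≤ ∫ τ in (-T)..T, w τ * ‖f τ‖ ^ 2 := by
    apply intervalIntegral.integral_mono_on (by linarith)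
      ((hfc.norm.pow 2).intervalIntegrable _ _) (hcont.intervalIntegrable _ _)
    intro τ hτ
    exact le_mul_of_one_le_left (sq_nonneg _) (hw1 τ hτ)
  have hI2 : ∫ τ in (-T)..T, w τ * ‖f τ‖ ^ 2 ≤
      ∫ τ in (-(2 * T))..(2 * T), w τ * ‖f τ‖ ^ 2 := by
    apply intervalIntegral.integral_mono_interval (by linarith) (by linarith) (by linarith) _
      (hcont.intervalIntegrable _ _)
    rw [Filter.EventuallyLE, ae_restrict_iff' measurableSet_Ioc]
    exact Filter.Eventually.of_forall fun τ hτ => mul_nonneg (hwn τ hτ) (sq_nonneg _)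
  have hzz : ∀ (τ : ℝ) (k l : ℕ), z τ k * star (z τ l) =
      Complex.exp (Complex.I * ((τ * (Real.log k - Real.log l) : ℝ) : ℂ)) := by
    intro τ k l
    rw [← z_neg]
    unfold z
    rw [← Complex.exp_add]
    congr 1
    push_cast
    ring
  have hexp : ∀ τ, ((w τ * ‖f τ‖ ^ 2 : ℝ) : ℂ) = ∑ k ∈ Finset.Icc 1 M, ∑ l ∈ Finset.Icc 1 M,
      (c k * star (c l)) * (((2 * (1 - |τ| / (2 * T)) : ℝ) : ℂ) *
        Complex.exp (Complex.I * ((τ * (Real.log k - Real.log l) : ℝ) : ℂ))) := by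
    intro τ
    have h1 : ((‖f τ‖ ^ 2 : ℝ) : ℂ) = f τ * star (f τ) := by
      rw [Complex.star_def, Complex.mul_conj, Complex.normSq_eq_norm_sq]
    rw [Complex.ofReal_mul, h1, hf]
    simp only
    rw [star_sum, Finset.sum_mul_sum, Finset.mul_sum]
    refine Finset.sum_congr rfl fun k _ => ?_
    rw [Finset.mul_sum]
    refine Finset.sum_congr rfl fun l _ => ?_
    rw [← hzz, hw, star_mul']
    ring
  have hR : ((∫ τ in (-(2 * T))..(2 * T), w τ * ‖f τ‖ ^ 2 : ℝ) : ℂ) =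
      ∑ k ∈ Finset.Icc 1 M, ∑ l ∈ Finset.Icc 1 M, (c k * star (c l)) *
        ((4 * T * fj (2 * T * (Real.log k - Real.log l)) : ℝ) : ℂ) := by
    rw [← intervalIntegral.integral_ofReal]
    simp only [hexp]
    have hc2 : ∀ k l : ℕ, Continuous fun τ : ℝ => (c k * star (c l)) *
        (((2 * (1 - |τ| / (2 * T)) : ℝ) : ℂ) *
        Complex.exp (Complex.I * ((τ * (Real.log k - Real.log l) : ℝ) : ℂ))) := by
      intro k l
      fun_prop
    rw [intervalIntegral.integral_finsetSum]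
    · refine Finset.sum_congr rfl fun k _ => ?_
      rw [intervalIntegral.integral_finsetSum]
      · refine Finset.sum_congr rfl fun l _ => ?_
        rw [intervalIntegral.integral_const_mul, weight_int hT]
      · intro l _
        exact (hc2 k l).intervalIntegrable _ _
    · intro k _
      exact (continuous_finsetSum _ fun l _ => hc2 k l).intervalIntegrable _ _
  obtain ⟨A, hA⟩ : ∃ A : ℕ, A = ⌈(M : ℝ) / T⌉₊ := ⟨_, rfl⟩
  have hA0 : (M : ℝ) / T ≤ A := by rw [hA]; exact Nat.le_ceil _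
  have hA1 : 1 ≤ A := by
    rw [hA]
    exact Nat.one_le_ceil_iff.2 (by positivity)
  have hA2 : (A : ℝ) ≤ (M : ℝ) / T + 1 := by
    rw [hA]
    exact (Nat.ceil_lt_add_one (by positivity)).le
  obtain ⟨G, hG⟩ : ∃ G : ℕ → ℕ → ℝ,
      G = fun (k l : ℕ) => fj (2 * T * (Real.log k - Real.log l)) := ⟨_, rfl⟩
  have hGn : ∀ k l, 0 ≤ G k l := fun k l => by rw [hG]; exact fj_nonneg _
  have hGs : ∀ k l, G k l = G l k := by
    intro k l
    rw [hG]
    simp only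
    rw [← fj_even]
    congr 1
    ring
  have hGr : ∀ k ∈ Finset.Icc 1 M, ∑ l ∈ Finset.Icc 1 M, G k l ≤ 4 * A + 2 := by
    intro k hk
    rw [hG]
    exact row_sum hT hA1 hA0 hk
  have hle : ∫ τ in (-(2 * T))..(2 * T), w τ * ‖f τ‖ ^ 2 ≤
      ∑ k ∈ Finset.Icc 1 M, ∑ l ∈ Finset.Icc 1 M, ‖c k‖ * ‖c l‖ * (4 * T * G k l) := by
    have h1 : ∫ τ in (-(2 * T))..(2 * T), w τ * ‖f τ‖ ^ 2 ≤
        ‖((∫ τ in (-(2 * T))..(2 * T), w τ * ‖f τ‖ ^ 2 : ℝ) : ℂ)‖ := by
      rw [Complex.norm_real]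
      exact le_trans (le_abs_self _) (le_of_eq rfl)
    refine h1.trans ?_
    rw [hR]
    refine (norm_sum_le _ _).trans (Finset.sum_le_sum fun k _ => ?_)
    refine (norm_sum_le _ _).trans (Finset.sum_le_sum fun l _ => ?_)
    rw [norm_mul, norm_mul, norm_star, Complex.norm_real, Real.norm_of_nonneg]
    · rw [hG]
    · have := fj_nonneg (2 * T * (Real.log k - Real.log l))
      positivity
  have hAM : ∀ k l : ℕ, ‖c k‖ * ‖c l‖ * (4 * T * G k l) ≤
      2 * T * (‖c k‖ ^ 2 * G k l) + 2 * T * (‖c l‖ ^ 2 * G l k) := by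
    intro k l
    rw [hGs l k]
    have h1 : ‖c k‖ * ‖c l‖ ≤ (‖c k‖ ^ 2 + ‖c l‖ ^ 2) / 2 := by
      nlinarith [sq_nonneg (‖c k‖ - ‖c l‖)]
    have h2 : 0 ≤ 4 * T * G k l := by
      have := hGn k l
      positivity
    have h3 := mul_le_mul_of_nonneg_right h1 h2
    linarith
  have hrow : ∑ k ∈ Finset.Icc 1 M, ∑ l ∈ Finset.Icc 1 M, 2 * T * (‖c k‖ ^ 2 * G k l) ≤
      2 * T * ((4 * A + 2) * ∑ k ∈ Finset.Icc 1 M, ‖c k‖ ^ 2) := by
    rw [Finset.mul_sum, Finset.mul_sum]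
    refine Finset.sum_le_sum fun k hk => ?_
    rw [← Finset.mul_sum, ← Finset.mul_sum]
    have h1 := mul_le_mul_of_nonneg_left (hGr k hk) (show 0 ≤ ‖c k‖ ^ 2 by positivity)
    have h2 := mul_le_mul_of_nonneg_left h1 (show 0 ≤ 2 * T by positivity)
    linarith
  have htot : ∑ k ∈ Finset.Icc 1 M, ∑ l ∈ Finset.Icc 1 M, ‖c k‖ * ‖c l‖ * (4 * T * G k l) ≤
      4 * T * ((4 * A + 2) * ∑ k ∈ Finset.Icc 1 M, ‖c k‖ ^ 2) := by
    have h1 : ∑ k ∈ Finset.Icc 1 M, ∑ l ∈ Finset.Icc 1 M, ‖c k‖ * ‖c l‖ * (4 * T * G k l) ≤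
        ∑ k ∈ Finset.Icc 1 M, ∑ l ∈ Finset.Icc 1 M,
          (2 * T * (‖c k‖ ^ 2 * G k l) + 2 * T * (‖c l‖ ^ 2 * G l k)) :=
      Finset.sum_le_sum fun k _ => Finset.sum_le_sum fun l _ => hAM k l
    have h2 : ∑ k ∈ Finset.Icc 1 M, ∑ l ∈ Finset.Icc 1 M,
          (2 * T * (‖c k‖ ^ 2 * G k l) + 2 * T * (‖c l‖ ^ 2 * G l k)) =
        ∑ k ∈ Finset.Icc 1 M, ∑ l ∈ Finset.Icc 1 M, 2 * T * (‖c k‖ ^ 2 * G k l) +
        ∑ l ∈ Finset.Icc 1 M, ∑ k ∈ Finset.Icc 1 M, 2 * T * (‖c l‖ ^ 2 * G l k) := by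
      simp only [Finset.sum_add_distrib]
      congr 1
      exact Finset.sum_comm
    rw [h2] at h1
    linarith
  have hS : 0 ≤ ∑ k ∈ Finset.Icc 1 M, ‖c k‖ ^ 2 := Finset.sum_nonneg fun k _ => by positivity
  have hfin : 4 * T * ((4 * A + 2) * ∑ k ∈ Finset.Icc 1 M, ‖c k‖ ^ 2) ≤
      24 * (T + M) * ∑ k ∈ Finset.Icc 1 M, ‖c k‖ ^ 2 := by
    rw [← mul_assoc]
    apply mul_le_mul_of_nonneg_right _ hS
    have h1 : T * (A : ℝ) ≤ M + T := by
      have h2 := mul_le_mul_of_nonneg_left hA2 hT0.le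
      have h3 : T * ((M : ℝ) / T + 1) = M + T := by field_simp
      linarith
    linarith
  have hgoal : ∫ τ in (-T)..T, ‖f τ‖ ^ 2 ≤
      24 * (T + M) * ∑ k ∈ Finset.Icc 1 M, ‖c k‖ ^ 2 :=
    hI1.trans (hI2.trans (hle.trans (htot.trans hfin)))
  rw [hf] at hgoal
  exact hgoal

end Pool.Agent.BMR
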