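import Pool.Agent.BMR.MVT

/-!
# BMR-QM: moments of the short polynomial

The `2l`-th moment of the sum over the primes in `(Q, 4Q]`, by the mean value theorem: the
coefficients of the `l`-th power are at most `l!` by unique factorization.
-/

open MeasureTheory

namespace Pool.Agent.BMR

open Finset

private lemma z_one (τ : ℝ) : z τ 1 = 1 := by
  unfold z
  rw [Real.log_one, mul_zero, Complex.ofReal_zero, mul_zero, Complex.exp_zero]

private lemma z_prod (τ : ℝ) {ι : Type*} (s : Finset ι) (f : ι → ℕ) (hf : ∀ i ∈ s, 0 < f i) :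
    ∏ i ∈ s, z τ (f i) = z τ ((∏ i ∈ s, f i : ℕ) : ℝ) := by
  classical
  induction s using Finset.induction_on with
  | empty => simp [z_one]
  | insert a s ha ih =>
    rw [prod_insert ha, prod_insert ha, ih fun i hi => hf i (mem_insert_of_mem hi), Nat.cast_mul,
      z_mul]
    · exact_mod_cast hf a (mem_insert_self a s)
    · exact_mod_cast prod_pos fun i hi => hf i (mem_insert_of_mem hi)

/-- the tuples of primes with a given product -/
private def fib (Q l m : ℕ) : Finset (Fin l → ℕ) :=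
  (Fintype.piFinset (fun _ : Fin l => prm Q)).filter (fun x => ∏ i, x i = m)

private lemma expand (Q l : ℕ) (τ : ℝ) : (∑ q ∈ prm Q, z τ q) ^ l =
    ∑ m ∈ Icc 1 ((4 * Q) ^ l), ((fib Q l m).card : ℂ) * z τ m := by
  have hpos : ∀ x ∈ Fintype.piFinset (fun _ : Fin l => prm Q), ∀ i, 0 < x i := fun x hx i =>
    (mem_prm.1 (Fintype.mem_piFinset.1 hx i)).2.pos
  calc (∑ q ∈ prm Q, z τ q) ^ l = ∏ _i : Fin l, ∑ q ∈ prm Q, z τ q := by
        rw [prod_const, card_univ, Fintype.card_fin]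
    _ = ∑ x ∈ Fintype.piFinset (fun _ : Fin l => prm Q), ∏ i, z τ (x i) :=
        prod_univ_sum (fun _ => prm Q) (fun _ q => z τ (q : ℝ))
    _ = ∑ x ∈ Fintype.piFinset (fun _ : Fin l => prm Q), z τ ((∏ i, x i : ℕ) : ℝ) :=
        sum_congr rfl fun x hx => z_prod τ univ x fun i _ => hpos x hx i
    _ = ∑ m ∈ Icc 1 ((4 * Q) ^ l), ∑ x ∈ (Fintype.piFinset (fun _ : Fin l => prm Q)).filter
          (fun x => ∏ i, x i = m), z τ ((∏ i, x i : ℕ) : ℝ) := by
        refine (sum_fiberwise_of_maps_to (g := fun x : Fin l → ℕ => ∏ i, x i) ?_ _).symm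
        intro x hx
        rw [mem_Icc]
        refine ⟨Nat.succ_le_of_lt (prod_pos fun i _ => hpos x hx i), ?_⟩
        calc ∏ i, x i ≤ ∏ _i : Fin l, 4 * Q :=
              prod_le_prod' fun i _ => (mem_prm.1 (Fintype.mem_piFinset.1 hx i)).1.2
          _ = (4 * Q) ^ l := by rw [prod_const, card_univ, Fintype.card_fin]
    _ = ∑ m ∈ Icc 1 ((4 * Q) ^ l), ((fib Q l m).card : ℂ) * z τ m := by
        refine sum_congr rfl fun m _ => ?_
        unfold fib
        rw [← nsmul_eq_mul, ← sum_const]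
        refine sum_congr rfl fun x hx => ?_
        rw [(mem_filter.1 hx).2]

private lemma fib_card (Q l m : ℕ) : (fib Q l m).card ≤ l.factorial := by
  classical
  rcases (fib Q l m).eq_empty_or_nonempty with h | ⟨x0, hx0⟩
  · rw [h, card_empty]
    exact Nat.zero_le _
  have hperm : ∀ x ∈ fib Q l m, (List.ofFn x).Perm m.primeFactorsList := by
    intro x hx
    unfold fib at hx
    rw [mem_filter, Fintype.mem_piFinset] at hx
    refine Nat.primeFactorsList_unique ?_ ?_
    · rw [List.prod_ofFn]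
      exact hx.2
    · intro p hp
      obtain ⟨i, rfl⟩ := List.mem_ofFn.1 hp
      exact (mem_prm.1 (hx.1 i)).2
  have hlen : m.primeFactorsList.length = l := by
    rw [← (hperm x0 hx0).length_eq, List.length_ofFn]
  calc (fib Q l m).card ≤ (m.primeFactorsList.permutations.toFinset).card := by
        refine card_le_card_of_injOn (fun x => List.ofFn x) ?_ ?_
        · intro x hx
          rw [mem_coe, List.mem_toFinset, List.mem_permutations]
          exact hperm x hx
        · intro x _ y _ h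
          exact List.ofFn_injective h
    _ ≤ m.primeFactorsList.permutations.length := List.toFinset_card_le _
    _ = l.factorial := by rw [List.length_permutations, hlen]

private lemma prm_card (Q : ℕ) : (prm Q).card ≤ 4 * Q := by
  unfold prm
  refine (card_filter_le _ _).trans ?_
  rw [Nat.card_Ioc]
  exact Nat.sub_le _ _

private lemma fib_sum (Q l : ℕ) :
    ∑ m ∈ Icc 1 ((4 * Q) ^ l), (fib Q l m).card ≤ (4 * Q) ^ l := by
  classical
  have hdis : ∀ m ∈ Icc 1 ((4 * Q) ^ l), ∀ m' ∈ Icc 1 ((4 * Q) ^ l), m ≠ m' →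
      Disjoint (fib Q l m) (fib Q l m') := by
    intro m _ m' _ hne
    rw [disjoint_left]
    intro x hx hx'
    unfold fib at hx hx'
    exact hne ((mem_filter.1 hx).2.symm.trans (mem_filter.1 hx').2)
  rw [← card_biUnion hdis]
  calc ((Icc 1 ((4 * Q) ^ l)).biUnion (fib Q l)).card
      ≤ (Fintype.piFinset (fun _ : Fin l => prm Q)).card := by
        refine card_le_card (biUnion_subset.2 fun m _ => ?_)
        unfold fib
        exact filter_subset _ _
    _ = (prm Q).card ^ l := by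
        rw [Fintype.card_piFinset, prod_const, card_univ, Fintype.card_fin]
    _ ≤ (4 * Q) ^ l := Nat.pow_le_pow_left (prm_card Q) l

theorem qmom : ∃ C : ℝ, 0 < C ∧ ∀ (Q l : ℕ) (T : ℝ), 1 ≤ Q → 1 ≤ T →
    ∫ τ in (-T)..T, ‖∑ q ∈ prm Q, z τ q‖ ^ (2 * l) ≤
      C * (T + (4 * (Q : ℝ)) ^ l) * (l.factorial * (4 * (Q : ℝ)) ^ l) := by
  obtain ⟨C, hC, hmv⟩ := mvt
  refine ⟨C, hC, fun Q l T hQ hT => ?_⟩
  have hM : 1 ≤ (4 * Q) ^ l := Nat.one_le_pow _ _ (by omega)
  have h1 := hmv T hT ((4 * Q) ^ l) hM (fun m => ((fib Q l m).card : ℂ))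
  have h2 : ∀ τ : ℝ, ‖∑ q ∈ prm Q, z τ q‖ ^ (2 * l) =
      ‖∑ k ∈ Icc 1 ((4 * Q) ^ l), ((fib Q l k).card : ℂ) * z τ k‖ ^ 2 := by
    intro τ
    rw [← expand, norm_pow, ← pow_mul, mul_comm]
  simp only [h2]
  refine h1.trans ?_
  have h3 : ∑ k ∈ Icc 1 ((4 * Q) ^ l), ‖((fib Q l k).card : ℂ)‖ ^ 2 ≤
      l.factorial * (4 * (Q : ℝ)) ^ l := by
    calc ∑ k ∈ Icc 1 ((4 * Q) ^ l), ‖((fib Q l k).card : ℂ)‖ ^ 2
        ≤ ∑ k ∈ Icc 1 ((4 * Q) ^ l), (l.factorial : ℝ) * ((fib Q l k).card : ℝ) := by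
          refine sum_le_sum fun k _ => ?_
          rw [Complex.norm_natCast, sq]
          refine mul_le_mul_of_nonneg_right ?_ (Nat.cast_nonneg _)
          exact_mod_cast fib_card Q l k
      _ = (l.factorial : ℝ) * ((∑ k ∈ Icc 1 ((4 * Q) ^ l), (fib Q l k).card : ℕ) : ℝ) := by
          rw [← mul_sum, Nat.cast_sum]
      _ ≤ (l.factorial : ℝ) * (4 * (Q : ℝ)) ^ l := by
          refine mul_le_mul_of_nonneg_left ?_ (Nat.cast_nonneg _)
          exact_mod_cast fib_sum Q l
  have h4 : (((4 * Q) ^ l : ℕ) : ℝ) = (4 * (Q : ℝ)) ^ l := by push_cast; rfl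
  rw [h4]
  refine mul_le_mul_of_nonneg_left h3 (mul_nonneg hC.le ?_)
  have : (0 : ℝ) ≤ (4 * (Q : ℝ)) ^ l := by positivity
  linarith

end Pool.Agent.BMR
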