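import Pool.Agent.BMR.FJ

/-!
# BMR-SCH (1.2h): an L² bound (half of Plancherel)

`G(u) = ∫_{-T}^{T} g(τ) e^{-iτu} dτ`. Weight `w(u) = 2 - |u - u₀|` on `[u₀-2, u₀+2]`, `w ≥ 1` on `[u₀-1,u₀+1]`, `w ≥ 0`. So
`LHS ≤ ∫_{u₀-2}^{u₀+2} w(u) ‖G(u)‖² du = Re ∫∫ g(τ) conj(g(τ')) W(τ'-τ) dτ dτ'` (Fubini, everything continuous on compact
intervals), `W(ξ) = ∫ w(u) e^{iξu} du`, `W(ξ) = 4 e^{iξu₀} fj(2ξ)` (substitution `u = u₀ + 2s` in `fj_repr`).
`|g(τ) g(τ')| ≤ (|g(τ)|² + |g(τ')|²)/2` and `∫_ℝ 4 fj(2ξ) dξ ≤ ∫ 8/(1+ξ²) dξ = 8π` (`4 fj(2ξ) ≤ 4 min(1, 1/ξ²) ≤ 8/(1+ξ²)`).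
So `LHS ≤ 8π ∫ |g|²`.
-/

open MeasureTheory

namespace Pool.Agent.BMR

private theorem sch_swap {E : Type} [NormedAddCommGroup E] [NormedSpace ℝ E] (F : ℝ → ℝ → E)
    (hF : Continuous (Function.uncurry F)) (a b c d : ℝ) :
    ∫ x in a..b, ∫ y in c..d, F x y = ∫ y in c..d, ∫ x in a..b, F x y := by
  apply intervalIntegral_intervalIntegral_swap
  exact (hF.continuousOn.integrableOn_compact (isCompact_uIcc.prod isCompact_uIcc)).mono_set
    (Set.prod_mono Set.uIoc_subset_uIcc Set.uIoc_subset_uIcc)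

private theorem sch_W (u₀ ξ : ℝ) :
    ∫ u in (u₀ - 2)..(u₀ + 2), ((2 - |u - u₀| : ℝ) : ℂ) * Complex.exp (Complex.I * ((ξ * u : ℝ) : ℂ))
      = 4 * Complex.exp (Complex.I * ((ξ * u₀ : ℝ) : ℂ)) * ((fj (2 * ξ) : ℝ) : ℂ) := by
  have h := intervalIntegral.integral_comp_add_mul (a := -1) (b := 1)
    (fun u : ℝ => ((2 - |u - u₀| : ℝ) : ℂ) * Complex.exp (Complex.I * ((ξ * u : ℝ) : ℂ)))
    (by norm_num : (2 : ℝ) ≠ 0) u₀
  have e1 : u₀ + 2 * -1 = u₀ - 2 := by ring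
  have e2 : u₀ + 2 * 1 = u₀ + 2 := by ring
  rw [e1, e2] at h
  have h2 : ∫ u in (u₀ - 2)..(u₀ + 2),
      ((2 - |u - u₀| : ℝ) : ℂ) * Complex.exp (Complex.I * ((ξ * u : ℝ) : ℂ)) =
      2 * ∫ x in (-1 : ℝ)..1, ((2 - |u₀ + 2 * x - u₀| : ℝ) : ℂ) *
        Complex.exp (Complex.I * ((ξ * (u₀ + 2 * x) : ℝ) : ℂ)) := by
    rw [h, Complex.real_smul, ← mul_assoc]
    norm_num
  rw [h2, fj_repr, ← intervalIntegral.integral_const_mul, ← intervalIntegral.integral_const_mul]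
  congr 1
  funext x
  have e3 : |u₀ + 2 * x - u₀| = 2 * |x| := by
    have : u₀ + 2 * x - u₀ = 2 * x := by ring
    rw [this, abs_mul, abs_of_pos (by norm_num : (0 : ℝ) < 2)]
  have e4 : Complex.exp (Complex.I * ((ξ * (u₀ + 2 * x) : ℝ) : ℂ)) =
      Complex.exp (Complex.I * ((ξ * u₀ : ℝ) : ℂ)) *
        Complex.exp (Complex.I * ((x * (2 * ξ) : ℝ) : ℂ)) := by
    rw [← Complex.exp_add]
    congr 1
    push_cast
    ring
  rw [e3, e4]
  push_cast
  ring

private theorem sch_kernel (ξ : ℝ) : 4 * fj (2 * ξ) ≤ 8 * (1 + ξ ^ 2)⁻¹ := by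
  have h0 := fj_nonneg (2 * ξ)
  have h1 := fj_le_one (2 * ξ)
  have h2 : ξ ^ 2 * fj (2 * ξ) ≤ 1 := by
    by_cases hξ : ξ = 0
    · rw [hξ]
      norm_num
    · have h3 := fj_le (2 * ξ) (by simpa using hξ)
      have h4 : 0 < ξ ^ 2 := by positivity
      calc ξ ^ 2 * fj (2 * ξ) ≤ ξ ^ 2 * (4 / (2 * ξ) ^ 2) :=
            mul_le_mul_of_nonneg_left h3 h4.le
        _ = 1 := by field_simp
                    norm_num
  have h5 : 0 < 1 + ξ ^ 2 := by positivity
  rw [← div_eq_mul_inv, le_div_iff₀ h5]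
  nlinarith

private theorem sch_mass (a b x : ℝ) (hab : a ≤ b) : ∫ τ in a..b, 4 * fj (2 * (x - τ)) ≤ 8 * Real.pi := by
  have hc : Continuous fun τ : ℝ => 4 * fj (2 * (x - τ)) :=
    continuous_const.mul (continuous_fj.comp (by fun_prop))
  have hc2 : Continuous fun τ : ℝ => 8 * (1 + (x - τ) ^ 2)⁻¹ := by
    refine continuous_const.mul (Continuous.inv₀ (by fun_prop) fun τ => ?_)
    positivity
  calc ∫ τ in a..b, 4 * fj (2 * (x - τ)) ≤ ∫ τ in a..b, 8 * (1 + (x - τ) ^ 2)⁻¹ :=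
        intervalIntegral.integral_mono hab (hc.intervalIntegrable _ _)
          (hc2.intervalIntegrable _ _) fun τ => sch_kernel (x - τ)
    _ = 8 * (Real.arctan (x - a) - Real.arctan (x - b)) := by
        rw [intervalIntegral.integral_const_mul,
          intervalIntegral.integral_comp_sub_left (fun y => (1 + y ^ 2)⁻¹) x,
          integral_inv_one_add_sq]
    _ ≤ 8 * Real.pi := by
        have h1 := Real.arctan_lt_pi_div_two (x - a)
        have h2 := Real.neg_pi_div_two_lt_arctan (x - b)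
        linarith

private theorem sch_mass' (a b x : ℝ) (hab : a ≤ b) :
    ∫ τ in a..b, 4 * fj (2 * (τ - x)) ≤ 8 * Real.pi := by
  have hc : Continuous fun τ : ℝ => 4 * fj (2 * (τ - x)) :=
    continuous_const.mul (continuous_fj.comp (by fun_prop))
  have hc2 : Continuous fun τ : ℝ => 8 * (1 + (τ - x) ^ 2)⁻¹ := by
    refine continuous_const.mul (Continuous.inv₀ (by fun_prop) fun τ => ?_)
    positivity
  calc ∫ τ in a..b, 4 * fj (2 * (τ - x)) ≤ ∫ τ in a..b, 8 * (1 + (τ - x) ^ 2)⁻¹ :=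
        intervalIntegral.integral_mono hab (hc.intervalIntegrable _ _)
          (hc2.intervalIntegrable _ _) fun τ => sch_kernel (τ - x)
    _ = 8 * (Real.arctan (b - x) - Real.arctan (a - x)) := by
        rw [intervalIntegral.integral_const_mul,
          intervalIntegral.integral_comp_sub_right (fun y => (1 + y ^ 2)⁻¹) x,
          integral_inv_one_add_sq]
    _ ≤ 8 * Real.pi := by
        have h1 := Real.arctan_lt_pi_div_two (b - x)
        have h2 := Real.neg_pi_div_two_lt_arctan (a - x)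
        linarith

private theorem sch_schur (T : ℝ) (hT : 0 ≤ T) (f : ℝ → ℝ) (hf : Continuous f) :
    ∫ x in (-T)..T, ∫ τ in (-T)..T, f x * f τ * (4 * fj (2 * (x - τ))) ≤
      8 * Real.pi * ∫ x in (-T)..T, f x ^ 2 := by
  have hTT : -T ≤ T := by linarith
  have hk : Continuous fun z : ℝ × ℝ => 4 * fj (2 * (z.1 - z.2)) :=
    continuous_const.mul (continuous_fj.comp (by fun_prop))
  have hf1 : Continuous fun z : ℝ × ℝ => f z.1 := hf.comp continuous_fst
  have hf2 : Continuous fun z : ℝ × ℝ => f z.2 := hf.comp continuous_snd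
  have hkx : ∀ x, Continuous fun τ : ℝ => 4 * fj (2 * (x - τ)) := fun x =>
    continuous_const.mul (continuous_fj.comp (by fun_prop))
  have hkx' : ∀ x, Continuous fun τ : ℝ => 4 * fj (2 * (τ - x)) := fun x =>
    continuous_const.mul (continuous_fj.comp (by fun_prop))
  have c1 : Continuous fun x => ∫ τ in (-T)..T, f x * f τ * (4 * fj (2 * (x - τ))) :=
    intervalIntegral.continuous_parametric_intervalIntegral_of_continuous' (by
      show Continuous fun z : ℝ × ℝ => f z.1 * f z.2 * (4 * fj (2 * (z.1 - z.2)))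
      exact (hf1.mul hf2).mul hk) _ _
  have c2 : Continuous fun x => ∫ τ in (-T)..T, f x ^ 2 / 2 * (4 * fj (2 * (x - τ))) :=
    intervalIntegral.continuous_parametric_intervalIntegral_of_continuous' (by
      show Continuous fun z : ℝ × ℝ => f z.1 ^ 2 / 2 * (4 * fj (2 * (z.1 - z.2)))
      exact ((hf1.pow 2).div_const 2).mul hk) _ _
  have hc3 : Continuous (Function.uncurry fun x τ : ℝ => f τ ^ 2 / 2 * (4 * fj (2 * (x - τ)))) := by
    show Continuous fun z : ℝ × ℝ => f z.2 ^ 2 / 2 * (4 * fj (2 * (z.1 - z.2)))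
    exact ((hf2.pow 2).div_const 2).mul hk
  have c3 : Continuous fun x => ∫ τ in (-T)..T, f τ ^ 2 / 2 * (4 * fj (2 * (x - τ))) :=
    intervalIntegral.continuous_parametric_intervalIntegral_of_continuous' hc3 _ _
  have c4 : Continuous fun τ => ∫ x in (-T)..T, f τ ^ 2 / 2 * (4 * fj (2 * (x - τ))) :=
    intervalIntegral.continuous_parametric_intervalIntegral_of_continuous' (by
      show Continuous fun z : ℝ × ℝ => f z.1 ^ 2 / 2 * (4 * fj (2 * (z.2 - z.1)))
      exact ((hf1.pow 2).div_const 2).mul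
        (continuous_const.mul (continuous_fj.comp (by fun_prop)))) _ _
  have cf : Continuous fun x => 4 * Real.pi * f x ^ 2 := continuous_const.mul (hf.pow 2)
  have s1 : ∫ x in (-T)..T, ∫ τ in (-T)..T, f x * f τ * (4 * fj (2 * (x - τ))) ≤
      ∫ x in (-T)..T, ((∫ τ in (-T)..T, f x ^ 2 / 2 * (4 * fj (2 * (x - τ)))) +
        ∫ τ in (-T)..T, f τ ^ 2 / 2 * (4 * fj (2 * (x - τ)))) := by
    apply intervalIntegral.integral_mono hTT (c1.intervalIntegrable _ _)
      ((c2.add c3).intervalIntegrable _ _)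
    intro x
    show ∫ τ in (-T)..T, f x * f τ * (4 * fj (2 * (x - τ))) ≤
      (∫ τ in (-T)..T, f x ^ 2 / 2 * (4 * fj (2 * (x - τ)))) +
        ∫ τ in (-T)..T, f τ ^ 2 / 2 * (4 * fj (2 * (x - τ)))
    have d1 : Continuous fun τ => f x ^ 2 / 2 * (4 * fj (2 * (x - τ))) :=
      continuous_const.mul (hkx x)
    have d2 : Continuous fun τ => f τ ^ 2 / 2 * (4 * fj (2 * (x - τ))) :=
      ((hf.pow 2).div_const 2).mul (hkx x)
    have d3 : Continuous fun τ => f x * f τ * (4 * fj (2 * (x - τ))) :=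
      (continuous_const.mul hf).mul (hkx x)
    rw [← intervalIntegral.integral_add (d1.intervalIntegrable _ _) (d2.intervalIntegrable _ _)]
    apply intervalIntegral.integral_mono hTT (d3.intervalIntegrable _ _)
      ((d1.add d2).intervalIntegrable _ _)
    intro τ
    show f x * f τ * (4 * fj (2 * (x - τ))) ≤ f x ^ 2 / 2 * (4 * fj (2 * (x - τ))) +
      f τ ^ 2 / 2 * (4 * fj (2 * (x - τ)))
    have h0 := fj_nonneg (2 * (x - τ))
    rw [← add_mul]
    apply mul_le_mul_of_nonneg_right _ (by positivity)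
    nlinarith [sq_nonneg (f x - f τ)]
  have s2 : ∫ x in (-T)..T, ∫ τ in (-T)..T, f x ^ 2 / 2 * (4 * fj (2 * (x - τ))) ≤
      ∫ x in (-T)..T, 4 * Real.pi * f x ^ 2 := by
    apply intervalIntegral.integral_mono hTT (c2.intervalIntegrable _ _)
      (cf.intervalIntegrable _ _)
    intro x
    show ∫ τ in (-T)..T, f x ^ 2 / 2 * (4 * fj (2 * (x - τ))) ≤ 4 * Real.pi * f x ^ 2
    rw [intervalIntegral.integral_const_mul]
    have h1 := sch_mass (-T) T x hTT
    have h2 : 0 ≤ f x ^ 2 / 2 := by positivity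
    have h3 := mul_le_mul_of_nonneg_left h1 h2
    linarith
  have s3 : ∫ x in (-T)..T, ∫ τ in (-T)..T, f τ ^ 2 / 2 * (4 * fj (2 * (x - τ))) ≤
      ∫ x in (-T)..T, 4 * Real.pi * f x ^ 2 := by
    rw [sch_swap _ hc3]
    apply intervalIntegral.integral_mono hTT (c4.intervalIntegrable _ _)
      (cf.intervalIntegrable _ _)
    intro τ
    show ∫ x in (-T)..T, f τ ^ 2 / 2 * (4 * fj (2 * (x - τ))) ≤ 4 * Real.pi * f τ ^ 2
    rw [intervalIntegral.integral_const_mul]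
    have h1 := sch_mass' (-T) T τ hTT
    have h2 : 0 ≤ f τ ^ 2 / 2 := by positivity
    have h3 := mul_le_mul_of_nonneg_left h1 h2
    linarith
  rw [intervalIntegral.integral_add (c2.intervalIntegrable _ _) (c3.intervalIntegrable _ _)] at s1
  rw [intervalIntegral.integral_const_mul] at s2 s3
  linarith

private theorem sch_conj (T : ℝ) (hT : 0 ≤ T) (g : ℝ → ℂ) (u : ℝ) :
    (starRingEnd ℂ) (∫ τ in (-T)..T, g τ * Complex.exp (-(Complex.I * ((τ * u : ℝ) : ℂ)))) =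
      ∫ τ in (-T)..T, (starRingEnd ℂ) (g τ) * Complex.exp (Complex.I * ((τ * u : ℝ) : ℂ)) := by
  rw [intervalIntegral.integral_of_le (by linarith), intervalIntegral.integral_of_le (by linarith),
    ← integral_conj]
  congr 1
  funext τ
  rw [map_mul, ← Complex.exp_conj, map_neg, map_mul, Complex.conj_I, Complex.conj_ofReal, neg_mul,
    neg_neg]

/-- the weighted integral of the square -/
private theorem sch_weighted (T : ℝ) (hT : 0 ≤ T) (g : ℝ → ℂ) (hg : Continuous g) (u₀ : ℝ) :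
    ((∫ u in (u₀ - 2)..(u₀ + 2), (2 - |u - u₀|) *
        ‖∫ τ in (-T)..T, g τ * Complex.exp (-(Complex.I * ((τ * u : ℝ) : ℂ)))‖ ^ 2 : ℝ) : ℂ) =
      ∫ x in (-T)..T, (starRingEnd ℂ) (g x) * ∫ τ in (-T)..T, g τ *
        (4 * Complex.exp (Complex.I * (((x - τ) * u₀ : ℝ) : ℂ)) *
          ((fj (2 * (x - τ)) : ℝ) : ℂ)) := by
  set G : ℝ → ℂ := fun u => ∫ τ in (-T)..T, g τ * Complex.exp (-(Complex.I * ((τ * u : ℝ) : ℂ)))
    with hG
  have hGc : Continuous G :=
    intervalIntegral.continuous_parametric_intervalIntegral_of_continuous' (by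
      show Continuous fun z : ℝ × ℝ => g z.2 * Complex.exp (-(Complex.I * ((z.2 * z.1 : ℝ) : ℂ)))
      have hg2 : Continuous fun z : ℝ × ℝ => g z.2 := hg.comp continuous_snd
      fun_prop) _ _
  have hgc : Continuous fun x => (starRingEnd ℂ) (g x) := Complex.continuous_conj.comp hg
  have h1 : ((∫ u in (u₀ - 2)..(u₀ + 2), (2 - |u - u₀|) * ‖G u‖ ^ 2 : ℝ) : ℂ) =
      ∫ u in (u₀ - 2)..(u₀ + 2), ∫ x in (-T)..T, ((2 - |u - u₀| : ℝ) : ℂ) * G u *
        ((starRingEnd ℂ) (g x) * Complex.exp (Complex.I * ((x * u : ℝ) : ℂ))) := by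
    rw [← intervalIntegral.integral_ofReal]
    congr 1
    funext u
    rw [intervalIntegral.integral_const_mul, ← sch_conj T hT g u]
    show (((2 - |u - u₀|) * ‖G u‖ ^ 2 : ℝ) : ℂ) =
      ((2 - |u - u₀| : ℝ) : ℂ) * G u * (starRingEnd ℂ) (G u)
    rw [mul_assoc, Complex.mul_conj, Complex.normSq_eq_norm_sq]
    push_cast
    ring
  have h2 : ∫ u in (u₀ - 2)..(u₀ + 2), ∫ x in (-T)..T, ((2 - |u - u₀| : ℝ) : ℂ) * G u *
        ((starRingEnd ℂ) (g x) * Complex.exp (Complex.I * ((x * u : ℝ) : ℂ))) =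
      ∫ x in (-T)..T, ∫ u in (u₀ - 2)..(u₀ + 2), ((2 - |u - u₀| : ℝ) : ℂ) * G u *
        ((starRingEnd ℂ) (g x) * Complex.exp (Complex.I * ((x * u : ℝ) : ℂ))) := by
    apply sch_swap
    show Continuous fun z : ℝ × ℝ => ((2 - |z.1 - u₀| : ℝ) : ℂ) * G z.1 *
        ((starRingEnd ℂ) (g z.2) * Complex.exp (Complex.I * ((z.2 * z.1 : ℝ) : ℂ)))
    have hG1 : Continuous fun z : ℝ × ℝ => G z.1 := hGc.comp continuous_fst
    have hg2 : Continuous fun z : ℝ × ℝ => (starRingEnd ℂ) (g z.2) := hgc.comp continuous_snd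
    have hw : Continuous fun z : ℝ × ℝ => ((2 - |z.1 - u₀| : ℝ) : ℂ) :=
      Complex.continuous_ofReal.comp (by fun_prop)
    exact (hw.mul hG1).mul (hg2.mul (by fun_prop))
  rw [h1, h2]
  congr 1
  funext x
  have h3 : ∫ u in (u₀ - 2)..(u₀ + 2), ((2 - |u - u₀| : ℝ) : ℂ) * G u *
        ((starRingEnd ℂ) (g x) * Complex.exp (Complex.I * ((x * u : ℝ) : ℂ))) =
      (starRingEnd ℂ) (g x) * ∫ u in (u₀ - 2)..(u₀ + 2), ∫ τ in (-T)..T,
        ((2 - |u - u₀| : ℝ) : ℂ) * Complex.exp (Complex.I * ((x * u : ℝ) : ℂ)) *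
          (g τ * Complex.exp (-(Complex.I * ((τ * u : ℝ) : ℂ)))) := by
    rw [← intervalIntegral.integral_const_mul]
    congr 1
    funext u
    rw [intervalIntegral.integral_const_mul]
    show ((2 - |u - u₀| : ℝ) : ℂ) * G u *
        ((starRingEnd ℂ) (g x) * Complex.exp (Complex.I * ((x * u : ℝ) : ℂ))) =
      (starRingEnd ℂ) (g x) * (((2 - |u - u₀| : ℝ) : ℂ) *
        Complex.exp (Complex.I * ((x * u : ℝ) : ℂ)) * G u)
    ring
  rw [h3]
  congr 1
  rw [sch_swap]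
  · congr 1
    funext τ
    rw [← sch_W u₀ (x - τ), ← intervalIntegral.integral_const_mul]
    congr 1
    funext u
    have h4 : Complex.exp (Complex.I * (((x - τ) * u : ℝ) : ℂ)) =
        Complex.exp (Complex.I * ((x * u : ℝ) : ℂ)) *
          Complex.exp (-(Complex.I * ((τ * u : ℝ) : ℂ))) := by
      rw [← Complex.exp_add]
      congr 1
      push_cast
      ring
    rw [h4]
    ring
  · show Continuous fun z : ℝ × ℝ =>
      ((2 - |z.1 - u₀| : ℝ) : ℂ) * Complex.exp (Complex.I * ((x * z.1 : ℝ) : ℂ)) *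
          (g z.2 * Complex.exp (-(Complex.I * ((z.2 * z.1 : ℝ) : ℂ))))
    have hg2 : Continuous fun z : ℝ × ℝ => g z.2 := hg.comp continuous_snd
    have hw : Continuous fun z : ℝ × ℝ => ((2 - |z.1 - u₀| : ℝ) : ℂ) :=
      Complex.continuous_ofReal.comp (by fun_prop)
    exact (hw.mul (by fun_prop)).mul (hg2.mul (by fun_prop))

theorem sch : ∃ C : ℝ, 0 < C ∧ ∀ T : ℝ, 0 ≤ T → ∀ g : ℝ → ℂ, Continuous g → ∀ u₀ : ℝ,
    ∫ u in (u₀ - 1)..(u₀ + 1),
        ‖∫ τ in (-T)..T, g τ * Complex.exp (-(Complex.I * ((τ * u : ℝ) : ℂ)))‖ ^ 2 ≤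
      C * ∫ τ in (-T)..T, ‖g τ‖ ^ 2 := by
  refine ⟨8 * Real.pi, by positivity, ?_⟩
  intro T hT g hg u₀
  have hTT : -T ≤ T := by linarith
  set G : ℝ → ℂ := fun u => ∫ τ in (-T)..T, g τ * Complex.exp (-(Complex.I * ((τ * u : ℝ) : ℂ)))
    with hG
  have hGc : Continuous G :=
    intervalIntegral.continuous_parametric_intervalIntegral_of_continuous' (by
      show Continuous fun z : ℝ × ℝ => g z.2 * Complex.exp (-(Complex.I * ((z.2 * z.1 : ℝ) : ℂ)))
      have hg2 : Continuous fun z : ℝ × ℝ => g z.2 := hg.comp continuous_snd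
      fun_prop) _ _
  have hwG : Continuous fun u => (2 - |u - u₀|) * ‖G u‖ ^ 2 :=
    Continuous.mul (by fun_prop) (hGc.norm.pow 2)
  show ∫ u in (u₀ - 1)..(u₀ + 1), ‖G u‖ ^ 2 ≤ 8 * Real.pi * ∫ τ in (-T)..T, ‖g τ‖ ^ 2
  have s1 : ∫ u in (u₀ - 1)..(u₀ + 1), ‖G u‖ ^ 2 ≤
      ∫ u in (u₀ - 1)..(u₀ + 1), (2 - |u - u₀|) * ‖G u‖ ^ 2 := by
    apply intervalIntegral.integral_mono_on (by linarith)
      ((hGc.norm.pow 2).intervalIntegrable _ _) (hwG.intervalIntegrable _ _)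
    intro u hu
    have h1 : |u - u₀| ≤ 1 := abs_le.2 ⟨by linarith [hu.1], by linarith [hu.2]⟩
    have h2 : 0 ≤ ‖G u‖ ^ 2 := by positivity
    show ‖G u‖ ^ 2 ≤ (2 - |u - u₀|) * ‖G u‖ ^ 2
    nlinarith
  have s2 : ∫ u in (u₀ - 1)..(u₀ + 1), (2 - |u - u₀|) * ‖G u‖ ^ 2 ≤
      ∫ u in (u₀ - 2)..(u₀ + 2), (2 - |u - u₀|) * ‖G u‖ ^ 2 := by
    apply intervalIntegral.integral_mono_interval (by linarith) (by linarith) (by linarith) _
      (hwG.intervalIntegrable _ _)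
    rw [Filter.EventuallyLE, ae_restrict_iff' measurableSet_Ioc]
    refine Filter.Eventually.of_forall fun u hu => ?_
    have h1 : |u - u₀| ≤ 2 := abs_le.2 ⟨by linarith [hu.1], by linarith [hu.2]⟩
    have h2 : 0 ≤ ‖G u‖ ^ 2 := by positivity
    show 0 ≤ (2 - |u - u₀|) * ‖G u‖ ^ 2
    exact mul_nonneg (by linarith) h2
  refine s1.trans (s2.trans ?_)
  -- the absolute value of the weighted integral
  set K : ℝ → ℝ → ℂ := fun x τ => g τ *
    (4 * Complex.exp (Complex.I * (((x - τ) * u₀ : ℝ) : ℂ)) * ((fj (2 * (x - τ)) : ℝ) : ℂ)) with hK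
  have hKn : ∀ x τ, ‖K x τ‖ = ‖g τ‖ * (4 * fj (2 * (x - τ))) := by
    intro x τ
    rw [hK]
    show ‖g τ * (4 * Complex.exp (Complex.I * (((x - τ) * u₀ : ℝ) : ℂ)) *
      ((fj (2 * (x - τ)) : ℝ) : ℂ))‖ = _
    rw [norm_mul, norm_mul, norm_mul, mul_comm Complex.I, Complex.norm_exp_ofReal_mul_I,
      Complex.norm_real, Real.norm_of_nonneg (fj_nonneg _)]
    norm_num
  have hfc : Continuous fun z : ℝ × ℝ => ((fj (2 * (z.1 - z.2)) : ℝ) : ℂ) :=
    Complex.continuous_ofReal.comp (continuous_fj.comp (by fun_prop))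
  have hKc : Continuous (Function.uncurry K) := by
    show Continuous fun z : ℝ × ℝ => g z.2 *
      (4 * Complex.exp (Complex.I * (((z.1 - z.2) * u₀ : ℝ) : ℂ)) *
        ((fj (2 * (z.1 - z.2)) : ℝ) : ℂ))
    have hg2 : Continuous fun z : ℝ × ℝ => g z.2 := hg.comp continuous_snd
    exact hg2.mul (Continuous.mul (by fun_prop) hfc)
  have hKi : Continuous fun x => ∫ τ in (-T)..T, K x τ :=
    intervalIntegral.continuous_parametric_intervalIntegral_of_continuous' hKc _ _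
  have hgc : Continuous fun x => (starRingEnd ℂ) (g x) := Complex.continuous_conj.comp hg
  have h1 := sch_weighted T hT g hg u₀
  have h2 : ∫ u in (u₀ - 2)..(u₀ + 2), (2 - |u - u₀|) * ‖G u‖ ^ 2 ≤
      ‖∫ x in (-T)..T, (starRingEnd ℂ) (g x) * ∫ τ in (-T)..T, K x τ‖ := by
    rw [← h1, Complex.norm_real]
    exact Real.le_norm_self _
  refine h2.trans ((intervalIntegral.norm_integral_le_integral_norm hTT).trans ?_)
  refine le_trans ?_ (sch_schur T hT (fun x => ‖g x‖) hg.norm)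
  have hkx : ∀ x, Continuous fun τ : ℝ => 4 * fj (2 * (x - τ)) := fun x =>
    continuous_const.mul (continuous_fj.comp (by fun_prop))
  have c1 : Continuous fun x => ∫ τ in (-T)..T, ‖g x‖ * ‖g τ‖ * (4 * fj (2 * (x - τ))) :=
    intervalIntegral.continuous_parametric_intervalIntegral_of_continuous' (by
      show Continuous fun z : ℝ × ℝ => ‖g z.1‖ * ‖g z.2‖ * (4 * fj (2 * (z.1 - z.2)))
      have hf1 : Continuous fun z : ℝ × ℝ => ‖g z.1‖ := hg.norm.comp continuous_fst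
      have hf2 : Continuous fun z : ℝ × ℝ => ‖g z.2‖ := hg.norm.comp continuous_snd
      exact (hf1.mul hf2).mul (continuous_const.mul (continuous_fj.comp (by fun_prop)))) _ _
  apply intervalIntegral.integral_mono hTT ((hgc.mul hKi).norm.intervalIntegrable _ _)
    (c1.intervalIntegrable _ _)
  intro x
  show ‖(starRingEnd ℂ) (g x) * ∫ τ in (-T)..T, K x τ‖ ≤
    ∫ τ in (-T)..T, ‖g x‖ * ‖g τ‖ * (4 * fj (2 * (x - τ)))
  have h5 : (fun τ => ‖g x‖ * ‖g τ‖ * (4 * fj (2 * (x - τ)))) =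
      fun τ => ‖g x‖ * (‖g τ‖ * (4 * fj (2 * (x - τ)))) := by
    funext τ
    ring
  rw [h5, intervalIntegral.integral_const_mul, norm_mul, RCLike.norm_conj]
  apply mul_le_mul_of_nonneg_left _ (norm_nonneg _)
  refine (intervalIntegral.norm_integral_le_integral_norm hTT).trans (le_of_eq ?_)
  congr 1
  funext τ
  exact hKn x τ

end Pool.Agent.BMR
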