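import Pool.Agent.BMR.SCH

/-!
# BMR-VAR (1.3h): variance of smoothed short sums

`A(τ) = ∑_{i ∈ s} z τ (x i)`. From `fj_repr` with `τ = L s`: `fj(L w) = (1/L) ∫_{-L}^{L} (1 - |τ|/L) e^{iτw} dτ`. So the difference
in the statement is `(1/L) ∫_{-L}^{L} κ(τ) A(τ) e^{-iτu} dτ`, `κ(τ) = e^{iτb} max(0, 1-|τ|/L) - max(0, 1-|τ|/L₂)` (continuous; the second
kernel has support `[-L₂, L₂] ⊂ [-L, L]`). Apply `sch` with `T = L`, `g = κ A / L` (the norm of the complex number is the absolute value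
of the real one). For `|τ| ≤ T₀ ≤ L₂`: `|κ| ≤ |τ||b| + |τ|/L₂ ≤ 5 T₀/L₂` and `|A| ≤ card s`; for `T₀ ≤ |τ| ≤ L`: `|κ| ≤ 2`;
`|A(-τ)| = |A(τ)|` (`z_neg`). So `∫ |g|² ≤ (1/L²)(25 T₀²/L₂² * 2T₀ * card² + 8 ∫_{T₀}^{L} |A|²)`.
-/

open MeasureTheory

namespace Pool.Agent.BMR

/-- the triangle function of width `M` -/
private noncomputable def hat (M τ : ℝ) : ℝ := max 0 (1 - |τ| / M)

private lemma continuous_hat (M : ℝ) : Continuous (hat M) := by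
  unfold hat
  fun_prop

private lemma hat_nonneg (M τ : ℝ) : 0 ≤ hat M τ := le_max_left _ _

private lemma hat_le_one {M : ℝ} (hM : 0 < M) (τ : ℝ) : hat M τ ≤ 1 := by
  unfold hat
  have : 0 ≤ |τ| / M := div_nonneg (abs_nonneg τ) hM.le
  exact max_le zero_le_one (by linarith)

private lemma hat_eq {M τ : ℝ} (hM : 0 < M) (h : |τ| ≤ M) : hat M τ = 1 - |τ| / M := by
  unfold hat
  apply max_eq_right
  have : |τ| / M ≤ 1 := (div_le_one hM).mpr h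
  linarith

private lemma hat_zero {M τ : ℝ} (hM : 0 < M) (h : M ≤ |τ|) : hat M τ = 0 := by
  unfold hat
  apply max_eq_left
  have : 1 ≤ |τ| / M := (one_le_div hM).mpr h
  linarith

private lemma cont_int (M w : ℝ) : Continuous fun τ : ℝ =>
    ((hat M τ : ℝ) : ℂ) * Complex.exp (Complex.I * ((τ * w : ℝ) : ℂ)) := by
  have h1 : Continuous fun τ : ℝ => ((hat M τ : ℝ) : ℂ) :=
    Complex.continuous_ofReal.comp (continuous_hat M)
  have h2 : Continuous fun τ : ℝ => Complex.exp (Complex.I * ((τ * w : ℝ) : ℂ)) := by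
    fun_prop
  exact h1.mul h2

private lemma rep_one {M : ℝ} (hM : 0 < M) (w : ℝ) :
    ∫ τ in (-M)..M, ((hat M τ : ℝ) : ℂ) * Complex.exp (Complex.I * ((τ * w : ℝ) : ℂ)) =
      ((M * fj (M * w) : ℝ) : ℂ) := by
  have h1 := intervalIntegral.smul_integral_comp_mul_left (a := (-1 : ℝ)) (b := 1)
    (fun τ : ℝ => ((hat M τ : ℝ) : ℂ) * Complex.exp (Complex.I * ((τ * w : ℝ) : ℂ))) M
  rw [mul_neg, mul_one] at h1
  rw [← h1]
  have h2 : ∫ x in (-1 : ℝ)..1, ((hat M (M * x) : ℝ) : ℂ) *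
      Complex.exp (Complex.I * ((M * x * w : ℝ) : ℂ)) =
      ∫ s in (-1 : ℝ)..1, ((1 - |s| : ℝ) : ℂ) *
        Complex.exp (Complex.I * ((s * (M * w) : ℝ) : ℂ)) := by
    apply intervalIntegral.integral_congr
    intro s hs
    rw [Set.uIcc_of_le (by norm_num : (-1 : ℝ) ≤ 1)] at hs
    have hs1 : |s| ≤ 1 := abs_le.mpr ⟨hs.1, hs.2⟩
    have h3 : |M * s| ≤ M := by
      rw [abs_mul, abs_of_pos hM]
      nlinarith
    show ((hat M (M * s) : ℝ) : ℂ) * Complex.exp (Complex.I * ((M * s * w : ℝ) : ℂ)) =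
      ((1 - |s| : ℝ) : ℂ) * Complex.exp (Complex.I * ((s * (M * w) : ℝ) : ℂ))
    rw [hat_eq hM h3, abs_mul, abs_of_pos hM, mul_div_cancel_left₀ _ hM.ne',
      show M * s * w = s * (M * w) by ring]
  rw [h2, ← fj_repr (M * w), Complex.real_smul, ← Complex.ofReal_mul]

private lemma rep {M L : ℝ} (hM : 0 < M) (hL : M ≤ L) (w : ℝ) :
    ∫ τ in (-L)..L, ((hat M τ : ℝ) : ℂ) * Complex.exp (Complex.I * ((τ * w : ℝ) : ℂ)) =
      ((M * fj (M * w) : ℝ) : ℂ) := by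
  have hc := cont_int M w
  have hi : ∀ a b : ℝ, IntervalIntegrable (fun τ : ℝ => ((hat M τ : ℝ) : ℂ) *
      Complex.exp (Complex.I * ((τ * w : ℝ) : ℂ))) volume a b := fun a b =>
    hc.intervalIntegrable a b
  rw [← intervalIntegral.integral_add_adjacent_intervals (hi (-L) (-M)) (hi (-M) L),
    ← intervalIntegral.integral_add_adjacent_intervals (hi (-M) M) (hi M L), rep_one hM w]
  have h1 : ∫ τ in (-L)..(-M), ((hat M τ : ℝ) : ℂ) *
      Complex.exp (Complex.I * ((τ * w : ℝ) : ℂ)) = 0 := by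
    apply intervalIntegral.integral_zero_ae
    refine Filter.Eventually.of_forall fun τ hτ => ?_
    rw [Set.uIoc_of_le (by linarith)] at hτ
    have : M ≤ |τ| := by
      rw [abs_of_nonpos (by linarith [hτ.2])]
      linarith [hτ.2]
    rw [hat_zero hM this, Complex.ofReal_zero, zero_mul]
  have h2 : ∫ τ in M..L, ((hat M τ : ℝ) : ℂ) *
      Complex.exp (Complex.I * ((τ * w : ℝ) : ℂ)) = 0 := by
    apply intervalIntegral.integral_zero_ae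
    refine Filter.Eventually.of_forall fun τ hτ => ?_
    rw [Set.uIoc_of_le hL] at hτ
    have : M ≤ |τ| := by
      rw [abs_of_nonneg (by linarith [hτ.1])]
      exact hτ.1.le
    rw [hat_zero hM this, Complex.ofReal_zero, zero_mul]
  rw [h1, h2, zero_add, add_zero]

/-- the kernel -/
private noncomputable def kap (L L₂ b τ : ℝ) : ℂ :=
  Complex.exp (Complex.I * ((τ * b : ℝ) : ℂ)) * ((hat L τ : ℝ) : ℂ) - ((hat L₂ τ : ℝ) : ℂ)

private lemma continuous_kap (L L₂ b : ℝ) : Continuous (kap L L₂ b) := by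
  have h1 : Continuous fun τ : ℝ => ((hat L τ : ℝ) : ℂ) :=
    Complex.continuous_ofReal.comp (continuous_hat L)
  have h1' : Continuous fun τ : ℝ => ((hat L₂ τ : ℝ) : ℂ) :=
    Complex.continuous_ofReal.comp (continuous_hat L₂)
  have h2 : Continuous fun τ : ℝ => Complex.exp (Complex.I * ((τ * b : ℝ) : ℂ)) := by
    fun_prop
  exact (h2.mul h1).sub h1'

private lemma norm_exp_I (y : ℝ) : ‖Complex.exp (Complex.I * ((y : ℝ) : ℂ))‖ = 1 := by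
  rw [mul_comm]
  exact Complex.norm_exp_ofReal_mul_I y

private lemma norm_kap_two {L L₂ : ℝ} (hL : 0 < L) (hL₂ : 0 < L₂) (b τ : ℝ) :
    ‖kap L L₂ b τ‖ ≤ 2 := by
  unfold kap
  refine (norm_sub_le _ _).trans ?_
  rw [norm_mul, norm_exp_I, one_mul, Complex.norm_real, Complex.norm_real, Real.norm_eq_abs,
    Real.norm_eq_abs, abs_of_nonneg (hat_nonneg L τ), abs_of_nonneg (hat_nonneg L₂ τ)]
  have h1 := hat_le_one hL τ
  have h2 := hat_le_one hL₂ τ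
  linarith

private lemma norm_kap_small {L L₂ b τ T₀ : ℝ} (hL₂ : 0 < L₂) (hT : T₀ ≤ L₂)
    (hLL : L₂ ≤ L) (hb : |b| ≤ 4 / L₂) (hτ : |τ| ≤ T₀) : ‖kap L L₂ b τ‖ ≤ 5 * T₀ / L₂ := by
  have hL : 0 < L := lt_of_lt_of_le hL₂ hLL
  have e : kap L L₂ b τ = (Complex.exp (Complex.I * ((τ * b : ℝ) : ℂ)) - 1) *
      ((hat L τ : ℝ) : ℂ) + ((hat L τ - hat L₂ τ : ℝ) : ℂ) := by
    unfold kap
    push_cast
    ring
  rw [e]
  refine (norm_add_le _ _).trans ?_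
  rw [norm_mul, Complex.norm_real, Complex.norm_real, Real.norm_eq_abs, Real.norm_eq_abs,
    abs_of_nonneg (hat_nonneg L τ)]
  have h1 : ‖Complex.exp (Complex.I * ((τ * b : ℝ) : ℂ)) - 1‖ ≤ |τ * b| := by
    have := Real.norm_exp_I_mul_ofReal_sub_one_le (x := τ * b)
    simpa [Real.norm_eq_abs] using this
  have h2 : |τ * b| ≤ T₀ * (4 / L₂) := by
    rw [abs_mul]
    exact mul_le_mul hτ hb (abs_nonneg b) ((abs_nonneg τ).trans hτ)
  have h3 : |hat L τ - hat L₂ τ| ≤ T₀ / L₂ := by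
    rw [hat_eq hL (hτ.trans (hT.trans hLL)), hat_eq hL₂ (hτ.trans hT)]
    have e2 : 1 - |τ| / L - (1 - |τ| / L₂) = |τ| / L₂ - |τ| / L := by ring
    rw [e2, abs_of_nonneg]
    · have h4 : 0 ≤ |τ| / L := div_nonneg (abs_nonneg τ) hL.le
      have h5 : |τ| / L₂ ≤ T₀ / L₂ := div_le_div_of_nonneg_right hτ hL₂.le
      linarith
    · have : |τ| / L ≤ |τ| / L₂ := div_le_div_of_nonneg_left (abs_nonneg τ) hL₂ hLL
      linarith
  have h6 : ‖Complex.exp (Complex.I * ((τ * b : ℝ) : ℂ)) - 1‖ * hat L τ ≤ T₀ * (4 / L₂) :=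
    calc _ ≤ ‖Complex.exp (Complex.I * ((τ * b : ℝ) : ℂ)) - 1‖ * 1 :=
          mul_le_mul_of_nonneg_left (hat_le_one hL τ) (norm_nonneg _)
      _ ≤ _ := by rw [mul_one]; exact h1.trans h2
  calc _ ≤ T₀ * (4 / L₂) + T₀ / L₂ := add_le_add h6 h3
    _ = 5 * T₀ / L₂ := by ring

private lemma sum_z_neg {ι : Type} (s : Finset ι) (x : ι → ℝ) (τ : ℝ) :
    ‖∑ i ∈ s, z (-τ) (x i)‖ = ‖∑ i ∈ s, z τ (x i)‖ := by
  have : ∑ i ∈ s, z (-τ) (x i) = star (∑ i ∈ s, z τ (x i)) := by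
    rw [star_sum]
    exact Finset.sum_congr rfl fun i _ => z_neg τ (x i)
  rw [this, norm_star]

private lemma continuous_A {ι : Type} (s : Finset ι) (x : ι → ℝ) :
    Continuous fun τ : ℝ => ∑ i ∈ s, z τ (x i) :=
  continuous_finset_sum s fun i _ => continuous_z (x i)

private lemma norm_A_le {ι : Type} (s : Finset ι) (x : ι → ℝ) (τ : ℝ) :
    ‖∑ i ∈ s, z τ (x i)‖ ≤ (s.card : ℝ) := by
  refine (norm_sum_le _ _).trans ?_
  rw [Finset.sum_congr rfl fun i _ => norm_z τ (x i), Finset.sum_const, nsmul_eq_mul, mul_one]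

private lemma diff_repr {ι : Type} (s : Finset ι) (x : ι → ℝ) {L₂ L b : ℝ} (hL₂ : 0 < L₂)
    (hLL : L₂ ≤ L) (u : ℝ) :
    ∫ τ in (-L)..L, ((1 / L : ℝ) : ℂ) * kap L L₂ b τ * (∑ i ∈ s, z τ (x i)) *
        Complex.exp (-(Complex.I * ((τ * u : ℝ) : ℂ))) =
      ((∑ i ∈ s, fj (L * (Real.log (x i) - u + b)) -
          L₂ / L * ∑ i ∈ s, fj (L₂ * (Real.log (x i) - u)) : ℝ) : ℂ) := by
  have hL : 0 < L := lt_of_lt_of_le hL₂ hLL
  have e1 : ∀ τ : ℝ, ((1 / L : ℝ) : ℂ) * kap L L₂ b τ * (∑ i ∈ s, z τ (x i)) *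
      Complex.exp (-(Complex.I * ((τ * u : ℝ) : ℂ))) =
      ∑ i ∈ s, (((1 / L : ℝ) : ℂ) * (((hat L τ : ℝ) : ℂ) *
        Complex.exp (Complex.I * ((τ * (Real.log (x i) - u + b) : ℝ) : ℂ))) -
        ((1 / L : ℝ) : ℂ) * (((hat L₂ τ : ℝ) : ℂ) *
        Complex.exp (Complex.I * ((τ * (Real.log (x i) - u) : ℝ) : ℂ)))) := by
    intro τ
    rw [Finset.mul_sum, Finset.sum_mul]
    refine Finset.sum_congr rfl fun i _ => ?_
    unfold kap z
    have a1 : Complex.exp (Complex.I * ((τ * (Real.log (x i) - u + b) : ℝ) : ℂ)) =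
        Complex.exp (Complex.I * ((τ * b : ℝ) : ℂ)) *
        Complex.exp (Complex.I * ((τ * Real.log (x i) : ℝ) : ℂ)) *
        Complex.exp (-(Complex.I * ((τ * u : ℝ) : ℂ))) := by
      rw [← Complex.exp_add, ← Complex.exp_add]
      congr 1
      push_cast
      ring
    have a2 : Complex.exp (Complex.I * ((τ * (Real.log (x i) - u) : ℝ) : ℂ)) =
        Complex.exp (Complex.I * ((τ * Real.log (x i) : ℝ) : ℂ)) *
        Complex.exp (-(Complex.I * ((τ * u : ℝ) : ℂ))) := by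
      rw [← Complex.exp_add]
      congr 1
      push_cast
      ring
    rw [a1, a2]
    ring
  have hc1 : ∀ w : ℝ, IntervalIntegrable (fun τ : ℝ => ((1 / L : ℝ) : ℂ) * (((hat L τ : ℝ) : ℂ) *
        Complex.exp (Complex.I * ((τ * w : ℝ) : ℂ)))) volume (-L) L := fun w =>
    (continuous_const.mul (cont_int L w)).intervalIntegrable _ _
  have hc2 : ∀ w : ℝ, IntervalIntegrable (fun τ : ℝ => ((1 / L : ℝ) : ℂ) * (((hat L₂ τ : ℝ) : ℂ) *
        Complex.exp (Complex.I * ((τ * w : ℝ) : ℂ)))) volume (-L) L := fun w =>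
    (continuous_const.mul (cont_int L₂ w)).intervalIntegrable _ _
  rw [intervalIntegral.integral_congr (g := fun τ : ℝ =>
      ∑ i ∈ s, (((1 / L : ℝ) : ℂ) * (((hat L τ : ℝ) : ℂ) *
        Complex.exp (Complex.I * ((τ * (Real.log (x i) - u + b) : ℝ) : ℂ))) -
        ((1 / L : ℝ) : ℂ) * (((hat L₂ τ : ℝ) : ℂ) *
        Complex.exp (Complex.I * ((τ * (Real.log (x i) - u) : ℝ) : ℂ))))) (fun τ _ => e1 τ),
    intervalIntegral.integral_finset_sum (fun i _ => (hc1 _).sub (hc2 _))]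
  rw [Complex.ofReal_sub, Complex.ofReal_mul, Complex.ofReal_sum, Complex.ofReal_sum,
    Finset.mul_sum, ← Finset.sum_sub_distrib]
  refine Finset.sum_congr rfl fun i _ => ?_
  rw [intervalIntegral.integral_sub (hc1 _) (hc2 _), intervalIntegral.integral_const_mul,
    intervalIntegral.integral_const_mul, rep hL le_rfl, rep hL₂ hLL, ← Complex.ofReal_mul,
    ← Complex.ofReal_mul, ← Complex.ofReal_sub, ← Complex.ofReal_mul, ← Complex.ofReal_sub]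
  congr 1
  field_simp

private lemma int_bound {ι : Type} (s : Finset ι) (x : ι → ℝ) {T₀ L₂ L b : ℝ} (h1 : 1 ≤ T₀)
    (hT : T₀ ≤ L₂) (hLL : L₂ ≤ L) (hb : |b| ≤ 4 / L₂) :
    ∫ τ in (-L)..L, ‖((1 / L : ℝ) : ℂ) * kap L L₂ b τ * (∑ i ∈ s, z τ (x i))‖ ^ 2 ≤
      50 / L ^ 2 * (T₀ ^ 3 / L₂ ^ 2 * (s.card : ℝ) ^ 2 +
          ∫ τ in T₀..L, ‖∑ i ∈ s, z τ (x i)‖ ^ 2) := by
  have hT0 : 0 < T₀ := by linarith
  have hL₂ : 0 < L₂ := by linarith
  have hL : 0 < L := by linarith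
  set A : ℝ → ℂ := fun τ => ∑ i ∈ s, z τ (x i) with hA
  have hAc : Continuous A := continuous_A s x
  set f : ℝ → ℝ := fun τ => ‖((1 / L : ℝ) : ℂ) * kap L L₂ b τ * A τ‖ ^ 2 with hf
  have hfc : Continuous f :=
    (((continuous_const.mul (continuous_kap L L₂ b)).mul hAc).norm).pow 2
  have hfi : ∀ a c : ℝ, IntervalIntegrable f volume a c := fun a c => hfc.intervalIntegrable a c
  have hfe : ∀ τ, f τ = 1 / L ^ 2 * (‖kap L L₂ b τ‖ ^ 2 * ‖A τ‖ ^ 2) := by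
    intro τ
    show ‖((1 / L : ℝ) : ℂ) * kap L L₂ b τ * A τ‖ ^ 2 = _
    rw [norm_mul, norm_mul, Complex.norm_real, Real.norm_eq_abs, abs_of_pos (by positivity)]
    ring
  have hL2 : 0 ≤ 1 / L ^ 2 := by positivity
  -- the three pieces
  have hmid : ∫ τ in (-T₀)..T₀, f τ ≤ 1 / L ^ 2 * (50 * T₀ ^ 3 / L₂ ^ 2 * (s.card : ℝ) ^ 2) := by
    have hle : ∫ τ in (-T₀)..T₀, f τ ≤
        ∫ _ in (-T₀)..T₀, 1 / L ^ 2 * ((5 * T₀ / L₂) ^ 2 * (s.card : ℝ) ^ 2) := by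
      apply intervalIntegral.integral_mono_on (by linarith) (hfi _ _)
        (continuous_const.intervalIntegrable _ _)
      intro τ hτ
      rw [hfe τ]
      apply mul_le_mul_of_nonneg_left _ hL2
      apply mul_le_mul
      · exact pow_le_pow_left₀ (norm_nonneg _)
          (norm_kap_small hL₂ hT hLL hb (abs_le.mpr ⟨hτ.1, hτ.2⟩)) 2
      · exact pow_le_pow_left₀ (norm_nonneg _) (norm_A_le s x τ) 2
      · positivity
      · positivity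
    refine hle.trans ?_
    rw [intervalIntegral.integral_const, smul_eq_mul]
    apply le_of_eq
    field_simp
    ring
  have hpt : ∀ τ, f τ ≤ 4 / L ^ 2 * ‖A τ‖ ^ 2 := by
    intro τ
    rw [hfe τ]
    have h2 : ‖kap L L₂ b τ‖ ^ 2 ≤ 2 ^ 2 :=
      pow_le_pow_left₀ (norm_nonneg _) (norm_kap_two hL hL₂ b τ) 2
    calc 1 / L ^ 2 * (‖kap L L₂ b τ‖ ^ 2 * ‖A τ‖ ^ 2) ≤ 1 / L ^ 2 * (2 ^ 2 * ‖A τ‖ ^ 2) :=
          mul_le_mul_of_nonneg_left (mul_le_mul_of_nonneg_right h2 (by positivity)) hL2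
      _ = 4 / L ^ 2 * ‖A τ‖ ^ 2 := by ring
  have hcA : Continuous fun τ => 4 / L ^ 2 * ‖A τ‖ ^ 2 := continuous_const.mul (hAc.norm.pow 2)
  have hright : ∫ τ in T₀..L, f τ ≤ 4 / L ^ 2 * ∫ τ in T₀..L, ‖A τ‖ ^ 2 := by
    rw [← intervalIntegral.integral_const_mul]
    exact intervalIntegral.integral_mono_on (hT.trans hLL) (hfi _ _)
      (hcA.intervalIntegrable _ _) fun τ _ => hpt τ
  have hleft : ∫ τ in (-L)..(-T₀), f τ ≤ 4 / L ^ 2 * ∫ τ in T₀..L, ‖A τ‖ ^ 2 := by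
    rw [← intervalIntegral.integral_comp_neg, ← intervalIntegral.integral_const_mul]
    refine intervalIntegral.integral_mono_on (hT.trans hLL)
      ((hfc.comp continuous_neg).intervalIntegrable _ _)
      (hcA.intervalIntegrable _ _) fun τ _ => ?_
    refine (hpt (-τ)).trans (le_of_eq ?_)
    show 4 / L ^ 2 * ‖∑ i ∈ s, z (-τ) (x i)‖ ^ 2 = _
    rw [sum_z_neg]
  have hsplit : ∫ τ in (-L)..L, f τ = (∫ τ in (-L)..(-T₀), f τ) + ((∫ τ in (-T₀)..T₀, f τ) +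
      ∫ τ in T₀..L, f τ) := by
    rw [intervalIntegral.integral_add_adjacent_intervals (hfi (-T₀) T₀) (hfi T₀ L),
      intervalIntegral.integral_add_adjacent_intervals (hfi (-L) (-T₀)) (hfi (-T₀) L)]
  show ∫ τ in (-L)..L, f τ ≤ _
  rw [hsplit]
  have hI : 0 ≤ ∫ τ in T₀..L, ‖A τ‖ ^ 2 :=
    intervalIntegral.integral_nonneg (hT.trans hLL) fun τ _ => by positivity
  have key : 4 / L ^ 2 * (∫ τ in T₀..L, ‖A τ‖ ^ 2) +
      (1 / L ^ 2 * (50 * T₀ ^ 3 / L₂ ^ 2 * (s.card : ℝ) ^ 2) +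
        4 / L ^ 2 * ∫ τ in T₀..L, ‖A τ‖ ^ 2) ≤
      50 / L ^ 2 * (T₀ ^ 3 / L₂ ^ 2 * (s.card : ℝ) ^ 2 + ∫ τ in T₀..L, ‖A τ‖ ^ 2) := by
    have e3 : 50 / L ^ 2 * (T₀ ^ 3 / L₂ ^ 2 * (s.card : ℝ) ^ 2 + ∫ τ in T₀..L, ‖A τ‖ ^ 2) -
        (4 / L ^ 2 * (∫ τ in T₀..L, ‖A τ‖ ^ 2) +
      (1 / L ^ 2 * (50 * T₀ ^ 3 / L₂ ^ 2 * (s.card : ℝ) ^ 2) +
        4 / L ^ 2 * ∫ τ in T₀..L, ‖A τ‖ ^ 2)) = 42 / L ^ 2 * ∫ τ in T₀..L, ‖A τ‖ ^ 2 := by
      ring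
    have h42 : 0 ≤ 42 / L ^ 2 * ∫ τ in T₀..L, ‖A τ‖ ^ 2 := mul_nonneg (by positivity) hI
    linarith
  linarith

theorem var_bound : ∃ C : ℝ, 0 < C ∧ ∀ {ι : Type} (s : Finset ι) (x : ι → ℝ), (∀ i ∈ s, 0 < x i) →
    ∀ T₀ L₂ L b u₀ : ℝ, 1 ≤ T₀ → T₀ ≤ L₂ → L₂ ≤ L → |b| ≤ 4 / L₂ →
      ∫ u in (u₀ - 1)..(u₀ + 1), (∑ i ∈ s, fj (L * (Real.log (x i) - u + b)) -
          L₂ / L * ∑ i ∈ s, fj (L₂ * (Real.log (x i) - u))) ^ 2 ≤
        C / L ^ 2 * (T₀ ^ 3 / L₂ ^ 2 * (s.card : ℝ) ^ 2 +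
          ∫ τ in T₀..L, ‖∑ i ∈ s, z τ (x i)‖ ^ 2) := by
  obtain ⟨C, hC, hsch⟩ := sch
  refine ⟨C * 50, by positivity, ?_⟩
  intro ι s x _ T₀ L₂ L b u₀ h1 hT hLL hb
  have hL₂ : 0 < L₂ := by linarith
  have hL : 0 < L := by linarith
  have hgc : Continuous fun τ : ℝ =>
      ((1 / L : ℝ) : ℂ) * kap L L₂ b τ * (∑ i ∈ s, z τ (x i)) :=
    (continuous_const.mul (continuous_kap L L₂ b)).mul (continuous_A s x)
  have h2 := hsch L hL.le _ hgc u₀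
  have h3 : ∫ u in (u₀ - 1)..(u₀ + 1),
        ‖∫ τ in (-L)..L, ((1 / L : ℝ) : ℂ) * kap L L₂ b τ * (∑ i ∈ s, z τ (x i)) *
          Complex.exp (-(Complex.I * ((τ * u : ℝ) : ℂ)))‖ ^ 2 =
      ∫ u in (u₀ - 1)..(u₀ + 1), (∑ i ∈ s, fj (L * (Real.log (x i) - u + b)) -
          L₂ / L * ∑ i ∈ s, fj (L₂ * (Real.log (x i) - u))) ^ 2 := by
    apply intervalIntegral.integral_congr
    intro u _
    show ‖∫ τ in (-L)..L, ((1 / L : ℝ) : ℂ) * kap L L₂ b τ * (∑ i ∈ s, z τ (x i)) *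
          Complex.exp (-(Complex.I * ((τ * u : ℝ) : ℂ)))‖ ^ 2 =
      (∑ i ∈ s, fj (L * (Real.log (x i) - u + b)) -
          L₂ / L * ∑ i ∈ s, fj (L₂ * (Real.log (x i) - u))) ^ 2
    rw [diff_repr s x hL₂ hLL u, Complex.norm_real, Real.norm_eq_abs, sq_abs]
  rw [h3] at h2
  refine h2.trans ?_
  have h4 := mul_le_mul_of_nonneg_left (int_bound s x h1 hT hLL hb) hC.le
  refine h4.trans (le_of_eq ?_)
  ring

end Pool.Agent.BMR
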