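import Pool.Agent.BMR.Defs
import Pool.Agent.Helper98.Bern.SD

/-!
# BMR-ZS2 (0.8h): `∑ r^{iτ}`, second derivative test

`z τ r = ee (τ log r / (2π))`; the norm of the sum is the norm of the sum with `g(r) = -τ log r/(2π)` (complex conjugate). Second
difference of `g` at `r ≥ a+1`: `(τ/2π) log((r+1)²/(r(r+2))) = (τ/2π) log(1 + 1/(r(r+2)))`, between `lam := τ/(64π a²)` and
`τ/(2π a²) = 32 lam` for `a < r`, `r + 1 ≤ b ≤ 2a` (`x/2 ≤ log(1+x) ≤ x` for `0 ≤ x ≤ 1`, `r(r+2) ≤ 2a(2a+2) ≤ 8a² ≤ 16a²`).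
`Ioc a b = Ico (a+1) (b+1)`. `second_diff` (Helper98/Bern/SD.lean) gives `5(32 lam a + 2)/√lam`.
-/

namespace Pool.Agent.BMR

open Finset Pool.Agent.Helper98.Bern

private theorem zs2_log {x : ℝ} (h0 : 0 < x) (h1 : x ≤ 1) : x / 2 ≤ Real.log (1 + x) := by
  have h2 := Real.one_sub_inv_le_log_of_pos (show 0 < 1 + x by linarith)
  refine le_trans ?_ h2
  have h3 : 1 - (1 + x)⁻¹ = x / (1 + x) := by
    have : (1 + x) ≠ 0 := by linarith
    field_simp
    ring
  rw [h3, div_le_div_iff₀ two_pos (by linarith)]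
  nlinarith

/-- the phase -/
private noncomputable def zg (τ : ℝ) (r : ℕ) : ℝ := -(τ * Real.log r) / (2 * Real.pi)

private theorem zg_ee (τ : ℝ) (r : ℕ) : ee (zg τ r) = star (z τ r) := by
  rw [← z_neg]
  unfold ee z zg
  congr 1
  have : (Real.pi : ℂ) ≠ 0 := by exact_mod_cast Real.pi_ne_zero
  push_cast
  field_simp

private theorem zg_diff (τ : ℝ) {j : ℕ} (hj : 1 ≤ j) :
    zg τ (j + 2) - 2 * zg τ (j + 1) + zg τ j =
      τ / (2 * Real.pi) * Real.log (1 + 1 / ((j : ℝ) * (j + 2))) := by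
  have hj0 : (0 : ℝ) < j := by exact_mod_cast hj
  have h1 : Real.log (1 + 1 / ((j : ℝ) * (j + 2))) =
      2 * Real.log ((j : ℝ) + 1) - Real.log j - Real.log ((j : ℝ) + 2) := by
    have h2 : 1 + 1 / ((j : ℝ) * (j + 2)) = ((j : ℝ) + 1) ^ 2 / (j * (j + 2)) := by
      field_simp
      ring
    rw [h2, Real.log_div (by positivity) (by positivity), Real.log_pow,
      Real.log_mul hj0.ne' (by positivity)]
    push_cast
    ring
  rw [h1]
  unfold zg
  push_cast
  ring

theorem zs2 : ∃ C : ℝ, 0 < C ∧ ∀ (a b : ℕ) (τ : ℝ), 1 ≤ a → a ≤ b → b ≤ 2 * a → 1 ≤ τ →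
    ‖∑ r ∈ Finset.Ioc a b, z τ r‖ ≤ C * (√τ + a / √τ) := by
  refine ⟨80, by norm_num, ?_⟩
  intro a b τ ha hab hba hτ
  have ha0 : (0 : ℝ) < a := by exact_mod_cast ha
  have ha1 : (1 : ℝ) ≤ a := by exact_mod_cast ha
  have hτ0 : 0 < τ := by linarith
  have hpi3 := Real.pi_gt_three
  have hpi4 := Real.pi_lt_four
  have hst : 0 < √τ := Real.sqrt_pos.2 hτ0
  have hsq : √(τ / (64 * (a : ℝ) ^ 2)) = √τ / (8 * a) := by
    rw [Real.sqrt_div hτ0.le, show (64 : ℝ) * (a : ℝ) ^ 2 = (8 * a) ^ 2 by ring,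
      Real.sqrt_sq (by positivity)]
  have h1 : ‖∑ r ∈ Ioc a b, z τ r‖ = ‖∑ r ∈ Ico (a + 1) (b + 1), ee (zg τ r)‖ := by
    have h2 : Ico (a + 1) (b + 1) = Ioc a b := by
      ext r
      rw [mem_Ico, mem_Ioc]
      omega
    rw [h2, sum_congr rfl fun r _ => zg_ee τ r, ← star_sum, norm_star]
  rw [h1]
  have h2 := second_diff (zg τ) (a + 1) (b + 1) (by omega) (τ / (64 * (a : ℝ) ^ 2)) 11
    (by positivity) (by norm_num) (by
      intro j hj1 hj2
      have hj0 : (0 : ℝ) < j := by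
        have : 0 < j := by omega
        exact_mod_cast this
      have hja : (a : ℝ) + 1 ≤ j := by exact_mod_cast hj1
      have hjb : (j : ℝ) + 1 ≤ 2 * a := by
        have : j + 1 ≤ 2 * a := by omega
        exact_mod_cast this
      have hlo : (a : ℝ) ^ 2 ≤ (j : ℝ) * (j + 2) := by nlinarith
      have hup : (j : ℝ) * (j + 2) ≤ 4 * (a : ℝ) ^ 2 := by nlinarith
      have hx0 : 0 < 1 / ((j : ℝ) * (j + 2)) := by positivity
      have hxa : 1 / ((j : ℝ) * (j + 2)) ≤ 1 / (a : ℝ) ^ 2 :=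
        one_div_le_one_div_of_le (by positivity) hlo
      have hx1 : 1 / ((j : ℝ) * (j + 2)) ≤ 1 := by
        refine hxa.trans ?_
        rw [div_le_one (by positivity)]
        nlinarith
      have hxb : 1 / (4 * (a : ℝ) ^ 2) ≤ 1 / ((j : ℝ) * (j + 2)) :=
        one_div_le_one_div_of_le (by positivity) hup
      have hl := zs2_log hx0 hx1
      have hu := Real.log_le_sub_one_of_pos (show 0 < 1 + 1 / ((j : ℝ) * (j + 2)) by linarith)
      rw [zg_diff τ (by omega)]
      have hc : 0 < τ / (2 * Real.pi) := by positivity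
      constructor
      · calc τ / (64 * (a : ℝ) ^ 2) ≤ τ / (2 * Real.pi) * (1 / (4 * (a : ℝ) ^ 2) / 2) := by
              rw [show τ / (2 * Real.pi) * (1 / (4 * (a : ℝ) ^ 2) / 2) =
                τ / (16 * Real.pi * (a : ℝ) ^ 2) by field_simp; ring]
              refine div_le_div_of_nonneg_left hτ0.le (by positivity) ?_
              refine mul_le_mul_of_nonneg_right ?_ (by positivity)
              linarith
          _ ≤ τ / (2 * Real.pi) * Real.log (1 + 1 / ((j : ℝ) * (j + 2))) := by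
              refine mul_le_mul_of_nonneg_left ?_ hc.le
              linarith
      · calc τ / (2 * Real.pi) * Real.log (1 + 1 / ((j : ℝ) * (j + 2))) ≤
              τ / (2 * Real.pi) * (1 / (a : ℝ) ^ 2) := by
              refine mul_le_mul_of_nonneg_left ?_ hc.le
              linarith
          _ ≤ 11 * (τ / (64 * (a : ℝ) ^ 2)) := by
              rw [show τ / (2 * Real.pi) * (1 / (a : ℝ) ^ 2) =
                τ / (2 * Real.pi * (a : ℝ) ^ 2) by field_simp,
                ← mul_div_assoc, div_le_div_iff₀ (by positivity) (by positivity)]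
              have h5 : 0 < τ * (a : ℝ) ^ 2 := by positivity
              nlinarith)
  refine h2.trans ?_
  rw [hsq]
  have h3 : (((b + 1 : ℕ) : ℝ)) - ((a + 1 : ℕ) : ℝ) ≤ a := by
    have h4 : (b : ℝ) ≤ 2 * a := by exact_mod_cast hba
    push_cast
    linarith
  have h4 : 5 * (11 * (τ / (64 * (a : ℝ) ^ 2)) * (((b + 1 : ℕ) : ℝ) - ((a + 1 : ℕ) : ℝ)) + 2) ≤
      5 * (11 * (τ / (64 * (a : ℝ) ^ 2)) * a + 2) := by
    have h5 : 0 ≤ 11 * (τ / (64 * (a : ℝ) ^ 2)) := by positivity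
    have h6 := mul_le_mul_of_nonneg_left h3 h5
    linarith
  refine (div_le_div_of_nonneg_right h4 (by positivity)).trans ?_
  have hτs : τ = √τ * √τ := (Real.mul_self_sqrt hτ0.le).symm
  have h5 : 5 * (11 * (τ / (64 * (a : ℝ) ^ 2)) * a + 2) / (√τ / (8 * a)) =
      55 / 8 * √τ + 80 * (a / √τ) := by
    rw [show τ / (64 * (a : ℝ) ^ 2) = (√τ * √τ) / (64 * (a : ℝ) ^ 2) by rw [← hτs]]
    field_simp
    ring
  rw [h5]
  have h6 : 0 ≤ a / √τ := by positivity
  linarith

end Pool.Agent.BMR
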